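import Pool.Agent.Q201.AR.Stm3

set_option autoImplicit false

/-!
Project AR, job B0T: the truth of bounded codes in the standard model is arithmetical (tables of
truth values).
-/

open FirstOrder FirstOrder.Language Pool.Agent.Helper227.EN

namespace Q113.AR_B0T

open Pool.Agent.Helper578.JD Pool.Agent.Helper578.JD.Oracle
open Q201.AR

/-! ### Computability -/

section comp

variable {α : Type} [Primcodable α]

@[fun_prop] theorem cMod {f g : α → ℕ} (hf : Computable f) (hg : Computable g) :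
    Computable (fun x => f x % g x) := Primrec.nat_mod.to_comp.comp hf hg

@[fun_prop] theorem cDiv {f g : α → ℕ} (hf : Computable f) (hg : Computable g) :
    Computable (fun x => f x / g x) := Primrec.nat_div.to_comp.comp hf hg

@[fun_prop] theorem cNm {f : α → List ℕ} {g : α → ℕ} (hf : Computable f) (hg : Computable g) :
    Computable (fun x => nm (f x) (g x)) := (Primrec.list_getD 0).to_comp.comp hf hg

theorem upd_prim : Primrec fun q : List ℕ × ℕ × ℕ => upd q.1 q.2.1 q.2.2 := by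
  unfold upd
  refine Primrec.list_map (Primrec.list_range.comp (Primrec.nat_max.comp
    (Primrec.list_length.comp Primrec.fst) (Primrec.succ.comp (Primrec.fst.comp Primrec.snd)))) ?_
  refine Primrec.ite (Primrec.eq.comp Primrec.snd (Primrec.fst.comp (Primrec.snd.comp Primrec.fst)))
    (Primrec.snd.comp (Primrec.snd.comp Primrec.fst)) ?_
  exact (Primrec.list_getD 0).comp (Primrec.fst.comp Primrec.fst) Primrec.snd

@[fun_prop] theorem cUpd {f : α → List ℕ} {g k : α → ℕ} (hf : Computable f) (hg : Computable g)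
    (hk : Computable k) : Computable (fun x => upd (f x) (g x) (k x)) :=
  upd_prim.to_comp.comp (hf.pair (hg.pair hk))

@[fun_prop] theorem cCz {f : α → ℕ} (hf : Computable f) : Computable (fun x => cz (f x)) := by
  unfold cz; fun_prop
@[fun_prop] theorem cCo {f : α → ℕ} (hf : Computable f) : Computable (fun x => co (f x)) := by
  unfold co; fun_prop
@[fun_prop] theorem cClt {f g : α → ℕ} (hf : Computable f) (hg : Computable g) :
    Computable (fun x => clt (f x) (g x)) := by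
  unfold clt; fun_prop
@[fun_prop] theorem cCad {f g h : α → ℕ} (hf : Computable f) (hg : Computable g)
    (hh : Computable h) : Computable (fun x => cad (f x) (g x) (h x)) := by
  unfold cad; fun_prop
@[fun_prop] theorem cCml {f g h : α → ℕ} (hf : Computable f) (hg : Computable g)
    (hh : Computable h) : Computable (fun x => cml (f x) (g x) (h x)) := by
  unfold cml; fun_prop
@[fun_prop] theorem cCnor {f g : α → ℕ} (hf : Computable f) (hg : Computable g) :
    Computable (fun x => cnor (f x) (g x)) := by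
  unfold cnor; fun_prop
@[fun_prop] theorem cCex {f g : α → ℕ} (hf : Computable f) (hg : Computable g) :
    Computable (fun x => cex (f x) (g x)) := by
  unfold cex; fun_prop
@[fun_prop] theorem cCand {f g : α → ℕ} (hf : Computable f) (hg : Computable g) :
    Computable (fun x => Q201.AR.cand (f x) (g x)) := by
  unfold Q201.AR.cand cneg; fun_prop

end comp

/-! ### Closure properties -/

section clos

variable {α β : Type} [Primcodable α] [Primcodable β] (H : S_ARCL)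
include H

theorem aC {P : β → Prop} {f : α → β} (h : Arith P) (hf : Computable f) :
    Arith fun a => P (f a) := H.1 α β P f hf h

theorem aD {P : α → Prop} (h : ComputablePred P) : Arith P := H.2.1 α P h

theorem aN {P : α → Prop} (h : Arith P) : Arith fun a => ¬ P a := H.2.2.1 α P h

theorem aA {P Q : α → Prop} (h : Arith P) (h' : Arith Q) : Arith fun a => P a ∧ Q a :=
  H.2.2.2.1 α P Q h h'

theorem aO {P Q : α → Prop} (h : Arith P) (h' : Arith Q) : Arith fun a => P a ∨ Q a := by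
  have h1 := aN H (aA H (aN H h) (aN H h'))
  refine (congrArg Arith (funext fun a => propext ?_)).mp h1
  tauto

theorem aI {P Q : α → Prop} (h : Arith P) (h' : Arith Q) : Arith fun a => P a → Q a := by
  have h1 := aN H (aA H h (aN H h'))
  refine (congrArg Arith (funext fun a => propext ?_)).mp h1
  tauto

theorem aE {S : α → β → Prop} (h : Arith fun x : α × β => S x.1 x.2) :
    Arith fun a => ∃ b, S a b := H.2.2.2.2 α β _ h

theorem aF {S : α → β → Prop} (h : Arith fun x : α × β => S x.1 x.2) :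
    Arith fun a => ∀ b, S a b := by
  have h1 := aN H (aE H (S := fun a b => ¬ S a b) (aN H h))
  refine (congrArg Arith (funext fun a => propext ?_)).mp h1
  simp

end clos

/-! ### Tables -/

/-- entries of tables: code, list of names, truth value -/
abbrev Ent := ℕ × (List ℕ × Bool)

/-- truth of atomic codes -/
def At (c : ℕ) (l : List ℕ) : Prop :=
  (c % 8 = 0 ∧ 0 = nm l (c / 8)) ∨ (c % 8 = 1 ∧ 1 = nm l (c / 8)) ∨
  (c % 8 = 2 ∧ nm l (c / 8).unpair.1 = nm l (c / 8).unpair.2) ∨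
  (c % 8 = 3 ∧ nm l (c / 8).unpair.1 < nm l (c / 8).unpair.2) ∨
  (c % 8 = 4 ∧ nm l (c / 8).unpair.1 + nm l (c / 8).unpair.2.unpair.1 =
    nm l (c / 8).unpair.2.unpair.2) ∨
  (c % 8 = 5 ∧ nm l (c / 8).unpair.1 * nm l (c / 8).unpair.2.unpair.1 =
    nm l (c / 8).unpair.2.unpair.2)

/-- local correctness -/
def Loc (T : List Ent) (c : ℕ) (l : List ℕ) (b : Bool) : Prop :=
  (c % 8 < 6 ∧ ((b = true ∧ At c l) ∨ (b = false ∧ ¬ At c l))) ∨
  (∃ p : ℕ × ℕ, c = cnor p.1 p.2 ∧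
    ((b = true ∧ (p.1, l, false) ∈ T ∧ (p.2, l, false) ∈ T) ∨
     (b = false ∧ ((p.1, l, true) ∈ T ∨ (p.2, l, true) ∈ T)))) ∨
  (∃ p : ℕ × ℕ × ℕ, (¬ p.1 = p.2.1) ∧ c = cex p.1 (Q201.AR.cand (clt p.1 p.2.1) p.2.2) ∧
    ((b = true ∧ ∃ x : ℕ, x < nm l p.2.1 ∧ (p.2.2, upd l p.1 x, true) ∈ T) ∨
     (b = false ∧ ∀ x : ℕ, x < nm l p.2.1 → (p.2.2, upd l p.1 x, false) ∈ T))) ∨
  (∃ p : (ℕ × ℕ) × ℕ × ℕ, (¬ p.2.1 = p.1.1) ∧ (¬ p.2.1 = p.1.2) ∧
     c = cex p.2.1 (Q201.AR.cand (cad p.1.1 p.1.2 p.2.1) p.2.2) ∧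
     (p.2.2, upd l p.2.1 (nm l p.1.1 + nm l p.1.2), b) ∈ T) ∨
  (∃ p : (ℕ × ℕ) × ℕ × ℕ, (¬ p.2.1 = p.1.1) ∧ (¬ p.2.1 = p.1.2) ∧
     c = cex p.2.1 (Q201.AR.cand (cml p.1.1 p.1.2 p.2.1) p.2.2) ∧
     (p.2.2, upd l p.2.1 (nm l p.1.1 * nm l p.1.2), b) ∈ T) ∨
  (∃ p : ℕ × ℕ, c = cex p.1 (Q201.AR.cand (cz p.1) p.2) ∧ (p.2, upd l p.1 0, b) ∈ T) ∨
  (∃ p : ℕ × ℕ, c = cex p.1 (Q201.AR.cand (co p.1) p.2) ∧ (p.2, upd l p.1 1, b) ∈ T)

/-- locally correct tables -/
def LC (T : List Ent) : Prop := ∀ q : Ent, q ∈ T → Loc T q.1 q.2.1 q.2.2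

/-- the truth predicate -/
def PP (q : ℕ × List ℕ) : Prop := ∃ T : List Ent, LC T ∧ (q.1, q.2, true) ∈ T

theorem arith_At (H : S_ARCL) : Arith fun q : ℕ × List ℕ => At q.1 q.2 := by
  unfold At
  refine aO H (aA H ?_ ?_) (aO H (aA H ?_ ?_) (aO H (aA H ?_ ?_) (aO H (aA H ?_ ?_)
    (aO H (aA H ?_ ?_) (aA H ?_ ?_)))))
  all_goals first
    | exact aD H (RE.cp_eq (by fun_prop) (by fun_prop))
    | exact aD H (RE.cp_lt (by fun_prop) (by fun_prop))

theorem arith_Loc (H : S_ARCL) :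
    Arith fun x : List Ent × Ent => Loc x.1 x.2.1 x.2.2.1 x.2.2.2 := by
  unfold Loc
  have hAt : Arith fun x : List Ent × Ent => At x.2.1 x.2.2.1 :=
    aC H (f := fun x : List Ent × Ent => ((x.2.1, x.2.2.1) : ℕ × List ℕ)) (arith_At H)
      (by fun_prop)
  refine aO H (aA H ?_ (aO H (aA H ?_ hAt) (aA H ?_ (aN H hAt)))) (aO H ?_ (aO H ?_ (aO H ?_
    (aO H ?_ (aO H ?_ ?_)))))
  · exact aD H (RE.cp_lt (by fun_prop) (by fun_prop))
  · exact aD H (RE.cp_eq (by fun_prop) (by fun_prop))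
  · exact aD H (RE.cp_eq (by fun_prop) (by fun_prop))
  · refine aE H (S := fun (x : List Ent × Ent) (p : ℕ × ℕ) => x.2.1 = cnor p.1 p.2 ∧
      ((x.2.2.2 = true ∧ (p.1, x.2.2.1, false) ∈ x.1 ∧ (p.2, x.2.2.1, false) ∈ x.1) ∨
       (x.2.2.2 = false ∧ ((p.1, x.2.2.1, true) ∈ x.1 ∨ (p.2, x.2.2.1, true) ∈ x.1)))) ?_
    refine aA H ?_ (aO H (aA H ?_ (aA H ?_ ?_)) (aA H ?_ (aO H ?_ ?_)))
    all_goals first
      | exact aD H (RE.cp_eq (by fun_prop) (by fun_prop))
      | exact aD H (RE.cp_mem (by fun_prop) (by fun_prop))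
  · refine aE H (S := fun (x : List Ent × Ent) (p : ℕ × ℕ × ℕ) => (¬ p.1 = p.2.1) ∧
      x.2.1 = cex p.1 (Q201.AR.cand (clt p.1 p.2.1) p.2.2) ∧
      ((x.2.2.2 = true ∧ ∃ y : ℕ, y < nm x.2.2.1 p.2.1 ∧ (p.2.2, upd x.2.2.1 p.1 y, true) ∈ x.1) ∨
       (x.2.2.2 = false ∧ ∀ y : ℕ, y < nm x.2.2.1 p.2.1 →
        (p.2.2, upd x.2.2.1 p.1 y, false) ∈ x.1))) ?_
    refine aA H (aN H ?_) (aA H ?_ (aO H (aA H ?_ ?_) (aA H ?_ ?_)))
    · exact aD H (RE.cp_eq (by fun_prop) (by fun_prop))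
    · exact aD H (RE.cp_eq (by fun_prop) (by fun_prop))
    · exact aD H (RE.cp_eq (by fun_prop) (by fun_prop))
    · refine aE H (S := fun (x : (List Ent × Ent) × (ℕ × ℕ × ℕ)) (y : ℕ) =>
        y < nm x.1.2.2.1 x.2.2.1 ∧ (x.2.2.2, upd x.1.2.2.1 x.2.1 y, true) ∈ x.1.1) ?_
      exact aA H (aD H (RE.cp_lt (by fun_prop) (by fun_prop)))
        (aD H (RE.cp_mem (by fun_prop) (by fun_prop)))
    · exact aD H (RE.cp_eq (by fun_prop) (by fun_prop))
    · refine aF H (S := fun (x : (List Ent × Ent) × (ℕ × ℕ × ℕ)) (y : ℕ) =>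
        y < nm x.1.2.2.1 x.2.2.1 → (x.2.2.2, upd x.1.2.2.1 x.2.1 y, false) ∈ x.1.1) ?_
      exact aI H (aD H (RE.cp_lt (by fun_prop) (by fun_prop)))
        (aD H (RE.cp_mem (by fun_prop) (by fun_prop)))
  · refine aE H (S := fun (x : List Ent × Ent) (p : (ℕ × ℕ) × ℕ × ℕ) =>
      (¬ p.2.1 = p.1.1) ∧ (¬ p.2.1 = p.1.2) ∧
      x.2.1 = cex p.2.1 (Q201.AR.cand (cad p.1.1 p.1.2 p.2.1) p.2.2) ∧
      (p.2.2, upd x.2.2.1 p.2.1 (nm x.2.2.1 p.1.1 + nm x.2.2.1 p.1.2), x.2.2.2) ∈ x.1) ?_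
    refine aA H (aN H ?_) (aA H (aN H ?_) (aA H ?_ ?_))
    all_goals first
      | exact aD H (RE.cp_eq (by fun_prop) (by fun_prop))
      | exact aD H (RE.cp_mem (by fun_prop) (by fun_prop))
  · refine aE H (S := fun (x : List Ent × Ent) (p : (ℕ × ℕ) × ℕ × ℕ) =>
      (¬ p.2.1 = p.1.1) ∧ (¬ p.2.1 = p.1.2) ∧
      x.2.1 = cex p.2.1 (Q201.AR.cand (cml p.1.1 p.1.2 p.2.1) p.2.2) ∧
      (p.2.2, upd x.2.2.1 p.2.1 (nm x.2.2.1 p.1.1 * nm x.2.2.1 p.1.2), x.2.2.2) ∈ x.1) ?_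
    refine aA H (aN H ?_) (aA H (aN H ?_) (aA H ?_ ?_))
    all_goals first
      | exact aD H (RE.cp_eq (by fun_prop) (by fun_prop))
      | exact aD H (RE.cp_mem (by fun_prop) (by fun_prop))
  · refine aE H (S := fun (x : List Ent × Ent) (p : ℕ × ℕ) =>
      x.2.1 = cex p.1 (Q201.AR.cand (cz p.1) p.2) ∧
      (p.2, upd x.2.2.1 p.1 0, x.2.2.2) ∈ x.1) ?_
    refine aA H ?_ ?_
    all_goals first
      | exact aD H (RE.cp_eq (by fun_prop) (by fun_prop))
      | exact aD H (RE.cp_mem (by fun_prop) (by fun_prop))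
  · refine aE H (S := fun (x : List Ent × Ent) (p : ℕ × ℕ) =>
      x.2.1 = cex p.1 (Q201.AR.cand (co p.1) p.2) ∧
      (p.2, upd x.2.2.1 p.1 1, x.2.2.2) ∈ x.1) ?_
    refine aA H ?_ ?_
    all_goals first
      | exact aD H (RE.cp_eq (by fun_prop) (by fun_prop))
      | exact aD H (RE.cp_mem (by fun_prop) (by fun_prop))

theorem arith_PP (H : S_ARCL) : Arith PP := by
  unfold PP
  refine aE H (S := fun (q : ℕ × List ℕ) (T : List Ent) => LC T ∧ (q.1, q.2, true) ∈ T) ?_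
  refine aA H ?_ (aD H (RE.cp_mem (by fun_prop) (by fun_prop)))
  unfold LC
  refine aF H (S := fun (x : (ℕ × List ℕ) × List Ent) (q : Ent) =>
    q ∈ x.2 → Loc x.2 q.1 q.2.1 q.2.2) ?_
  refine aI H (aD H (RE.cp_mem (by fun_prop) (by fun_prop))) ?_
  exact aC H (f := fun y : ((ℕ × List ℕ) × List Ent) × Ent => ((y.1.2, y.2) : List Ent × Ent))
    (arith_Loc H) (by fun_prop)

/-! ### Truth in the standard model -/

theorem sat_at {c : ℕ} (h : c % 8 < 6) (l : List ℕ) : @Sat ℕ stdStr c (nm l) ↔ At c l := by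
  unfold At
  rcases (by omega : c % 8 = 0 ∨ c % 8 = 1 ∨ c % 8 = 2 ∨ c % 8 = 3 ∨ c % 8 = 4 ∨ c % 8 = 5) with
    h | h | h | h | h | h
  · rw [Sat, if_pos h]
    simp only [h]
    norm_num
    exact Iff.rfl
  · rw [Sat, if_neg (by omega), if_pos h]
    simp only [h]
    norm_num
    exact Iff.rfl
  · rw [Sat, if_neg (by omega), if_neg (by omega), if_pos h]
    simp only [h]
    norm_num
  · rw [Sat, if_neg (by omega), if_neg (by omega), if_neg (by omega), if_pos h]
    simp only [h]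
    norm_num
    exact Iff.rfl
  · rw [Sat, if_neg (by omega), if_neg (by omega), if_neg (by omega), if_neg (by omega), if_pos h]
    simp only [h]
    norm_num
    exact Iff.rfl
  · rw [Sat, if_neg (by omega), if_neg (by omega), if_neg (by omega), if_neg (by omega),
      if_neg (by omega), if_pos h]
    simp only [h]
    norm_num
    exact Iff.rfl

theorem nm_upd (l : List ℕ) (i x : ℕ) : nm (upd l i x) = Function.update (nm l) i x := by
  funext j
  rw [Function.update_apply]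
  unfold upd
  by_cases hj : j < max l.length (i + 1)
  · have : nm ((List.range (max l.length (i + 1))).map fun j => if j = i then x else nm l j) j =
        if j = i then x else nm l j := by
      conv_lhs => unfold nm
      rw [List.getD_eq_getElem?_getD, List.getElem?_map, List.getElem?_range hj]
      rfl
    rw [this]
  · have hj1 : l.length ≤ j := le_trans (le_max_left _ _) (not_lt.1 hj)
    have hj2 : i + 1 ≤ j := le_trans (le_max_right _ _) (not_lt.1 hj)
    have : nm ((List.range (max l.length (i + 1))).map fun j => if j = i then x else nm l j) j =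
        0 := by
      conv_lhs => unfold nm
      rw [List.getD_eq_default]
      rw [List.length_map, List.length_range]
      exact not_lt.1 hj
    rw [this, if_neg (by omega)]
    unfold nm
    rw [List.getD_eq_default _ _ hj1]

theorem sat_bex {i j : ℕ} (hij : ¬ i = j) (a : ℕ) (l : List ℕ) :
    @Sat ℕ stdStr (cex i (Q201.AR.cand (clt i j) a)) (nm l) ↔
      ∃ x, x < nm l j ∧ @Sat ℕ stdStr a (nm (upd l i x)) := by
  rw [@Sat_cex ℕ stdStr]
  refine exists_congr fun x => ?_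
  rw [@Sat_cand ℕ stdStr, @Sat_clt ℕ stdStr, nm_upd, Function.update_self,
    Function.update_of_ne (Ne.symm hij)]
  exact Iff.rfl

theorem sat_fad {i j k : ℕ} (h1 : ¬ k = i) (h2 : ¬ k = j) (a : ℕ) (l : List ℕ) :
    @Sat ℕ stdStr (cex k (Q201.AR.cand (cad i j k) a)) (nm l) ↔
      @Sat ℕ stdStr a (nm (upd l k (nm l i + nm l j))) := by
  rw [@Sat_cex ℕ stdStr]
  constructor
  · rintro ⟨x, hx⟩
    rw [@Sat_cand ℕ stdStr, @Sat_cad ℕ stdStr, Function.update_self,
      Function.update_of_ne (Ne.symm h1), Function.update_of_ne (Ne.symm h2)] at hx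
    have h3 : nm l i + nm l j = x := hx.1
    rw [nm_upd, h3]
    exact hx.2
  · intro h
    rw [nm_upd] at h
    refine ⟨nm l i + nm l j, ?_⟩
    rw [@Sat_cand ℕ stdStr, @Sat_cad ℕ stdStr, Function.update_self,
      Function.update_of_ne (Ne.symm h1), Function.update_of_ne (Ne.symm h2)]
    exact ⟨rfl, h⟩

theorem sat_fml {i j k : ℕ} (h1 : ¬ k = i) (h2 : ¬ k = j) (a : ℕ) (l : List ℕ) :
    @Sat ℕ stdStr (cex k (Q201.AR.cand (cml i j k) a)) (nm l) ↔
      @Sat ℕ stdStr a (nm (upd l k (nm l i * nm l j))) := by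
  rw [@Sat_cex ℕ stdStr]
  constructor
  · rintro ⟨x, hx⟩
    rw [@Sat_cand ℕ stdStr, @Sat_cml ℕ stdStr, Function.update_self,
      Function.update_of_ne (Ne.symm h1), Function.update_of_ne (Ne.symm h2)] at hx
    have h3 : nm l i * nm l j = x := hx.1
    rw [nm_upd, h3]
    exact hx.2
  · intro h
    rw [nm_upd] at h
    refine ⟨nm l i * nm l j, ?_⟩
    rw [@Sat_cand ℕ stdStr, @Sat_cml ℕ stdStr, Function.update_self,
      Function.update_of_ne (Ne.symm h1), Function.update_of_ne (Ne.symm h2)]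
    exact ⟨rfl, h⟩

theorem sat_fz (k a : ℕ) (l : List ℕ) :
    @Sat ℕ stdStr (cex k (Q201.AR.cand (cz k) a)) (nm l) ↔
      @Sat ℕ stdStr a (nm (upd l k 0)) := by
  rw [@Sat_cex ℕ stdStr]
  constructor
  · rintro ⟨x, hx⟩
    rw [@Sat_cand ℕ stdStr, @Sat_cz ℕ stdStr, Function.update_self] at hx
    have h3 : 0 = x := hx.1
    rw [nm_upd, h3]
    exact hx.2
  · intro h
    rw [nm_upd] at h
    refine ⟨0, ?_⟩
    rw [@Sat_cand ℕ stdStr, @Sat_cz ℕ stdStr, Function.update_self]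
    exact ⟨rfl, h⟩

theorem sat_fo (k a : ℕ) (l : List ℕ) :
    @Sat ℕ stdStr (cex k (Q201.AR.cand (co k) a)) (nm l) ↔
      @Sat ℕ stdStr a (nm (upd l k 1)) := by
  rw [@Sat_cex ℕ stdStr]
  constructor
  · rintro ⟨x, hx⟩
    rw [@Sat_cand ℕ stdStr, @Sat_co ℕ stdStr, Function.update_self] at hx
    have h3 : 1 = x := hx.1
    rw [nm_upd, h3]
    exact hx.2
  · intro h
    rw [nm_upd] at h
    refine ⟨1, ?_⟩
    rw [@Sat_cand ℕ stdStr, @Sat_co ℕ stdStr, Function.update_self]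
    exact ⟨rfl, h⟩

/-! ### Sizes -/

theorem lt_nor1 (a b : ℕ) : a < cnor a b := by
  have := Nat.left_le_pair a b
  unfold cnor; omega

theorem lt_nor2 (a b : ℕ) : b < cnor a b := by
  have := Nat.right_le_pair a b
  unfold cnor; omega

theorem lt_cex (i a : ℕ) : a < cex i a := by
  have := Nat.right_le_pair i a
  unfold cex; omega

theorem lt_cex_cand (i a b : ℕ) : b < cex i (Q201.AR.cand a b) := by
  refine lt_trans ?_ (lt_cex i _)
  unfold Q201.AR.cand cneg
  exact lt_trans (lt_nor1 b b) (lt_nor2 _ _)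

/-! ### Soundness -/

theorem sound {T : List Ent} (hT : LC T) : ∀ (c : ℕ) (l : List ℕ) (b : Bool), (c, l, b) ∈ T →
    (b = true ↔ @Sat ℕ stdStr c (nm l)) := by
  intro c
  induction c using Nat.strong_induction_on with
  | _ c ih =>
    intro l b hm
    have hloc : Loc T c l b := hT _ hm
    rcases hloc with ⟨h6, h⟩ | ⟨p, hc, h⟩ | ⟨p, hp, hc, h⟩ | ⟨p, h1, h2, hc, h⟩ |
      ⟨p, h1, h2, hc, h⟩ | ⟨p, hc, h⟩ | ⟨p, hc, h⟩
    · rw [sat_at h6]
      rcases h with ⟨hb, h⟩ | ⟨hb, h⟩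
      · simp [hb, h]
      · simp [hb, h]
    · subst hc
      rw [@Sat_cnor ℕ stdStr]
      rcases h with ⟨hb, h1, h2⟩ | ⟨hb, h1 | h2⟩
      · have e1 := ih _ (lt_nor1 p.1 p.2) _ _ h1
        have e2 := ih _ (lt_nor2 p.1 p.2) _ _ h2
        rw [← e1, ← e2, hb]
        simp
      · have e1 := ih _ (lt_nor1 p.1 p.2) _ _ h1
        rw [← e1, hb]
        simp
      · have e2 := ih _ (lt_nor2 p.1 p.2) _ _ h2
        rw [← e2, hb]
        simp
    · subst hc
      rw [sat_bex hp]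
      rcases h with ⟨hb, x, hx, h⟩ | ⟨hb, h⟩
      · have e := ih _ (lt_cex_cand _ _ _) _ _ h
        simp only [hb, true_iff]
        exact ⟨x, hx, e.1 rfl⟩
      · simp only [hb, Bool.false_eq_true, false_iff]
        rintro ⟨x, hx, hs⟩
        have e := ih _ (lt_cex_cand _ _ _) _ _ (h x hx)
        exact absurd (e.2 hs) (by simp)
    · subst hc
      rw [sat_fad h1 h2]
      exact ih _ (lt_cex_cand _ _ _) _ _ h
    · subst hc
      rw [sat_fml h1 h2]
      exact ih _ (lt_cex_cand _ _ _) _ _ h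
    · subst hc
      rw [sat_fz]
      exact ih _ (lt_cex_cand _ _ _) _ _ h
    · subst hc
      rw [sat_fo]
      exact ih _ (lt_cex_cand _ _ _) _ _ h

/-! ### Existence of tables -/

theorem Loc.mono {T T' : List Ent} (hTT : ∀ q, q ∈ T → q ∈ T') {c : ℕ} {l : List ℕ} {b : Bool}
    (h : Loc T c l b) : Loc T' c l b := by
  rcases h with h | ⟨p, hc, h⟩ | ⟨p, hp, hc, h⟩ | ⟨p, h1, h2, hc, h⟩ |
      ⟨p, h1, h2, hc, h⟩ | ⟨p, hc, h⟩ | ⟨p, hc, h⟩
  · exact Or.inl h
  · refine Or.inr (Or.inl ⟨p, hc, ?_⟩)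
    rcases h with ⟨hb, h1, h2⟩ | ⟨hb, h1 | h2⟩
    · exact Or.inl ⟨hb, hTT _ h1, hTT _ h2⟩
    · exact Or.inr ⟨hb, Or.inl (hTT _ h1)⟩
    · exact Or.inr ⟨hb, Or.inr (hTT _ h2)⟩
  · refine Or.inr (Or.inr (Or.inl ⟨p, hp, hc, ?_⟩))
    rcases h with ⟨hb, x, hx, h⟩ | ⟨hb, h⟩
    · exact Or.inl ⟨hb, x, hx, hTT _ h⟩
    · exact Or.inr ⟨hb, fun x hx => hTT _ (h x hx)⟩
  · exact Or.inr (Or.inr (Or.inr (Or.inl ⟨p, h1, h2, hc, hTT _ h⟩)))
  · exact Or.inr (Or.inr (Or.inr (Or.inr (Or.inl ⟨p, h1, h2, hc, hTT _ h⟩))))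
  · exact Or.inr (Or.inr (Or.inr (Or.inr (Or.inr (Or.inl ⟨p, hc, hTT _ h⟩)))))
  · exact Or.inr (Or.inr (Or.inr (Or.inr (Or.inr (Or.inr ⟨p, hc, hTT _ h⟩)))))

theorem LC.cons {T : List Ent} (hT : LC T) {c : ℕ} {l : List ℕ} {b : Bool} (h : Loc T c l b) :
    LC ((c, l, b) :: T) := by
  intro q hq
  rcases List.mem_cons.1 hq with rfl | hq
  · exact h.mono fun q hq => List.mem_cons_of_mem _ hq
  · exact (hT q hq).mono fun q hq => List.mem_cons_of_mem _ hq

theorem LC.append {T T' : List Ent} (hT : LC T) (hT' : LC T') : LC (T ++ T') := by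
  intro q hq
  rcases List.mem_append.1 hq with hq | hq
  · exact (hT q hq).mono fun q hq => List.mem_append_left _ hq
  · exact (hT' q hq).mono fun q hq => List.mem_append_right _ hq

theorem LC.flat {F : ℕ → List Ent} (hF : ∀ x, LC (F x)) (n : ℕ) :
    LC ((List.range n).flatMap F) := by
  intro q hq
  obtain ⟨x, hx, hq⟩ := List.mem_flatMap.1 hq
  exact (hF x q hq).mono fun q hq => List.mem_flatMap.2 ⟨x, hx, hq⟩

theorem LC.nil : LC [] := fun q hq => by simp at hq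

open Classical in
theorem complete {c : ℕ} (hc : B0 c) : ∀ l : List ℕ, ∃ T : List Ent, LC T ∧
    (c, l, decide (@Sat ℕ stdStr c (nm l))) ∈ T := by
  induction hc with
  | atom c h =>
    intro l
    refine ⟨[(c, l, decide (@Sat ℕ stdStr c (nm l)))], LC.nil.cons (Or.inl ⟨h, ?_⟩),
      List.mem_singleton.2 rfl⟩
    rw [← sat_at h l]
    by_cases hs : @Sat ℕ stdStr c (nm l)
    · exact Or.inl ⟨decide_eq_true hs, hs⟩
    · exact Or.inr ⟨decide_eq_false hs, hs⟩
  | nor a b _ _ iha ihb =>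
    intro l
    obtain ⟨T1, h1, m1⟩ := iha l
    obtain ⟨T2, h2, m2⟩ := ihb l
    refine ⟨_, (h1.append h2).cons (b := decide (@Sat ℕ stdStr (cnor a b) (nm l)))
      (Or.inr (Or.inl ⟨(a, b), rfl, ?_⟩)), List.mem_cons_self ..⟩
    by_cases hs : @Sat ℕ stdStr (cnor a b) (nm l)
    · have hs' := hs
      rw [@Sat_cnor ℕ stdStr] at hs'
      rw [decide_eq_false hs'.1] at m1
      rw [decide_eq_false hs'.2] at m2
      exact Or.inl ⟨decide_eq_true hs, List.mem_append_left _ m1, List.mem_append_right _ m2⟩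
    · have hs' := hs
      rw [@Sat_cnor ℕ stdStr] at hs'
      refine Or.inr ⟨decide_eq_false hs, ?_⟩
      by_cases ha : @Sat ℕ stdStr a (nm l)
      · rw [decide_eq_true ha] at m1
        exact Or.inl (List.mem_append_left _ m1)
      · have hb : @Sat ℕ stdStr b (nm l) := by
          by_contra hb
          exact hs' ⟨ha, hb⟩
        rw [decide_eq_true hb] at m2
        exact Or.inr (List.mem_append_right _ m2)
  | bex i j a hij _ iha =>
    intro l
    choose F hF mF using fun x : ℕ => iha (upd l i x)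
    refine ⟨_, (LC.flat hF (nm l j)).cons
      (b := decide (@Sat ℕ stdStr (cex i (Q201.AR.cand (clt i j) a)) (nm l)))
      (Or.inr (Or.inr (Or.inl ⟨(i, j, a), hij, rfl, ?_⟩))), List.mem_cons_self ..⟩
    by_cases hs : @Sat ℕ stdStr (cex i (Q201.AR.cand (clt i j) a)) (nm l)
    · have hs' := hs
      rw [sat_bex hij] at hs'
      obtain ⟨x, hx, hs'⟩ := hs'
      have := mF x
      rw [decide_eq_true hs'] at this
      exact Or.inl ⟨decide_eq_true hs, x, hx, List.mem_flatMap.2 ⟨x, List.mem_range.2 hx, this⟩⟩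
    · have hs' := hs
      rw [sat_bex hij] at hs'
      refine Or.inr ⟨decide_eq_false hs, fun x hx => ?_⟩
      have := mF x
      rw [decide_eq_false fun h => hs' ⟨x, hx, h⟩] at this
      exact List.mem_flatMap.2 ⟨x, List.mem_range.2 hx, this⟩
  | fad i j k a h1 h2 _ iha =>
    intro l
    obtain ⟨T, hT, m⟩ := iha (upd l k (nm l i + nm l j))
    refine ⟨_, hT.cons (Or.inr (Or.inr (Or.inr (Or.inl ⟨((i, j), k, a), h1, h2, rfl, m⟩)))), ?_⟩
    have e := sat_fad h1 h2 a l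
    rw [decide_eq_decide.2 e]
    exact List.mem_cons_self ..
  | fml i j k a h1 h2 _ iha =>
    intro l
    obtain ⟨T, hT, m⟩ := iha (upd l k (nm l i * nm l j))
    refine ⟨_, hT.cons (Or.inr (Or.inr (Or.inr (Or.inr (Or.inl
      ⟨((i, j), k, a), h1, h2, rfl, m⟩))))), ?_⟩
    have e := sat_fml h1 h2 a l
    rw [decide_eq_decide.2 e]
    exact List.mem_cons_self ..
  | fz k a _ iha =>
    intro l
    obtain ⟨T, hT, m⟩ := iha (upd l k 0)
    refine ⟨_, hT.cons (Or.inr (Or.inr (Or.inr (Or.inr (Or.inr (Or.inl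
      ⟨(k, a), rfl, m⟩)))))), ?_⟩
    have e := sat_fz k a l
    rw [decide_eq_decide.2 e]
    exact List.mem_cons_self ..
  | fo k a _ iha =>
    intro l
    obtain ⟨T, hT, m⟩ := iha (upd l k 1)
    refine ⟨_, hT.cons (Or.inr (Or.inr (Or.inr (Or.inr (Or.inr (Or.inr
      ⟨(k, a), rfl, m⟩)))))), ?_⟩
    have e := sat_fo k a l
    rw [decide_eq_decide.2 e]
    exact List.mem_cons_self ..

/-- **Job B0T.** -/
theorem t_B0T : S_B0T := by
  intro H _
  refine ⟨PP, arith_PP H, fun c l hc => ?_⟩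
  constructor
  · rintro ⟨T, hT, hm⟩
    exact (sound hT c l true hm).1 rfl
  · intro hs
    classical
    obtain ⟨T, hT, hm⟩ := complete hc l
    rw [decide_eq_true hs] at hm
    exact ⟨T, hT, hm⟩

end Q113.AR_B0T

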