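import Mathlib

/-!
# Linear spaces without O'Nan configurations

A linear space with all blocks of size `m` in which no four blocks meet pairwise in six different
points.  Such spaces can be composed: put a space with block size `k` on `m` points on every block.
-/

namespace Pool.Agent.Q113.AntiONan

open Finset

/-- `B` is the block set of a linear space on `X` with all blocks of size `m` and without O'Nan
configurations. -/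
structure IsAntiONan {X : Type} (m : ℕ) (B : Finset (Finset X)) : Prop where
  card_block : ∀ b ∈ B, b.card = m
  exists_block : ∀ x y : X, x ≠ y → ∃ b ∈ B, x ∈ b ∧ y ∈ b
  unique_block : ∀ b ∈ B, ∀ c ∈ B, ∀ x y : X, x ≠ y → x ∈ b → y ∈ b → x ∈ c → y ∈ c → b = c
  onan : ∀ b₁ ∈ B, ∀ b₂ ∈ B, ∀ b₃ ∈ B, ∀ b₄ ∈ B,
    b₁ ≠ b₂ → b₁ ≠ b₃ → b₁ ≠ b₄ → b₂ ≠ b₃ → b₂ ≠ b₄ → b₃ ≠ b₄ →
    ∀ p₁₂ p₁₃ p₁₄ p₂₃ p₂₄ p₃₄ : X,
      p₁₂ ∈ b₁ → p₁₂ ∈ b₂ → p₁₃ ∈ b₁ → p₁₃ ∈ b₃ → p₁₄ ∈ b₁ → p₁₄ ∈ b₄ →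
      p₂₃ ∈ b₂ → p₂₃ ∈ b₃ → p₂₄ ∈ b₂ → p₂₄ ∈ b₄ → p₃₄ ∈ b₃ → p₃₄ ∈ b₄ →
      [p₁₂, p₁₃, p₁₄, p₂₃, p₂₄, p₃₄].Nodup → False

/-- Composition of spaces. -/
theorem compose {X Y : Type} [Fintype Y] {m k : ℕ}
    {B : Finset (Finset X)} (hB : IsAntiONan m B)
    {C : Finset (Finset Y)} (hC : IsAntiONan k C) (hY : Fintype.card Y = m) :
    ∃ D : Finset (Finset X), IsAntiONan k D := by
  classical
  have hf : ∀ b : Finset X, b ∈ B → ∃ f : Y ↪ X, (univ : Finset Y).map f = b := by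
    intro b hb
    have hc : Fintype.card Y = Fintype.card {x // x ∈ b} := by
      rw [hY, Fintype.card_coe, hB.card_block b hb]
    let e : Y ≃ {x // x ∈ b} := Fintype.equivOfCardEq hc
    refine ⟨e.toEmbedding.trans (Function.Embedding.subtype _), ?_⟩
    ext x
    simp only [Finset.mem_map, Finset.mem_univ, true_and, Function.Embedding.trans_apply,
      Equiv.coe_toEmbedding, Function.Embedding.coe_subtype]
    constructor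
    · rintro ⟨y, rfl⟩
      exact (e y).2
    · intro hx
      exact ⟨e.symm ⟨x, hx⟩, by simp⟩
  choose f hf using hf
  have hfm : ∀ b (hb : b ∈ B) (y : Y), f b hb y ∈ b := by
    intro b hb y
    have : f b hb y ∈ (univ : Finset Y).map (f b hb) := Finset.mem_map_of_mem _ (Finset.mem_univ y)
    rwa [hf b hb] at this
  have hfs : ∀ b (hb : b ∈ B) (x : X), x ∈ b → ∃ y, f b hb y = x := by
    intro b hb x hx
    rw [← hf b hb] at hx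
    obtain ⟨y, -, hy⟩ := Finset.mem_map.1 hx
    exact ⟨y, hy⟩
  set D : Finset (Finset X) :=
    B.attach.biUnion (fun b => C.image (fun c => c.map (f b.1 b.2))) with hD
  have hmem : ∀ d, d ∈ D ↔ ∃ b, ∃ hb : b ∈ B, ∃ c ∈ C, c.map (f b hb) = d := by
    intro d
    rw [hD]
    simp only [Finset.mem_biUnion, Finset.mem_attach, true_and, Finset.mem_image, Subtype.exists]
  refine ⟨D, ⟨?_, ?_, ?_, ?_⟩⟩
  · intro d hd
    obtain ⟨b, hb, c, hc, rfl⟩ := (hmem d).1 hd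
    rw [Finset.card_map, hC.card_block c hc]
  · intro x y hxy
    obtain ⟨b, hb, hx, hy⟩ := hB.exists_block x y hxy
    obtain ⟨u, rfl⟩ := hfs b hb x hx
    obtain ⟨v, rfl⟩ := hfs b hb y hy
    have huv : u ≠ v := fun h => hxy (by rw [h])
    obtain ⟨c, hc, hu, hv⟩ := hC.exists_block u v huv
    exact ⟨c.map (f b hb), (hmem _).2 ⟨b, hb, c, hc, rfl⟩, Finset.mem_map_of_mem _ hu,
      Finset.mem_map_of_mem _ hv⟩
  · intro d hd d' hd' x y hxy hx hy hx' hy'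
    obtain ⟨b, hb, c, hc, rfl⟩ := (hmem d).1 hd
    obtain ⟨b', hb', c', hc', rfl⟩ := (hmem d').1 hd'
    obtain ⟨u, hu, rfl⟩ := Finset.mem_map.1 hx
    obtain ⟨v, hv, rfl⟩ := Finset.mem_map.1 hy
    obtain ⟨u', hu', hue⟩ := Finset.mem_map.1 hx'
    obtain ⟨v', hv', hve⟩ := Finset.mem_map.1 hy'
    have hbb : b = b' := by
      apply hB.unique_block b hb b' hb' (f b hb u) (f b hb v) hxy (hfm b hb u) (hfm b hb v)
      · rw [← hue]; exact hfm b' hb' u'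
      · rw [← hve]; exact hfm b' hb' v'
    subst hbb
    have h1 : u' = u := (f b hb).injective hue
    have h2 : v' = v := (f b hb).injective hve
    subst h1
    subst h2
    have huv : u' ≠ v' := fun h => hxy (by rw [h])
    rw [hC.unique_block c hc c' hc' u' v' huv hu hv hu' hv']
  · intro d₁ hd₁ d₂ hd₂ d₃ hd₃ d₄ hd₄ h12 h13 h14 h23 h24 h34 p₁₂ p₁₃ p₁₄ p₂₃ p₂₄ p₃₄
      q1 q2 q3 q4 q5 q6 q7 q8 q9 q10 q11 q12 hnd
    obtain ⟨b₁, hb₁, c₁, hc₁, rfl⟩ := (hmem _).1 hd₁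
    obtain ⟨b₂, hb₂, c₂, hc₂, rfl⟩ := (hmem _).1 hd₂
    obtain ⟨b₃, hb₃, c₃, hc₃, rfl⟩ := (hmem _).1 hd₃
    obtain ⟨b₄, hb₄, c₄, hc₄, rfl⟩ := (hmem _).1 hd₄
    have hsub : ∀ b (hb : b ∈ B) (c : Finset Y) (x : X), x ∈ c.map (f b hb) → x ∈ b := by
      intro b hb c x hx
      obtain ⟨u, _, rfl⟩ := Finset.mem_map.1 hx
      exact hfm b hb u
    have r1 := hsub _ _ _ _ q1
    have r2 := hsub _ _ _ _ q2
    have r3 := hsub _ _ _ _ q3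
    have r4 := hsub _ _ _ _ q4
    have r5 := hsub _ _ _ _ q5
    have r6 := hsub _ _ _ _ q6
    have r7 := hsub _ _ _ _ q7
    have r8 := hsub _ _ _ _ q8
    have r9 := hsub _ _ _ _ q9
    have r10 := hsub _ _ _ _ q10
    have r11 := hsub _ _ _ _ q11
    have r12 := hsub _ _ _ _ q12
    have hnd' := hnd
    simp only [List.nodup_cons, List.mem_cons, List.not_mem_nil, or_false, not_or,
      List.nodup_nil, and_true, not_false_eq_true] at hnd'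
    obtain ⟨⟨n1, n2, n3, n4, n5⟩, ⟨n6, n7, n8, n9⟩, ⟨n10, n11, n12⟩, ⟨n13, n14⟩, n15⟩ := hnd'
    have U := hB.unique_block
    -- if two of the big blocks agree, then all do
    have hall : (b₁ = b₂ ∨ b₁ = b₃ ∨ b₁ = b₄ ∨ b₂ = b₃ ∨ b₂ = b₄ ∨ b₃ = b₄) →
        b₁ = b₂ ∧ b₁ = b₃ ∧ b₁ = b₄ := by
      rintro (h | h | h | h | h | h)
      · subst h
        exact ⟨rfl, U _ hb₁ _ hb₃ p₁₃ p₂₃ n7 r3 r7 r4 r8, U _ hb₁ _ hb₄ p₁₄ p₂₄ n11 r5 r9 r6 r10⟩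
      · subst h
        exact ⟨U _ hb₁ _ hb₂ p₁₂ p₂₃ n3 r1 r8 r2 r7, rfl, U _ hb₁ _ hb₄ p₁₄ p₃₄ n12 r5 r11 r6 r12⟩
      · subst h
        exact ⟨U _ hb₁ _ hb₂ p₁₂ p₂₄ n4 r1 r10 r2 r9, U _ hb₁ _ hb₃ p₁₃ p₃₄ n9 r3 r12 r4 r11, rfl⟩
      · subst h
        have h1 := U _ hb₁ _ hb₂ p₁₂ p₁₃ n1 r1 r3 r2 r4
        exact ⟨h1, h1, h1.trans (U _ hb₂ _ hb₄ p₂₄ p₃₄ n15 r9 r11 r10 r12)⟩
      · subst h
        have h1 := U _ hb₁ _ hb₂ p₁₂ p₁₄ n2 r1 r5 r2 r6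
        exact ⟨h1, h1.trans (U _ hb₂ _ hb₃ p₂₃ p₃₄ n14 r7 r12 r8 r11), h1⟩
      · subst h
        have h1 := U _ hb₁ _ hb₃ p₁₃ p₁₄ n6 r3 r5 r4 r6
        exact ⟨h1.trans (U _ hb₃ _ hb₂ p₂₃ p₂₄ n13 r8 r10 r7 r9), h1, h1⟩
    by_cases hE : b₁ = b₂ ∨ b₁ = b₃ ∨ b₁ = b₄ ∨ b₂ = b₃ ∨ b₂ = b₄ ∨ b₃ = b₄
    · obtain ⟨e2, e3, e4⟩ := hall hE
      subst e2
      subst e3
      subst e4
      have hpre : ∀ (c c' : Finset Y) (x : X), x ∈ c.map (f b₁ hb₁) → x ∈ c'.map (f b₁ hb₁) →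
          ∃ u, u ∈ c ∧ u ∈ c' ∧ f b₁ hb₁ u = x := by
        intro c c' x hx hx'
        obtain ⟨u, hu, rfl⟩ := Finset.mem_map.1 hx
        obtain ⟨v, hv, hvu⟩ := Finset.mem_map.1 hx'
        have := (f b₁ hb₁).injective hvu
        subst this
        exact ⟨v, hu, hv, rfl⟩
      obtain ⟨u₁₂, s1, s2, rfl⟩ := hpre _ _ _ q1 q2
      obtain ⟨u₁₃, s3, s4, rfl⟩ := hpre _ _ _ q3 q4
      obtain ⟨u₁₄, s5, s6, rfl⟩ := hpre _ _ _ q5 q6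
      obtain ⟨u₂₃, s7, s8, rfl⟩ := hpre _ _ _ q7 q8
      obtain ⟨u₂₄, s9, s10, rfl⟩ := hpre _ _ _ q9 q10
      obtain ⟨u₃₄, s11, s12, rfl⟩ := hpre _ _ _ q11 q12
      refine hC.onan c₁ hc₁ c₂ hc₂ c₃ hc₃ c₄ hc₄ (fun h => h12 (by rw [h]))
        (fun h => h13 (by rw [h])) (fun h => h14 (by rw [h])) (fun h => h23 (by rw [h]))
        (fun h => h24 (by rw [h])) (fun h => h34 (by rw [h])) u₁₂ u₁₃ u₁₄ u₂₃ u₂₄ u₃₄
        s1 s2 s3 s4 s5 s6 s7 s8 s9 s10 s11 s12 ?_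
      have : ([u₁₂, u₁₃, u₁₄, u₂₃, u₂₄, u₃₄].map (f b₁ hb₁)).Nodup := by simpa using hnd
      exact List.Nodup.of_map _ this
    · push Not at hE
      exact hB.onan b₁ hb₁ b₂ hb₂ b₃ hb₃ b₄ hb₄ hE.1 hE.2.1 hE.2.2.1 hE.2.2.2.1 hE.2.2.2.2.1
        hE.2.2.2.2.2 p₁₂ p₁₃ p₁₄ p₂₃ p₂₄ p₃₄ r1 r2 r3 r4 r5 r6 r7 r8 r9 r10 r11 r12 hnd

end Pool.Agent.Q113.AntiONan
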