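import Mathlib

/-!
# Augmented graphs on a grid: basic definitions (problem `MP_10302a_co`)
-/

namespace Pool.Agent.Q113.AugZar

/-- An augmented graph on the grid `[m] × [n]`: a set `E1` of cells, a set `E2` of 2-element sets
of cells and a set `E3` of 3-element sets of cells. -/
structure AugGraph (m n : ℕ) where
  /-- the 1-edges -/
  E1 : Finset (Fin m × Fin n)
  /-- the 2-edges -/
  E2 : Finset (Finset (Fin m × Fin n))
  /-- the 3-edges -/
  E3 : Finset (Finset (Fin m × Fin n))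
  /-- 2-edges have two cells -/
  card2 : ∀ e ∈ E2, e.card = 2
  /-- 3-edges have three cells -/
  card3 : ∀ e ∈ E3, e.card = 3

/-- A cell is occupied if it lies in `E1` or in some 2-edge or 3-edge. -/
def AugGraph.Occ {m n : ℕ} (G : AugGraph m n) (c : Fin m × Fin n) : Prop :=
  c ∈ G.E1 ∨ (∃ e ∈ G.E2, c ∈ e) ∨ ∃ e ∈ G.E3, c ∈ e

/-- A cell lies in `E1` or in a 2-edge. -/
def AugGraph.Occ12 {m n : ℕ} (G : AugGraph m n) (c : Fin m × Fin n) : Prop :=
  c ∈ G.E1 ∨ ∃ e ∈ G.E2, c ∈ e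

/-- `G` is simple: no cell lies in more than one edge. -/
def AugGraph.Simple {m n : ℕ} (G : AugGraph m n) : Prop :=
  (∀ e ∈ G.E2 ∪ G.E3, ∀ c ∈ e, c ∉ G.E1) ∧
  (∀ e ∈ G.E2 ∪ G.E3, ∀ f ∈ G.E2 ∪ G.E3, e ≠ f → Disjoint e f)

/-- A set of cells contains a rectangle (condition 1 for a set `E` of 1-edges). -/
def HasRect {m n : ℕ} (E : Finset (Fin m × Fin n)) : Prop :=
  ∃ i k : Fin m, ∃ j l : Fin n, i ≠ k ∧ j ≠ l ∧ (i, j) ∈ E ∧ (i, l) ∈ E ∧ (k, j) ∈ E ∧ (k, l) ∈ E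

/-- The four cells `(i,j), (i,l), (k,j), (k,l)`. -/
def corners {m n : ℕ} (i k : Fin m) (j l : Fin n) : Finset (Fin m × Fin n) :=
  {(i, j), (i, l), (k, j), (k, l)}

/-- Condition 2. -/
def AugGraph.Cond2 {m n : ℕ} (G : AugGraph m n) : Prop :=
  ∃ i k : Fin m, ∃ j l : Fin n, i ≠ k ∧ j ≠ l ∧ (∀ c ∈ corners i k j l, G.Occ c) ∧
    ∃ e ∈ G.E2 ∪ G.E3, ∃ f ∈ G.E2 ∪ G.E3, e ≠ f ∧ corners i k j l ⊆ e ∪ f ∧
      (e ∩ corners i k j l).card = 2 ∧ (f ∩ corners i k j l).card = 2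

/-- Condition 3. -/
def AugGraph.Cond3 {m n : ℕ} (G : AugGraph m n) : Prop :=
  ∃ i p k : Fin m, ∃ j q l : Fin n, ({(i, j), (p, q)} : Finset (Fin m × Fin n)) ∈ G.E2 ∧
    k ≠ i ∧ k ≠ p ∧ l ≠ j ∧ l ≠ q ∧
    (∀ c ∈ [(k, j), (k, l), (k, q), (i, l), (p, l)], G.Occ12 c) ∧
    ((i ≠ p ∧ j ≠ q) → [(k, j), (k, l), (k, q), (i, l), (p, l)].Nodup)

/-- Condition 4. -/
def AugGraph.Cond4 {m n : ℕ} (G : AugGraph m n) : Prop :=
  ∃ i p u k : Fin m, ∃ j q v l : Fin n,
    ({(i, j), (p, q), (u, v)} : Finset (Fin m × Fin n)) ∈ G.E3 ∧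
    k ≠ i ∧ k ≠ p ∧ k ≠ u ∧ l ≠ j ∧ l ≠ q ∧ l ≠ v ∧
    (∀ c ∈ [(k, j), (k, l), (k, q), (k, v), (i, l), (p, l), (u, l)], G.Occ c) ∧
    ((i ≠ p ∧ i ≠ u ∧ p ≠ u ∧ j ≠ q ∧ j ≠ v ∧ q ≠ v) →
      [(k, j), (k, l), (k, q), (k, v), (i, l), (p, l), (u, l)].Nodup)

/-- `G` is generalized cycle-free. -/
def AugGraph.CycleFree {m n : ℕ} (G : AugGraph m n) : Prop :=
  ¬ HasRect G.E1 ∧ ¬ G.Cond2 ∧ ¬ G.Cond3 ∧ ¬ G.Cond4

/-- The number of edges of all three kinds. -/
def AugGraph.size {m n : ℕ} (G : AugGraph m n) : ℕ := G.E1.card + G.E2.card + G.E3.card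

/-- The Zarankiewicz number `z(m,n)`. -/
noncomputable def z (m n : ℕ) : ℕ :=
  sSup {t : ℕ | ∃ E : Finset (Fin m × Fin n), ¬ HasRect E ∧ t = E.card}

/-- The number `z_{3A}(m,n)`. -/
noncomputable def z3A (m n : ℕ) : ℕ :=
  sSup {t : ℕ | ∃ G : AugGraph m n, G.Simple ∧ G.CycleFree ∧ t = G.size}

/-- The number `z_{3L}(m,n)`. -/
noncomputable def z3L (m n : ℕ) : ℕ :=
  sSup {t : ℕ | ∃ G : AugGraph m n, G.Simple ∧ G.CycleFree ∧ G.E1.card = z m n ∧ t = G.size}

/-- By simplicity a simple augmented graph has at most `mn` edges. -/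
lemma size_le {m n : ℕ} (G : AugGraph m n) (hG : G.Simple) : G.size ≤ m * n := by
  classical
  obtain ⟨h1, h2⟩ := hG
  have hpd : (↑(G.E2 ∪ G.E3) : Set (Finset (Fin m × Fin n))).PairwiseDisjoint id := by
    intro e he f hf hef
    exact h2 e (by simpa using he) f (by simpa using hf) hef
  have hb : ((G.E2 ∪ G.E3).biUnion id).card = ∑ e ∈ G.E2 ∪ G.E3, e.card := by
    rw [Finset.card_biUnion]
    · rfl
    · exact hpd
  have hd23 : Disjoint G.E2 G.E3 := by
    rw [Finset.disjoint_left]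
    intro e he he'
    have := G.card2 e he
    have := G.card3 e he'
    omega
  have hs : (G.E2 ∪ G.E3).card ≤ ∑ e ∈ G.E2 ∪ G.E3, e.card := by
    rw [Finset.card_eq_sum_ones]
    refine Finset.sum_le_sum fun e he => ?_
    rcases Finset.mem_union.1 he with h | h
    · rw [G.card2 e h]; omega
    · rw [G.card3 e h]; omega
  have hd : Disjoint G.E1 ((G.E2 ∪ G.E3).biUnion id) := by
    rw [Finset.disjoint_right]
    intro c hc
    obtain ⟨e, he, hce⟩ := Finset.mem_biUnion.1 hc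
    exact h1 e he c hce
  calc G.size = G.E1.card + (G.E2 ∪ G.E3).card := by
        rw [Finset.card_union_of_disjoint hd23, AugGraph.size]; ring
    _ ≤ G.E1.card + ((G.E2 ∪ G.E3).biUnion id).card := by rw [hb]; omega
    _ = (G.E1 ∪ (G.E2 ∪ G.E3).biUnion id).card := by rw [Finset.card_union_of_disjoint hd]
    _ ≤ (Finset.univ : Finset (Fin m × Fin n)).card := Finset.card_le_univ _
    _ = m * n := by simp

lemma bdd3A (m n : ℕ) :
    BddAbove {t : ℕ | ∃ G : AugGraph m n, G.Simple ∧ G.CycleFree ∧ t = G.size} := by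
  refine ⟨m * n, ?_⟩
  rintro t ⟨G, h1, -, rfl⟩
  exact size_le G h1

lemma bdd3L (m n : ℕ) :
    BddAbove {t : ℕ | ∃ G : AugGraph m n, G.Simple ∧ G.CycleFree ∧ G.E1.card = z m n ∧
      t = G.size} := by
  refine ⟨m * n, ?_⟩
  rintro t ⟨G, h1, -, -, rfl⟩
  exact size_le G h1

lemma bddz (m n : ℕ) :
    BddAbove {t : ℕ | ∃ E : Finset (Fin m × Fin n), ¬ HasRect E ∧ t = E.card} := by
  refine ⟨m * n, ?_⟩
  rintro t ⟨E, -, rfl⟩
  calc E.card ≤ (Finset.univ : Finset (Fin m × Fin n)).card := Finset.card_le_univ _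
    _ = m * n := by simp

/-! ## Pairs of diagonal blocks -/

/-- first cell of the 2-edge with index `x`, in the block with corner `(r, c)` -/
def b1 (m n r c s t : ℕ) (hr : r + 2 * s ≤ m) (hc : c + 2 * t ≤ n) (x : Fin s × Fin t) :
    Fin m × Fin n :=
  (⟨r + x.1.1, by have := x.1.2; omega⟩, ⟨c + x.2.1, by have := x.2.2; omega⟩)

/-- second cell of the 2-edge with index `x` -/
def b2 (m n r c s t : ℕ) (hr : r + 2 * s ≤ m) (hc : c + 2 * t ≤ n) (x : Fin s × Fin t) :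
    Fin m × Fin n :=
  (⟨r + s + x.1.1, by have := x.1.2; omega⟩, ⟨c + t + x.2.1, by have := x.2.2; omega⟩)

/-- The 2-edges joining two diagonal `s × t` blocks whose first corner is `(r, c)`. -/
def blk (m n r c s t : ℕ) (hr : r + 2 * s ≤ m) (hc : c + 2 * t ≤ n) :
    Finset (Finset (Fin m × Fin n)) :=
  (Finset.univ : Finset (Fin s × Fin t)).image
    (fun x => {b1 m n r c s t hr hc x, b2 m n r c s t hr hc x})

section

variable {m n r c s t : ℕ} (hr : r + 2 * s ≤ m) (hc : c + 2 * t ≤ n)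

lemma mem_blk {e : Finset (Fin m × Fin n)} (he : e ∈ blk m n r c s t hr hc) :
    ∃ u v : Fin m × Fin n, e = {u, v} ∧ r ≤ u.1.1 ∧ u.1.1 < r + s ∧ c ≤ u.2.1 ∧ u.2.1 < c + t ∧
      v.1.1 = u.1.1 + s ∧ v.2.1 = u.2.1 + t := by
  obtain ⟨x, -, rfl⟩ := Finset.mem_image.1 he
  refine ⟨_, _, rfl, ?_⟩
  have h1 := x.1.2
  have h2 := x.2.2
  simp only [b1, b2]
  omega

lemma blk_card2 {e : Finset (Fin m × Fin n)} (he : e ∈ blk m n r c s t hr hc) : e.card = 2 := by
  obtain ⟨u, v, rfl, h1, h2, h3, h4, h5, h6⟩ := mem_blk hr hc he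
  apply Finset.card_pair
  intro h
  have : u.1.1 = v.1.1 := by rw [h]
  omega

lemma blk_mem {e : Finset (Fin m × Fin n)} (he : e ∈ blk m n r c s t hr hc)
    {d : Fin m × Fin n} (hd : d ∈ e) :
    (r ≤ d.1.1 ∧ d.1.1 < r + s ∧ c ≤ d.2.1 ∧ d.2.1 < c + t) ∨
    (r + s ≤ d.1.1 ∧ d.1.1 < r + 2 * s ∧ c + t ≤ d.2.1 ∧ d.2.1 < c + 2 * t) := by
  obtain ⟨u, v, rfl, h1, h2, h3, h4, h5, h6⟩ := mem_blk hr hc he
  rcases Finset.mem_insert.1 hd with rfl | hd
  · left; omega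
  · rw [Finset.mem_singleton] at hd
    subst hd; right; omega

lemma blk_disj {e f : Finset (Fin m × Fin n)} (he : e ∈ blk m n r c s t hr hc)
    (hf : f ∈ blk m n r c s t hr hc) (hef : e ≠ f) : Disjoint e f := by
  obtain ⟨u, v, rfl, h1, h2, h3, h4, h5, h6⟩ := mem_blk hr hc he
  obtain ⟨u', v', rfl, g1, g2, g3, g4, g5, g6⟩ := mem_blk hr hc hf
  have key : ¬ (u.1.1 = u'.1.1 ∧ u.2.1 = u'.2.1) := by
    rintro ⟨a, b⟩
    apply hef
    have hu : u = u' := Prod.ext (Fin.ext a) (Fin.ext b)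
    have hv : v = v' := Prod.ext (Fin.ext (by omega)) (Fin.ext (by omega))
    rw [hu, hv]
  rw [Finset.disjoint_left]
  intro d hd hd'
  simp only [Finset.mem_insert, Finset.mem_singleton] at hd hd'
  rcases hd with rfl | rfl <;> rcases hd' with h | h
  · exact key ⟨by rw [h], by rw [h]⟩
  · have : d.1.1 = v'.1.1 := by rw [h]
    omega
  · have : d.1.1 = u'.1.1 := by rw [h]
    omega
  · have a : d.1.1 = v'.1.1 := by rw [h]
    have b : d.2.1 = v'.2.1 := by rw [h]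
    exact key ⟨by omega, by omega⟩

lemma blk_card : (blk m n r c s t hr hc).card = s * t := by
  unfold blk
  rw [Finset.card_image_of_injOn]
  · simp
  · intro x _ y _ h
    simp only at h
    have h1 : b1 m n r c s t hr hc x ∈
        ({b1 m n r c s t hr hc y, b2 m n r c s t hr hc y} : Finset (Fin m × Fin n)) := by
      rw [← h]; simp
    have hx1 := x.1.2
    have hy1 := y.1.2
    rcases Finset.mem_insert.1 h1 with h2 | h2
    · have a : r + x.1.1 = r + y.1.1 := congrArg (fun d : Fin m × Fin n => d.1.1) h2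
      have b : c + x.2.1 = c + y.2.1 := congrArg (fun d : Fin m × Fin n => d.2.1) h2
      exact Prod.ext (Fin.ext (by omega)) (Fin.ext (by omega))
    · rw [Finset.mem_singleton] at h2
      have a : r + x.1.1 = r + s + y.1.1 := congrArg (fun d : Fin m × Fin n => d.1.1) h2
      omega

/-- No rectangle is covered by two of the block 2-edges. -/
lemma blk_cond2 {e f : Finset (Fin m × Fin n)} (he : e ∈ blk m n r c s t hr hc)
    (hf : f ∈ blk m n r c s t hr hc) (i k : Fin m) (j l : Fin n)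
    (hsub : corners i k j l ⊆ e ∪ f) (h2 : (e ∩ corners i k j l).card = 2) : False := by
  have hsub' : e ⊆ corners i k j l := by
    have : e ∩ corners i k j l = e :=
      Finset.eq_of_subset_of_card_le Finset.inter_subset_left (by rw [h2, blk_card2 hr hc he])
    rw [← this]; exact Finset.inter_subset_right
  obtain ⟨u, v, rfl, g1, g2, g3, g4, g5, g6⟩ := mem_blk hr hc he
  have hu : u ∈ corners i k j l := hsub' (by simp)
  have hv : v ∈ corners i k j l := hsub' (by simp)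
  have huv : (u.1, v.2) ∈ corners i k j l := by
    simp only [corners, Finset.mem_insert, Finset.mem_singleton, Prod.ext_iff] at *
    tauto
  rcases Finset.mem_union.1 (hsub huv) with h | h
  · have := blk_mem hr hc he h
    simp only at this
    omega
  · have := blk_mem hr hc hf h
    simp only at this
    omega

end

end Pool.Agent.Q113.AugZar
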