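import Mathlib
import Pool.Agent.Q127.DJ.Stm

set_option autoImplicit false

namespace Pool.Agent.Q113.DJ_JOI

open Pool.Agent.Q127.DJ MeasureTheory Filter Topology
open scoped ENNReal NNReal BoundedContinuousFunction

abbrev X := (ℕ → ℕ) × (ℕ → ℕ)

def Φ : X → X := Prod.map S S

lemma S_cont : Continuous S := continuous_pi fun n => continuous_apply (n + 1)

lemma Φ_cont : Continuous Φ := S_cont.prodMap S_cont

lemma Φ_iter_cont (n : ℕ) : Continuous (Φ^[n]) := Φ_cont.iterate n

lemma S_iter (n : ℕ) : ∀ (x : ℕ → ℕ) (i : ℕ), (S^[n] x) i = x (n + i) := by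
  induction n with
  | zero => intro x i; simp
  | succ n ih =>
    intro x i
    rw [Function.iterate_succ_apply, ih]
    show x (n + i + 1) = x (n + 1 + i)
    congr 1; omega

lemma Φ_iter (n : ℕ) (p : X) : Φ^[n] p = (S^[n] p.1, S^[n] p.2) := by
  have : Φ^[n] = Prod.map (S^[n]) (S^[n]) := by
    unfold Φ; exact Prod.map_iterate S S n
  rw [this]; rfl

noncomputable def R (Q : ℕ → Measure X) (T : ℕ → ℕ) (N : ℕ) : Measure X :=
  ((N : ℝ≥0∞))⁻¹ • ∑ i ∈ Finset.range N, (Q N).map (Φ^[T N + i])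

lemma R_apply (Q : ℕ → Measure X) (T : ℕ → ℕ) (N : ℕ) (s : Set X) (hs : MeasurableSet s) :
    R Q T N s = ((N : ℝ≥0∞))⁻¹ * ∑ i ∈ Finset.range N, Q N ((Φ^[T N + i]) ⁻¹' s) := by
  unfold R
  rw [Measure.smul_apply, Measure.finsetSum_apply, smul_eq_mul]
  congr 1
  refine Finset.sum_congr rfl fun i _ => ?_
  rw [Measure.map_apply (Φ_iter_cont _).measurable hs]

lemma inv_sum (N : ℕ) (hN : 0 < N) (c : ℝ≥0∞) : ((N : ℝ≥0∞))⁻¹ * ∑ _i ∈ Finset.range N, c = c := by
  rw [Finset.sum_const, Finset.card_range, nsmul_eq_mul, ← mul_assoc, ENNReal.inv_mul_cancel, one_mul]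
  · exact_mod_cast hN.ne'
  · exact ENNReal.natCast_ne_top N

lemma R_fst (μ : Measure (ℕ → ℕ)) (hμ : MeasurePreserving S μ μ) (Q : ℕ → Measure X) (T : ℕ → ℕ) (N : ℕ)
    (hN : 0 < N) (hQ : (Q N).map Prod.fst = μ) : (R Q T N).map Prod.fst = μ := by
  ext s hs
  rw [Measure.map_apply measurable_fst hs, R_apply _ _ _ _ (measurable_fst hs)]
  have : ∀ i ∈ Finset.range N, Q N ((Φ^[T N + i]) ⁻¹' (Prod.fst ⁻¹' s)) = μ s := by
    intro i _
    have h1 : (Φ^[T N + i]) ⁻¹' (Prod.fst ⁻¹' s) = Prod.fst ⁻¹' ((S^[T N + i]) ⁻¹' s) := by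
      ext p; simp [Φ_iter]
    rw [h1, ← Measure.map_apply measurable_fst ((hμ.iterate _).measurable hs), hQ,
      (hμ.iterate _).measure_preimage hs.nullMeasurableSet]
  rw [Finset.sum_congr rfl this, inv_sum N hN]

lemma R_snd (ν : Measure (ℕ → ℕ)) (hν : MeasurePreserving S ν ν) (Q : ℕ → Measure X) (T : ℕ → ℕ) (N : ℕ)
    (hN : 0 < N) (hQ : (Q N).map Prod.snd = ν) : (R Q T N).map Prod.snd = ν := by
  ext s hs
  rw [Measure.map_apply measurable_snd hs, R_apply _ _ _ _ (measurable_snd hs)]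
  have : ∀ i ∈ Finset.range N, Q N ((Φ^[T N + i]) ⁻¹' (Prod.snd ⁻¹' s)) = ν s := by
    intro i _
    have h1 : (Φ^[T N + i]) ⁻¹' (Prod.snd ⁻¹' s) = Prod.snd ⁻¹' ((S^[T N + i]) ⁻¹' s) := by
      ext p; simp [Φ_iter]
    rw [h1, ← Measure.map_apply measurable_snd ((hν.iterate _).measurable hs), hQ,
      (hν.iterate _).measure_preimage hs.nullMeasurableSet]
  rw [Finset.sum_congr rfl this, inv_sum N hN]

lemma R_prob (μ : Measure (ℕ → ℕ)) [IsProbabilityMeasure μ] (ρ : Measure X) (h : ρ.map Prod.fst = μ) :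
    IsProbabilityMeasure ρ := by
  constructor
  have : (ρ.map Prod.fst) Set.univ = 1 := by rw [h]; exact measure_univ
  rwa [Measure.map_apply measurable_fst MeasurableSet.univ, Set.preimage_univ] at this

lemma R_integral (Q : ℕ → Measure X) (T : ℕ → ℕ) (N : ℕ) [IsProbabilityMeasure (Q N)] (F : X →ᵇ ℝ) :
    ∫ x, F x ∂(R Q T N) = ((N : ℝ))⁻¹ * ∑ i ∈ Finset.range N, ∫ x, F (Φ^[T N + i] x) ∂(Q N) := by
  unfold R
  rw [integral_smul_measure, integral_finsetSum_measure]
  · rw [smul_eq_mul]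
    congr 1
    · simp
    · refine Finset.sum_congr rfl fun i _ => ?_
      rw [integral_map (Φ_iter_cont _).measurable.aemeasurable]
      exact F.continuous.measurable.aestronglyMeasurable
  · intro i _
    haveI : IsProbabilityMeasure ((Q N).map (Φ^[T N + i])) :=
      Measure.isProbabilityMeasure_map (Φ_iter_cont _).measurable.aemeasurable
    exact F.integrable _

theorem joi : S_joi := by
  intro μ ν _ _ hμ hν m k f h a b j Q T r δ L hQ hL hav
  have hQp : ∀ N, IsProbabilityMeasure (Q N) := fun N => R_prob μ (Q N) (hQ N).1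
  have hR1 : ∀ N, (R Q T (N + 1)).map Prod.fst = μ := fun N =>
    R_fst μ hμ Q T (N + 1) (Nat.succ_pos N) (hQ (N + 1)).1
  have hR2 : ∀ N, (R Q T (N + 1)).map Prod.snd = ν := fun N =>
    R_snd ν hν Q T (N + 1) (Nat.succ_pos N) (hQ (N + 1)).2
  have hRp : ∀ N, IsProbabilityMeasure (R Q T (N + 1)) := fun N => R_prob μ _ (hR1 N)
  let PM : ℕ → ProbabilityMeasure X := fun N => ⟨R Q T (N + 1), hRp N⟩
  have hPM : ∀ N, (PM N : Measure X) = R Q T (N + 1) := fun N => rfl
  -- tightness
  have htight : IsTightMeasureSet {((ρ : ProbabilityMeasure X) : Measure X) | ρ ∈ Set.range PM} := by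
    apply IsTightMeasureSet.prodMk
    · refine (isTightMeasureSet_singleton (μ := μ)).subset ?_
      rintro _ ⟨_, ⟨_, ⟨N, rfl⟩, rfl⟩, rfl⟩
      exact hR1 N
    · refine (isTightMeasureSet_singleton (μ := ν)).subset ?_
      rintro _ ⟨_, ⟨_, ⟨N, rfl⟩, rfl⟩, rfl⟩
      exact hR2 N
  have hcomp : IsCompact (closure (Set.range PM)) := isCompact_closure_of_isTightMeasureSet htight
  let U : Ultrafilter ℕ := Ultrafilter.of atTop
  have hU : (U : Filter ℕ) ≤ atTop := Ultrafilter.of_le atTop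
  obtain ⟨ξ, -, hξ⟩ : ∃ ξ ∈ closure (Set.range PM), Tendsto PM (U : Filter ℕ) (𝓝 ξ) := by
    obtain ⟨ξ, h1, h2⟩ := hcomp.ultrafilter_le_nhds (U.map PM) (by
      rw [le_principal_iff]
      show PM ⁻¹' _ ∈ (U : Filter ℕ)
      exact univ_mem' fun N => subset_closure ⟨N, rfl⟩)
    exact ⟨ξ, h1, h2⟩
  -- marginals
  have hm1 : (ξ : Measure X).map Prod.fst = μ := by
    have h1 := ProbabilityMeasure.tendsto_map_of_tendsto_of_continuous PM ξ hξ
      (f := (Prod.fst : X → (ℕ → ℕ))) continuous_fst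
    have h2 : ∀ N, (PM N).map (f := (Prod.fst : X → (ℕ → ℕ))) continuous_fst.measurable.aemeasurable
        = (⟨μ, inferInstance⟩ : ProbabilityMeasure (ℕ → ℕ)) := by
      intro N; apply Subtype.ext; exact hR1 N
    simp only [h2] at h1
    have h3 := tendsto_nhds_unique h1 tendsto_const_nhds
    have h4 := congrArg (fun ρ : ProbabilityMeasure (ℕ → ℕ) => (ρ : Measure (ℕ → ℕ))) h3
    exact h4
  have hm2 : (ξ : Measure X).map Prod.snd = ν := by
    have h1 := ProbabilityMeasure.tendsto_map_of_tendsto_of_continuous PM ξ hξ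
      (f := (Prod.snd : X → (ℕ → ℕ))) continuous_snd
    have h2 : ∀ N, (PM N).map (f := (Prod.snd : X → (ℕ → ℕ))) continuous_snd.measurable.aemeasurable
        = (⟨ν, inferInstance⟩ : ProbabilityMeasure (ℕ → ℕ)) := by
      intro N; apply Subtype.ext; exact hR2 N
    simp only [h2] at h1
    have h3 := tendsto_nhds_unique h1 tendsto_const_nhds
    have h4 := congrArg (fun ρ : ProbabilityMeasure (ℕ → ℕ) => (ρ : Measure (ℕ → ℕ))) h3
    exact h4
  -- invariance
  have hinv : (ξ : Measure X).map Φ = ξ := by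
    have h1 := ProbabilityMeasure.tendsto_map_of_tendsto_of_continuous PM ξ hξ (f := Φ) Φ_cont
    have h2 : Tendsto (fun N => (PM N).map (f := Φ) Φ_cont.measurable.aemeasurable) (U : Filter ℕ) (𝓝 ξ) := by
      rw [ProbabilityMeasure.tendsto_iff_forall_integral_tendsto]
      intro F
      have h3 := (ProbabilityMeasure.tendsto_iff_forall_integral_tendsto.1 hξ) F
      have h4 : ∀ N, |∫ x, F x ∂((PM N).map (f := Φ) Φ_cont.measurable.aemeasurable : Measure X) -
          ∫ x, F x ∂(PM N : Measure X)| ≤ 2 * ‖F‖ * (1 / ((N : ℝ) + 1)) := by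
        intro N
        have e1 : ∫ x, F x ∂((PM N).map (f := Φ) Φ_cont.measurable.aemeasurable : Measure X) =
            ∫ x, (F.compContinuous ⟨Φ, Φ_cont⟩) x ∂(R Q T (N + 1)) := by
          rw [ProbabilityMeasure.toMeasure_map, integral_map Φ_cont.measurable.aemeasurable
            F.continuous.measurable.aestronglyMeasurable]
          rfl
        rw [e1, hPM, R_integral, R_integral, ← mul_sub, ← Finset.sum_sub_distrib]
        have e2 : ∀ i ∈ Finset.range (N + 1),
            (∫ x, (F.compContinuous ⟨Φ, Φ_cont⟩) (Φ^[T (N + 1) + i] x) ∂(Q (N + 1)) -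
              ∫ x, F (Φ^[T (N + 1) + i] x) ∂(Q (N + 1))) =
            (fun i => ∫ x, F (Φ^[T (N + 1) + i] x) ∂(Q (N + 1))) (i + 1) -
            (fun i => ∫ x, F (Φ^[T (N + 1) + i] x) ∂(Q (N + 1))) i := by
          intro i _
          have : ∀ x, (F.compContinuous ⟨Φ, Φ_cont⟩) (Φ^[T (N + 1) + i] x) =
              F (Φ^[T (N + 1) + (i + 1)] x) := by
            intro x
            rw [← add_assoc, Function.iterate_succ_apply']
            rfl
          simp only [this]
        rw [Finset.sum_congr rfl e2, Finset.sum_range_sub (fun i => ∫ x, F (Φ^[T (N + 1) + i] x) ∂(Q (N + 1))) (N + 1), abs_mul]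
        have e3 : ∀ n, |∫ x, F (Φ^[n] x) ∂(Q (N + 1))| ≤ ‖F‖ := by
          intro n
          have := norm_integral_le_of_norm_le_const (μ := Q (N + 1)) (f := fun x => F (Φ^[n] x)) (C := ‖F‖)
            (Eventually.of_forall fun x => F.norm_coe_le_norm _)
          simpa using this
        have e4 : |((((N + 1 : ℕ) : ℝ))⁻¹)| = 1 / ((N : ℝ) + 1) := by
          rw [abs_of_nonneg (by positivity)]; push_cast; rw [one_div]
        rw [e4, mul_comm]
        apply mul_le_mul_of_nonneg_right _ (by positivity)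
        calc _ ≤ |∫ x, F (Φ^[T (N + 1) + (N + 1)] x) ∂(Q (N + 1))| +
              |∫ x, F (Φ^[T (N + 1) + 0] x) ∂(Q (N + 1))| := abs_sub _ _
          _ ≤ ‖F‖ + ‖F‖ := add_le_add (e3 _) (e3 _)
          _ = 2 * ‖F‖ := by ring
      have h5 : Tendsto (fun N => ∫ x, F x ∂((PM N).map (f := Φ) Φ_cont.measurable.aemeasurable : Measure X) -
          ∫ x, F x ∂(PM N : Measure X)) (U : Filter ℕ) (𝓝 0) := by
        apply squeeze_zero_norm (a := fun N : ℕ => 2 * ‖F‖ * (1 / ((N : ℝ) + 1)))
        · intro N; rw [Real.norm_eq_abs]; exact h4 N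
        · have := (tendsto_one_div_add_atTop_nhds_zero_nat (𝕜 := ℝ)).mono_left hU
          have := this.const_mul (2 * ‖F‖)
          simpa using this
      have h6 := h5.add h3
      simpa using h6
    haveI hoa : HasOuterApproxClosed X := inferInstance
    haveI hbs : BorelSpace X := inferInstance
    haveI : T2Space (ProbabilityMeasure X) := ProbabilityMeasure.t2Space X
    have h3 := tendsto_nhds_unique h1 h2
    have h4 := congrArg (fun ρ : ProbabilityMeasure X => (ρ : Measure X)) h3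
    exact h4
  refine ⟨ξ, inferInstance, ⟨Φ_cont.measurable, hinv⟩, hm1, hm2, ?_⟩
  -- the clopen set
  set E : Set X := {p | f (p.1 0) = a ∧ h (p.2 j) = b} with hE
  have hcl : IsClopen E := by
    have hc : Continuous (fun p : X => (p.1 0, p.2 j)) :=
      ((continuous_apply 0).comp continuous_fst).prodMk ((continuous_apply j).comp continuous_snd)
    exact (isClopen_discrete {q : ℕ × ℕ | f q.1 = a ∧ h q.2 = b}).preimage hc
  have hEm : MeasurableSet E := hcl.1.measurableSet
  have hlim : Tendsto (fun N => (PM N : Measure X).real E) (U : Filter ℕ) (𝓝 ((ξ : Measure X).real E)) := by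
    have := ProbabilityMeasure.tendsto_measure_of_isClopen_of_tendsto hξ hcl
    have h2 := (NNReal.continuous_coe.tendsto _).comp this
    simp only [ProbabilityMeasure.measureReal_eq_coe_coeFn]
    exact h2
  have hval : ∀ N, (PM N : Measure X).real E = (∑ i ∈ Finset.range (N + 1), (Q (N + 1)).real
      {p | f (p.1 (T (N + 1) + i)) = a ∧ h (p.2 (T (N + 1) + i + j)) = b}) / ((N + 1 : ℕ) : ℝ) := by
    intro N
    rw [hPM, Measure.real, R_apply _ _ _ _ hEm, ENNReal.toReal_mul, ENNReal.toReal_sum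
      (fun i _ => measure_ne_top _ _)]
    rw [ENNReal.toReal_inv, ENNReal.toReal_natCast, div_eq_inv_mul]
    congr 1
    refine Finset.sum_congr rfl fun i _ => ?_
    rw [Measure.real]
    congr 2
    ext p
    simp only [hE, Set.mem_preimage, Set.mem_ofPred_eq, Φ_iter, S_iter, add_zero]
  have hd : Tendsto (fun N => |(PM N : Measure X).real E - L (N + 1)|) (U : Filter ℕ)
      (𝓝 |(ξ : Measure X).real E - r|) := by
    have hL' : Tendsto (fun N => L (N + 1)) (U : Filter ℕ) (𝓝 r) :=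
      ((tendsto_add_atTop_iff_nat 1).2 hL).mono_left hU
    exact (hlim.sub hL').abs
  refine le_of_tendsto hd (Eventually.of_forall fun N => ?_)
  rw [hval]
  exact hav (N + 1) (Nat.succ_pos N)

end Pool.Agent.Q113.DJ_JOI
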