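import Mathlib

set_option autoImplicit false

/-! Estimates for central binomial coefficients. -/

namespace Q113.Deg

/-- probability that `Bin(N,1/2) = Bin'(N,1/2)` -/
noncomputable def pc (N : ℕ) : ℝ := (Nat.centralBinom N : ℝ) / 4 ^ N

/-- the largest point probability of `Bin(m,1/2)` -/
noncomputable def qc (m : ℕ) : ℝ := ((m.choose (m / 2) : ℕ) : ℝ) / 2 ^ m

theorem pc_pos (N : ℕ) : 0 < pc N := by
  unfold pc
  have := Nat.centralBinom_pos N
  positivity

theorem pc_zero : pc 0 = 1 := by simp [pc]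

theorem pc_succ (N : ℕ) : pc (N + 1) * (2 * N + 2) = pc N * (2 * N + 1) := by
  unfold pc
  have h := Nat.succ_mul_centralBinom_succ N
  have h2 : ((N : ℝ) + 1) * (Nat.centralBinom (N + 1) : ℝ) =
      2 * (2 * N + 1) * (Nat.centralBinom N : ℝ) := by exact_mod_cast h
  rw [pow_succ]
  field_simp
  linarith

theorem pc_sq_succ (N : ℕ) : pc (N + 1) ^ 2 * (2 * N + 2) ^ 2 = pc N ^ 2 * (2 * N + 1) ^ 2 := by
  have := pc_succ N
  calc pc (N + 1) ^ 2 * (2 * N + 2) ^ 2 = (pc (N + 1) * (2 * N + 2)) ^ 2 := by ring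
    _ = (pc N * (2 * N + 1)) ^ 2 := by rw [this]
    _ = _ := by ring

theorem pc_mono {N M : ℕ} (h : N ≤ M) : pc N ^ 2 * N ≤ pc M ^ 2 * M := by
  induction M, h using Nat.le_induction with
  | base => exact le_rfl
  | succ M _ ih =>
    refine ih.trans ?_
    have h1 := pc_sq_succ M
    have h2 : 0 < pc M ^ 2 := pow_pos (pc_pos M) 2
    have h3 : (0 : ℝ) ≤ M := Nat.cast_nonneg M
    have h4 : 0 < (2 * (M : ℝ) + 2) ^ 2 := by positivity
    rw [← mul_le_mul_iff_left₀ h4]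
    push_cast
    have : pc (M + 1) ^ 2 * ((M : ℝ) + 1) * (2 * M + 2) ^ 2 =
        pc M ^ 2 * (2 * M + 1) ^ 2 * ((M : ℝ) + 1) := by rw [← h1]; ring
    rw [this]
    nlinarith

theorem pc_anti {N M : ℕ} (h : N ≤ M) : pc M ^ 2 * (2 * M + 1) ≤ pc N ^ 2 * (2 * N + 1) := by
  induction M, h using Nat.le_induction with
  | base => exact le_rfl
  | succ M _ ih =>
    refine le_trans ?_ ih
    have h1 := pc_sq_succ M
    have h2 : 0 < pc M ^ 2 := pow_pos (pc_pos M) 2
    have h3 : (0 : ℝ) ≤ M := Nat.cast_nonneg M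
    have h4 : 0 < (2 * (M : ℝ) + 2) ^ 2 := by positivity
    rw [← mul_le_mul_iff_left₀ h4]
    push_cast
    have : pc (M + 1) ^ 2 * (2 * ((M : ℝ) + 1) + 1) * (2 * M + 2) ^ 2 =
        pc M ^ 2 * (2 * M + 1) ^ 2 * (2 * ((M : ℝ) + 1) + 1) := by rw [← h1]; ring
    rw [this]
    nlinarith

theorem pc_upper (N : ℕ) : pc N ^ 2 * (2 * N + 1) ≤ 1 := by
  have := pc_anti (Nat.zero_le N)
  simpa [pc_zero] using this

theorem pc_one : pc 1 = 1 / 2 := by
  simp [pc, Nat.centralBinom]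
  norm_num

theorem pc_lower (N : ℕ) (h : 1 ≤ N) : 1 ≤ 4 * (pc N ^ 2 * N) := by
  have := pc_mono h
  rw [pc_one] at this
  norm_num at this
  linarith

theorem qc_nonneg (m : ℕ) : 0 ≤ qc m := by unfold qc; positivity

theorem qc_even (N : ℕ) : qc (2 * N) = pc N := by
  unfold qc pc
  rw [Nat.centralBinom, Nat.mul_div_cancel_left N two_pos, pow_mul]
  norm_num

theorem qc_odd (N : ℕ) : qc (2 * N + 1) = pc (N + 1) := by
  unfold qc pc
  have h1 : (2 * N + 1) / 2 = N := by omega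
  rw [h1]
  have h2 : Nat.centralBinom (N + 1) = 2 * (2 * N + 1).choose N := by
    have h3 : Nat.centralBinom (N + 1) = (2 * N + 2).choose (N + 1) := by
      rw [Nat.centralBinom]; congr 1
    rw [h3, Nat.choose_succ_succ (2 * N + 1) N]
    have h4 : (2 * N + 1).choose (N + 1) = (2 * N + 1).choose N := by
      apply Nat.choose_symm_half
    have h5 : (2 * N + 1).choose N.succ = (2 * N + 1).choose N := h4
    rw [h5]; ring
  rw [h2, pow_succ 4 N, pow_succ 2 (2 * N), pow_mul]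
  push_cast
  field_simp
  norm_num
  ring

theorem qc_sq (m : ℕ) : qc m ^ 2 * m ≤ 1 := by
  rcases Nat.even_or_odd' m with ⟨N, h | h⟩
  · rw [h, qc_even]
    have h1 := pc_upper N
    have h2 : 0 < pc N ^ 2 := pow_pos (pc_pos N) 2
    push_cast
    nlinarith
  · rw [h, qc_odd]
    have h1 := pc_upper (N + 1)
    have h2 : 0 < pc (N + 1) ^ 2 := pow_pos (pc_pos (N + 1)) 2
    push_cast at h1 ⊢
    nlinarith

end Q113.Deg
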