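import Pool.Agent.Q113.DegThird

set_option autoImplicit false

/-! Bonferroni inequality for the number of ties. -/

namespace Q113.Deg

open Finset

theorem triples_card {α : Type*} [DecidableEq α] (S : Finset α) :
    (((S ×ˢ (S ×ˢ S)).filter
      (fun t => t.1 ≠ t.2.1 ∧ t.1 ≠ t.2.2 ∧ t.2.1 ≠ t.2.2)).card : ℝ) =
      (S.card : ℝ) * (S.card - 1) * (S.card - 2) := by
  have h1 : ((S ×ˢ (S ×ˢ S)).filter
      (fun t => t.1 ≠ t.2.1 ∧ t.1 ≠ t.2.2 ∧ t.2.1 ≠ t.2.2)).card =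
      ∑ p ∈ S, ((S.erase p).offDiag).card := by
    rw [card_filter, sum_product]
    refine sum_congr rfl (fun p _ => ?_)
    rw [← card_filter]
    congr 1
    ext ⟨q, r⟩
    simp only [mem_filter, mem_product, mem_offDiag, mem_erase]
    constructor
    · rintro ⟨⟨h1, h2⟩, h3, h4, h5⟩
      exact ⟨⟨h3.symm, h1⟩, ⟨h4.symm, h2⟩, h5⟩
    · rintro ⟨⟨h3, h1⟩, ⟨h4, h2⟩, h5⟩
      exact ⟨⟨h1, h2⟩, h3.symm, h4.symm, h5⟩
  rw [h1]
  push_cast
  have h2 : ∀ p ∈ S, (((S.erase p).offDiag).card : ℝ) = ((S.card : ℝ) - 1) * (S.card - 2) := by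
    intro p hp
    rw [offDiag_card, card_erase_of_mem hp]
    have hpos : 1 ≤ S.card := card_pos.2 ⟨p, hp⟩
    obtain ⟨m, hm⟩ : ∃ m, S.card = m + 1 := ⟨S.card - 1, by omega⟩
    rw [hm]
    simp only [Nat.add_sub_cancel]
    rcases m with _ | m
    · simp
    · rw [Nat.cast_sub (by nlinarith)]
      push_cast; ring
  rw [sum_congr rfl h2, sum_const, nsmul_eq_mul]
  ring

variable {n : ℕ}

/-- increasing pairs -/
def Inc (n : ℕ) : Finset (Fin n × Fin n) := univ.filter (fun p => p.1 < p.2)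

/-- ties among increasing pairs -/
def Ti (H : Finset (Finset (Fin n))) : Finset (Fin n × Fin n) :=
  (Inc n).filter (fun p => dg H p.1 = dg H p.2)

theorem inc_card : (2 : ℝ) * (Inc n).card = (n : ℝ) * (n - 1) := by
  have h1 : (Inc n).card = (univ.filter (fun p : Fin n × Fin n => p.2 < p.1)).card := by
    refine card_bij' (fun p _ => p.swap) (fun p _ => p.swap) ?_ ?_ ?_ ?_
    · intro p hp; simp only [Inc, mem_filter, mem_univ, true_and] at hp ⊢; exact hp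
    · intro p hp; simp only [Inc, mem_filter, mem_univ, true_and] at hp ⊢; exact hp
    · intro p _; simp
    · intro p _; simp
  have h2 : (univ.filter (fun p : Fin n × Fin n => p.2 < p.1)) ∪ Inc n =
      (univ : Finset (Fin n)).offDiag := by
    ext p
    simp only [Inc, mem_union, mem_filter, mem_univ, true_and, mem_offDiag]
    constructor
    · rintro (h | h)
      · exact h.ne'
      · exact h.ne
    · intro h
      rcases lt_or_gt_of_ne h with h | h
      · exact Or.inr h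
      · exact Or.inl h
  have h3 : Disjoint (univ.filter (fun p : Fin n × Fin n => p.2 < p.1)) (Inc n) := by
    rw [disjoint_left]
    intro p hp hq
    simp only [Inc, mem_filter, mem_univ, true_and] at hp hq
    exact lt_asymm hp hq
  have h4 := card_union_of_disjoint h3
  rw [h2, offDiag_card, ← h1] at h4
  simp only [card_univ, Fintype.card_fin] at h4
  have h5 : 2 * (Inc n).card = n * n - n := by omega
  have h6 : ((2 * (Inc n).card : ℕ) : ℝ) = ((n * n - n : ℕ) : ℝ) := by rw [h5]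
  rw [Nat.cast_sub (Nat.le_mul_self n)] at h6
  push_cast at h6
  linarith

theorem sum_one (k : ℕ) (hk : 1 ≤ k) :
    ∑ H ∈ (Pk n k).powerset, ((Ti H).card : ℝ) =
      (Inc n).card * (2 ^ (Pk n k).card * pc ((n - 2).choose (k - 1))) := by
  have h1 : ∑ H ∈ (Pk n k).powerset, (Ti H).card =
      ∑ p ∈ Inc n, ((Pk n k).powerset.filter (fun H => dg H p.1 = dg H p.2)).card := by
    simp only [Ti, card_filter]
    rw [sum_comm]
  have h2 : ∑ H ∈ (Pk n k).powerset, ((Ti H).card : ℝ) =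
      ∑ p ∈ Inc n, (((Pk n k).powerset.filter (fun H => dg H p.1 = dg H p.2)).card : ℝ) := by
    exact_mod_cast h1
  rw [h2]
  have h3 : ∀ p ∈ Inc n, (((Pk n k).powerset.filter (fun H => dg H p.1 = dg H p.2)).card : ℝ) =
      2 ^ (Pk n k).card * pc ((n - 2).choose (k - 1)) := by
    intro p hp
    simp only [Inc, mem_filter, mem_univ, true_and] at hp
    exact tie_one k hk p.1 p.2 hp.ne
  rw [sum_congr rfl h3, sum_const, nsmul_eq_mul]

/-- the number of pairs of pairs sharing a coordinate -/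
theorem share_count :
    (((Inc n) ×ˢ (Inc n)).filter (fun t => t.1.1 = t.2.1 ∨ t.1.1 = t.2.2 ∨ t.1.2 = t.2.1 ∨
      t.1.2 = t.2.2)).card ≤ 4 * n ^ 3 := by
  classical
  set A := (univ : Finset (Fin n × Fin n × Fin n)) with hA
  have hAc : A.card = n ^ 3 := by
    rw [hA, card_univ, Fintype.card_prod, Fintype.card_prod, Fintype.card_fin]; ring
  have hsub : ((Inc n) ×ˢ (Inc n)).filter (fun t => t.1.1 = t.2.1 ∨ t.1.1 = t.2.2 ∨
      t.1.2 = t.2.1 ∨ t.1.2 = t.2.2) ⊆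
      (A.image (fun x => ((x.1, x.2.1), (x.1, x.2.2))) ∪
        A.image (fun x => ((x.1, x.2.1), (x.2.2, x.1)))) ∪
      (A.image (fun x => ((x.2.1, x.1), (x.1, x.2.2))) ∪
        A.image (fun x => ((x.2.1, x.1), (x.2.2, x.1)))) := by
    rintro ⟨⟨a, b⟩, ⟨c, d⟩⟩ ht
    rw [mem_filter] at ht
    simp only [mem_union, mem_image, hA, mem_univ, true_and]
    rcases ht.2 with h | h | h | h
    · simp only at h; subst h
      exact Or.inl (Or.inl ⟨(a, b, d), rfl⟩)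
    · simp only at h; subst h
      exact Or.inl (Or.inr ⟨(a, b, c), rfl⟩)
    · simp only at h; subst h
      exact Or.inr (Or.inl ⟨(b, a, d), rfl⟩)
    · simp only at h; subst h
      exact Or.inr (Or.inr ⟨(b, a, c), rfl⟩)
  refine (card_le_card hsub).trans ?_
  refine (card_union_le _ _).trans ?_
  have c1 := card_union_le (A.image (fun x : Fin n × Fin n × Fin n => ((x.1, x.2.1), (x.1, x.2.2))))
        (A.image (fun x => ((x.1, x.2.1), (x.2.2, x.1))))
  have c2 := card_union_le (A.image (fun x : Fin n × Fin n × Fin n => ((x.2.1, x.1), (x.1, x.2.2))))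
        (A.image (fun x => ((x.2.1, x.1), (x.2.2, x.1))))
  have d1 : (A.image (fun x : Fin n × Fin n × Fin n => ((x.1, x.2.1), (x.1, x.2.2)))).card ≤ n ^ 3 :=
    hAc ▸ card_image_le
  have d2 : (A.image (fun x : Fin n × Fin n × Fin n => ((x.1, x.2.1), (x.2.2, x.1)))).card ≤ n ^ 3 :=
    hAc ▸ card_image_le
  have d3 : (A.image (fun x : Fin n × Fin n × Fin n => ((x.2.1, x.1), (x.1, x.2.2)))).card ≤ n ^ 3 :=
    hAc ▸ card_image_le
  have d4 : (A.image (fun x : Fin n × Fin n × Fin n => ((x.2.1, x.1), (x.2.2, x.1)))).card ≤ n ^ 3 :=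
    hAc ▸ card_image_le
  omega

theorem sum_two (k : ℕ) (hk : 1 ≤ k) (hN : 1 ≤ (n - 4).choose (k - 1))
    (hr : (((n - 1).choose (k - 1) : ℕ) : ℝ) / (((n - 4).choose (k - 1) : ℕ) : ℝ) ≤ 2) :
    (((Inc n).card : ℝ) ^ 2 - 4 * (n : ℝ) ^ 3) *
      (2 ^ (Pk n k).card * (pc ((n - 4).choose (k - 1)) ^ 2 *
      (2 - (((n - 1).choose (k - 1) : ℕ) : ℝ) / (((n - 4).choose (k - 1) : ℕ) : ℝ)))) ≤
    ∑ H ∈ (Pk n k).powerset, (((Ti H).card : ℝ) ^ 2 - (Ti H).card) := by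
  classical
  set L := 2 ^ (Pk n k).card * (pc ((n - 4).choose (k - 1)) ^ 2 *
      (2 - (((n - 1).choose (k - 1) : ℕ) : ℝ) / (((n - 4).choose (k - 1) : ℕ) : ℝ))) with hL
  have hL0 : 0 ≤ L := by
    have := pc_pos ((n - 4).choose (k - 1))
    rw [hL]
    apply mul_nonneg (by positivity)
    apply mul_nonneg (by positivity)
    linarith
  set Sh := ((Inc n) ×ˢ (Inc n)).filter (fun t => t.1.1 = t.2.1 ∨ t.1.1 = t.2.2 ∨ t.1.2 = t.2.1 ∨
      t.1.2 = t.2.2) with hSh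
  set Dj := ((Inc n) ×ˢ (Inc n)).filter (fun t => ¬ (t.1.1 = t.2.1 ∨ t.1.1 = t.2.2 ∨
      t.1.2 = t.2.1 ∨ t.1.2 = t.2.2)) with hDj
  have hcard : Sh.card + Dj.card = (Inc n).card ^ 2 := by
    rw [hSh, hDj, card_filter_add_card_filter_not, card_product, sq]
  have hDge : (((Inc n).card : ℝ) ^ 2 - 4 * (n : ℝ) ^ 3) ≤ Dj.card := by
    have h1 : ((Sh.card + Dj.card : ℕ) : ℝ) = (((Inc n).card ^ 2 : ℕ) : ℝ) := by rw [hcard]
    have h2 : (Sh.card : ℝ) ≤ 4 * (n : ℝ) ^ 3 := by exact_mod_cast share_count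
    push_cast at h1
    linarith
  have h3 : (Dj.card : ℝ) * L ≤ ∑ t ∈ Dj, (((Pk n k).powerset.filter
      (fun H => dg H t.1.1 = dg H t.1.2 ∧ dg H t.2.1 = dg H t.2.2)).card : ℝ) := by
    rw [← nsmul_eq_mul, ← sum_const]
    apply sum_le_sum
    rintro ⟨⟨a, b⟩, ⟨c, d⟩⟩ ht
    rw [hDj, mem_filter, mem_product, not_or, not_or, not_or] at ht
    obtain ⟨⟨hp, hq⟩, h1, h2, h3, h4⟩ := ht
    simp only [Inc, mem_filter, mem_univ, true_and] at hp hq
    exact tie_two_ge k hk a b c d hp.ne hq.ne h1 h2 h3 h4 hN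
  refine (mul_le_mul_of_nonneg_right hDge hL0).trans (h3.trans ?_)
  have h4 : ∑ t ∈ Dj, ((Pk n k).powerset.filter
      (fun H => dg H t.1.1 = dg H t.1.2 ∧ dg H t.2.1 = dg H t.2.2)).card =
      ∑ H ∈ (Pk n k).powerset, (Dj.filter
        (fun t => dg H t.1.1 = dg H t.1.2 ∧ dg H t.2.1 = dg H t.2.2)).card := by
    simp only [card_filter]
    rw [sum_comm]
  have h5 : ∑ t ∈ Dj, (((Pk n k).powerset.filter
      (fun H => dg H t.1.1 = dg H t.1.2 ∧ dg H t.2.1 = dg H t.2.2)).card : ℝ) =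
      ∑ H ∈ (Pk n k).powerset, ((Dj.filter
        (fun t => dg H t.1.1 = dg H t.1.2 ∧ dg H t.2.1 = dg H t.2.2)).card : ℝ) := by
    exact_mod_cast h4
  rw [h5]
  apply sum_le_sum
  intro H _
  have h6 : Dj.filter (fun t => dg H t.1.1 = dg H t.1.2 ∧ dg H t.2.1 = dg H t.2.2) ⊆
      (Ti H).offDiag := by
    rintro ⟨p, q⟩ ht
    rw [mem_filter, hDj, mem_filter, mem_product] at ht
    rw [mem_offDiag, Ti, mem_filter, mem_filter]
    refine ⟨⟨ht.1.1.1, ht.2.1⟩, ⟨ht.1.1.2, ht.2.2⟩, ?_⟩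
    intro hpq
    simp only at hpq
    subst hpq
    exact ht.1.2 (Or.inl rfl)
  have h7 := card_le_card h6
  rw [offDiag_card] at h7
  have h8 : ((Dj.filter (fun t => dg H t.1.1 = dg H t.1.2 ∧ dg H t.2.1 = dg H t.2.2)).card : ℝ) ≤
      (((Ti H).card * (Ti H).card - (Ti H).card : ℕ) : ℝ) := by exact_mod_cast h7
  rw [Nat.cast_sub (Nat.le_mul_self _)] at h8
  push_cast at h8
  linarith

theorem sum_three (k : ℕ) (hk : 1 ≤ k) (h5 : 1 ≤ (n - 5).choose (k - 1)) :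
    ∑ H ∈ (Pk n k).powerset, ((Ti H).card : ℝ) * ((Ti H).card - 1) * ((Ti H).card - 2) ≤
      2 ^ (Pk n k).card * (((Inc n).card : ℝ) ^ 3 * pc ((n - 6).choose (k - 1)) ^ 3 +
        (5 ^ 6 * (n : ℝ) ^ 5 * B1 n k ^ 3 + 3 ^ 6 * (n : ℝ) ^ 3 * B1 n k ^ 2)) := by
  classical
  set D := ((Inc n) ×ˢ ((Inc n) ×ˢ (Inc n))).filter
      (fun t => t.1 ≠ t.2.1 ∧ t.1 ≠ t.2.2 ∧ t.2.1 ≠ t.2.2) with hD
  have h1 : ∀ H : Finset (Finset (Fin n)),
      ((Ti H).card : ℝ) * ((Ti H).card - 1) * ((Ti H).card - 2) =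
      ((D.filter (fun t => dg H t.1.1 = dg H t.1.2 ∧ dg H t.2.1.1 = dg H t.2.1.2 ∧
        dg H t.2.2.1 = dg H t.2.2.2)).card : ℝ) := by
    intro H
    rw [← triples_card]
    congr 2
    ext ⟨p, q, r⟩
    simp only [hD, Ti, mem_filter, mem_product]
    tauto
  simp only [h1]
  have h4 : ∑ H ∈ (Pk n k).powerset, (D.filter (fun t => dg H t.1.1 = dg H t.1.2 ∧
        dg H t.2.1.1 = dg H t.2.1.2 ∧ dg H t.2.2.1 = dg H t.2.2.2)).card =
      ∑ t ∈ D, ((Pk n k).powerset.filter (fun H => dg H t.1.1 = dg H t.1.2 ∧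
        dg H t.2.1.1 = dg H t.2.1.2 ∧ dg H t.2.2.1 = dg H t.2.2.2)).card := by
    simp only [card_filter]
    rw [sum_comm]
  have h4' : ∑ H ∈ (Pk n k).powerset, ((D.filter (fun t => dg H t.1.1 = dg H t.1.2 ∧
        dg H t.2.1.1 = dg H t.2.1.2 ∧ dg H t.2.2.1 = dg H t.2.2.2)).card : ℝ) =
      ∑ t ∈ D, (((Pk n k).powerset.filter (fun H => dg H t.1.1 = dg H t.1.2 ∧
        dg H t.2.1.1 = dg H t.2.1.2 ∧ dg H t.2.2.1 = dg H t.2.2.2)).card : ℝ) := by
    exact_mod_cast h4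
  rw [h4']
  have h6 : ∀ t ∈ D, (((Pk n k).powerset.filter (fun H => dg H t.1.1 = dg H t.1.2 ∧
        dg H t.2.1.1 = dg H t.2.1.2 ∧ dg H t.2.2.1 = dg H t.2.2.2)).card : ℝ) ≤
      2 ^ (Pk n k).card * (pc ((n - 6).choose (k - 1)) ^ 3 + bd k t) := by
    rintro ⟨p, q, r⟩ ht
    rw [hD, mem_filter, mem_product, mem_product] at ht
    obtain ⟨⟨hp, hq, hr⟩, g1, g2, g3⟩ := ht
    simp only [Inc, mem_filter, mem_univ, true_and] at hp hq hr
    exact triple_bound k hk h5 p q r hp hq hr g1 g2 g3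
  refine (sum_le_sum h6).trans ?_
  rw [← mul_sum, sum_add_distrib, sum_const, nsmul_eq_mul]
  apply mul_le_mul_of_nonneg_left _ (by positivity)
  apply add_le_add
  · apply mul_le_mul_of_nonneg_right _ (pow_pos (pc_pos _) 3).le
    have h7 : D.card ≤ (Inc n).card ^ 3 := by
      refine (card_filter_le _ _).trans ?_
      rw [card_product, card_product]
      apply le_of_eq; ring
    exact_mod_cast h7
  · refine le_trans ?_ (sum_bd k)
    apply sum_le_sum_of_subset_of_nonneg (subset_univ _)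
    intro t _ _
    exact bd_nonneg k t

/-- the Bonferroni inequality -/
theorem bonf (y : ℕ) : 1 - (y : ℝ) + ((y : ℝ) ^ 2 - y) / 2 - (y : ℝ) * (y - 1) * (y - 2) / 6 ≤
    if y = 0 then 1 else 0 := by
  rcases y with _ | _ | _ | _ | y
  · simp
  · norm_num
  · norm_num
  · norm_num
  · rw [if_neg (by omega)]
    push_cast
    have hy : (0 : ℝ) ≤ y := Nat.cast_nonneg y
    have : 1 - ((y : ℝ) + 1 + 1 + 1 + 1) + (((y : ℝ) + 1 + 1 + 1 + 1) ^ 2 -
        ((y : ℝ) + 1 + 1 + 1 + 1)) / 2 - ((y : ℝ) + 1 + 1 + 1 + 1) * (((y : ℝ) + 1 + 1 + 1 + 1) - 1) *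
        (((y : ℝ) + 1 + 1 + 1 + 1) - 2) / 6 = - ((y + 3) * (y + 2) * (y + 1)) / 6 := by ring
    rw [this]
    have : 0 ≤ ((y : ℝ) + 3) * (y + 2) * (y + 1) := by positivity
    linarith

theorem ti_zero (H : Finset (Finset (Fin n))) :
    (Ti H).card = 0 ↔ Function.Injective (fun v : Fin n => dg H v) := by
  rw [card_eq_zero, Ti, filter_eq_empty_iff]
  constructor
  · intro h a b hab
    by_contra hne
    rcases lt_or_gt_of_ne hne with hlt | hlt
    · exact h (x := (a, b)) (by simp [Inc, hlt]) hab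
    · exact h (x := (b, a)) (by simp [Inc, hlt]) hab.symm
  · rintro h ⟨a, b⟩ hp hab
    simp only [Inc, mem_filter, mem_univ, true_and] at hp
    exact hp.ne (h hab)

open Classical in
theorem bonferroni (k : ℕ) (hk : 1 ≤ k) (hN : 1 ≤ (n - 4).choose (k - 1))
    (h5 : 1 ≤ (n - 5).choose (k - 1))
    (hr : (((n - 1).choose (k - 1) : ℕ) : ℝ) / (((n - 4).choose (k - 1) : ℕ) : ℝ) ≤ 2) :
    1 - (Inc n).card * pc ((n - 2).choose (k - 1)) +
      (((Inc n).card : ℝ) ^ 2 - 4 * (n : ℝ) ^ 3) * (pc ((n - 4).choose (k - 1)) ^ 2 *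
      (2 - (((n - 1).choose (k - 1) : ℕ) : ℝ) / (((n - 4).choose (k - 1) : ℕ) : ℝ))) / 2 -
      (((Inc n).card : ℝ) ^ 3 * pc ((n - 6).choose (k - 1)) ^ 3 +
        (5 ^ 6 * (n : ℝ) ^ 5 * B1 n k ^ 3 + 3 ^ 6 * (n : ℝ) ^ 3 * B1 n k ^ 2)) / 6 ≤
    (((Pk n k).powerset.filter (fun H => Function.Injective (fun v : Fin n => dg H v))).card : ℝ) /
      2 ^ (Pk n k).card := by
  have hT : (0 : ℝ) < 2 ^ (Pk n k).card := by positivity
  rw [le_div_iff₀ hT]
  have h1 : (((Pk n k).powerset.filter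
      (fun H => Function.Injective (fun v : Fin n => dg H v))).card : ℝ) =
      ∑ H ∈ (Pk n k).powerset, (if (Ti H).card = 0 then (1 : ℝ) else 0) := by
    rw [card_filter]
    push_cast
    refine sum_congr rfl (fun H _ => ?_)
    by_cases h : Function.Injective (fun v : Fin n => dg H v)
    · rw [if_pos h, if_pos ((ti_zero H).2 h)]
    · rw [if_neg h, if_neg (fun h' => h ((ti_zero H).1 h'))]
  rw [h1]
  refine le_trans ?_ (sum_le_sum (fun H _ => bonf (Ti H).card))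
  have e1 := sum_one (n := n) k hk
  have e2 := sum_two (n := n) k hk hN hr
  have e3 := sum_three (n := n) k hk h5
  have e4 : ∑ H ∈ (Pk n k).powerset, (1 - ((Ti H).card : ℝ) + (((Ti H).card : ℝ) ^ 2 -
      (Ti H).card) / 2 - ((Ti H).card : ℝ) * ((Ti H).card - 1) * ((Ti H).card - 2) / 6) =
      2 ^ (Pk n k).card - ∑ H ∈ (Pk n k).powerset, ((Ti H).card : ℝ) +
      (∑ H ∈ (Pk n k).powerset, (((Ti H).card : ℝ) ^ 2 - (Ti H).card)) / 2 -
      (∑ H ∈ (Pk n k).powerset, ((Ti H).card : ℝ) * ((Ti H).card - 1) * ((Ti H).card - 2)) / 6 := by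
    rw [sum_sub_distrib, sum_add_distrib, sum_sub_distrib, ← sum_div, ← sum_div, sum_const,
      card_powerset, nsmul_eq_mul, mul_one]
    push_cast
    rfl
  rw [e4, e1]
  set T := (2 : ℝ) ^ (Pk n k).card
  nlinarith

end Q113.Deg
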