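import Mathlib

set_option autoImplicit false

/-! Counting subsets of a finite set with prescribed intersection sizes with disjoint blocks. -/

namespace Q113.Deg

open Finset

section general
variable {α ι : Type*} [DecidableEq α] [Fintype ι] [DecidableEq ι]

theorem count_eq (P : Finset α) (A : ι → Finset α) (hA : ∀ i, A i ⊆ P)
    (hd : ∀ i j, i ≠ j → Disjoint (A i) (A j)) (φ : ι → Finset α → ℕ)
    (Q : Finset α → Prop) [DecidablePred Q]
    (hQ : ∀ H ⊆ P, Q H ↔ ∀ i, (H ∩ A i).card = φ i (H \ univ.biUnion A)) :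
    (P.powerset.filter Q).card =
      ∑ R ∈ (P \ univ.biUnion A).powerset, ∏ i, (A i).card.choose (φ i R) := by
  classical
  have hQ' : P.powerset.filter Q =
      P.powerset.filter (fun H => ∀ i, (H ∩ A i).card = φ i (H \ univ.biUnion A)) := by
    apply filter_congr
    intro H hH
    exact hQ H (mem_powerset.1 hH)
  rw [hQ']
  set U := univ.biUnion A with hU
  have hAU : ∀ i, A i ⊆ U := fun i => subset_biUnion_of_mem A (mem_univ i)
  rw [card_eq_sum_card_fiberwise (f := fun H => H \ U) (t := (P \ U).powerset)]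
  · refine sum_congr rfl (fun R hR => ?_)
    rw [mem_powerset] at hR
    have hRU : ∀ x ∈ R, x ∉ U := fun x hx => (mem_sdiff.1 (hR hx)).2
    have h1 : ∏ i, (A i).card.choose (φ i R) =
        (Fintype.piFinset (fun i => powersetCard (φ i R) (A i))).card := by
      rw [Fintype.card_piFinset]; simp
    rw [h1]
    have key : ∀ (S : ι → Finset α), (∀ i, S i ⊆ A i) → ∀ i, (R ∪ univ.biUnion S) ∩ A i = S i := by
      intro S hS i
      ext x
      simp only [mem_inter, mem_union, mem_biUnion, mem_univ, true_and]
      constructor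
      · rintro ⟨h | ⟨j, hj⟩, h2⟩
        · exact absurd (hAU i h2) (hRU x h)
        · by_cases hij : j = i
          · rwa [← hij]
          · exact absurd h2 (disjoint_left.1 (hd j i hij) (hS j hj))
      · intro h
        exact ⟨Or.inr ⟨i, h⟩, hS i h⟩
    have key2 : ∀ (S : ι → Finset α), (∀ i, S i ⊆ A i) → (R ∪ univ.biUnion S) \ U = R := by
      intro S hS
      ext x
      simp only [mem_sdiff, mem_union, mem_biUnion, mem_univ, true_and]
      constructor
      · rintro ⟨h | ⟨j, hj⟩, h2⟩
        · exact h
        · exact absurd (hAU j (hS j hj)) h2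
      · intro h
        exact ⟨Or.inl h, hRU x h⟩
    refine card_bij' (fun H _ i => H ∩ A i) (fun S _ => R ∪ univ.biUnion S) ?_ ?_ ?_ ?_
    · intro H hH
      simp only [mem_filter, mem_powerset] at hH
      rw [Fintype.mem_piFinset]
      intro i
      rw [mem_powersetCard]
      refine ⟨inter_subset_right, ?_⟩
      rw [hH.1.2 i, hH.2]
    · intro S hS
      rw [Fintype.mem_piFinset] at hS
      have hS1 : ∀ i, S i ⊆ A i := fun i => (mem_powersetCard.1 (hS i)).1
      simp only [mem_filter, mem_powerset]
      refine ⟨⟨?_, ?_⟩, key2 S hS1⟩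
      · apply union_subset
        · exact hR.trans sdiff_subset
        · intro x hx
          obtain ⟨i, _, hi⟩ := mem_biUnion.1 hx
          exact hA i (hS1 i hi)
      · intro i
        rw [key S hS1, key2 S hS1]
        exact (mem_powersetCard.1 (hS i)).2
    · intro H hH
      simp only [mem_filter, mem_powerset] at hH
      ext x
      simp only [mem_union, mem_biUnion, mem_univ, true_and, mem_inter]
      constructor
      · rintro (h | ⟨i, h, _⟩)
        · rw [← hH.2] at h; exact (mem_sdiff.1 h).1
        · exact h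
      · intro h
        by_cases hx : x ∈ U
        · obtain ⟨i, _, hi⟩ := mem_biUnion.1 hx
          exact Or.inr ⟨i, h, hi⟩
        · left; rw [← hH.2]; exact mem_sdiff.2 ⟨h, hx⟩
    · intro S hS
      rw [Fintype.mem_piFinset] at hS
      have hS1 : ∀ i, S i ⊆ A i := fun i => (mem_powersetCard.1 (hS i)).1
      funext i
      exact key S hS1 i
  · intro H hH
    simp only [coe_filter, mem_powerset, Set.mem_ofPred_eq] at hH
    simp only [coe_powerset, Set.mem_preimage, Set.mem_powerset_iff]
    exact_mod_cast sdiff_subset_sdiff hH.1 (le_refl U)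

omit [DecidableEq ι] in
theorem card_biUnion_blocks (A : ι → Finset α) (hd : ∀ i j, i ≠ j → Disjoint (A i) (A j)) :
    (univ.biUnion A).card = ∑ i, (A i).card :=
  card_biUnion (fun i _ j _ h => hd i j h)

/-- if the sizes of the traces on disjoint blocks are determined by the rest, there are few sets -/
theorem count_le (P : Finset α) (A : ι → Finset α) (hA : ∀ i, A i ⊆ P)
    (hd : ∀ i j, i ≠ j → Disjoint (A i) (A j)) (φ : ι → Finset α → ℕ)
    (Q : Finset α → Prop) [DecidablePred Q]
    (hQ : ∀ H ⊆ P, Q H → ∀ i, (H ∩ A i).card = φ i (H \ univ.biUnion A)) :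
    ((P.powerset.filter Q).card : ℝ) ≤
      2 ^ P.card * ∏ i, (((A i).card.choose ((A i).card / 2) : ℕ) : ℝ) / 2 ^ (A i).card := by
  classical
  set U := univ.biUnion A with hU
  have hUP : U ⊆ P := by
    intro x hx
    obtain ⟨i, _, hi⟩ := mem_biUnion.1 hx
    exact hA i hi
  have h1 : (P.powerset.filter Q).card ≤
      ∑ R ∈ (P \ U).powerset, ∏ i, (A i).card.choose (φ i R) := by
    rw [← count_eq P A hA hd φ
      (fun H => ∀ i, (H ∩ A i).card = φ i (H \ univ.biUnion A)) (fun H _ => Iff.rfl)]
    apply card_le_card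
    intro H hH
    rw [mem_filter] at hH ⊢
    exact ⟨hH.1, hQ H (mem_powerset.1 hH.1) hH.2⟩
  have h2 : ∑ R ∈ (P \ U).powerset, ∏ i, (A i).card.choose (φ i R) ≤
      ∑ R ∈ (P \ U).powerset, ∏ i, (A i).card.choose ((A i).card / 2) := by
    apply sum_le_sum
    intro R _
    apply prod_le_prod'
    intro i _
    exact Nat.choose_le_middle _ _
  rw [sum_const, card_powerset, smul_eq_mul] at h2
  have h3 : (P \ U).card = P.card - ∑ i, (A i).card := by
    rw [card_sdiff_of_subset hUP, card_biUnion_blocks A hd]
  have h4 : ∑ i, (A i).card ≤ P.card := by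
    rw [← card_biUnion_blocks A hd]; exact card_le_card hUP
  have h5 : ((P.powerset.filter Q).card : ℝ) ≤
      2 ^ (P \ U).card * ∏ i, (((A i).card.choose ((A i).card / 2) : ℕ) : ℝ) := by
    exact_mod_cast h1.trans h2
  refine h5.trans (le_of_eq ?_)
  rw [prod_div_distrib, prod_pow_eq_pow_sum, h3, pow_sub₀ _ two_ne_zero h4]
  field_simp

end general

end Q113.Deg
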