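import Pool.Agent.Q113.DegMoment

set_option autoImplicit false

/-! Lower bound for the probability that two disjoint pairs are both tied. -/

namespace Q113.Deg

open Finset

theorem choose_shift (N c : ℕ) (hN : 1 ≤ N) :
    (Nat.centralBinom N : ℝ) * (1 - (c : ℝ) ^ 2 / N) ≤ (((2 * N).choose (N + c) : ℕ) : ℝ) := by
  have hN' : (0 : ℝ) < N := by exact_mod_cast hN
  induction c with
  | zero => simp [Nat.centralBinom]
  | succ c ih =>
    have h1 : (2 * N).choose (N + c + 1) * (N + c + 1) = (2 * N).choose (N + c) * (2 * N - (N + c)) :=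
      Nat.choose_succ_right_eq _ _
    have hle : (((2 * N).choose (N + c) : ℕ) : ℝ) ≤ Nat.centralBinom N := by
      exact_mod_cast Nat.choose_le_centralBinom _ _
    have h0 : (0 : ℝ) ≤ (((2 * N).choose (N + c) : ℕ) : ℝ) := Nat.cast_nonneg _
    have hge : (((2 * N).choose (N + c) : ℕ) : ℝ) * (1 - (2 * c + 1) / N) ≤
        (((2 * N).choose (N + c + 1) : ℕ) : ℝ) := by
      by_cases hc : c ≤ N
      · have h2 : ((2 * N - (N + c) : ℕ) : ℝ) = (N : ℝ) - c := by
          rw [Nat.cast_sub (by omega)]; push_cast; ring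
        have h3 : (((2 * N).choose (N + c + 1) : ℕ) : ℝ) * ((N : ℝ) + c + 1) =
            (((2 * N).choose (N + c) : ℕ) : ℝ) * ((N : ℝ) - c) := by
          rw [← h2]; exact_mod_cast h1
        have h4 : (0 : ℝ) < (N : ℝ) + c + 1 := by positivity
        have h5 : (((2 * N).choose (N + c) : ℕ) : ℝ) * (1 - (2 * c + 1) / N) * ((N : ℝ) + c + 1) ≤
            (((2 * N).choose (N + c + 1) : ℕ) : ℝ) * ((N : ℝ) + c + 1) := by
          rw [h3]
          have h6 : (1 - (2 * (c : ℝ) + 1) / N) * ((N : ℝ) + c + 1) ≤ (N : ℝ) - c := by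
            have h7 : (1 - (2 * (c : ℝ) + 1) / N) * ((N : ℝ) + c + 1) =
              (N : ℝ) - c - (2 * c + 1) * (c + 1) / N := by field_simp; ring
            rw [h7]
            have : 0 ≤ (2 * (c : ℝ) + 1) * (c + 1) / N := by positivity
            linarith
          calc _ = (((2 * N).choose (N + c) : ℕ) : ℝ) *
                ((1 - (2 * c + 1) / N) * ((N : ℝ) + c + 1)) := by ring
            _ ≤ _ := mul_le_mul_of_nonneg_left h6 h0
        exact le_of_mul_le_mul_right h5 h4
      · have h6 : 1 - (2 * (c : ℝ) + 1) / N ≤ 0 := by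
          rw [sub_nonpos, le_div_iff₀ hN']
          have : (N : ℝ) < c := by exact_mod_cast not_le.1 hc
          linarith
        have h7 : (0 : ℝ) ≤ (((2 * N).choose (N + c + 1) : ℕ) : ℝ) := Nat.cast_nonneg _
        nlinarith
    have h8 : (Nat.centralBinom N : ℝ) * (1 - ((c + 1 : ℕ) : ℝ) ^ 2 / N) =
        (Nat.centralBinom N : ℝ) * (1 - (c : ℝ) ^ 2 / N) -
          (Nat.centralBinom N : ℝ) * ((2 * c + 1) / N) := by
      push_cast; field_simp; ring
    have h9 : (((2 * N).choose (N + c) : ℕ) : ℝ) * ((2 * c + 1) / N) ≤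
        (Nat.centralBinom N : ℝ) * ((2 * c + 1) / N) :=
      mul_le_mul_of_nonneg_right hle (by positivity)
    rw [h8, ← add_assoc]
    linarith

theorem choose_phi (N a b : ℕ) (hN : 1 ≤ N) :
    (Nat.centralBinom N : ℝ) * (1 - ((a : ℝ) - b) ^ 2 / N) ≤
      (((2 * N).choose (phi N a b) : ℕ) : ℝ) := by
  have hN' : (0 : ℝ) < N := by exact_mod_cast hN
  unfold phi
  split_ifs with h
  · rcases le_total a b with hab | hab
    · obtain ⟨c, rfl⟩ := Nat.exists_eq_add_of_le hab
      have := choose_shift N c hN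
      have e : N + (a + c) - a = N + c := by omega
      rw [e]
      push_cast
      have e2 : ((a : ℝ) - (a + c)) ^ 2 = (c : ℝ) ^ 2 := by ring
      rw [e2]; exact this
    · obtain ⟨c, rfl⟩ := Nat.exists_eq_add_of_le hab
      have := choose_shift N c hN
      have e : N + b - (b + c) = N - c := by omega
      rw [e]
      have e3 : (2 * N).choose (N - c) = (2 * N).choose (N + c) := by
        apply Nat.choose_symm_of_eq_add; omega
      rw [e3]
      push_cast
      have e2 : ((b : ℝ) + c - b) ^ 2 = (c : ℝ) ^ 2 := by ring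
      rw [e2]; exact this
  · push Not at h
    have h1 : (N : ℝ) + b < a := by exact_mod_cast h
    have h2 : (1 : ℝ) ≤ N := by exact_mod_cast hN
    have h3 : 1 - ((a : ℝ) - b) ^ 2 / N ≤ 0 := by
      rw [sub_nonpos, le_div_iff₀ hN']
      nlinarith
    have h4 : (0 : ℝ) ≤ (Nat.centralBinom N : ℝ) := Nat.cast_nonneg _
    have h5 : (0 : ℝ) ≤ (((2 * N).choose (2 * N + 1) : ℕ) : ℝ) := Nat.cast_nonneg _
    nlinarith

/-- second moment of a random signed sum -/
theorem signed_sum {α : Type*} [DecidableEq α] (s : α → ℝ) (G : Finset α) :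
    ∑ R ∈ G.powerset, ∑ e ∈ R, s e = 2 ^ G.card * (∑ e ∈ G, s e) / 2 ∧
    ∑ R ∈ G.powerset, (∑ e ∈ R, s e) ^ 2 =
      2 ^ G.card * (∑ e ∈ G, s e ^ 2 + (∑ e ∈ G, s e) ^ 2) / 4 := by
  induction G using Finset.induction_on with
  | empty => simp
  | insert a G ha ih =>
    obtain ⟨i1, i2⟩ := ih
    have hR : ∀ R ∈ G.powerset, ∑ e ∈ insert a R, s e = s a + ∑ e ∈ R, s e := by
      intro R hR
      rw [sum_insert]
      exact fun h => ha (mem_powerset.1 hR h)
    have hc : (∑ R ∈ G.powerset, s a) = 2 ^ G.card * s a := by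
      rw [sum_const, card_powerset, nsmul_eq_mul]; push_cast; ring
    have hc2 : (∑ R ∈ G.powerset, s a ^ 2) = 2 ^ G.card * s a ^ 2 := by
      rw [sum_const, card_powerset, nsmul_eq_mul]; push_cast; ring
    rw [sum_powerset_insert ha, sum_powerset_insert ha, card_insert_of_notMem ha,
      sum_insert ha, sum_insert ha]
    constructor
    · rw [sum_congr rfl (fun R hR' => hR R hR'), sum_add_distrib, i1, hc, pow_succ]
      ring
    · have e' : ∑ R ∈ G.powerset, (∑ e ∈ insert a R, s e) ^ 2 =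
          ∑ R ∈ G.powerset, (s a + ∑ e ∈ R, s e) ^ 2 :=
        sum_congr rfl (fun R hR' => by rw [hR R hR'])
      rw [e']
      have e : ∑ R ∈ G.powerset, (s a + ∑ e ∈ R, s e) ^ 2 =
          ∑ R ∈ G.powerset, s a ^ 2 + 2 * s a * ∑ R ∈ G.powerset, ∑ e ∈ R, s e +
          ∑ R ∈ G.powerset, (∑ e ∈ R, s e) ^ 2 := by
        rw [mul_sum, ← sum_add_distrib, ← sum_add_distrib]
        refine sum_congr rfl (fun R _ => ?_)
        ring
      rw [e, hc2, i1, i2, pow_succ]
      ring

variable {n : ℕ}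

theorem dg_real (R : Finset (Finset (Fin n))) (u v : Fin n) :
    (dg R u : ℝ) - dg R v = ∑ e ∈ R, ((if u ∈ e then (1:ℝ) else 0) - if v ∈ e then 1 else 0) := by
  unfold dg
  rw [sum_sub_distrib, card_filter, card_filter]
  push_cast
  rfl

theorem dg_Pk (k : ℕ) (hk : 1 ≤ k) (u : Fin n) : dg (Pk n k) u = (n - 1).choose (k - 1) := by
  have h := card_priv (n := n) k hk {u} u (mem_singleton_self _)
  rw [card_singleton] at h
  rw [← h]
  unfold dg priv
  congr 1
  apply filter_congr
  intro e _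
  constructor
  · intro hu
    ext x
    simp only [mem_inter, mem_singleton]
    constructor
    · rintro ⟨_, rfl⟩; rfl
    · rintro rfl; exact ⟨hu, rfl⟩
  · intro h
    have : u ∈ e ∩ {u} := by rw [h]; exact mem_singleton_self _
    exact (mem_inter.1 this).1

/-- two disjoint pairs: lower bound -/
theorem tie_two_ge (k : ℕ) (hk : 1 ≤ k) (a b c d : Fin n) (hab : a ≠ b) (hcd : c ≠ d)
    (hac : a ≠ c) (had : a ≠ d) (hbc : b ≠ c) (hbd : b ≠ d)
    (hN : 1 ≤ (n - 4).choose (k - 1)) :
    2 ^ (Pk n k).card * (pc ((n - 4).choose (k - 1)) ^ 2 *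
      (2 - (((n - 1).choose (k - 1) : ℕ) : ℝ) / (((n - 4).choose (k - 1) : ℕ) : ℝ))) ≤
    (((Pk n k).powerset.filter (fun H => dg H a = dg H b ∧ dg H c = dg H d)).card : ℝ) := by
  classical
  have hW : ({a, b, c, d} : Finset (Fin n)).card = 4 := by
    rw [card_insert_of_notMem (by simp [hab, hac, had]),
      card_insert_of_notMem (by simp [hbc, hbd]), card_pair hcd]
  have hu : Function.Injective ![a, c] := by
    intro i l h; fin_cases i <;> fin_cases l <;> simp_all
  have hv : Function.Injective ![b, d] := by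
    intro i l h; fin_cases i <;> fin_cases l <;> simp_all
  have huv : ∀ i l : Fin 2, ![a, c] i ≠ ![b, d] l := by
    intro i l; fin_cases i <;> fin_cases l <;> simp_all [Ne.symm]
  have huW : ∀ i : Fin 2, ![a, c] i ∈ ({a, b, c, d} : Finset (Fin n)) := by
    intro i; fin_cases i <;> simp
  have hvW : ∀ i : Fin 2, ![b, d] i ∈ ({a, b, c, d} : Finset (Fin n)) := by
    intro i; fin_cases i <;> simp
  have h := ties_eq (j := 2) k hk {a, b, c, d} ![a, c] ![b, d] hu hv huv huW hvW
  have hc := blocks_card (j := 2) k hk {a, b, c, d} ![a, c] ![b, d] hu hv huv huW hvW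
  have hs := blocks_sub (j := 2) k {a, b, c, d} ![a, c] ![b, d]
  rw [hW] at h hc
  set U := (univ : Finset (Fin 2)).biUnion
    (fun i => priv k {a, b, c, d} (![a, c] i) ∪ priv k {a, b, c, d} (![b, d] i)) with hU
  set N := (n - 4).choose (k - 1) with hNdef
  have hN' : (0 : ℝ) < N := by exact_mod_cast hN
  have h9 : (Pk n k).powerset.filter (fun H => dg H a = dg H b ∧ dg H c = dg H d) =
      (Pk n k).powerset.filter (fun H => ∀ i : Fin 2, dg H (![a, c] i) = dg H (![b, d] i)) := by
    apply filter_congr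
    intro H _
    rw [Fin.forall_fin_two]
    simp
  rw [h9, h]
  push_cast
  -- pointwise lower bound
  have hpt : ∀ R ∈ (Pk n k \ U).powerset,
      (Nat.centralBinom N : ℝ) ^ 2 * (1 - ((dg R a : ℝ) - dg R b) ^ 2 / N -
        ((dg R c : ℝ) - dg R d) ^ 2 / N) ≤
      ∏ i : Fin 2, (((2 * N).choose (phi N (dg R (![a, c] i)) (dg R (![b, d] i))) : ℕ) : ℝ) := by
    intro R _
    rw [Fin.prod_univ_two]
    simp only [Matrix.cons_val_zero, Matrix.cons_val_one]
    have g1 := choose_phi N (dg R a) (dg R b) hN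
    have g2 := choose_phi N (dg R c) (dg R d) hN
    have p1 : (0 : ℝ) ≤ (((2 * N).choose (phi N (dg R a) (dg R b)) : ℕ) : ℝ) := Nat.cast_nonneg _
    have p2 : (0 : ℝ) ≤ (((2 * N).choose (phi N (dg R c) (dg R d)) : ℕ) : ℝ) := Nat.cast_nonneg _
    have x1 : 0 ≤ ((dg R a : ℝ) - dg R b) ^ 2 / N := by positivity
    have x2 : 0 ≤ ((dg R c : ℝ) - dg R d) ^ 2 / N := by positivity
    have cb : (0 : ℝ) < Nat.centralBinom N := by exact_mod_cast Nat.centralBinom_pos N
    generalize ((dg R a : ℝ) - dg R b) ^ 2 / N = x at *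
    generalize ((dg R c : ℝ) - dg R d) ^ 2 / N = y at *
    generalize (((2 * N).choose (phi N (dg R a) (dg R b)) : ℕ) : ℝ) = A at *
    generalize (((2 * N).choose (phi N (dg R c) (dg R d)) : ℕ) : ℝ) = B at *
    generalize (Nat.centralBinom N : ℝ) = C at *
    by_cases hx : x ≤ 1
    · by_cases hy : y ≤ 1
      · calc C ^ 2 * (1 - x - y) ≤ C ^ 2 * ((1 - x) * (1 - y)) := by
              apply mul_le_mul_of_nonneg_left _ (by positivity)
              nlinarith
          _ = (C * (1 - x)) * (C * (1 - y)) := by ring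
          _ ≤ A * B := by
              apply mul_le_mul g1 g2 (mul_nonneg cb.le (by linarith)) p1
      · have : C ^ 2 * (1 - x - y) ≤ 0 := by
          apply mul_nonpos_of_nonneg_of_nonpos (by positivity)
          push Not at hy; linarith
        linarith [mul_nonneg p1 p2]
    · have : C ^ 2 * (1 - x - y) ≤ 0 := by
        apply mul_nonpos_of_nonneg_of_nonpos (by positivity)
        push Not at hx; linarith
      linarith [mul_nonneg p1 p2]
  refine le_trans ?_ (sum_le_sum hpt)
  -- the variance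
  have hdU : ∀ v ∈ ({a, b, c, d} : Finset (Fin n)), dg (Pk n k \ U) v + N =
      (n - 1).choose (k - 1) := by
    intro v hv
    have g1 := dg_split (Pk n k) U v
    rw [dg_Pk k hk v] at g1
    have g2 : ((Pk n k ∩ U).filter (fun e => v ∈ e)).card = N := by
      rw [hNdef, ← hW, ← card_priv k hk _ v hv]
      congr 1
      ext e
      rw [mem_filter, inter_eq_right.2 hs, hU, mem_biUnion]
      constructor
      · rintro ⟨⟨i, _, hi⟩, hve⟩
        rw [mem_union] at hi
        rcases hi with hi | hi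
        · have := (mem_priv_iff hv hi).1 hve
          rwa [this]
        · have := (mem_priv_iff hv hi).1 hve
          rwa [this]
      · intro he
        refine ⟨?_, (mem_priv_iff hv he).2 rfl⟩
        simp only [mem_insert, mem_singleton] at hv
        rcases hv with rfl | rfl | rfl | rfl
        · exact ⟨0, mem_univ _, mem_union_left _ he⟩
        · exact ⟨0, mem_univ _, mem_union_right _ he⟩
        · exact ⟨1, mem_univ _, mem_union_left _ he⟩
        · exact ⟨1, mem_univ _, mem_union_right _ he⟩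
    omega
  set M1 := (n - 1).choose (k - 1) with hM1
  have hvar : ∀ u v : Fin n, u ∈ ({a, b, c, d} : Finset (Fin n)) →
      v ∈ ({a, b, c, d} : Finset (Fin n)) →
      ∑ R ∈ (Pk n k \ U).powerset, ((dg R u : ℝ) - dg R v) ^ 2 ≤
        2 ^ (Pk n k \ U).card * (((M1 : ℝ) - N) / 2) := by
    intro u v hu' hv'
    have g := (signed_sum (fun e : Finset (Fin n) =>
      (if u ∈ e then (1:ℝ) else 0) - if v ∈ e then 1 else 0) (Pk n k \ U)).2
    have g1 : ∑ e ∈ Pk n k \ U, ((if u ∈ e then (1:ℝ) else 0) - if v ∈ e then 1 else 0) = 0 := by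
      rw [← dg_real]
      have e1 := hdU u hu'
      have e2 := hdU v hv'
      have : dg (Pk n k \ U) u = dg (Pk n k \ U) v := by omega
      rw [this, sub_self]
    have g2 : ∑ e ∈ Pk n k \ U, ((if u ∈ e then (1:ℝ) else 0) - if v ∈ e then 1 else 0) ^ 2 ≤
        2 * ((M1 : ℝ) - N) := by
      have e1 := hdU u hu'
      have e2 := hdU v hv'
      have e3 : ((dg (Pk n k \ U) u : ℕ) : ℝ) = (M1 : ℝ) - N := by
        have : ((dg (Pk n k \ U) u + N : ℕ) : ℝ) = M1 := by exact_mod_cast e1
        push_cast at this; linarith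
      have e4 : ((dg (Pk n k \ U) v : ℕ) : ℝ) = (M1 : ℝ) - N := by
        have : ((dg (Pk n k \ U) v + N : ℕ) : ℝ) = M1 := by exact_mod_cast e2
        push_cast at this; linarith
      have e5 : ∑ e ∈ Pk n k \ U, ((if u ∈ e then (1:ℝ) else 0) - if v ∈ e then 1 else 0) ^ 2 ≤
          ∑ e ∈ Pk n k \ U, ((if u ∈ e then (1:ℝ) else 0) + if v ∈ e then 1 else 0) := by
        apply sum_le_sum
        intro e _
        split_ifs <;> norm_num
      rw [sum_add_distrib] at e5
      have e6 : ∑ e ∈ Pk n k \ U, (if u ∈ e then (1:ℝ) else 0) = ((dg (Pk n k \ U) u : ℕ) : ℝ) := by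
        unfold dg; rw [card_filter]; push_cast; rfl
      have e7 : ∑ e ∈ Pk n k \ U, (if v ∈ e then (1:ℝ) else 0) = ((dg (Pk n k \ U) v : ℕ) : ℝ) := by
        unfold dg; rw [card_filter]; push_cast; rfl
      rw [e6, e7, e3, e4] at e5
      linarith
    have g3 : ∑ R ∈ (Pk n k \ U).powerset, ((dg R u : ℝ) - dg R v) ^ 2 =
        ∑ R ∈ (Pk n k \ U).powerset, (∑ e ∈ R,
          ((if u ∈ e then (1:ℝ) else 0) - if v ∈ e then 1 else 0)) ^ 2 := by
      refine sum_congr rfl (fun R _ => ?_)
      rw [dg_real]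
    rw [g3, g, g1]
    have : (0 : ℝ) < 2 ^ (Pk n k \ U).card := by positivity
    nlinarith
  have v1 := hvar a b (by simp) (by simp)
  have v2 := hvar c d (by simp) (by simp)
  rw [← mul_sum, sum_sub_distrib, sum_sub_distrib, ← sum_div, ← sum_div, sum_const,
    card_powerset, nsmul_eq_mul, mul_one]
  have h2 : 2 * (2 * N) ≤ (Pk n k).card := by rw [← hc]; exact card_le_card hs
  have hPU : (Pk n k \ U).card = (Pk n k).card - 2 * (2 * N) := by
    rw [card_sdiff_of_subset hs, hc]
  have hps := pow_split (Pk n k).card N 2 h2 (Nat.centralBinom N : ℝ)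
  rw [← hPU] at hps
  have e1 : 2 ^ (Pk n k).card * (pc N ^ 2 * (2 - (M1 : ℝ) / N)) =
      (Nat.centralBinom N : ℝ) ^ 2 * (2 ^ (Pk n k \ U).card * (2 - (M1 : ℝ) / N)) := by
    have : (2 : ℝ) ^ (Pk n k).card * pc N ^ 2 =
        2 ^ (Pk n k \ U).card * (Nat.centralBinom N : ℝ) ^ 2 := by rw [hps]; rfl
    rw [← mul_assoc, this]; ring
  rw [e1]
  apply mul_le_mul_of_nonneg_left _ (by positivity)
  push_cast
  set T := (2 : ℝ) ^ (Pk n k \ U).card with hT
  have f1 : (∑ R ∈ (Pk n k \ U).powerset, ((dg R a : ℝ) - dg R b) ^ 2) / N ≤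
      T * (((M1 : ℝ) - N) / 2) / N := div_le_div_of_nonneg_right v1 hN'.le
  have f2 : (∑ R ∈ (Pk n k \ U).powerset, ((dg R c : ℝ) - dg R d) ^ 2) / N ≤
      T * (((M1 : ℝ) - N) / 2) / N := div_le_div_of_nonneg_right v2 hN'.le
  have f3 : T * (2 - (M1 : ℝ) / N) = T - T * (((M1 : ℝ) - N) / 2) / N -
      T * (((M1 : ℝ) - N) / 2) / N := by
    field_simp; ring
  rw [f3]
  linarith

end Q113.Deg
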