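import Pool.Agent.Q113.DegTie
import Pool.Agent.Q113.DegBinom

set_option autoImplicit false

/-! Probabilities of ties. -/

namespace Q113.Deg

open Finset

variable {n : ℕ}

theorem blocks_card {j : ℕ} (k : ℕ) (hk : 1 ≤ k) (W : Finset (Fin n)) (u v : Fin j → Fin n)
    (hu : Function.Injective u) (hv : Function.Injective v) (huv : ∀ i l, u i ≠ v l)
    (huW : ∀ i, u i ∈ W) (hvW : ∀ i, v i ∈ W) :
    (univ.biUnion (fun i => priv k W (u i) ∪ priv k W (v i))).card =
      j * (2 * (n - W.card).choose (k - 1)) := by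
  rw [card_biUnion]
  · rw [sum_congr rfl (g := fun _ => 2 * (n - W.card).choose (k - 1))]
    · simp
    · intro i _
      rw [card_union_of_disjoint (priv_disj (huv i i)), card_priv k hk W _ (huW i),
        card_priv k hk W _ (hvW i)]
      ring
  · intro i _ l _ hil
    change Disjoint (priv k W (u i) ∪ priv k W (v i)) (priv k W (u l) ∪ priv k W (v l))
    rw [disjoint_union_left, disjoint_union_right, disjoint_union_right]
    exact ⟨⟨priv_disj (fun h => hil (hu h)), priv_disj (huv i l)⟩,
      priv_disj (fun h => huv l i h.symm), priv_disj (fun h => hil (hv h))⟩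

theorem blocks_sub {j : ℕ} (k : ℕ) (W : Finset (Fin n)) (u v : Fin j → Fin n) :
    univ.biUnion (fun i => priv k W (u i) ∪ priv k W (v i)) ⊆ Pk n k := by
  intro e he
  obtain ⟨i, _, hi⟩ := mem_biUnion.1 he
  rcases mem_union.1 hi with h | h
  · exact priv_sub _ _ _ h
  · exact priv_sub _ _ _ h

theorem pow_split (p N j : ℕ) (h : j * (2 * N) ≤ p) (c : ℝ) :
    (2 : ℝ) ^ (p - j * (2 * N)) * c ^ j = 2 ^ p * (c / 4 ^ N) ^ j := by
  rw [pow_sub₀ _ two_ne_zero h, div_pow, ← pow_mul]
  have : (2 : ℝ) ^ (j * (2 * N)) = 4 ^ (N * j) := by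
    rw [mul_comm N j, ← mul_assoc, mul_comm j 2, mul_assoc, pow_mul]; norm_num
  rw [this]
  field_simp

/-- upper bound for the probability that disjoint pairs are all tied -/
theorem ties_le {j : ℕ} (k : ℕ) (hk : 1 ≤ k) (W : Finset (Fin n)) (u v : Fin j → Fin n)
    (hu : Function.Injective u) (hv : Function.Injective v) (huv : ∀ i l, u i ≠ v l)
    (huW : ∀ i, u i ∈ W) (hvW : ∀ i, v i ∈ W) :
    (((Pk n k).powerset.filter (fun H => ∀ i, dg H (u i) = dg H (v i))).card : ℝ) ≤
      2 ^ (Pk n k).card * pc ((n - W.card).choose (k - 1)) ^ j := by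
  set N := (n - W.card).choose (k - 1) with hN
  rw [ties_eq k hk W u v hu hv huv huW hvW, ← hN]
  set U := univ.biUnion (fun i => priv k W (u i) ∪ priv k W (v i)) with hU
  have hUc : U.card = j * (2 * N) := blocks_card k hk W u v hu hv huv huW hvW
  have hUP : U ⊆ Pk n k := blocks_sub k W u v
  have h1 : ∑ R ∈ (Pk n k \ U).powerset,
      ∏ i, (2 * N).choose (phi N (dg R (u i)) (dg R (v i))) ≤
      ∑ R ∈ (Pk n k \ U).powerset, Nat.centralBinom N ^ j := by
    apply sum_le_sum
    intro R _
    calc ∏ i, (2 * N).choose (phi N (dg R (u i)) (dg R (v i)))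
        ≤ ∏ _i : Fin j, Nat.centralBinom N := by
          apply prod_le_prod'
          intro i _
          exact Nat.choose_le_centralBinom _ _
      _ = _ := by simp
  rw [sum_const, card_powerset, smul_eq_mul, card_sdiff_of_subset hUP, hUc] at h1
  have h2 : j * (2 * N) ≤ (Pk n k).card := by rw [← hUc]; exact card_le_card hUP
  calc ((∑ R ∈ (Pk n k \ U).powerset,
      ∏ i, (2 * N).choose (phi N (dg R (u i)) (dg R (v i))) : ℕ) : ℝ)
      ≤ ((2 ^ ((Pk n k).card - j * (2 * N)) * Nat.centralBinom N ^ j : ℕ) : ℝ) := by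
        exact_mod_cast h1
    _ = 2 ^ ((Pk n k).card - j * (2 * N)) * (Nat.centralBinom N : ℝ) ^ j := by push_cast; ring
    _ = _ := by rw [pow_split _ N j h2]; rfl

/-- exact probability of one tie -/
theorem tie_one (k : ℕ) (hk : 1 ≤ k) (a b : Fin n) (hab : a ≠ b) :
    (((Pk n k).powerset.filter (fun H => dg H a = dg H b)).card : ℝ) =
      2 ^ (Pk n k).card * pc ((n - 2).choose (k - 1)) := by
  classical
  have hW : ({a, b} : Finset (Fin n)).card = 2 := card_pair hab
  have h := ties_eq (j := 1) k hk {a, b} (fun _ => a) (fun _ => b)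
    (fun i l _ => Subsingleton.elim _ _) (fun i l _ => Subsingleton.elim _ _)
    (fun _ _ => hab) (by simp) (by simp)
  have hc := blocks_card (j := 1) k hk {a, b} (fun _ => a) (fun _ => b)
    (fun i l _ => Subsingleton.elim _ _) (fun i l _ => Subsingleton.elim _ _)
    (fun _ _ => hab) (by simp) (by simp)
  have hs := blocks_sub (j := 1) k {a, b} (fun _ => a) (fun _ => b)
  rw [hW] at h hc
  set U := (univ : Finset (Fin 1)).biUnion
    (fun _ => priv k {a, b} a ∪ priv k {a, b} b) with hU
  set N := (n - 2).choose (k - 1) with hN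
  have h1 : ∀ R ∈ (Pk n k \ U).powerset, ∏ _i : Fin 1,
      (2 * N).choose (phi N (dg R a) (dg R b)) = Nat.centralBinom N := by
    intro R hR
    rw [mem_powerset] at hR
    have h2 : dg R a = dg R b := by
      unfold dg
      congr 1
      apply filter_congr
      intro e he
      have h3 := mem_sdiff.1 (hR he)
      have h4 : e ∉ U := h3.2
      rw [hU, mem_biUnion] at h4
      push Not at h4
      have h5 := h4 0 (mem_univ _)
      rw [mem_union, not_or] at h5
      have h6 : e ∩ {a, b} ≠ {a} := fun h => h5.1 (mem_filter.2 ⟨h3.1, h⟩)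
      have h7 : e ∩ {a, b} ≠ {b} := fun h => h5.2 (mem_filter.2 ⟨h3.1, h⟩)
      constructor
      · intro ha
        by_contra hb
        apply h6
        ext x
        simp only [mem_inter, mem_insert, mem_singleton]
        constructor
        · rintro ⟨g1, g2 | g2⟩
          · exact g2
          · exact absurd (g2 ▸ g1) hb
        · rintro rfl
          exact ⟨ha, Or.inl rfl⟩
      · intro hb
        by_contra ha
        apply h7
        ext x
        simp only [mem_inter, mem_insert, mem_singleton]
        constructor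
        · rintro ⟨g1, g2 | g2⟩
          · exact absurd (g2 ▸ g1) ha
          · exact g2
        · rintro rfl
          exact ⟨hb, Or.inr rfl⟩
    have h8 : phi N (dg R a) (dg R b) = N := by
      rw [h2]; unfold phi; split_ifs <;> omega
    rw [h8]
    simp [Nat.centralBinom]
  rw [sum_congr rfl h1, sum_const, card_powerset, smul_eq_mul, card_sdiff_of_subset hs, hc] at h
  have h9 : (Pk n k).powerset.filter (fun H => dg H a = dg H b) =
      (Pk n k).powerset.filter (fun H => ∀ _i : Fin 1, dg H a = dg H b) := by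
    apply filter_congr
    intro H _
    simp
  have h2 : 1 * (2 * N) ≤ (Pk n k).card := by rw [← hc]; exact card_le_card hs
  rw [h9, h]
  push_cast
  have := pow_split (Pk n k).card N 1 h2 (Nat.centralBinom N : ℝ)
  rw [pow_one, pow_one] at this
  rw [this]; rfl

/-- two disjoint pairs -/
theorem tie_two_le (k : ℕ) (hk : 1 ≤ k) (a b c d : Fin n) (hab : a ≠ b) (hcd : c ≠ d)
    (hac : a ≠ c) (had : a ≠ d) (hbc : b ≠ c) (hbd : b ≠ d) :
    (((Pk n k).powerset.filter (fun H => dg H a = dg H b ∧ dg H c = dg H d)).card : ℝ) ≤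
      2 ^ (Pk n k).card * pc ((n - 4).choose (k - 1)) ^ 2 := by
  classical
  have hW : ({a, b, c, d} : Finset (Fin n)).card = 4 := by
    rw [card_insert_of_notMem (by simp [hab, hac, had]),
      card_insert_of_notMem (by simp [hbc, hbd]), card_pair hcd]
  have h := ties_le (j := 2) k hk {a, b, c, d} ![a, c] ![b, d] ?_ ?_ ?_ ?_ ?_
  · rw [hW] at h
    refine le_trans (le_of_eq ?_) h
    congr 2
    apply filter_congr
    intro H _
    rw [Fin.forall_fin_two]
    simp
  · intro i l h; fin_cases i <;> fin_cases l <;> simp_all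
  · intro i l h; fin_cases i <;> fin_cases l <;> simp_all
  · intro i l; fin_cases i <;> fin_cases l <;> simp_all [Ne.symm]
  · intro i; fin_cases i <;> simp
  · intro i; fin_cases i <;> simp

/-- a path `x - r - y` -/
theorem tie_path_le (k : ℕ) (hk : 1 ≤ k) (r x y : Fin n) (hrx : r ≠ x) (hry : r ≠ y)
    (hxy : x ≠ y) :
    (((Pk n k).powerset.filter (fun H => dg H x = dg H r ∧ dg H y = dg H r)).card : ℝ) ≤
      2 ^ (Pk n k).card * qc ((n - 3).choose (k - 1)) ^ 2 := by
  classical
  have hW : ({r, x, y} : Finset (Fin n)).card = 3 := by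
    rw [card_insert_of_notMem (by simp [hrx, hry]), card_pair hxy]
  have h := free_le (j := 2) k hk {r, x, y} ![x, y] ?_ ?_ (fun _ R => dg R r)
    (fun H => dg H x = dg H r ∧ dg H y = dg H r) ?_
  · rw [hW] at h
    exact h
  · intro i l h; fin_cases i <;> fin_cases l <;> simp_all
  · intro i; fin_cases i <;> simp
  · intro H hH i
    have := dg_split_other k {r, x, y} ![x, y] H r (by simp)
      (fun i => by fin_cases i <;> simp [hrx.symm, hry.symm])
    rw [← this]
    fin_cases i
    · exact hH.1
    · exact hH.2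

end Q113.Deg
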