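import Pool.Agent.Q113.DegMoment

set_option autoImplicit false

/-! The second moment of the number of ties. -/

namespace Q113.Deg

open Finset

variable {n : ℕ}

/-- `p` is a tie of `H` -/
def Tie (H : Finset (Finset (Fin n))) (p : Fin n × Fin n) : Prop :=
  p.1 ≠ p.2 ∧ dg H p.1 = dg H p.2

instance (H : Finset (Finset (Fin n))) : DecidablePred (Tie H) := fun _ =>
  inferInstanceAs (Decidable (_ ∧ _))

/-- number of (ordered) ties -/
def X (H : Finset (Finset (Fin n))) : ℕ := (univ.filter (Tie H)).card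

theorem sum_X (k : ℕ) :
    ∑ H ∈ (Pk n k).powerset, X H =
      ∑ p : Fin n × Fin n, ((Pk n k).powerset.filter (fun H => Tie H p)).card := by
  unfold X
  simp only [card_filter]
  rw [sum_comm]

theorem sum_X_sq (k : ℕ) :
    ∑ H ∈ (Pk n k).powerset, X H ^ 2 =
      ∑ p : Fin n × Fin n, ∑ q : Fin n × Fin n,
        ((Pk n k).powerset.filter (fun H => Tie H p ∧ Tie H q)).card := by
  have h1 : ∀ H : Finset (Finset (Fin n)), X H ^ 2 =
      ∑ p : Fin n × Fin n, ∑ q : Fin n × Fin n, if Tie H p ∧ Tie H q then 1 else 0 := by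
    intro H
    unfold X
    rw [sq, card_filter, sum_mul_sum]
    refine sum_congr rfl (fun p _ => sum_congr rfl (fun q _ => ?_))
    by_cases h1 : Tie H p <;> by_cases h2 : Tie H q <;> simp [h1, h2]
  simp only [h1, card_filter]
  rw [sum_comm]
  refine sum_congr rfl (fun p _ => ?_)
  rw [sum_comm]

theorem sum_X_eq (k : ℕ) (hk : 1 ≤ k) :
    ((∑ H ∈ (Pk n k).powerset, X H : ℕ) : ℝ) =
      ((n : ℝ) * (n - 1)) * (2 ^ (Pk n k).card * pc ((n - 2).choose (k - 1))) := by
  rw [sum_X]
  push_cast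
  have h1 : ∀ p : Fin n × Fin n, (((Pk n k).powerset.filter (fun H => Tie H p)).card : ℝ) =
      if p.1 ≠ p.2 then 2 ^ (Pk n k).card * pc ((n - 2).choose (k - 1)) else 0 := by
    intro p
    by_cases h : p.1 = p.2
    · have : (Pk n k).powerset.filter (fun H => Tie H p) = ∅ := by
        rw [filter_eq_empty_iff]
        intro H _ hH
        exact hH.1 h
      rw [this]; simp [h]
    · rw [if_pos h, ← tie_one k hk p.1 p.2 h]
      congr 2
      apply filter_congr
      intro H _
      exact ⟨fun hH => hH.2, fun hH => ⟨h, hH⟩⟩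
  rw [sum_congr rfl (fun p _ => h1 p), ← sum_filter, sum_const, nsmul_eq_mul]
  congr 1
  have h2 : (univ.filter (fun p : Fin n × Fin n => p.1 ≠ p.2)).card = n * (n - 1) := by
    have h3 : univ.filter (fun p : Fin n × Fin n => p.1 ≠ p.2) = (univ : Finset (Fin n)).offDiag := by
      ext p; simp
    rw [h3, offDiag_card]
    simp
    rcases n with _ | m
    · simp
    · simp; ring_nf; omega
  rw [h2]
  rcases n with _ | m
  · simp
  · push_cast; simp

open Classical in
/-- pointwise bound -/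
theorem pair_bound (k : ℕ) (hk : 1 ≤ k) (p q : Fin n × Fin n) :
    (((Pk n k).powerset.filter (fun H => Tie H p ∧ Tie H q)).card : ℝ) ≤
      2 ^ (Pk n k).card * (pc ((n - 4).choose (k - 1)) ^ 2 +
        ((if p.1 = q.1 then qc ((n - 3).choose (k - 1)) ^ 2 else 0) +
        (if p.1 = q.2 then qc ((n - 3).choose (k - 1)) ^ 2 else 0) +
        (if p.2 = q.1 then qc ((n - 3).choose (k - 1)) ^ 2 else 0) +
        (if p.2 = q.2 then qc ((n - 3).choose (k - 1)) ^ 2 else 0)) +
        ((if q = p then pc ((n - 2).choose (k - 1)) else 0) +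
        (if q = p.swap then pc ((n - 2).choose (k - 1)) else 0))) := by
  obtain ⟨a, b⟩ := p
  obtain ⟨c, d⟩ := q
  set P2 := pc ((n - 2).choose (k - 1)) with hP2
  set P4 := pc ((n - 4).choose (k - 1)) ^ 2 with hP4
  set Q3 := qc ((n - 3).choose (k - 1)) ^ 2 with hQ3
  have n2 : 0 ≤ P2 := (pc_pos _).le
  have n4 : 0 ≤ P4 := by positivity
  have n3 : 0 ≤ Q3 := by positivity
  have hpow : (0 : ℝ) < 2 ^ (Pk n k).card := by positivity
  -- monotone helper
  have mono : ∀ (Q Q' : Finset (Finset (Fin n)) → Prop) [DecidablePred Q] [DecidablePred Q'],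
      (∀ H, Q H → Q' H) → (((Pk n k).powerset.filter Q).card : ℝ) ≤
        (((Pk n k).powerset.filter Q').card : ℝ) := by
    intro Q Q' _ _ h
    exact_mod_cast card_le_card (fun H hH => by
      rw [mem_filter] at hH ⊢
      exact ⟨hH.1, h H hH.2⟩)
  have nn : ∀ (P : Prop) [Decidable P] (x : ℝ), 0 ≤ x → 0 ≤ if P then x else 0 := by
    intro P _ x hx
    split_ifs
    · exact hx
    · exact le_rfl
  by_cases hab : a = b
  · have : (Pk n k).powerset.filter (fun H => Tie H (a, b) ∧ Tie H (c, d)) = ∅ := by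
      rw [filter_eq_empty_iff]
      intro H _ hH
      exact hH.1.1 hab
    rw [this, card_empty, Nat.cast_zero]
    have := nn (a = c) Q3 n3
    have := nn (a = d) Q3 n3
    have := nn (b = c) Q3 n3
    have := nn (b = d) Q3 n3
    have := nn ((c, d) = (a, b)) P2 n2
    have := nn ((c, d) = (a, b).swap) P2 n2
    positivity
  by_cases hcd : c = d
  · have : (Pk n k).powerset.filter (fun H => Tie H (a, b) ∧ Tie H (c, d)) = ∅ := by
      rw [filter_eq_empty_iff]
      intro H _ hH
      exact hH.2.1 hcd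
    rw [this, card_empty, Nat.cast_zero]
    have := nn (a = c) Q3 n3
    have := nn (a = d) Q3 n3
    have := nn (b = c) Q3 n3
    have := nn (b = d) Q3 n3
    have := nn ((c, d) = (a, b)) P2 n2
    have := nn ((c, d) = (a, b).swap) P2 n2
    positivity
  have one := tie_one k hk a b hab
  rw [← hP2] at one
  have hone : (((Pk n k).powerset.filter (fun H => Tie H (a, b) ∧ Tie H (c, d))).card : ℝ) ≤
      2 ^ (Pk n k).card * P2 := by
    rw [← one]
    exact mono _ _ (fun H h => h.1.2)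
  have path : ∀ r x y : Fin n, r ≠ x → r ≠ y → x ≠ y →
      (∀ H : Finset (Finset (Fin n)), (Tie H (a, b) ∧ Tie H (c, d)) →
        dg H x = dg H r ∧ dg H y = dg H r) →
      (((Pk n k).powerset.filter (fun H => Tie H (a, b) ∧ Tie H (c, d))).card : ℝ) ≤
      2 ^ (Pk n k).card * Q3 := by
    intro r x y h1 h2 h3 h4
    exact (mono _ _ h4).trans (tie_path_le k hk r x y h1 h2 h3)
  have a1 := nn (a = c) Q3 n3
  have a2 := nn (a = d) Q3 n3
  have a3 := nn (b = c) Q3 n3
  have a4 := nn (b = d) Q3 n3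
  have a5 := nn ((c, d) = (a, b)) P2 n2
  have a6 := nn ((c, d) = (a, b).swap) P2 n2
  by_cases hac : a = c
  · by_cases hbd : b = d
    · refine hone.trans ?_
      have : (c, d) = (a, b) := by rw [hac, hbd]
      rw [if_pos this]
      apply mul_le_mul_of_nonneg_left _ hpow.le
      linarith
    · refine (path a b d hab (hac ▸ hcd) hbd ?_).trans ?_
      · rintro H ⟨h1, h2⟩
        have e1 := h1.2
        have e2 := h2.2
        simp only at e1 e2
        subst hac
        exact ⟨e1.symm, e2.symm⟩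
      · simp only
        rw [if_pos hac]
        apply mul_le_mul_of_nonneg_left _ hpow.le
        linarith
  by_cases had : a = d
  · by_cases hbc : b = c
    · refine hone.trans ?_
      have : (c, d) = (a, b).swap := by rw [had, hbc]; rfl
      rw [if_pos this]
      apply mul_le_mul_of_nonneg_left _ hpow.le
      linarith
    · refine (path a b c hab hac hbc ?_).trans ?_
      · rintro H ⟨h1, h2⟩
        have e1 := h1.2
        have e2 := h2.2
        simp only at e1 e2
        subst had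
        exact ⟨e1.symm, e2⟩
      · simp only
        rw [if_pos had]
        apply mul_le_mul_of_nonneg_left _ hpow.le
        linarith
  by_cases hbc : b = c
  · refine (path b a d (fun h => hab h.symm) (hbc ▸ hcd) had ?_).trans ?_
    · rintro H ⟨h1, h2⟩
      have e1 := h1.2
      have e2 := h2.2
      simp only at e1 e2
      subst hbc
      exact ⟨e1, e2.symm⟩
    · simp only
      rw [if_pos hbc]
      apply mul_le_mul_of_nonneg_left _ hpow.le
      linarith
  by_cases hbd : b = d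
  · refine (path b a c (fun h => hab h.symm) hbc hac ?_).trans ?_
    · rintro H ⟨h1, h2⟩
      have e1 := h1.2
      have e2 := h2.2
      simp only at e1 e2
      subst hbd
      exact ⟨e1, e2⟩
    · simp only
      rw [if_pos hbd]
      apply mul_le_mul_of_nonneg_left _ hpow.le
      linarith
  refine le_trans ?_ (le_trans (tie_two_le k hk a b c d hab hcd hac had hbc hbd) ?_)
  · exact mono _ _ (fun H h => ⟨h.1.2, h.2.2⟩)
  · apply mul_le_mul_of_nonneg_left _ hpow.le
    linarith

theorem sum_X_sq_le (k : ℕ) (hk : 1 ≤ k) :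
    ((∑ H ∈ (Pk n k).powerset, X H ^ 2 : ℕ) : ℝ) ≤
      2 ^ (Pk n k).card * ((n : ℝ) ^ 4 * pc ((n - 4).choose (k - 1)) ^ 2 +
        4 * (n : ℝ) ^ 3 * qc ((n - 3).choose (k - 1)) ^ 2 +
        2 * (n : ℝ) ^ 2 * pc ((n - 2).choose (k - 1))) := by
  classical
  rw [sum_X_sq]
  push_cast
  refine (sum_le_sum (fun p _ => sum_le_sum (fun q _ => pair_bound k hk p q))).trans ?_
  simp only [← mul_sum]
  apply mul_le_mul_of_nonneg_left _ (by positivity)
  simp only [sum_add_distrib]
  set P2 := pc ((n - 2).choose (k - 1)) with hP2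
  set P4 := pc ((n - 4).choose (k - 1)) ^ 2 with hP4
  set Q3 := qc ((n - 3).choose (k - 1)) ^ 2 with hQ3
  have e0 : ∑ _p : Fin n × Fin n, ∑ _q : Fin n × Fin n, P4 = (n : ℝ) ^ 4 * P4 := by
    simp only [sum_const, card_univ, Fintype.card_prod, Fintype.card_fin, nsmul_eq_mul]
    push_cast; ring
  have c1 : ∀ x : Fin n, ∑ q : Fin n × Fin n, (if x = q.1 then Q3 else 0) = (n : ℝ) * Q3 := by
    intro x
    rw [Fintype.sum_prod_type, sum_comm]
    simp only [sum_ite_eq, mem_univ, if_true, sum_const, card_univ, Fintype.card_fin,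
      nsmul_eq_mul]
  have c2 : ∀ x : Fin n, ∑ q : Fin n × Fin n, (if x = q.2 then Q3 else 0) = (n : ℝ) * Q3 := by
    intro x
    rw [Fintype.sum_prod_type]
    simp only [sum_ite_eq, mem_univ, if_true, sum_const, card_univ, Fintype.card_fin,
      nsmul_eq_mul]
  have c3 : ∑ _p : Fin n × Fin n, (n : ℝ) * Q3 = (n : ℝ) ^ 3 * Q3 := by
    rw [sum_const, card_univ, Fintype.card_prod, Fintype.card_fin, nsmul_eq_mul]
    push_cast; ring
  have e1 : ∑ p : Fin n × Fin n, ∑ q : Fin n × Fin n, (if p.1 = q.1 then Q3 else 0) =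
      (n : ℝ) ^ 3 * Q3 := by simp only [c1, c3]
  have e2 : ∑ p : Fin n × Fin n, ∑ q : Fin n × Fin n, (if p.1 = q.2 then Q3 else 0) =
      (n : ℝ) ^ 3 * Q3 := by simp only [c2, c3]
  have e3 : ∑ p : Fin n × Fin n, ∑ q : Fin n × Fin n, (if p.2 = q.1 then Q3 else 0) =
      (n : ℝ) ^ 3 * Q3 := by simp only [c1, c3]
  have e4 : ∑ p : Fin n × Fin n, ∑ q : Fin n × Fin n, (if p.2 = q.2 then Q3 else 0) =
      (n : ℝ) ^ 3 * Q3 := by simp only [c2, c3]
  have e5 : ∑ p : Fin n × Fin n, ∑ q : Fin n × Fin n, (if q = p then P2 else 0) =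
      (n : ℝ) ^ 2 * P2 := by
    simp only [sum_ite_eq', mem_univ, if_true, sum_const, card_univ, Fintype.card_prod,
      Fintype.card_fin, nsmul_eq_mul]
    push_cast; ring
  have e6 : ∑ p : Fin n × Fin n, ∑ q : Fin n × Fin n, (if q = p.swap then P2 else 0) =
      (n : ℝ) ^ 2 * P2 := by
    simp only [sum_ite_eq', mem_univ, if_true, sum_const, card_univ, Fintype.card_prod,
      Fintype.card_fin, nsmul_eq_mul]
    push_cast; ring
  rw [e0, e1, e2, e3, e4, e5, e6]
  linarith

/-- the second moment method -/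
theorem second_moment (k : ℕ) (hk : 1 ≤ k) :
    ((n : ℝ) * (n - 1) * pc ((n - 2).choose (k - 1))) ^ 2 ≤
      (((Pk n k).powerset.filter (fun H => ∃ v w : Fin n, v ≠ w ∧ dg H v = dg H w)).card : ℝ) /
        2 ^ (Pk n k).card *
      ((n : ℝ) ^ 4 * pc ((n - 4).choose (k - 1)) ^ 2 +
        4 * (n : ℝ) ^ 3 * qc ((n - 3).choose (k - 1)) ^ 2 +
        2 * (n : ℝ) ^ 2 * pc ((n - 2).choose (k - 1))) := by
  classical
  have hcs := sum_mul_sq_le_sq_mul_sq (Pk n k).powerset
    (fun H : Finset (Finset (Fin n)) => if ∃ v w : Fin n, v ≠ w ∧ dg H v = dg H w then (1:ℝ) else 0)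
    (fun H => (X H : ℝ))
  have h1 : ∑ H ∈ (Pk n k).powerset,
      (if ∃ v w : Fin n, v ≠ w ∧ dg H v = dg H w then (1:ℝ) else 0) * (X H : ℝ) =
      ((∑ H ∈ (Pk n k).powerset, X H : ℕ) : ℝ) := by
    push_cast
    refine sum_congr rfl (fun H _ => ?_)
    split_ifs with h
    · rw [one_mul]
    · rw [zero_mul]
      have : X H = 0 := by
        unfold X
        rw [card_eq_zero, filter_eq_empty_iff]
        intro p _ hp
        exact h ⟨p.1, p.2, hp.1, hp.2⟩
      rw [this]; simp
  have h2 : ∑ H ∈ (Pk n k).powerset,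
      (if ∃ v w : Fin n, v ≠ w ∧ dg H v = dg H w then (1:ℝ) else 0) ^ 2 =
      (((Pk n k).powerset.filter (fun H => ∃ v w : Fin n, v ≠ w ∧ dg H v = dg H w)).card : ℝ) := by
    rw [card_filter]
    push_cast
    refine sum_congr rfl (fun H _ => ?_)
    split_ifs <;> norm_num
  have h3 : ∑ H ∈ (Pk n k).powerset, (X H : ℝ) ^ 2 =
      ((∑ H ∈ (Pk n k).powerset, X H ^ 2 : ℕ) : ℝ) := by push_cast; rfl
  rw [h1, h2, h3, sum_X_eq k hk] at hcs
  have h4 := sum_X_sq_le (n := n) k hk
  set C := (((Pk n k).powerset.filter (fun H => ∃ v w : Fin n, v ≠ w ∧ dg H v = dg H w)).card : ℝ)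
  set S := ((∑ H ∈ (Pk n k).powerset, X H ^ 2 : ℕ) : ℝ)
  set B := ((n : ℝ) ^ 4 * pc ((n - 4).choose (k - 1)) ^ 2 +
        4 * (n : ℝ) ^ 3 * qc ((n - 3).choose (k - 1)) ^ 2 +
        2 * (n : ℝ) ^ 2 * pc ((n - 2).choose (k - 1)))
  set T := (2 : ℝ) ^ (Pk n k).card with hT
  have hT0 : 0 < T := by positivity
  have hC0 : 0 ≤ C := Nat.cast_nonneg _
  have h5 : ((n : ℝ) * (n - 1) * (T * pc ((n - 2).choose (k - 1)))) ^ 2 ≤ C * (T * B) :=
    hcs.trans (mul_le_mul_of_nonneg_left h4 hC0)
  rw [div_mul_eq_mul_div, le_div_iff₀ hT0]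
  have h6 : ((n : ℝ) * (n - 1) * (T * pc ((n - 2).choose (k - 1)))) ^ 2 =
      ((n : ℝ) * (n - 1) * pc ((n - 2).choose (k - 1))) ^ 2 * T * T := by ring
  have h7 : C * (T * B) = C * B * T := by ring
  rw [h6, h7] at h5
  exact le_of_mul_le_mul_right h5 hT0

end Q113.Deg
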