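import Pool.Agent.Q113.DegLower

set_option autoImplicit false

/-! Three ties. -/

namespace Q113.Deg

open Finset

variable {n : ℕ}

/-- three disjoint pairs -/
theorem tie_three_le (k : ℕ) (hk : 1 ≤ k) (a b c d e f : Fin n)
    (hW : ({a, b, c, d, e, f} : Finset (Fin n)).card = 6)
    (hab : a ≠ b) (hac : a ≠ c) (had : a ≠ d) (hae : a ≠ e) (haf : a ≠ f)
    (hbc : b ≠ c) (hbd : b ≠ d) (hbe : b ≠ e) (hbf : b ≠ f)
    (hcd : c ≠ d) (hce : c ≠ e) (hcf : c ≠ f) (hde : d ≠ e) (hdf : d ≠ f) (hef : e ≠ f) :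
    (((Pk n k).powerset.filter
      (fun H => dg H a = dg H b ∧ dg H c = dg H d ∧ dg H e = dg H f)).card : ℝ) ≤
      2 ^ (Pk n k).card * pc ((n - 6).choose (k - 1)) ^ 3 := by
  classical
  have h := ties_le (j := 3) k hk {a, b, c, d, e, f} ![a, c, e] ![b, d, f] ?_ ?_ ?_ ?_ ?_
  · rw [hW] at h
    refine le_trans (le_of_eq ?_) h
    congr 2
    apply filter_congr
    intro H _
    constructor
    · rintro ⟨h1, h2, h3⟩ i
      fin_cases i
      · exact h1
      · exact h2
      · exact h3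
    · intro h
      exact ⟨h 0, h 1, h 2⟩
  · intro i l h; fin_cases i <;> fin_cases l <;> simp_all
  · intro i l h; fin_cases i <;> fin_cases l <;> simp_all
  · intro i l; fin_cases i <;> fin_cases l <;> simp_all [Ne.symm]
  · intro i; fin_cases i <;> simp
  · intro i; fin_cases i <;> simp

/-- the size bound `1 / sqrt (C(n-5,k-1))` -/
noncomputable def B1 (n k : ℕ) : ℝ := 1 / Real.sqrt (((n - 5).choose (k - 1) : ℕ) : ℝ)

theorem B1_nonneg (n k : ℕ) : 0 ≤ B1 n k := by unfold B1; positivity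

theorem qc_le_B1 (k m : ℕ) (hm : m ≤ 5) (h5 : 1 ≤ (n - 5).choose (k - 1)) :
    qc ((n - m).choose (k - 1)) ≤ B1 n k := by
  have h1 : (n - 5).choose (k - 1) ≤ (n - m).choose (k - 1) :=
    Nat.choose_le_choose _ (by omega)
  set N := (n - m).choose (k - 1)
  set N5 := (n - 5).choose (k - 1)
  have hN5 : (1 : ℝ) ≤ N5 := by exact_mod_cast h5
  have h1' : (N5 : ℝ) ≤ N := by exact_mod_cast h1
  have h2 := qc_sq N
  have h3 := qc_nonneg N
  unfold B1
  rw [le_div_iff₀ (Real.sqrt_pos.2 (by linarith))]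
  have h4 : (qc N * Real.sqrt N5) ^ 2 ≤ 1 ^ 2 := by
    rw [mul_pow, Real.sq_sqrt (by linarith), one_pow]
    calc qc N ^ 2 * N5 ≤ qc N ^ 2 * N := mul_le_mul_of_nonneg_left h1' (by positivity)
      _ ≤ 1 := h2
  exact le_of_sq_le_sq h4 (by norm_num)

/-- three free vertices -/
theorem three_free (k : ℕ) (hk : 1 ≤ k) (h5 : 1 ≤ (n - 5).choose (k - 1))
    (r x y z w : Fin n) (hrx : r ≠ x) (hry : r ≠ y) (hxy : x ≠ y)
    (hzr : z ≠ r) (hzx : z ≠ x) (hzy : z ≠ y) (hzw : z ≠ w)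
    (Q : Finset (Finset (Fin n)) → Prop) [DecidablePred Q]
    (hQ : ∀ H, Q H → dg H x = dg H r ∧ dg H y = dg H r ∧ dg H z = dg H w) :
    (((Pk n k).powerset.filter Q).card : ℝ) ≤ 2 ^ (Pk n k).card * B1 n k ^ 3 := by
  classical
  have hrW : r ∈ ({r, x, y, z, w} : Finset (Fin n)) := by simp
  have hinj : Function.Injective ![x, y, z] := by
    intro i l h; fin_cases i <;> fin_cases l <;> simp_all
  have hmem : ∀ i : Fin 3, ![x, y, z] i ∈ ({r, x, y, z, w} : Finset (Fin n)) := by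
    intro i; fin_cases i <;> simp
  have hrn : ∀ i : Fin 3, ![x, y, z] i ≠ r := by
    intro i; fin_cases i
    · exact hrx.symm
    · exact hry.symm
    · exact hzr
  -- the root used for z
  set w' : Fin n := if w = x ∨ w = y then r else w with hw'
  have hw'W : w' ∈ ({r, x, y, z, w} : Finset (Fin n)) := by
    rw [hw']; split_ifs <;> simp
  have hw'n : ∀ i : Fin 3, ![x, y, z] i ≠ w' := by
    intro i
    rw [hw']
    split_ifs with h
    · exact hrn i
    · push Not at h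
      fin_cases i
      · exact h.1.symm
      · exact h.2.symm
      · exact hzw
  have h := free_le (j := 3) k hk {r, x, y, z, w} ![x, y, z] hinj hmem
    (fun i R => if i = 2 then dg R w' else dg R r) Q ?_
  · refine h.trans ?_
    apply mul_le_mul_of_nonneg_left _ (by positivity)
    have hcard : ({r, x, y, z, w} : Finset (Fin n)).card ≤ 5 := card_le_five
    exact pow_le_pow_left₀ (qc_nonneg _) (qc_le_B1 k _ hcard h5) 3
  · intro H hH i
    obtain ⟨e1, e2, e3⟩ := hQ H hH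
    have s1 := dg_split_other k {r, x, y, z, w} ![x, y, z] H r hrW hrn
    have s2 := dg_split_other k {r, x, y, z, w} ![x, y, z] H w' hw'W hw'n
    have e4 : dg H z = dg H w' := by
      rw [hw', e3]
      split_ifs with h
      · rcases h with h | h
        · rw [h]; exact e1
        · rw [h]; exact e2
      · rfl
    fin_cases i
    · simp only [Fin.zero_eta, Fin.isValue]
      rw [if_neg (by decide), ← s1]
      exact e1
    · simp only [Fin.mk_one, Fin.isValue]
      rw [if_neg (by decide), ← s1]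
      exact e2
    · simp only [Fin.reduceFinMk, Fin.isValue, if_true]
      rw [← s2]
      exact e4

/-- two adjacent pairs -/
theorem path_B1 (k : ℕ) (hk : 1 ≤ k) (h5 : 1 ≤ (n - 5).choose (k - 1))
    (r x y : Fin n) (hrx : r ≠ x) (hry : r ≠ y) (hxy : x ≠ y)
    (Q : Finset (Finset (Fin n)) → Prop) [DecidablePred Q]
    (hQ : ∀ H, Q H → dg H x = dg H r ∧ dg H y = dg H r) :
    (((Pk n k).powerset.filter Q).card : ℝ) ≤ 2 ^ (Pk n k).card * B1 n k ^ 2 := by
  have h1 : (((Pk n k).powerset.filter Q).card : ℝ) ≤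
      (((Pk n k).powerset.filter (fun H => dg H x = dg H r ∧ dg H y = dg H r)).card : ℝ) := by
    exact_mod_cast card_le_card (fun H hH => by
      rw [mem_filter] at hH ⊢
      exact ⟨hH.1, hQ H hH.2⟩)
  refine h1.trans ((tie_path_le k hk r x y hrx hry hxy).trans ?_)
  apply mul_le_mul_of_nonneg_left _ (by positivity)
  exact pow_le_pow_left₀ (qc_nonneg _) (qc_le_B1 k 3 (by norm_num) h5) 2

/-- the vertices of three pairs -/
def six (t : (Fin n × Fin n) × (Fin n × Fin n) × (Fin n × Fin n)) : Finset (Fin n) :=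
  {t.1.1, t.1.2, t.2.1.1, t.2.1.2, t.2.2.1, t.2.2.2}

/-- the bound for non-disjoint triples -/
noncomputable def bd (k : ℕ) (t : (Fin n × Fin n) × (Fin n × Fin n) × (Fin n × Fin n)) : ℝ :=
  (if (six t).card ≤ 5 then B1 n k ^ 3 else 0) + (if (six t).card ≤ 3 then B1 n k ^ 2 else 0)

theorem bd_nonneg (k : ℕ) (t : (Fin n × Fin n) × (Fin n × Fin n) × (Fin n × Fin n)) :
    0 ≤ bd k t := by
  have := B1_nonneg n k
  unfold bd
  split_ifs <;> positivity

/-- if the first two of three distinct pairs share a vertex -/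
theorem share_bound (k : ℕ) (hk : 1 ≤ k) (h5 : 1 ≤ (n - 5).choose (k - 1))
    (a b c d e f : Fin n) (hab : a ≠ b) (hcd : c ≠ d) (hef : e ≠ f)
    (h1 : ¬ (a = c ∧ b = d)) (h2 : ¬ (a = d ∧ b = c))
    (hsh : a = c ∨ a = d ∨ b = c ∨ b = d)
    (Q : Finset (Finset (Fin n)) → Prop) [DecidablePred Q]
    (hQ : ∀ H, Q H → dg H a = dg H b ∧ dg H c = dg H d ∧ dg H e = dg H f) :
    (((Pk n k).powerset.filter Q).card : ℝ) ≤
      2 ^ (Pk n k).card * bd k ((a, b), (c, d), (e, f)) := by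
  classical
  -- the path r, x, y
  obtain ⟨r, x, y, hrx, hry, hxy, hset, hr⟩ : ∃ r x y : Fin n, r ≠ x ∧ r ≠ y ∧ x ≠ y ∧
      ({a, b, c, d} : Finset (Fin n)) = {r, x, y} ∧
      ∀ H : Finset (Finset (Fin n)), dg H a = dg H b → dg H c = dg H d →
        dg H x = dg H r ∧ dg H y = dg H r := by
    rcases hsh with h | h | h | h
    · subst h
      refine ⟨a, b, d, hab, hcd, fun h => h1 ⟨rfl, h⟩, ?_, fun H g1 g2 => ⟨g1.symm, g2.symm⟩⟩
      ext v; simp only [mem_insert, mem_singleton]; tauto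
    · subst h
      refine ⟨a, b, c, hab, hcd.symm, fun h => h2 ⟨rfl, h⟩, ?_, fun H g1 g2 => ⟨g1.symm, g2⟩⟩
      ext v; simp only [mem_insert, mem_singleton]; tauto
    · subst h
      refine ⟨b, a, d, hab.symm, hcd, fun h => h2 ⟨h, rfl⟩, ?_, fun H g1 g2 => ⟨g1, g2.symm⟩⟩
      ext v; simp only [mem_insert, mem_singleton]; tauto
    · subst h
      refine ⟨b, a, c, hab.symm, hcd.symm, fun h => h1 ⟨h, rfl⟩, ?_, fun H g1 g2 => ⟨g1, g2⟩⟩
      ext v; simp only [mem_insert, mem_singleton]; tauto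
  have hsix : six ((a, b), (c, d), (e, f)) = {r, x, y} ∪ {e, f} := by
    rw [← hset]
    unfold six
    ext v; simp only [mem_insert, mem_singleton, mem_union]; tauto
  have hc3 : ({r, x, y} : Finset (Fin n)).card = 3 := by
    rw [card_insert_of_notMem (by simp [hrx, hry]), card_pair hxy]
  have hB := B1_nonneg n k
  have hc5 : (six ((a, b), (c, d), (e, f))).card ≤ 5 := by
    rw [hsix]
    refine (card_union_le _ _).trans ?_
    rw [hc3, card_pair hef]
  by_cases hin : e ∈ ({r, x, y} : Finset (Fin n)) ∧ f ∈ ({r, x, y} : Finset (Fin n))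
  · have hc : (six ((a, b), (c, d), (e, f))).card ≤ 3 := by
      rw [hsix, ← hc3]
      apply card_le_card
      apply union_subset le_rfl
      intro v hv
      rw [mem_insert, mem_singleton] at hv
      rcases hv with rfl | rfl
      · exact hin.1
      · exact hin.2
    refine (path_B1 k hk h5 r x y hrx hry hxy Q (fun H hH => hr H (hQ H hH).1 (hQ H hH).2.1)).trans ?_
    apply mul_le_mul_of_nonneg_left _ (by positivity)
    unfold bd
    rw [if_pos hc5, if_pos hc]
    have : 0 ≤ B1 n k ^ 3 := by positivity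
    linarith
  · have h3 : (((Pk n k).powerset.filter Q).card : ℝ) ≤ 2 ^ (Pk n k).card * B1 n k ^ 3 := by
      rw [not_and_or] at hin
      rcases hin with hin | hin
      · simp only [mem_insert, mem_singleton, not_or] at hin
        exact three_free k hk h5 r x y e f hrx hry hxy hin.1 hin.2.1 hin.2.2 hef Q
          (fun H hH => ⟨(hr H (hQ H hH).1 (hQ H hH).2.1).1, (hr H (hQ H hH).1 (hQ H hH).2.1).2,
            (hQ H hH).2.2⟩)
      · simp only [mem_insert, mem_singleton, not_or] at hin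
        exact three_free k hk h5 r x y f e hrx hry hxy hin.1 hin.2.1 hin.2.2 hef.symm Q
          (fun H hH => ⟨(hr H (hQ H hH).1 (hQ H hH).2.1).1, (hr H (hQ H hH).1 (hQ H hH).2.1).2,
            (hQ H hH).2.2.symm⟩)
    refine h3.trans ?_
    apply mul_le_mul_of_nonneg_left _ (by positivity)
    unfold bd
    rw [if_pos hc5]
    have : 0 ≤ (if (six ((a, b), (c, d), (e, f))).card ≤ 3 then B1 n k ^ 2 else 0) := by
      split_ifs <;> positivity
    linarith

theorem bd_perm1 (k : ℕ) (p q r : Fin n × Fin n) : bd k (p, r, q) = bd k (p, q, r) := by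
  have : six (p, r, q) = six (p, q, r) := by
    unfold six; ext v; simp only [mem_insert, mem_singleton]; tauto
  unfold bd; rw [this]

theorem bd_perm2 (k : ℕ) (p q r : Fin n × Fin n) : bd k (q, r, p) = bd k (p, q, r) := by
  have : six (q, r, p) = six (p, q, r) := by
    unfold six; ext v; simp only [mem_insert, mem_singleton]; tauto
  unfold bd; rw [this]

/-- pointwise bound for three distinct increasing pairs -/
theorem triple_bound (k : ℕ) (hk : 1 ≤ k) (h5 : 1 ≤ (n - 5).choose (k - 1))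
    (p q r : Fin n × Fin n) (hp : p.1 < p.2) (hq : q.1 < q.2) (hr : r.1 < r.2)
    (hpq : p ≠ q) (hpr : p ≠ r) (hqr : q ≠ r) :
    (((Pk n k).powerset.filter
      (fun H => dg H p.1 = dg H p.2 ∧ dg H q.1 = dg H q.2 ∧ dg H r.1 = dg H r.2)).card : ℝ) ≤
      2 ^ (Pk n k).card * (pc ((n - 6).choose (k - 1)) ^ 3 + bd k (p, q, r)) := by
  classical
  obtain ⟨a, b⟩ := p
  obtain ⟨c, d⟩ := q
  obtain ⟨e, f⟩ := r
  simp only at hp hq hr
  have key : ∀ a b c d : Fin n, a < b → c < d → (a, b) ≠ (c, d) →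
      ¬ (a = c ∧ b = d) ∧ ¬ (a = d ∧ b = c) := by
    intro a b c d h1 h2 h3
    refine ⟨fun h => h3 (by rw [h.1, h.2]), fun h => ?_⟩
    rw [h.1, h.2] at h1
    exact lt_asymm h1 h2
  have hpc : 0 ≤ pc ((n - 6).choose (k - 1)) ^ 3 := (pow_pos (pc_pos _) 3).le
  have hT : (0 : ℝ) ≤ 2 ^ (Pk n k).card := by positivity
  have hfin : ∀ x : ℝ, x ≤ 2 ^ (Pk n k).card * bd k ((a, b), (c, d), (e, f)) →
      x ≤ 2 ^ (Pk n k).card *
        (pc ((n - 6).choose (k - 1)) ^ 3 + bd k ((a, b), (c, d), (e, f))) := by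
    intro x hx
    refine hx.trans ?_
    apply mul_le_mul_of_nonneg_left _ hT
    linarith
  by_cases s1 : a = c ∨ a = d ∨ b = c ∨ b = d
  · apply hfin
    obtain ⟨k1, k2⟩ := key a b c d hp hq hpq
    exact share_bound k hk h5 a b c d e f hp.ne hq.ne hr.ne k1 k2 s1 _ (fun H hH => hH)
  by_cases s2 : a = e ∨ a = f ∨ b = e ∨ b = f
  · apply hfin
    obtain ⟨k1, k2⟩ := key a b e f hp hr hpr
    rw [← bd_perm1]
    exact share_bound k hk h5 a b e f c d hp.ne hr.ne hq.ne k1 k2 s2 _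
      (fun H hH => ⟨hH.1, hH.2.2, hH.2.1⟩)
  by_cases s3 : c = e ∨ c = f ∨ d = e ∨ d = f
  · apply hfin
    obtain ⟨k1, k2⟩ := key c d e f hq hr hqr
    rw [← bd_perm2]
    exact share_bound k hk h5 c d e f a b hq.ne hr.ne hp.ne k1 k2 s3 _
      (fun H hH => ⟨hH.2.1, hH.2.2, hH.1⟩)
  push Not at s1 s2 s3
  obtain ⟨hac, had, hbc, hbd⟩ := s1
  obtain ⟨hae, haf, hbe, hbf⟩ := s2
  obtain ⟨hce, hcf, hde, hdf⟩ := s3
  have hW : ({a, b, c, d, e, f} : Finset (Fin n)).card = 6 := by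
    rw [card_insert_of_notMem (by simp [hp.ne, hac, had, hae, haf]),
      card_insert_of_notMem (by simp [hbc, hbd, hbe, hbf]),
      card_insert_of_notMem (by simp [hq.ne, hce, hcf]),
      card_insert_of_notMem (by simp [hde, hdf]), card_pair hr.ne]
  refine (tie_three_le k hk a b c d e f hW hp.ne hac had hae haf hbc hbd hbe hbf hq.ne hce hcf
    hde hdf hr.ne).trans ?_
  apply mul_le_mul_of_nonneg_left _ hT
  have := bd_nonneg k ((a, b), (c, d), (e, f))
  linarith

/-- few sextuples have few distinct entries -/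
theorem six_count (m : ℕ) (hm : 1 ≤ m) :
    ((univ : Finset ((Fin n × Fin n) × (Fin n × Fin n) × (Fin n × Fin n))).filter
      (fun t => (six t).card ≤ m)).card ≤ m ^ 6 * n ^ m := by
  classical
  have h1 : (univ : Finset ((Fin 6 → Fin m) × (Fin m → Fin n))).card = m ^ 6 * n ^ m := by
    rw [card_univ, Fintype.card_prod, Fintype.card_fun, Fintype.card_fun]
    simp
  rw [← h1]
  apply card_le_card_of_surjOn (fun gh => ((gh.2 (gh.1 0), gh.2 (gh.1 1)),
    (gh.2 (gh.1 2), gh.2 (gh.1 3)), (gh.2 (gh.1 4), gh.2 (gh.1 5))))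
  intro t ht
  simp only [coe_filter, mem_univ, true_and, Set.mem_ofPred_eq] at ht
  have hne : (six t).Nonempty := ⟨t.1.1, by simp [six]⟩
  haveI : Nonempty (six t) := hne.to_subtype
  have hemb : Nonempty ((six t) ↪ Fin m) := by
    apply Function.Embedding.nonempty_of_card_le
    rw [Fintype.card_coe, Fintype.card_fin]; exact ht
  obtain ⟨φ⟩ := hemb
  set ψ : Fin m → Fin n := fun i => (Function.invFun φ i : six t) with hψ
  have hinv : ∀ x : six t, ψ (φ x) = x := fun x => by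
    rw [hψ]; simp only; rw [Function.leftInverse_invFun φ.injective x]
  obtain ⟨⟨a, b⟩, ⟨c, d⟩, ⟨e, f⟩⟩ := t
  have ha : a ∈ six ((a, b), (c, d), (e, f)) := by simp [six]
  have hb : b ∈ six ((a, b), (c, d), (e, f)) := by simp [six]
  have hc : c ∈ six ((a, b), (c, d), (e, f)) := by simp [six]
  have hd : d ∈ six ((a, b), (c, d), (e, f)) := by simp [six]
  have he : e ∈ six ((a, b), (c, d), (e, f)) := by simp [six]
  have hf : f ∈ six ((a, b), (c, d), (e, f)) := by simp [six]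
  refine ⟨(![φ ⟨a, ha⟩, φ ⟨b, hb⟩, φ ⟨c, hc⟩, φ ⟨d, hd⟩, φ ⟨e, he⟩, φ ⟨f, hf⟩], ψ),
    by simp, ?_⟩
  have e0 := hinv ⟨a, ha⟩
  have e1 := hinv ⟨b, hb⟩
  have e2 := hinv ⟨c, hc⟩
  have e3 := hinv ⟨d, hd⟩
  have e4 := hinv ⟨e, he⟩
  have e5 := hinv ⟨f, hf⟩
  simp only at e0 e1 e2 e3 e4 e5
  refine Prod.ext (Prod.ext e0 e1) (Prod.ext (Prod.ext e2 e3) (Prod.ext e4 e5))

/-- total of the bounds -/
theorem sum_bd (k : ℕ) :
    ∑ t : (Fin n × Fin n) × (Fin n × Fin n) × (Fin n × Fin n), bd k t ≤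
      5 ^ 6 * (n : ℝ) ^ 5 * B1 n k ^ 3 + 3 ^ 6 * (n : ℝ) ^ 3 * B1 n k ^ 2 := by
  have hB := B1_nonneg n k
  unfold bd
  rw [sum_add_distrib, ← sum_filter, ← sum_filter, sum_const, sum_const, nsmul_eq_mul,
    nsmul_eq_mul]
  have h5 : ((((univ : Finset ((Fin n × Fin n) × (Fin n × Fin n) × (Fin n × Fin n))).filter
      (fun t => (six t).card ≤ 5)).card : ℕ) : ℝ) ≤ 5 ^ 6 * (n : ℝ) ^ 5 := by
    exact_mod_cast six_count 5 (by norm_num)
  have h3 : ((((univ : Finset ((Fin n × Fin n) × (Fin n × Fin n) × (Fin n × Fin n))).filter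
      (fun t => (six t).card ≤ 3)).card : ℕ) : ℝ) ≤ 3 ^ 6 * (n : ℝ) ^ 3 := by
    exact_mod_cast six_count 3 (by norm_num)
  exact add_le_add (mul_le_mul_of_nonneg_right h5 (by positivity))
    (mul_le_mul_of_nonneg_right h3 (by positivity))

end Q113.Deg
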