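import Pool.Agent.Q113.DegCount

set_option autoImplicit false

/-! Degrees in a uniformly random `k`-uniform hypergraph: counting ties. -/

namespace Q113.Deg

open Finset

/-- the complete `k`-uniform hypergraph -/
def Pk (n k : ℕ) : Finset (Finset (Fin n)) := (univ : Finset (Fin n)).powersetCard k

variable {n : ℕ}

/-- degree -/
def dg (H : Finset (Finset (Fin n))) (v : Fin n) : ℕ := (H.filter (fun e => v ∈ e)).card

/-- the edges meeting `W` exactly in `w` -/
def priv (k : ℕ) (W : Finset (Fin n)) (w : Fin n) : Finset (Finset (Fin n)) :=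
  (Pk n k).filter (fun e => e ∩ W = {w})

theorem priv_sub (k : ℕ) (W : Finset (Fin n)) (w : Fin n) : priv k W w ⊆ Pk n k :=
  filter_subset _ _

theorem card_priv (k : ℕ) (hk : 1 ≤ k) (W : Finset (Fin n)) (w : Fin n) (hw : w ∈ W) :
    (priv k W w).card = (n - W.card).choose (k - 1) := by
  have h1 : (powersetCard (k - 1) (univ \ W)).card = (n - W.card).choose (k - 1) := by
    rw [card_powersetCard, card_sdiff_of_subset (subset_univ W), card_univ, Fintype.card_fin]
  rw [← h1]
  refine card_bij' (fun e _ => e \ W) (fun S _ => insert w S) ?_ ?_ ?_ ?_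
  · intro e he
    rw [priv, Pk, mem_filter, mem_powersetCard] at he
    rw [mem_powersetCard]
    refine ⟨sdiff_subset_sdiff (subset_univ _) le_rfl, ?_⟩
    have h2 := card_sdiff_add_card_inter e W
    rw [he.2, card_singleton] at h2
    omega
  · intro S hS
    rw [mem_powersetCard] at hS
    have hSW : ∀ x ∈ S, x ∉ W := fun x hx => (mem_sdiff.1 (hS.1 hx)).2
    have hwS : w ∉ S := fun h => hSW w h hw
    rw [priv, Pk, mem_filter, mem_powersetCard]
    refine ⟨⟨subset_univ _, ?_⟩, ?_⟩
    · rw [card_insert_of_notMem hwS]; omega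
    · ext x
      simp only [mem_inter, mem_insert, mem_singleton]
      constructor
      · rintro ⟨h | h, h2⟩
        · exact h
        · exact absurd h2 (hSW x h)
      · rintro rfl
        exact ⟨Or.inl rfl, hw⟩
  · intro e he
    rw [priv, Pk, mem_filter, mem_powersetCard] at he
    ext x
    simp only [mem_insert, mem_sdiff]
    constructor
    · rintro (h | h)
      · have : x ∈ e ∩ W := by rw [he.2, h]; exact mem_singleton_self _
        exact (mem_inter.1 this).1
      · exact h.1
    · intro h
      by_cases hx : x ∈ W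
      · left
        have : x ∈ e ∩ W := mem_inter.2 ⟨h, hx⟩
        rw [he.2] at this
        exact mem_singleton.1 this
      · exact Or.inr ⟨h, hx⟩
  · intro S hS
    rw [mem_powersetCard] at hS
    have hSW : ∀ x ∈ S, x ∉ W := fun x hx => (mem_sdiff.1 (hS.1 hx)).2
    ext x
    simp only [mem_insert, mem_sdiff]
    constructor
    · rintro ⟨h | h, h2⟩
      · exact absurd (h ▸ hw) h2
      · exact h
    · intro h
      exact ⟨Or.inr h, hSW x h⟩

theorem mem_priv_iff {k : ℕ} {W : Finset (Fin n)} {w x : Fin n} (hx : x ∈ W)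
    {e : Finset (Fin n)} (he : e ∈ priv k W w) : x ∈ e ↔ x = w := by
  rw [priv, mem_filter] at he
  constructor
  · intro h
    have : x ∈ e ∩ W := mem_inter.2 ⟨h, hx⟩
    rw [he.2] at this
    exact mem_singleton.1 this
  · rintro rfl
    have : x ∈ e ∩ W := by rw [he.2]; exact mem_singleton_self _
    exact (mem_inter.1 this).1

theorem priv_disj {k : ℕ} {W : Finset (Fin n)} {w x : Fin n} (h : w ≠ x) :
    Disjoint (priv k W w) (priv k W x) := by
  rw [disjoint_left]
  intro e he hx
  rw [priv, mem_filter] at he hx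
  have := he.2.symm.trans hx.2
  exact h (singleton_injective this)

/-- splitting a degree according to a set `U` of edges -/
theorem dg_split (H U : Finset (Finset (Fin n))) (v : Fin n) :
    dg H v = ((H ∩ U).filter (fun e => v ∈ e)).card + dg (H \ U) v := by
  unfold dg
  rw [← card_union_of_disjoint, ← filter_union, union_comm, sdiff_union_inter]
  rw [disjoint_left]
  intro e he h2
  rw [mem_filter] at he h2
  exact (mem_sdiff.1 h2.1).2 (mem_inter.1 he.1).2

/-- splitting for private edges of `z : Fin j → Fin n` -/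
theorem dg_split_priv {j : ℕ} (k : ℕ) (W : Finset (Fin n)) (z : Fin j → Fin n)
    (hzW : ∀ i, z i ∈ W) (H : Finset (Finset (Fin n))) (i : Fin j) :
    dg H (z i) = (H ∩ priv k W (z i)).card +
      dg (H \ univ.biUnion (fun i => priv k W (z i))) (z i) := by
  rw [dg_split H (univ.biUnion (fun i => priv k W (z i))) (z i)]
  congr 2
  ext e
  simp only [mem_filter, mem_inter, mem_biUnion, mem_univ, true_and]
  constructor
  · rintro ⟨⟨h1, l, h2⟩, h3⟩
    refine ⟨h1, ?_⟩
    have := (mem_priv_iff (hzW i) h2).1 h3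
    rwa [this]
  · rintro ⟨h1, h2⟩
    exact ⟨⟨h1, i, h2⟩, (mem_priv_iff (hzW i) h2).2 rfl⟩

theorem dg_split_other {j : ℕ} (k : ℕ) (W : Finset (Fin n)) (z : Fin j → Fin n)
    (H : Finset (Finset (Fin n))) (v : Fin n) (hv : v ∈ W) (hvz : ∀ i, z i ≠ v) :
    dg H v = dg (H \ univ.biUnion (fun i => priv k W (z i))) v := by
  rw [dg_split H (univ.biUnion (fun i => priv k W (z i))) v]
  have : (H ∩ univ.biUnion (fun i => priv k W (z i))).filter (fun e => v ∈ e) = ∅ := by
    rw [filter_eq_empty_iff]
    intro e he hve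
    rw [mem_inter, mem_biUnion] at he
    obtain ⟨_, i, _, h2⟩ := he
    exact hvz i ((mem_priv_iff hv h2).1 hve).symm
  rw [this, card_empty, zero_add]

/-- probability bound when the degrees of `j` vertices are determined by the rest -/
theorem free_le {j : ℕ} (k : ℕ) (hk : 1 ≤ k) (W : Finset (Fin n)) (z : Fin j → Fin n)
    (hz : Function.Injective z) (hzW : ∀ i, z i ∈ W)
    (g : Fin j → Finset (Finset (Fin n)) → ℕ)
    (Q : Finset (Finset (Fin n)) → Prop) [DecidablePred Q]
    (hQ : ∀ H, Q H → ∀ i, dg H (z i) = g i (H \ univ.biUnion (fun i => priv k W (z i)))) :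
    (((Pk n k).powerset.filter Q).card : ℝ) ≤ 2 ^ (Pk n k).card *
      ((((n - W.card).choose (k - 1)).choose ((n - W.card).choose (k - 1) / 2) : ℕ) /
        2 ^ ((n - W.card).choose (k - 1)) : ℝ) ^ j := by
  have h := count_le (Pk n k) (fun i => priv k W (z i)) (fun i => priv_sub k W (z i))
    (fun i l hil => priv_disj (fun h => hil (hz h)))
    (fun i R => g i R - dg R (z i)) Q ?_
  · refine h.trans (le_of_eq ?_)
    congr 1
    rw [prod_congr rfl (fun i _ => by rw [card_priv k hk W (z i) (hzW i)]), prod_const,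
      card_univ, Fintype.card_fin]
  · intro H _ hH i
    have h1 := hQ H hH i
    have h2 := dg_split_priv k W z hzW H i
    omega

/-- the number of elements needed in the two blocks (after switching the second one) -/
def phi (N a b : ℕ) : ℕ := if a ≤ N + b then N + b - a else 2 * N + 1

theorem sym_card (H A B U : Finset (Finset (Fin n))) (hAU : Disjoint A U) (hBU : B ⊆ U) :
    ((symmDiff H U) ∩ (A ∪ B)).card + (H ∩ B).card = (H ∩ A).card + B.card := by
  have h1 : (symmDiff H U) ∩ (A ∪ B) = (H ∩ A) ∪ (B \ H) := by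
    ext x
    simp only [mem_inter, mem_symmDiff, mem_union, mem_sdiff]
    have hA : x ∈ A → x ∉ U := fun h => disjoint_left.1 hAU h
    have hB : x ∈ B → x ∈ U := fun h => hBU h
    tauto
  have h2 : Disjoint (H ∩ A) (B \ H) := by
    rw [disjoint_left]
    intro x hx hx2
    exact (mem_sdiff.1 hx2).2 (mem_inter.1 hx).1
  rw [h1, card_union_of_disjoint h2, inter_comm H B]
  have := card_sdiff_add_card_inter B H
  omega

/-- exact number of hypergraphs in which given disjoint pairs of vertices are all tied -/
theorem ties_eq {j : ℕ} (k : ℕ) (hk : 1 ≤ k) (W : Finset (Fin n)) (u v : Fin j → Fin n)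
    (hu : Function.Injective u) (hv : Function.Injective v) (huv : ∀ i l, u i ≠ v l)
    (huW : ∀ i, u i ∈ W) (hvW : ∀ i, v i ∈ W) :
    ((Pk n k).powerset.filter (fun H => ∀ i, dg H (u i) = dg H (v i))).card =
      ∑ R ∈ (Pk n k \ univ.biUnion (fun i => priv k W (u i) ∪ priv k W (v i))).powerset,
        ∏ i, (2 * (n - W.card).choose (k - 1)).choose
          (phi ((n - W.card).choose (k - 1)) (dg R (u i)) (dg R (v i))) := by
  classical
  set N := (n - W.card).choose (k - 1) with hN
  set U := univ.biUnion (fun i => priv k W (u i) ∪ priv k W (v i)) with hU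
  set B := univ.biUnion (fun i => priv k W (v i)) with hB
  have hBU : B ⊆ U := by
    intro e he
    obtain ⟨i, _, hi⟩ := mem_biUnion.1 he
    exact mem_biUnion.2 ⟨i, mem_univ _, mem_union_right _ hi⟩
  have hUP : U ⊆ Pk n k := by
    intro e he
    obtain ⟨i, _, hi⟩ := mem_biUnion.1 he
    rcases mem_union.1 hi with h | h
    · exact priv_sub _ _ _ h
    · exact priv_sub _ _ _ h
  have hdu : ∀ i, Disjoint (priv k W (u i)) B := by
    intro i
    rw [hB, disjoint_biUnion_right]
    intro l _
    exact priv_disj (huv i l)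
  have hcard : ∀ i, (priv k W (u i) ∪ priv k W (v i)).card = 2 * N := by
    intro i
    rw [card_union_of_disjoint (priv_disj (huv i i)), card_priv k hk W _ (huW i),
      card_priv k hk W _ (hvW i)]
    ring
  have hdisj : ∀ i l, i ≠ l → Disjoint (priv k W (u i) ∪ priv k W (v i))
      (priv k W (u l) ∪ priv k W (v l)) := by
    intro i l hil
    rw [disjoint_union_left, disjoint_union_right, disjoint_union_right]
    exact ⟨⟨priv_disj (fun h => hil (hu h)), priv_disj (huv i l)⟩,
      priv_disj (fun h => huv l i h.symm), priv_disj (fun h => hil (hv h))⟩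
  -- the switched counting
  have h1 := count_eq (Pk n k) (fun i => priv k W (u i) ∪ priv k W (v i))
    (fun i => union_subset (priv_sub _ _ _) (priv_sub _ _ _)) hdisj
    (fun i R => phi N (dg R (u i)) (dg R (v i)))
    (fun H => ∀ i, (H ∩ (priv k W (u i) ∪ priv k W (v i))).card =
        phi N (dg (H \ U) (u i)) (dg (H \ U) (v i))) (fun H _ => Iff.rfl)
  rw [← hU] at h1
  have h2 : ∑ R ∈ (Pk n k \ U).powerset,
        ∏ i, (2 * N).choose (phi N (dg R (u i)) (dg R (v i))) =
      ∑ R ∈ (Pk n k \ U).powerset,
        ∏ i, (priv k W (u i) ∪ priv k W (v i)).card.choose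
          (phi N (dg R (u i)) (dg R (v i))) := by
    refine sum_congr rfl (fun R _ => prod_congr rfl (fun i _ => ?_))
    rw [hcard]
  rw [h2, ← h1]
  -- degrees
  have hdgu : ∀ (H : Finset (Finset (Fin n))) i,
      dg H (u i) = (H ∩ priv k W (u i)).card + dg (H \ U) (u i) := by
    intro H i
    rw [dg_split H U (u i)]
    congr 2
    ext e
    simp only [mem_filter, mem_inter, hU, mem_biUnion, mem_univ, true_and, mem_union]
    constructor
    · rintro ⟨⟨g1, l, g2 | g2⟩, g3⟩
      · refine ⟨g1, ?_⟩
        have := (mem_priv_iff (huW i) g2).1 g3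
        rwa [this]
      · exact absurd ((mem_priv_iff (huW i) g2).1 g3) (huv i l)
    · rintro ⟨g1, g2⟩
      exact ⟨⟨g1, i, Or.inl g2⟩, (mem_priv_iff (huW i) g2).2 rfl⟩
  have hdgv : ∀ (H : Finset (Finset (Fin n))) i,
      dg H (v i) = (H ∩ priv k W (v i)).card + dg (H \ U) (v i) := by
    intro H i
    rw [dg_split H U (v i)]
    congr 2
    ext e
    simp only [mem_filter, mem_inter, hU, mem_biUnion, mem_univ, true_and, mem_union]
    constructor
    · rintro ⟨⟨g1, l, g2 | g2⟩, g3⟩
      · exact absurd ((mem_priv_iff (hvW i) g2).1 g3).symm (huv l i)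
      · refine ⟨g1, ?_⟩
        have := (mem_priv_iff (hvW i) g2).1 g3
        rwa [this]
    · rintro ⟨g1, g2⟩
      exact ⟨⟨g1, i, Or.inr g2⟩, (mem_priv_iff (hvW i) g2).2 rfl⟩
  have hsd : ∀ H : Finset (Finset (Fin n)), (symmDiff H B) \ U = H \ U := by
    intro H
    ext x
    simp only [mem_sdiff, mem_symmDiff]
    have : x ∈ B → x ∈ U := fun h => hBU h
    tauto
  have hiff : ∀ H : Finset (Finset (Fin n)), (∀ i, dg H (u i) = dg H (v i)) ↔
      ∀ i, ((symmDiff H B) ∩ (priv k W (u i) ∪ priv k W (v i))).card =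
        phi N (dg ((symmDiff H B) \ U) (u i)) (dg ((symmDiff H B) \ U) (v i)) := by
    intro H
    refine forall_congr' (fun i => ?_)
    rw [hsd, hdgu H i, hdgv H i]
    have e1 := sym_card H (priv k W (u i)) (priv k W (v i)) B (hdu i)
      (subset_biUnion_of_mem (fun i => priv k W (v i)) (mem_univ i))
    have e2 : (priv k W (v i)).card = N := card_priv k hk W _ (hvW i)
    have e3 : ((symmDiff H B) ∩ (priv k W (u i) ∪ priv k W (v i))).card ≤ 2 * N := by
      rw [← hcard i]; exact card_le_card inter_subset_right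
    have e4 : (H ∩ priv k W (v i)).card ≤ N := by
      rw [← e2]; exact card_le_card inter_subset_right
    unfold phi
    split_ifs with h
    · omega
    · omega
  refine card_bij' (fun H _ => symmDiff H B) (fun H _ => symmDiff H B) ?_ ?_ ?_ ?_
  · intro H hH
    rw [mem_filter, mem_powerset] at hH ⊢
    refine ⟨?_, (hiff H).1 hH.2⟩
    intro x hx
    rw [mem_symmDiff] at hx
    rcases hx with hx | hx
    · exact hH.1 hx.1
    · exact hUP (hBU hx.1)
  · intro H hH
    rw [mem_filter, mem_powerset] at hH ⊢
    refine ⟨?_, ?_⟩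
    · intro x hx
      rw [mem_symmDiff] at hx
      rcases hx with hx | hx
      · exact hH.1 hx.1
      · exact hUP (hBU hx.1)
    · rw [hiff, symmDiff_symmDiff_cancel_right]
      exact hH.2
  · intro H _
    exact symmDiff_symmDiff_cancel_right _ _
  · intro H _
    exact symmDiff_symmDiff_cancel_right _ _

end Q113.Deg
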