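import Mathlib
import Pool.Agent.Q37.GU.Stm
import Pool.Agent.Q37.GU.Basic

/-! Project GU: jobs T2, T5, T8, T11. -/

open CategoryTheory CategoryTheory.Limits AlgebraicGeometry Topology

namespace Q113.GU_T2

open Pool.Agent.Q37.GU Pool.Agent.W481

theorem t5 (hT1 : S_T1) : S_T5 := by
  rintro μ X x y γ g ⟨Z, f, h1, h2, u, hu, z, hz, e⟩
  obtain ⟨hc, -⟩ := cover_main f h1 h2
  obtain ⟨w, hw, q, hq⟩ := PH_lift_exists (pushC f) hc (e := z) hz γ
  obtain ⟨g', hg'⟩ := (hT1 _ _ (pushC f) hc.isLocalHomeomorph w y hw).2 (gm (vf u) w)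
  exact ⟨g', Z, f, h1, h2, u, hu, z, w, hz, hw, q, hq, e, hg'⟩

theorem smooth_cover {X Z : Over SpecC} (hX : Smooth X.hom) (f : Z ⟶ X) (hf : Etale f.left) :
    Smooth Z.hom := by
  rw [← Over.w f]
  exact inferInstance

theorem t8 (hT1 : S_T1) (hT2 : S_T2) (hT9 : S_T9) : S_T8 := by
  rintro μ X hX x y γ g g' ⟨Z, f, h1, h2, u, hu, z, w, hz, hw, q, hq, e1, e2⟩ ⟨c, rfl⟩
  obtain ⟨v, hv⟩ := hT9 Z c
  have hv' : (vf v : Pt Z → ℂ) = fun _ => c := funext hv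
  have h3 : gm (vf u) z = gm (vf v) z := by
    rw [← e1, gp_gm, hv']
  have h4 := hT2 Z (smooth_cover hX f h1) u v z w q h3
  refine ⟨c, ?_⟩
  refine (hT1 _ _ (pushC f) (cover_main f h1 h2).1.isLocalHomeomorph w y hw).1 ?_
  rw [e2, h4, hv', gp_gm]

theorem t11 (hT1 : S_T1) (_h5 : S_T5) (hT6 : S_T6) : S_T11 := by
  intro μ X hX
  refine ⟨?_, ?_, ?_⟩
  · rintro x g ⟨Z, f, h1, h2, u, hu, z, hz, e⟩
    exact ⟨Z, f, h1, h2, u, hu, z, z, hz, hz, .refl z, PHmap_refl _ _, e, e⟩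
  · rintro x y γ g g' ⟨Z, f, h1, h2, u, hu, z, w, hz, hw, q, hq, e1, e2⟩
    refine ⟨Z, f, h1, h2, u, hu, w, z, hw, hz, q.symm, ?_, e2, e1⟩
    rw [PHmap_symm (pushC f) hz hw q, hq]
  · rintro x y y' p p' g g' g'' ⟨Z, f, h1, h2, u, hu, z, w, hz, hw, q, hq, e1, e2⟩ h''
    obtain ⟨hc, -⟩ := cover_main f h1 h2
    obtain ⟨w₂, hw₂, q', hq'⟩ := PH_lift_exists (pushC f) hc (e := w) hw p'
    obtain ⟨g₂, hg₂⟩ := (hT1 _ _ (pushC f) hc.isLocalHomeomorph w₂ y' hw₂).2 (gm (vf u) w₂)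
    have h3 : Tr μ X p' g' g₂ := ⟨Z, f, h1, h2, u, hu, w, w₂, hw, hw₂, q', hq', e2, hg₂⟩
    have h4 : g₂ = g'' := hT6 μ X hX _ _ p' g' g₂ g'' h3 h''
    rw [← h4]
    refine ⟨Z, f, h1, h2, u, hu, z, w₂, hz, hw₂, q.trans q', ?_, e1, hg₂⟩
    rw [PHmap_trans (pushC f) hz hw hw₂, hq, hq']

theorem t2 (hT3 : S_T3) (hT4 : S_T4) : S_T2 := by
  intro X hX u v x y p hxy
  let E : Set (Pt X) := {z | ∀ᶠ t in 𝓝 z, vf (u - v) t = 0}
  have hmem : ∀ z, gm (vf u) z = gm (vf v) z ↔ z ∈ E := by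
    intro z
    rw [gm_eq_iff]
    refine Filter.eventually_congr (Filter.Eventually.of_forall fun t => ?_)
    rw [vf_sub, sub_eq_zero]
  have hopen : IsOpen E := by
    rw [isOpen_iff_mem_nhds]
    intro z hz
    exact eventually_eventually_nhds.2 hz
  have hopen' : IsOpen Eᶜ := by
    rw [isOpen_iff_mem_nhds]
    intro z hz
    obtain ⟨B, _, _, _, _, i, hi, φ, hφ⟩ := hT4 X hX z
    obtain ⟨h, hh⟩ := unit_chart i (u - v)
    have hemb : IsOpenEmbedding (chartC i) :=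
      (isOpenEmbedding_push i).comp isHomeomorph_spPt.isOpenEmbedding
    have hφ' : chartC i φ = z := hφ
    have hval : ∀ χ, vf (u - v) (chartC i χ) = χ.hom h := hh
    by_cases h0 : h = 0
    · exfalso
      apply hz
      have h1 : Set.range (chartC i) ∈ 𝓝 z := by
        rw [← hφ']
        exact hemb.isOpen_range.mem_nhds ⟨φ, rfl⟩
      show ∀ᶠ t in 𝓝 z, vf (u - v) t = 0
      filter_upwards [h1]
      rintro t ⟨χ, rfl⟩
      rw [hval, h0, map_zero]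
    · have hd := hT3 B h h0
      have h1 : Set.range (chartC i) ∈ 𝓝 z := by
        rw [← hφ']
        exact hemb.isOpen_range.mem_nhds ⟨φ, rfl⟩
      filter_upwards [h1]
      rintro t ⟨χ, rfl⟩ ht
      have h2 : ∀ᶠ χ' in 𝓝 χ, vf (u - v) (chartC i χ') = 0 :=
        (chartC i).continuous.continuousAt.eventually ht
      obtain ⟨χ', h3, h4⟩ := hd.inter_nhds_nonempty h2
      apply h3
      rw [← hval]
      exact h4
  have hclopen : IsClopen E := ⟨⟨hopen'⟩, hopen⟩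
  rw [hmem] at hxy ⊢
  induction p using Path.Homotopic.Quotient.ind with | mk p
  have h1 : IsClopen (p ⁻¹' E) := hclopen.preimage p.continuous
  rcases isClopen_iff.1 h1 with h2 | h2
  · exfalso
    have h3 : (0 : unitInterval) ∈ p ⁻¹' E := by
      show p 0 ∈ E
      rw [p.source]
      exact hxy
    rw [h2] at h3
    exact h3
  · have h3 : (1 : unitInterval) ∈ p ⁻¹' E := by
      rw [h2]; trivial
    have h4 : p 1 ∈ E := h3
    rwa [p.target] at h4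

end Q113.GU_T2
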