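import Mathlib
import Pool.Agent.Q37.GU.Stm
import Pool.Agent.Q37.GU.Basic

/-! Project GU: jobs T7a, T7b, T6. -/

open CategoryTheory CategoryTheory.Limits AlgebraicGeometry Topology

namespace Q113.GU_T7

open Pool.Agent.Q37.GU Pool.Agent.W481

theorem gp_square {W X Y Z : Over SpecC} {a : W ⟶ X} {f : X ⟶ Y} {b : W ⟶ Z} {h : Z ⟶ Y}
    (hab : a ≫ f = b ≫ h) {w : Pt W} {x : Pt X} {z : Pt Z} {x' : Pt Y} (h1 : pushC a w = x)
    (hx : pushC f x = x') (h2 : pushC b w = z) (hz : pushC h z = x') (g : G x') :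
    gp (pushC a) h1 (gp (pushC f) hx g) = gp (pushC b) h2 (gp (pushC h) hz g) := by
  have e : (pushC f).comp (pushC a) = (pushC h).comp (pushC b) := by
    rw [pushC_comp', pushC_comp', hab]
  have h3 : ((pushC f).comp (pushC a)) w = x' := by
    rw [ContinuousMap.comp_apply, h1, hx]
  have h4 : ((pushC h).comp (pushC b)) w = x' := by
    rw [ContinuousMap.comp_apply, h2, hz]
  rw [← gp_comp (pushC a) (pushC f) h1 hx h3, ← gp_comp (pushC b) (pushC h) h2 hz h4]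
  exact gp_congr e h3 h4 g

theorem gm_push {W Z : Over SpecC} (b : W ⟶ Z) (u : Γ(Z.left, ⊤)) {w : Pt W} {z : Pt Z}
    (h : pushC b w = z) :
    gp (pushC b) h (gm (vf u) z) = gm (vf (X := W) (b.left.appTop u)) w := by
  rw [gp_gm]
  congr 1

/-- Base change of a finite étale cover, with a lift of a class of paths. -/
theorem exists_bc {X Y Z : Over SpecC} (f : X ⟶ Y) (h : Z ⟶ Y) (h1 : Etale h.left)
    (h2 : IsFinite h.left) {x y : Pt X} {x' y' : Pt Y} (hx : pushC f x = x')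
    (hy : pushC f y = y') (γ : PH x y) {z w : Pt Z} (hz : pushC h z = x') (hw : pushC h w = y')
    (q : PH z w) (hq : PHmap (pushC h) hz hw q = PHmap (pushC f) hx hy γ) :
    ∃ (W : Over SpecC) (a : W ⟶ X) (b : W ⟶ Z) (v v₁ : Pt W) (hv : pushC a v = x)
      (hv₁ : pushC a v₁ = y) (_ : pushC b v = z) (_ : pushC b v₁ = w) (r : PH v v₁),
      a ≫ f = b ≫ h ∧ Etale a.left ∧ IsFinite a.left ∧ PHmap (pushC a) hv hv₁ r = γ := by
  obtain ⟨W, a, b, v, hab, ha1, ha2, hva, hvb⟩ :=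
    exists_base_change f h h1 h2 x z (hx.trans hz.symm)
  obtain ⟨hc, -⟩ := cover_main h h1 h2
  obtain ⟨hc', -⟩ := cover_main a ha1 ha2
  have hva' : pushC a v = x := hva
  have hvb' : pushC b v = z := hvb
  obtain ⟨v₁, hv₁, r, hr⟩ := PH_lift_exists (pushC a) hc' (e := v) hva' γ
  have hcomp : (pushC f).comp (pushC a) = (pushC h).comp (pushC b) := by
    rw [pushC_comp', pushC_comp', hab]
  have hy' : (pushC h) ((pushC b) v₁) = y' := by
    have := congrArg (fun F : C(Pt W, Pt Y) => F v₁) hcomp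
    simp only [ContinuousMap.comp_apply] at this
    rw [← this, hv₁]
    exact hy
  have h4 := PH_lift_unique (pushC h) hc hz hy' hw (PHmap (pushC b) hvb' rfl r) q (by
    refine Eq.trans ?_ hq.symm
    rw [PHmap_comp]
    refine Eq.trans ?_ (congrArg (PHmap (pushC f) hx hy) hr)
    rw [PHmap_comp]
    exact (PHmap_congr hcomp _ _ _).symm)
  have h5 : (pushC b) v₁ = w := congrArg Sigma.fst h4
  exact ⟨W, a, b, v, v₁, hva', hv₁, hvb', h5, r, hab, ha1, ha2, hr⟩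

theorem om_push {μ : ℂ} {W Z : Over SpecC} (b : W ⟶ Z) (u : Γ(Z.left, ⊤))
    (hu : ∀ z : Pt Z, vf u z ∈ Om μ) (t : Pt W) :
    vf (X := W) (b.left.appTop u) t ∈ Om μ := by
  rw [vf_push]
  exact hu _

theorem t7a : S_T7a := by
  rintro μ X Y f x x' hx g ⟨Z, h, h1, h2, u, hu, z, hz, e⟩
  obtain ⟨W, a, b, w, hab, ha1, ha2, hwa, hwb⟩ :=
    exists_base_change f h h1 h2 x z (hx.trans hz.symm)
  refine ⟨W, a, ha1, ha2, b.left.appTop u, om_push b u hu, w, hwa, ?_⟩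
  rw [gp_square hab (show pushC a w = x from hwa) hx (show pushC b w = z from hwb) hz, e, gm_push]

theorem t7b : S_T7b := by
  rintro μ X Y f x y x' y' hx hy γ g g' ⟨Z, h, h1, h2, u, hu, z, w, hz, hw, q, hq, e1, e2⟩
  obtain ⟨W, a, b, v, v₁, hv, hv₁, hbv, hbv₁, r, hab, ha1, ha2, hr⟩ :=
    exists_bc f h h1 h2 hx hy γ hz hw q hq
  refine ⟨W, a, ha1, ha2, b.left.appTop u, om_push b u hu, v, v₁, hv, hv₁, r, hr, ?_, ?_⟩
  · rw [gp_square hab hv hx hbv hz, e1, gm_push]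
  · rw [gp_square hab hv₁ hy hbv₁ hw, e2, gm_push]

theorem smooth_cover {X Z : Over SpecC} (hX : Smooth X.hom) (f : Z ⟶ X) (hf : Etale f.left) :
    Smooth Z.hom := by
  rw [← Over.w f]
  exact inferInstance

theorem t6 (hT1 : S_T1) (hT2 : S_T2) : S_T6 := by
  rintro μ X hX x y γ g g₁ g₂ ⟨Z, f, hf1, hf2, u, hu, z, w, hz, hw, q, hq, e1, e2⟩
    ⟨Z', f', hf1', hf2', u', hu', z', w', hz', hw', q', hq', e1', e2'⟩
  obtain ⟨W, a, b, v, v₁, hv, hv₁, hbv, hbv₁, r, hab, ha1, ha2, hr⟩ :=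
    exists_bc f f' hf1' hf2' hz hw q hz' hw' q' (hq'.trans hq.symm)
  have hZ : Smooth Z.hom := smooth_cover hX f hf1
  have hW : Smooth W.hom := smooth_cover hZ a ha1
  have h1 : gm (vf (X := W) (a.left.appTop u)) v = gm (vf (X := W) (b.left.appTop u')) v := by
    rw [← gm_push a u hv, ← gm_push b u' hbv, ← e1, ← e1', gp_square hab hv hz hbv hz']
  have h2 := hT2 W hW _ _ v v₁ r h1
  rw [← gm_push a u hv₁, ← gm_push b u' hbv₁, ← e2, ← e2', ← gp_square hab hv₁ hw hbv₁ hw'] at h2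
  have h3 := (hT1 _ _ (pushC a) (cover_main a ha1 ha2).1.isLocalHomeomorph v₁ w hv₁).1 h2
  exact (hT1 _ _ (pushC f) (cover_main f hf1 hf2).1.isLocalHomeomorph w y hw).1 h3

end Q113.GU_T7
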