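import Mathlib

/-!
# The algebra behind O'Nan's theorem

Vectors in `K × K × K` with the Hermitian form `x₀ σ(y₂) + x₂ σ(y₀) + x₁ σ(y₁)`.
-/

namespace Pool.Agent.Q113.HermAlg

variable {K : Type} [Field K]

/-- vectors -/
abbrev V (K : Type) := K × K × K

/-- the Hermitian form -/
def herm (σ : K →+* K) (v w : V K) : K := v.1 * σ w.2.2 + v.2.2 * σ w.1 + v.2.1 * σ w.2.1

/-- the determinant -/
def det3 (x y z : V K) : K :=
  x.1 * (y.2.1 * z.2.2 - y.2.2 * z.2.1) - x.2.1 * (y.1 * z.2.2 - y.2.2 * z.1) +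
    x.2.2 * (y.1 * z.2.1 - y.2.1 * z.1)

/-- evaluation of a linear functional -/
def ev (n x : V K) : K := n.1 * x.1 + n.2.1 * x.2.1 + n.2.2 * x.2.2

/-- the cross product -/
def cross (x y : V K) : V K :=
  (x.2.1 * y.2.2 - x.2.2 * y.2.1, x.2.2 * y.1 - x.1 * y.2.2, x.1 * y.2.1 - x.2.1 * y.1)

lemma gram (σ : K →+* K) (x y u : V K) :
    herm σ x x * (herm σ y y * herm σ u u - herm σ y u * herm σ u y) -
      herm σ x y * (herm σ y x * herm σ u u - herm σ y u * herm σ u x) +
      herm σ x u * (herm σ y x * herm σ u y - herm σ y y * herm σ u x) =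
      - (det3 x y u * σ (det3 x y u)) := by
  obtain ⟨x0, x1, x2⟩ := x
  obtain ⟨y0, y1, y2⟩ := y
  obtain ⟨u0, u1, u2⟩ := u
  simp only [herm, det3, map_add, map_sub, map_mul]
  ring

lemma herm_conj (σ : K →+* K) (hσ : ∀ x, σ (σ x) = x) (x y : V K) :
    σ (herm σ x y) = herm σ y x := by
  simp only [herm, map_add, map_mul, hσ]
  ring

lemma herm_smul_self (σ : K →+* K) (c : K) (x : V K) (h : herm σ x x = 0) :
    herm σ (c • x) (c • x) = 0 := by
  have : herm σ (c • x) (c • x) = c * σ c * herm σ x x := by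
    simp only [herm, Prod.smul_fst, Prod.smul_snd, smul_eq_mul, map_mul]
    ring
  rw [this, h, mul_zero]

/-- O'Nan's argument: the five isotropic vectors force linear dependence. -/
lemma onan_alg (σ : K →+* K) (hσ : ∀ x, σ (σ x) = x) (x y u : V K) (l m : K)
    (hl : l ≠ 0) (hm : m ≠ 0) (hx : herm σ x x = 0) (hy : herm σ y y = 0) (hu : herm σ u u = 0)
    (h1 : herm σ (u + l • x) (u + l • x) = 0) (h2 : herm σ (u + m • y) (u + m • y) = 0)
    (h3 : herm σ (u + l • x + m • y) (u + l • x + m • y) = 0) : det3 x y u = 0 := by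
  have e1 : l * herm σ x u + σ l * herm σ u x = 0 := by
    have : herm σ (u + l • x) (u + l • x) =
        herm σ u u + (l * herm σ x u + σ l * herm σ u x) + l * σ l * herm σ x x := by
      simp only [herm, Prod.smul_fst, Prod.smul_snd, Prod.fst_add, Prod.snd_add, smul_eq_mul,
        map_mul, map_add]
      ring
    rw [h1, hu, hx] at this
    linear_combination -this
  have e2 : m * herm σ y u + σ m * herm σ u y = 0 := by
    have : herm σ (u + m • y) (u + m • y) =
        herm σ u u + (m * herm σ y u + σ m * herm σ u y) + m * σ m * herm σ y y := by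
      simp only [herm, Prod.smul_fst, Prod.smul_snd, Prod.fst_add, Prod.snd_add, smul_eq_mul,
        map_mul, map_add]
      ring
    rw [h2, hu, hy] at this
    linear_combination -this
  have e3 : l * σ m * herm σ x y + m * σ l * herm σ y x = 0 := by
    have : herm σ (u + l • x + m • y) (u + l • x + m • y) =
        herm σ u u + (l * herm σ x u + σ l * herm σ u x) + l * σ l * herm σ x x +
        (m * herm σ y u + σ m * herm σ u y) + m * σ m * herm σ y y +
        (l * σ m * herm σ x y + m * σ l * herm σ y x) := by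
      simp only [herm, Prod.smul_fst, Prod.smul_snd, Prod.fst_add, Prod.snd_add, smul_eq_mul,
        map_mul, map_add]
      ring
    rw [h3, hu, hy, hx, e1, e2] at this
    linear_combination -this
  have hg := gram σ x y u
  rw [hx, hy, hu] at hg
  have hσl : σ l ≠ 0 := fun h => hl (by rw [← hσ l, h, map_zero])
  have hσm : σ m ≠ 0 := fun h => hm (by rw [← hσ m, h, map_zero])
  have key : (l * σ l * m * σ m) * (det3 x y u * σ (det3 x y u)) = 0 := by
    have e1' : σ l * herm σ u x = - (l * herm σ x u) := by linear_combination e1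
    have e2' : m * herm σ y u = - (σ m * herm σ u y) := by linear_combination e2
    have e3' : l * σ m * herm σ x y = - (m * σ l * herm σ y x) := by linear_combination e3
    have t : (l * σ m * herm σ x y) * (m * herm σ y u) * (σ l * herm σ u x) +
        l * σ l * m * σ m * (herm σ x u * herm σ u y * herm σ y x) = 0 := by
      rw [e1', e2', e3']; ring
    linear_combination (l * σ l * m * σ m) * hg - t
  have hD : det3 x y u * σ (det3 x y u) = 0 := by
    have hne : l * σ l * m * σ m ≠ 0 :=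
      mul_ne_zero (mul_ne_zero (mul_ne_zero hl hσl) hm) hσm
    exact (mul_eq_zero.1 key).resolve_left hne
  rcases mul_eq_zero.1 hD with h | h
  · exact h
  · rw [← hσ (det3 x y u), h, map_zero]

lemma cramer (x y u z : V K) :
    det3 x y u • z = det3 z y u • x + det3 x z u • y + det3 x y z • u := by
  obtain ⟨x0, x1, x2⟩ := x
  obtain ⟨y0, y1, y2⟩ := y
  obtain ⟨u0, u1, u2⟩ := u
  obtain ⟨z0, z1, z2⟩ := z
  simp only [det3, Prod.smul_mk, smul_eq_mul, Prod.mk_add_mk, Prod.mk.injEq]
  refine ⟨?_, ?_, ?_⟩ <;> ring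

/-- Three vectors in the kernel of a nonzero functional are dependent. -/
lemma det3_eq_zero (n x y z : V K) (hn : n ≠ 0) (hx : ev n x = 0) (hy : ev n y = 0)
    (hz : ev n z = 0) : det3 x y z = 0 := by
  obtain ⟨n0, n1, n2⟩ := n
  obtain ⟨x0, x1, x2⟩ := x
  obtain ⟨y0, y1, y2⟩ := y
  obtain ⟨z0, z1, z2⟩ := z
  simp only [ev] at hx hy hz
  simp only [det3]
  by_cases h0 : n0 = 0
  · by_cases h1 : n1 = 0
    · have h2 : n2 ≠ 0 := by
        intro h2
        exact hn (by rw [h0, h1, h2]; rfl)
      apply (mul_eq_zero.1 (?_ : n2 * _ = 0)).resolve_left h2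
      linear_combination (y0 * z1 - y1 * z0) * hx + (z0 * x1 - z1 * x0) * hy +
        (x0 * y1 - x1 * y0) * hz
    · apply (mul_eq_zero.1 (?_ : n1 * _ = 0)).resolve_left h1
      linear_combination (y2 * z0 - y0 * z2) * hx + (z2 * x0 - z0 * x2) * hy +
        (x2 * y0 - x0 * y2) * hz
  · apply (mul_eq_zero.1 (?_ : n0 * _ = 0)).resolve_left h0
    linear_combination (y1 * z2 - y2 * z1) * hx + (z1 * x2 - z2 * x1) * hy +
      (x1 * y2 - x2 * y1) * hz

/-- If `n` kills `x, u` but not `y`, and `x, u` are independent, then the determinant of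
`x, y, u` is nonzero. -/
lemma det3_ne_zero (n x y u : V K) (hx : ev n x = 0) (hu : ev n u = 0)
    (hy : ev n y ≠ 0) (hc : cross x u ≠ 0) : det3 x y u ≠ 0 := by
  obtain ⟨n0, n1, n2⟩ := n
  obtain ⟨x0, x1, x2⟩ := x
  obtain ⟨y0, y1, y2⟩ := y
  obtain ⟨u0, u1, u2⟩ := u
  simp only [ev] at hx hy hu
  simp only [det3]
  intro hD
  apply hc
  simp only [cross]
  have a0 : x1 * u2 - x2 * u1 = 0 := by
    apply (mul_eq_zero.1 (?_ : _ * (n0 * y0 + n1 * y1 + n2 * y2) = 0)).resolve_right hy
    linear_combination (-n0) * hD + (u2 * y1 - u1 * y2) * hx - (x2 * y1 - x1 * y2) * hu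
  have a1 : x2 * u0 - x0 * u2 = 0 := by
    apply (mul_eq_zero.1 (?_ : _ * (n0 * y0 + n1 * y1 + n2 * y2) = 0)).resolve_right hy
    linear_combination (-n1) * hD + (u0 * y2 - u2 * y0) * hx - (x0 * y2 - x2 * y0) * hu
  have a2 : x0 * u1 - x1 * u0 = 0 := by
    apply (mul_eq_zero.1 (?_ : _ * (n0 * y0 + n1 * y1 + n2 * y2) = 0)).resolve_right hy
    linear_combination (-n2) * hD + (u1 * y0 - u0 * y1) * hx - (x1 * y0 - x0 * y1) * hu
  rw [a0, a1, a2]
  rfl

lemma ev_add (n x y : V K) : ev n (x + y) = ev n x + ev n y := by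
  simp only [ev, Prod.fst_add, Prod.snd_add]; ring

lemma ev_smul (c : K) (n x : V K) : ev n (c • x) = c * ev n x := by
  simp only [ev, Prod.smul_fst, Prod.smul_snd, smul_eq_mul]; ring

lemma cross_smul_right (c : K) (x : V K) : cross x (c • x) = 0 := by
  obtain ⟨x0, x1, x2⟩ := x
  simp only [cross, Prod.smul_mk, smul_eq_mul]
  refine Prod.ext ?_ (Prod.ext ?_ ?_)
  · change x1 * (c * x2) - x2 * (c * x1) = 0
    ring
  · change x2 * (c * x0) - x0 * (c * x2) = 0
    ring
  · change x0 * (c * x1) - x1 * (c * x0) = 0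
    ring

/-- No O'Nan configuration of isotropic vectors. -/
theorem onan_vec (σ : K →+* K) (hσ : ∀ x, σ (σ x) = x) (n₁ n₂ n₃ n₄ : V K)
    (h₁ : n₁ ≠ 0) (h₂ : n₂ ≠ 0) (h₃ : n₃ ≠ 0) (h₄ : n₄ ≠ 0)
    (x y u a b c : V K)
    (ix : herm σ x x = 0) (iy : herm σ y y = 0) (iu : herm σ u u = 0) (ia : herm σ a a = 0)
    (ib : herm σ b b = 0) (ic : herm σ c c = 0)
    -- `x = p₁₂`, `y = p₃₄`, `u = p₁₃`, `a = p₁₄`, `b = p₂₃`, `c = p₂₄`
    (x1 : ev n₁ x = 0) (x2 : ev n₂ x = 0) (y3 : ev n₃ y = 0) (y4 : ev n₄ y = 0)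
    (u1 : ev n₁ u = 0) (u3 : ev n₃ u = 0) (a1 : ev n₁ a = 0) (a4 : ev n₄ a = 0)
    (b2 : ev n₂ b = 0) (b3 : ev n₃ b = 0) (c2 : ev n₂ c = 0) (c4 : ev n₄ c = 0)
    (y1 : ev n₁ y ≠ 0) (hxu : cross x u ≠ 0) (hxa : cross x a ≠ 0) (hua : cross u a ≠ 0)
    (hyb : cross y b ≠ 0) (hub : cross u b ≠ 0) (hc : c ≠ 0) : False := by
  have hD : det3 x y u ≠ 0 := det3_ne_zero n₁ x y u x1 u1 y1 hxu
  set D := det3 x y u with hDdef
  -- coordinates of `a`, `b`, `c`
  have ha : D • a = det3 a y u • x + det3 x y a • u := by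
    have h := cramer x y u a
    have h0 : det3 x a u = 0 := det3_eq_zero n₁ x a u h₁ x1 a1 u1
    rw [h0, zero_smul, add_zero] at h
    exact h
  have hb : D • b = det3 x b u • y + det3 x y b • u := by
    have h := cramer x y u b
    have h0 : det3 b y u = 0 := det3_eq_zero n₃ b y u h₃ b3 y3 u3
    rw [h0, zero_smul, zero_add] at h
    exact h
  have hcc : D • c = det3 c y u • x + det3 x c u • y + det3 x y c • u := cramer x y u c
  set A := det3 a y u with hA
  set B := det3 x y a with hB
  set A' := det3 x b u with hA'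
  set B' := det3 x y b with hB'
  set α := det3 c y u with hα
  set β := det3 x c u with hβ
  set γ := det3 x y c with hγ
  -- scalars are nonzero
  have inv_eq : ∀ (z w : V K) (r : K), D • z = r • w → z = (D⁻¹ * r) • w := by
    intro z w r h
    rw [mul_smul, ← h, smul_smul, inv_mul_cancel₀ hD, one_smul]
  have hBne : B ≠ 0 := by
    intro h0
    rw [h0, zero_smul, add_zero] at ha
    rw [inv_eq a x A ha] at hxa
    exact hxa (cross_smul_right _ _)
  have hB'ne : B' ≠ 0 := by
    intro h0
    rw [h0, zero_smul, add_zero] at hb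
    rw [inv_eq b y A' hb] at hyb
    exact hyb (cross_smul_right _ _)
  have hAne : A ≠ 0 := by
    intro h0
    rw [h0, zero_smul, zero_add] at ha
    rw [inv_eq a u B ha] at hua
    exact hua (cross_smul_right _ _)
  have hA'ne : A' ≠ 0 := by
    intro h0
    rw [h0, zero_smul, zero_add] at hb
    rw [inv_eq b u B' hb] at hub
    exact hub (cross_smul_right _ _)
  -- relations from collinearity of `x, b, c` and of `y, a, c`
  have e1 : A' * γ = B' * β := by
    have h0 : det3 x b c = 0 := det3_eq_zero n₂ x b c h₂ x2 b2 c2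
    have h1 : det3 x (D • b) (D • c) = 0 := by
      have : det3 x (D • b) (D • c) = D * D * det3 x b c := by
        simp only [det3, Prod.smul_fst, Prod.smul_snd, smul_eq_mul]; ring
      rw [this, h0, mul_zero]
    rw [hb, hcc] at h1
    have h2 : det3 x (A' • y + B' • u) (α • x + β • y + γ • u) = (A' * γ - B' * β) * D := by
      rw [hDdef]
      simp only [det3, Prod.smul_fst, Prod.smul_snd, smul_eq_mul, Prod.fst_add, Prod.snd_add]
      ring
    rw [h2] at h1
    have := (mul_eq_zero.1 h1).resolve_right hD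
    linear_combination this
  have e2 : A * γ = B * α := by
    have h0 : det3 y a c = 0 := det3_eq_zero n₄ y a c h₄ y4 a4 c4
    have h1 : det3 y (D • a) (D • c) = 0 := by
      have : det3 y (D • a) (D • c) = D * D * det3 y a c := by
        simp only [det3, Prod.smul_fst, Prod.smul_snd, smul_eq_mul]; ring
      rw [this, h0, mul_zero]
    rw [ha, hcc] at h1
    have h2 : det3 y (A • x + B • u) (α • x + β • y + γ • u) = (B * α - A * γ) * D := by
      rw [hDdef]
      simp only [det3, Prod.smul_fst, Prod.smul_snd, smul_eq_mul, Prod.fst_add, Prod.snd_add]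
      ring
    rw [h2] at h1
    have := (mul_eq_zero.1 h1).resolve_right hD
    linear_combination -this
  have hγne : γ ≠ 0 := by
    intro h0
    rw [h0, mul_zero] at e1 e2
    have hb0 : β = 0 := (mul_eq_zero.1 e1.symm).resolve_left hB'ne
    have ha0 : α = 0 := (mul_eq_zero.1 e2.symm).resolve_left hBne
    rw [h0, hb0, ha0, zero_smul, zero_smul, zero_smul, add_zero, add_zero] at hcc
    exact hc ((smul_eq_zero.1 hcc).resolve_left hD)
  -- scaled vectors
  have v1 : u + (A / B) • x = (D / B) • a := by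
    have : (D / B) • a = (B⁻¹) • (D • a) := by rw [smul_smul]; congr 1; field_simp
    rw [this, ha, smul_add, smul_smul, smul_smul, inv_mul_cancel₀ hBne, one_smul, add_comm]
    congr 2
    field_simp
  have v2 : u + (A' / B') • y = (D / B') • b := by
    have : (D / B') • b = (B'⁻¹) • (D • b) := by rw [smul_smul]; congr 1; field_simp
    rw [this, hb, smul_add, smul_smul, smul_smul, inv_mul_cancel₀ hB'ne, one_smul, add_comm]
    congr 2
    field_simp
  have v3 : u + (A / B) • x + (A' / B') • y = (D / γ) • c := by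
    have : (D / γ) • c = (γ⁻¹) • (D • c) := by rw [smul_smul]; congr 1; field_simp
    rw [this, hcc, smul_add, smul_add, smul_smul, smul_smul, smul_smul, inv_mul_cancel₀ hγne,
      one_smul]
    have f1 : γ⁻¹ * α = A / B := by
      field_simp
      linear_combination -e2
    have f2 : γ⁻¹ * β = A' / B' := by
      field_simp
      linear_combination -e1
    rw [f1, f2]
    abel
  apply hD
  apply onan_alg σ hσ x y u (A / B) (A' / B') (div_ne_zero hAne hBne) (div_ne_zero hA'ne hB'ne)
    ix iy iu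
  · rw [v1]; exact herm_smul_self σ _ _ ia
  · rw [v2]; exact herm_smul_self σ _ _ ib
  · rw [v3]; exact herm_smul_self σ _ _ ic

end Pool.Agent.Q113.HermAlg
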