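import Mathlib

/-!
# The real form of the Kruskal-Katona theorem (Lovász), for clique counts

Following Keevash's proof.
-/

namespace Pool.Agent.Q113.KK

open Finset

/-- The real binomial coefficient `x (x-1) ⋯ (x-k+1) / k!`. -/
noncomputable def rch (x : ℝ) (k : ℕ) : ℝ := (∏ j ∈ range k, (x - j)) / k.factorial

lemma rch_zero (x : ℝ) : rch x 0 = 1 := by simp [rch]

lemma rch_one (x : ℝ) : rch x 1 = x := by simp [rch]

lemma rch_succ (x : ℝ) (k : ℕ) : rch x (k + 1) = rch x k * (x - k) / (k + 1) := by
  unfold rch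
  rw [prod_range_succ, Nat.factorial_succ]
  push_cast
  have h1 : (k.factorial : ℝ) ≠ 0 := by positivity
  have h2 : (k : ℝ) + 1 ≠ 0 := by positivity
  field_simp

lemma rch_absorb (x : ℝ) (k : ℕ) : rch x (k + 1) = x / (k + 1) * rch (x - 1) k := by
  unfold rch
  rw [prod_range_succ', Nat.factorial_succ]
  push_cast
  have h1 : (k.factorial : ℝ) ≠ 0 := by positivity
  have h2 : (k : ℝ) + 1 ≠ 0 := by positivity
  have h3 : ∏ j ∈ range k, (x - ((j : ℝ) + 1)) = ∏ j ∈ range k, (x - 1 - j) :=
    prod_congr rfl fun j _ => by ring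
  rw [h3]
  field_simp
  ring

lemma rch_nonneg {x : ℝ} {k : ℕ} (h : (k : ℝ) - 1 ≤ x) : 0 ≤ rch x k := by
  unfold rch
  apply div_nonneg _ (by positivity)
  apply prod_nonneg
  intro j hj
  have : (j : ℝ) + 1 ≤ k := by exact_mod_cast mem_range.1 hj
  linarith

lemma rch_pos {x : ℝ} {k : ℕ} (h : (k : ℝ) - 1 < x) : 0 < rch x k := by
  unfold rch
  apply div_pos _ (by positivity)
  apply prod_pos
  intro j hj
  have : (j : ℝ) + 1 ≤ k := by exact_mod_cast mem_range.1 hj
  linarith

lemma rch_mono {x y : ℝ} {k : ℕ} (h : (k : ℝ) - 1 ≤ x) (hxy : x ≤ y) : rch x k ≤ rch y k := by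
  unfold rch
  apply div_le_div_of_nonneg_right _ (by positivity)
  apply prod_le_prod
  · intro j hj
    have : (j : ℝ) + 1 ≤ k := by exact_mod_cast mem_range.1 hj
    linarith
  · intro j hj
    linarith

lemma rch_strict {x y : ℝ} {k : ℕ} (hk : 1 ≤ k) (h : (k : ℝ) - 1 ≤ x) (hxy : x < y) :
    rch x k < rch y k := by
  unfold rch
  apply div_lt_div_of_pos_right _ (by positivity)
  rcases eq_or_lt_of_le h with h0 | h0
  · have hx : ∏ j ∈ range k, (x - (j : ℝ)) = 0 := by
      apply prod_eq_zero (mem_range.2 (Nat.sub_lt hk one_pos))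
      rw [Nat.cast_sub hk, ← h0]; push_cast; ring
    rw [hx]
    apply prod_pos
    intro j hj
    have : (j : ℝ) + 1 ≤ k := by exact_mod_cast mem_range.1 hj
    linarith
  · apply prod_lt_prod_of_nonempty
    · intro j hj
      have : (j : ℝ) + 1 ≤ k := by exact_mod_cast mem_range.1 hj
      linarith
    · intro j hj
      linarith
    · exact nonempty_range_iff.2 (by omega)

lemma rch_self (k : ℕ) : rch k k = 1 := by
  induction k with
  | zero => exact rch_zero _
  | succ k ih =>
    rw [rch_absorb]
    push_cast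
    rw [add_sub_cancel_right, ih, mul_one, div_self]
    positivity

lemma rch_sub_one_self {k : ℕ} (hk : 1 ≤ k) : rch ((k : ℝ) - 1) k = 0 := by
  unfold rch
  rw [div_eq_zero_iff]
  left
  apply prod_eq_zero (mem_range.2 (Nat.sub_lt hk one_pos))
  rw [Nat.cast_sub hk]; push_cast; ring

lemma rch_natCast (n k : ℕ) : rch n k = (n.choose k : ℝ) := by
  induction k generalizing n with
  | zero => simp [rch_zero]
  | succ k ih =>
    rcases n with _ | n
    · rw [rch_absorb]; simp
    · rw [rch_absorb]
      push_cast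
      rw [add_sub_cancel_right, ih n]
      have h := Nat.add_one_mul_choose_eq n k
      have h' : ((n : ℝ) + 1) * (n.choose k : ℝ) = ((n + 1).choose (k + 1) : ℝ) * ((k : ℝ) + 1) := by
        exact_mod_cast h
      have h2 : (k : ℝ) + 1 ≠ 0 := by positivity
      field_simp
      linarith

lemma rch_continuous (k : ℕ) : Continuous (fun x => rch x k) := by
  unfold rch
  fun_prop

/-- Every nonnegative real is `rch y k` for some `y ≥ k - 1`. -/
lemma exists_rch {k : ℕ} (hk : 1 ≤ k) {N : ℝ} (hN : 0 ≤ N) :
    ∃ y : ℝ, (k : ℝ) - 1 ≤ y ∧ rch y k = N := by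
  set b : ℝ := (k : ℝ) - 1 + (k.factorial * N + 1) with hb
  have hfac : (0 : ℝ) < k.factorial := by positivity
  have hab : (k : ℝ) - 1 ≤ b := by rw [hb]; have : 0 ≤ (k.factorial : ℝ) * N := by positivity
                                   linarith
  have hbN : N ≤ rch b k := by
    unfold rch
    rw [le_div_iff₀ hfac]
    obtain ⟨l, rfl⟩ : ∃ l, k = l + 1 := ⟨k - 1, by omega⟩
    rw [prod_range_succ]
    have h1 : (1 : ℝ) ≤ ∏ j ∈ range l, (b - (j : ℝ)) := by
      apply prod_induction _ (fun z : ℝ => 1 ≤ z) (fun a c ha hc => by nlinarith) le_rfl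
      intro j hj
      have : (j : ℝ) + 1 ≤ l := by exact_mod_cast mem_range.1 hj
      have h0 : 0 ≤ ((l + 1).factorial : ℝ) * N := by positivity
      rw [hb]; push_cast; linarith
    have h2 : N * ((l + 1).factorial : ℝ) ≤ b - l := by
      rw [hb]; push_cast; linarith
    have h3 : 0 ≤ b - l := le_trans (by positivity) h2
    nlinarith
  have hcont : ContinuousOn (fun x => rch x k) (Set.Icc ((k : ℝ) - 1) b) :=
    (rch_continuous k).continuousOn
  have := intermediate_value_Icc hab hcont
  obtain ⟨y, hy, hyN⟩ := this (show N ∈ Set.Icc (rch ((k : ℝ) - 1) k) (rch b k) from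
    ⟨by rw [rch_sub_one_self hk]; exact hN, hbN⟩)
  exact ⟨y, hy.1, hyN⟩

/-! ## Cliques -/

variable {α : Type*} [Fintype α] [DecidableEq α]

/-- The `t`-sets all of whose `q`-subsets belong to `G`. -/
def cl (q t : ℕ) (G : Finset (Finset α)) : Finset (Finset α) :=
  (univ.powersetCard t).filter (fun T => ∀ e ⊆ T, e.card = q → e ∈ G)

lemma mem_cl {q t : ℕ} {G : Finset (Finset α)} {T : Finset α} :
    T ∈ cl q t G ↔ T.card = t ∧ ∀ e ⊆ T, e.card = q → e ∈ G := by
  simp [cl, mem_powersetCard]

/-- The link of a vertex. -/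
def lk (v : α) (G : Finset (Finset α)) : Finset (Finset α) :=
  (G.filter (fun e => v ∈ e)).image (fun e => e.erase v)

lemma mem_lk {v : α} {G : Finset (Finset α)} {f : Finset α} :
    f ∈ lk v G ↔ v ∉ f ∧ insert v f ∈ G := by
  constructor
  · intro h
    obtain ⟨e, he, rfl⟩ := mem_image.1 h
    rw [mem_filter] at he
    exact ⟨notMem_erase v e, by rw [insert_erase he.2]; exact he.1⟩
  · rintro ⟨h1, h2⟩
    exact mem_image.2 ⟨insert v f, mem_filter.2 ⟨h2, mem_insert_self v f⟩, erase_insert h1⟩

lemma card_lk (v : α) (G : Finset (Finset α)) :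
    (lk v G).card = (G.filter (fun e => v ∈ e)).card := by
  apply card_image_of_injOn
  intro e he f hf h
  rw [mem_coe, mem_filter] at he hf
  rw [← insert_erase he.2, ← insert_erase hf.2]
  exact congrArg _ h

lemma sized_lk {v : α} {G : Finset (Finset α)} {r : ℕ} (hG : ∀ e ∈ G, e.card = r + 1) :
    ∀ e ∈ lk v G, e.card = r := by
  intro e he
  obtain ⟨h1, h2⟩ := mem_lk.1 he
  have := hG _ h2
  rw [card_insert_of_notMem h1] at this
  omega

/-- Cliques through `v` give cliques of the link. -/
lemma card_cl_vertex_le_link (v : α) (G : Finset (Finset α)) (q t : ℕ) :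
    ((cl (q + 1) (t + 1) G).filter (fun T => v ∈ T)).card ≤ (cl q t (lk v G)).card := by
  apply card_le_card_of_injOn (fun T => T.erase v)
  · intro T hT
    rw [mem_coe, mem_filter, mem_cl] at hT
    obtain ⟨⟨h1, h2⟩, h3⟩ := hT
    rw [mem_coe, mem_cl]
    refine ⟨by rw [card_erase_of_mem h3, h1]; rfl, ?_⟩
    intro e he hec
    have hve : v ∉ e := fun h => notMem_erase v T (he h)
    rw [mem_lk]
    refine ⟨hve, h2 _ ?_ ?_⟩
    · exact insert_subset h3 (he.trans (erase_subset v T))
    · rw [card_insert_of_notMem hve, hec]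
  · intro T hT T' hT' h
    rw [mem_coe, mem_filter] at hT hT'
    rw [← insert_erase hT.2, ← insert_erase hT'.2]
    exact congrArg _ h

/-- `(r+1)`-cliques through `v` give edges avoiding `v`. -/
lemma card_cl_vertex_le_compl (v : α) (G : Finset (Finset α)) (r : ℕ) :
    ((cl r (r + 1) G).filter (fun T => v ∈ T)).card + (G.filter (fun e => v ∈ e)).card ≤
      G.card := by
  have h : ((cl r (r + 1) G).filter (fun T => v ∈ T)).card ≤
      (G.filter (fun e => ¬ v ∈ e)).card := by
    apply card_le_card_of_injOn (fun T => T.erase v)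
    · intro T hT
      rw [mem_coe, mem_filter, mem_cl] at hT
      obtain ⟨⟨h1, h2⟩, h3⟩ := hT
      rw [mem_coe, mem_filter]
      exact ⟨h2 _ (erase_subset v T) (by rw [card_erase_of_mem h3, h1]; rfl), notMem_erase v T⟩
    · intro T hT T' hT' h
      rw [mem_coe, mem_filter] at hT hT'
      rw [← insert_erase hT.2, ← insert_erase hT'.2]
      exact congrArg _ h
  have h2 := card_filter_add_card_filter_not (s := G) (fun e => v ∈ e)
  omega

/-- Double counting. -/
lemma sum_card_vertex {G : Finset (Finset α)} {r : ℕ} (hG : ∀ e ∈ G, e.card = r) :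
    ∑ v : α, (G.filter (fun e => v ∈ e)).card = r * G.card := by
  have h1 : ∀ v : α, (G.filter (fun e => v ∈ e)).card = ∑ e ∈ G, if v ∈ e then 1 else 0 := by
    intro v; rw [card_filter]
  rw [sum_congr rfl (fun v _ => h1 v), sum_comm]
  have h2 : ∀ e ∈ G, (∑ v : α, if v ∈ e then 1 else 0) = r := by
    intro e he
    rw [← card_filter]
    rw [← hG e he]
    congr 1
    ext v; simp
  rw [sum_congr rfl h2, sum_const, smul_eq_mul, mul_comm]

/-- **Keevash**: an `r`-graph with at most `rch x r` edges, `x ≥ r ≥ 1`, has at most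
`rch x (r+1)` cliques of size `r+1`. -/
theorem cl_succ_le {r : ℕ} (hr : 1 ≤ r) : ∀ (G : Finset (Finset α)), (∀ e ∈ G, e.card = r) →
    ∀ x : ℝ, (r : ℝ) ≤ x → (G.card : ℝ) ≤ rch x r → ((cl r (r + 1) G).card : ℝ) ≤ rch x (r + 1) := by
  induction r, hr using Nat.le_induction with
  | base =>
    intro G hG x hx hGx
    rw [rch_one] at hGx
    let S : Finset α := univ.filter (fun v => ({v} : Finset α) ∈ G)
    have hSG : S.card = G.card := by
      apply card_bij (fun v _ => {v})
      · intro v hv; exact (mem_filter.1 hv).2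
      · intro v _ w _ h; exact singleton_injective h
      · intro e he
        obtain ⟨v, rfl⟩ := card_eq_one.1 (hG e he)
        exact ⟨v, mem_filter.2 ⟨mem_univ _, he⟩, rfl⟩
    have hsub : cl 1 (1 + 1) G ⊆ S.powersetCard 2 := by
      intro T hT
      rw [mem_cl] at hT
      rw [mem_powersetCard]
      refine ⟨fun v hv => ?_, hT.1⟩
      exact mem_filter.2 ⟨mem_univ _, hT.2 {v} (singleton_subset_iff.2 hv) (card_singleton v)⟩
    have h1 : ((cl 1 (1 + 1) G).card : ℝ) ≤ (G.card.choose 2 : ℝ) := by
      have := card_le_card hsub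
      rw [card_powersetCard, hSG] at this
      exact_mod_cast this
    refine h1.trans ?_
    rw [rch_succ, rch_one, Nat.cast_choose_two]
    push_cast
    have h0 : (0 : ℝ) ≤ G.card := by positivity
    push_cast at hx
    nlinarith
  | succ r hr ih =>
    intro G hG x hx hGx
    have hx0 : (0 : ℝ) < x := by
      have : (0 : ℝ) < ((r + 1 : ℕ) : ℝ) := by positivity
      linarith
    push_cast at hx
    -- the claim for each vertex
    have claim : ∀ v : α, (((cl (r + 1) (r + 1 + 1) G).filter (fun T => v ∈ T)).card : ℝ) ≤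
        (x / (r + 1) - 1) * ((G.filter (fun e => v ∈ e)).card : ℝ) := by
      intro v
      have hcoef : 0 ≤ x / ((r : ℝ) + 1) - 1 := by
        rw [sub_nonneg, le_div_iff₀ (by positivity)]; linarith
      rcases Nat.eq_zero_or_pos (G.filter (fun e => v ∈ e)).card with hd | hd
      · have : (cl (r + 1) (r + 1 + 1) G).filter (fun T => v ∈ T) = ∅ := by
          rw [filter_eq_empty_iff]
          intro T hT hv
          rw [mem_cl] at hT
          obtain ⟨e, he1, he2, he3⟩ := exists_subsuperset_card_eq
            (singleton_subset_iff.2 hv) (by rw [card_singleton]; omega : ({v} : Finset α).card ≤ r + 1)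
            (by rw [hT.1]; omega)
          have : e ∈ G.filter (fun e => v ∈ e) :=
            mem_filter.2 ⟨hT.2 e he2 he3, singleton_subset_iff.1 he1⟩
          rw [card_eq_zero] at hd
          rw [hd] at this
          exact absurd this (notMem_empty _)
        rw [this, hd]; simp
      · obtain ⟨y, hy1, hy2⟩ := exists_rch hr
          (N := ((G.filter (fun e => v ∈ e)).card : ℝ)) (by positivity)
        have hyr : (r : ℝ) ≤ y := by
          by_contra hlt
          push Not at hlt
          have h1 := rch_strict hr hy1 hlt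
          rw [rch_self, hy2] at h1
          have : (1 : ℝ) ≤ ((G.filter (fun e => v ∈ e)).card : ℝ) := by exact_mod_cast hd
          linarith
        rcases le_or_gt y (x - 1) with hyx | hyx
        · have h1 := ih (lk v G) (sized_lk hG) y hyr (by rw [card_lk, hy2])
          have h2 : (((cl (r + 1) (r + 1 + 1) G).filter (fun T => v ∈ T)).card : ℝ) ≤
              ((cl r (r + 1) (lk v G)).card : ℝ) := by
            exact_mod_cast card_cl_vertex_le_link v G r (r + 1)
          refine h2.trans (h1.trans ?_)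
          rw [rch_succ, hy2]
          have hd0 : (0 : ℝ) ≤ ((G.filter (fun e => v ∈ e)).card : ℝ) := by positivity
          have h3 : (y - r) / (r + 1) ≤ x / (r + 1) - 1 := by
            rw [div_le_iff₀ (by positivity), sub_mul, div_mul_cancel₀ _ (by positivity)]
            linarith
          calc ((G.filter (fun e => v ∈ e)).card : ℝ) * (y - r) / (r + 1)
              = ((y - r) / (r + 1)) * ((G.filter (fun e => v ∈ e)).card : ℝ) := by ring
            _ ≤ _ := mul_le_mul_of_nonneg_right h3 hd0
        · have h1 : (((cl (r + 1) (r + 1 + 1) G).filter (fun T => v ∈ T)).card : ℝ) +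
              ((G.filter (fun e => v ∈ e)).card : ℝ) ≤ (G.card : ℝ) := by
            exact_mod_cast card_cl_vertex_le_compl v G (r + 1)
          have h2 : rch x (r + 1) ≤
              x / (r + 1) * ((G.filter (fun e => v ∈ e)).card : ℝ) := by
            rw [rch_absorb, ← hy2]
            apply mul_le_mul_of_nonneg_left _ (by positivity)
            exact rch_mono (by linarith) hyx.le
          rw [sub_mul, one_mul]
          linarith
    -- double counting
    have hcl : ∀ T ∈ cl (r + 1) (r + 1 + 1) G, T.card = r + 1 + 1 := fun T hT => (mem_cl.1 hT).1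
    have s1 : ∑ v : α, (((cl (r + 1) (r + 1 + 1) G).filter (fun T => v ∈ T)).card : ℝ) =
        ((r : ℝ) + 1 + 1) * ((cl (r + 1) (r + 1 + 1) G).card : ℝ) := by
      exact_mod_cast sum_card_vertex hcl
    have s2 : ∑ v : α, ((G.filter (fun e => v ∈ e)).card : ℝ) = ((r : ℝ) + 1) * (G.card : ℝ) := by
      exact_mod_cast sum_card_vertex hG
    have s3 := sum_le_sum (fun v (_ : v ∈ (univ : Finset α)) => claim v)
    rw [s1, ← mul_sum, s2] at s3
    have s4 : (x / ((r : ℝ) + 1) - 1) * (((r : ℝ) + 1) * (G.card : ℝ)) =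
        (x - (r + 1)) * (G.card : ℝ) := by
      field_simp
    rw [s4] at s3
    have s5 : (x - ((r : ℝ) + 1)) * (G.card : ℝ) ≤ (x - (r + 1)) * rch x (r + 1) :=
      mul_le_mul_of_nonneg_left hGx (by linarith)
    rw [rch_succ x (r + 1)]
    push_cast
    rw [le_div_iff₀ (by positivity)]
    linarith

/-- **Kruskal-Katona in Lovász's form**: an `r`-graph with at most `rch x r` edges, `x ≥ t ≥ r`,
has at most `rch x t` cliques of size `t`. -/
theorem cl_le {r t : ℕ} (hr : 1 ≤ r) (hrt : r ≤ t) (G : Finset (Finset α))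
    (hG : ∀ e ∈ G, e.card = r) (x : ℝ) (hx : (t : ℝ) ≤ x) (hGx : (G.card : ℝ) ≤ rch x r) :
    ((cl r t G).card : ℝ) ≤ rch x t := by
  induction t, hrt using Nat.le_induction with
  | base =>
    refine le_trans ?_ hGx
    have : cl r r G ⊆ G := by
      intro T hT
      rw [mem_cl] at hT
      exact hT.2 T Subset.rfl hT.1
    exact_mod_cast card_le_card this
  | succ t hrt ih =>
    push_cast at hx
    have h1 := ih (by linarith)
    have hsub : cl r (t + 1) G ⊆ cl t (t + 1) (cl r t G) := by
      intro T hT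
      rw [mem_cl] at hT ⊢
      refine ⟨hT.1, fun S hS hSc => ?_⟩
      rw [mem_cl]
      exact ⟨hSc, fun e he hec => hT.2 e (he.trans hS) hec⟩
    have h2 := cl_succ_le (hr.trans hrt) (cl r t G) (fun e he => (mem_cl.1 he).1) x
      (by linarith) h1
    refine le_trans ?_ h2
    exact_mod_cast card_le_card hsub

end Pool.Agent.Q113.KK
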