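import Pool.Agent.Q264.KS.Stm4

/-!
# KS4-FB (project KS of helper264, MP_a3b3eb_an): differentiability of the maximum
-/

set_option autoImplicit false

namespace Pool.Agent.Q113.KS4_FB

open Pool.Agent.Q264.KS Module Filter Topology MeasureTheory

universe u

lemma prod_sub_le {ι : Type*} [DecidableEq ι] (s : Finset ι) (a c : ι → ℝ) (R δ : ℝ) (hR : 1 ≤ R) (hδ : 0 ≤ δ)
    (ha : ∀ i, |a i| ≤ R) (hc : ∀ i, |c i| ≤ R) (hac : ∀ i, |a i - c i| ≤ δ) :
    |∏ i ∈ s, a i - ∏ i ∈ s, c i| ≤ s.card * R ^ s.card * δ := by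
  have hR0 : 0 ≤ R := by linarith
  induction s using Finset.induction_on with
  | empty => simp
  | insert i s hi ih =>
    rw [Finset.prod_insert hi, Finset.prod_insert hi, Finset.card_insert_of_notMem hi]
    have h1 : a i * ∏ x ∈ s, a x - c i * ∏ x ∈ s, c x =
        a i * (∏ x ∈ s, a x - ∏ x ∈ s, c x) + (a i - c i) * ∏ x ∈ s, c x := by ring
    have h2 : |∏ x ∈ s, c x| ≤ R ^ s.card := by
      rw [Finset.abs_prod]
      calc ∏ x ∈ s, |c x| ≤ ∏ _x ∈ s, R := Finset.prod_le_prod (fun x _ => abs_nonneg _) fun x _ => hc x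
        _ = R ^ s.card := by rw [Finset.prod_const]
    have h3 : 0 ≤ R ^ s.card := pow_nonneg hR0 _
    rw [h1]
    calc |a i * (∏ x ∈ s, a x - ∏ x ∈ s, c x) + (a i - c i) * ∏ x ∈ s, c x|
        ≤ |a i * (∏ x ∈ s, a x - ∏ x ∈ s, c x)| + |(a i - c i) * ∏ x ∈ s, c x| := abs_add_le _ _
      _ = |a i| * |∏ x ∈ s, a x - ∏ x ∈ s, c x| + |a i - c i| * |∏ x ∈ s, c x| := by
          rw [abs_mul, abs_mul]
      _ ≤ R * (s.card * R ^ s.card * δ) + δ * R ^ s.card := by
          have := ha i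
          have := hac i
          gcongr
      _ ≤ R * (s.card * R ^ s.card * δ) + (R * R ^ s.card) * δ := by
          have : R ^ s.card ≤ R * R ^ s.card := le_mul_of_one_le_left h3 hR
          nlinarith
      _ = ((s.card + 1 : ℕ) : ℝ) * R ^ (s.card + 1) * δ := by
          push_cast; ring

section

variable {X : Type u} [NormedAddCommGroup X] [NormedSpace ℝ X] [FiniteDimensional ℝ X] {n : ℕ}
  (b : Basis (Fin n) ℝ X)

lemma cont_FF (p : X) : Continuous (fun h : Fin n → X →L[ℝ] ℝ => FF b p h) := by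
  unfold FF dt
  refine Continuous.add ?_ ?_
  · refine Continuous.matrix_det ?_
    refine continuous_matrix fun i j => ?_
    have : Continuous fun h : Fin n → X →L[ℝ] ℝ => h i (b j) := by fun_prop
    exact this
  · refine continuous_finsetProd _ fun i _ => ?_
    fun_prop

lemma exists_mx (p : X) : ∃ h : Fin n → X →L[ℝ] ℝ, IsMx b p h := by
  have : ProperSpace (X →L[ℝ] ℝ) := FiniteDimensional.proper ℝ _
  have hc : IsCompact (Set.pi Set.univ fun _ : Fin n => Metric.closedBall (0 : X →L[ℝ] ℝ) 1) :=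
    isCompact_univ_pi fun _ => isCompact_closedBall _ _
  obtain ⟨h, hh, hmax⟩ := hc.exists_isMaxOn ⟨fun _ => 0, fun i _ => by simp⟩
    (cont_FF b p).continuousOn
  refine ⟨h, fun i => ?_, fun h' hh' => ?_⟩
  · have := hh i (Set.mem_univ i)
    rwa [mem_closedBall_zero_iff] at this
  · exact hmax fun i _ => by
      rw [mem_closedBall_zero_iff]; exact hh' i

lemma deriv_FF (h : Fin n → X →L[ℝ] ℝ) (p : X) :
    HasFDerivAt (fun q => FF b q h) (∑ i, (∏ k ∈ Finset.univ.erase i, h k p) • h i) p := by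
  unfold FF
  have h1 : HasFDerivAt (fun q => ∏ i, h i q) (∑ i, (∏ k ∈ Finset.univ.erase i, h k p) • h i) p :=
    HasFDerivAt.finsetProd fun i _ => (h i).hasFDerivAt
  exact h1.const_add _

end

theorem t_FB : S_FB.{u} := by
  intro X _ _ _ n b O hO hOn
  choose M hM using exists_mx b
  let Ψ : X → ℝ := fun p => FF b p (M p)
  have hle : ∀ p (h : Fin n → X →L[ℝ] ℝ), (∀ i, ‖h i‖ ≤ 1) → FF b p h ≤ Ψ p := fun p h hh => (hM p).2 h hh
  obtain ⟨x0, hx0⟩ := hOn
  obtain ⟨r, hr, hrO⟩ := Metric.isOpen_iff.1 hO x0 hx0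
  -- bound on the ball
  let R : ℝ := ‖x0‖ + r + 1
  have hR : 1 ≤ R := by have := norm_nonneg x0; show 1 ≤ ‖x0‖ + r + 1; linarith
  have hbd : ∀ q ∈ Metric.ball x0 r, ‖q‖ ≤ R := by
    intro q hq
    have h1 : ‖q - x0‖ < r := by rwa [← dist_eq_norm]
    have h2 : ‖q‖ ≤ ‖q - x0‖ + ‖x0‖ := by
      calc ‖q‖ = ‖(q - x0) + x0‖ := by rw [sub_add_cancel]
        _ ≤ _ := norm_add_le _ _
    show ‖q‖ ≤ ‖x0‖ + r + 1
    linarith
  have hev : ∀ (g : X →L[ℝ] ℝ), ‖g‖ ≤ 1 → ∀ y, |g y| ≤ ‖y‖ := by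
    intro g hg y
    calc |g y| = ‖g y‖ := rfl
      _ ≤ ‖g‖ * ‖y‖ := g.le_opNorm y
      _ ≤ 1 * ‖y‖ := by gcongr
      _ = ‖y‖ := one_mul _
  have hone : ∀ p ∈ Metric.ball x0 r, ∀ q ∈ Metric.ball x0 r, Ψ p - Ψ q ≤ (n * R ^ n) * ‖p - q‖ := by
    intro p hp q hq
    have h1 : FF b q (M p) ≤ Ψ q := hle q (M p) (hM p).1
    have h2 : FF b p (M p) - FF b q (M p) = ∏ i, M p i p - ∏ i, M p i q := by
      unfold FF; ring
    have h3 := prod_sub_le Finset.univ (fun i => M p i p) (fun i => M p i q) R ‖p - q‖ hR (norm_nonneg _)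
      (fun i => (hev _ ((hM p).1 i) p).trans (hbd p hp)) (fun i => (hev _ ((hM p).1 i) q).trans (hbd q hq))
      (fun i => by rw [← map_sub]; exact hev _ ((hM p).1 i) _)
    rw [Finset.card_univ, Fintype.card_fin] at h3
    have h4 := (le_abs_self _).trans h3
    show FF b p (M p) - Ψ q ≤ _
    linarith
  have hK0 : 0 ≤ (n : ℝ) * R ^ n := by positivity
  have hLip : LipschitzOnWith (Real.toNNReal (n * R ^ n)) Ψ (Metric.ball x0 r) := by
    refine LipschitzOnWith.of_dist_le_mul fun p hp q hq => ?_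
    rw [Real.coe_toNNReal _ hK0, Real.dist_eq, dist_eq_norm, abs_le]
    constructor
    · have := hone q hq p hp
      rw [norm_sub_rev] at this
      linarith
    · exact hone p hp q hq
  borelize X
  let μ : Measure X := Measure.addHaar
  have hae : ∀ᵐ x ∂μ, x ∈ Metric.ball x0 r → DifferentiableWithinAt ℝ Ψ (Metric.ball x0 r) x :=
    hLip.ae_differentiableWithinAt_of_mem
  obtain ⟨p, hp, hpd⟩ : ∃ p ∈ Metric.ball x0 r, DifferentiableWithinAt ℝ Ψ (Metric.ball x0 r) p := by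
    by_contra hcon
    push Not at hcon
    have h1 : Metric.ball x0 r ⊆ {x | ¬ (x ∈ Metric.ball x0 r → DifferentiableWithinAt ℝ Ψ (Metric.ball x0 r) x)} := by
      intro x hx hh
      exact hcon x hx (hh hx)
    have h2 : μ (Metric.ball x0 r) = 0 := measure_mono_null h1 hae
    exact (Metric.measure_ball_pos μ x0 hr).ne' h2
  have hd : DifferentiableAt ℝ Ψ p := hpd.differentiableAt (Metric.isOpen_ball.mem_nhds hp)
  refine ⟨p, hrO hp, ⟨M p, hM p⟩, fderiv ℝ Ψ p, fun h hh => ?_⟩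
  have h1 : HasFDerivAt (fun q => Ψ q - FF b q h)
      (fderiv ℝ Ψ p - ∑ i, (∏ k ∈ Finset.univ.erase i, h k p) • h i) p :=
    hd.hasFDerivAt.sub (deriv_FF b h p)
  have h2 : IsLocalMin (fun q => Ψ q - FF b q h) p := by
    refine Filter.Eventually.of_forall fun q => ?_
    have h3 : Ψ p = FF b p h := le_antisymm (hh.2 _ (hM p).1) (hle p h hh.1)
    show Ψ p - FF b p h ≤ Ψ q - FF b q h
    rw [h3, sub_self, sub_nonneg]
    exact hle q h hh.1
  have h3 := h2.hasFDerivAt_eq_zero h1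
  exact (sub_eq_zero.1 h3).symm

end Pool.Agent.Q113.KS4_FB
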