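import Pool.Agent.Q264.KS.Stm4

/-!
# KS4-FC (project KS of helper264, MP_a3b3eb_an): a smooth system exists
-/

set_option autoImplicit false

namespace Pool.Agent.Q113.KS4_FC

open Pool.Agent.Q264.KS Module Filter Topology

universe u

section

variable {X : Type u} [NormedAddCommGroup X] [NormedSpace ℝ X] {n : ℕ} (b : Basis (Fin n) ℝ X) (p : X)

/-- the matrix -/
noncomputable def mat (h : Fin n → X →L[ℝ] ℝ) : Matrix (Fin n) (Fin n) ℝ :=
  Matrix.of fun i j => h i (b j)

/-- the vector of the linear form `g ↦ FF b p (update h i g)` -/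
noncomputable def wv (h : Fin n → X →L[ℝ] ℝ) (i : Fin n) : X :=
  (∑ j, (mat b h).transpose.adjugate i j • b j) + (∏ k ∈ Finset.univ.erase i, h k p) • p

lemma dt_update (h : Fin n → X →L[ℝ] ℝ) (i : Fin n) (g : X →L[ℝ] ℝ) :
    dt b (Function.update h i g) = ∑ j, (mat b h).transpose.adjugate i j * g (b j) := by
  have h1 : (Matrix.of fun k j => (Function.update h i g) k (b j)) =
      (mat b h).updateRow i (fun j => g (b j)) := by
    ext k j
    by_cases hk : k = i
    · subst hk
      rw [Matrix.updateRow_self, Matrix.of_apply, Function.update_self]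
    · rw [Matrix.updateRow_ne hk, Matrix.of_apply, Function.update_of_ne hk]
      rfl
  unfold dt
  rw [h1, ← Matrix.cramer_transpose_apply, Matrix.cramer_eq_adjugate_mulVec]
  rfl

lemma prod_update (h : Fin n → X →L[ℝ] ℝ) (i : Fin n) (g : X →L[ℝ] ℝ) :
    ∏ k, (Function.update h i g) k p = g p * ∏ k ∈ Finset.univ.erase i, h k p := by
  rw [← Finset.mul_prod_erase Finset.univ _ (Finset.mem_univ i), Function.update_self]
  congr 1
  refine Finset.prod_congr rfl fun k hk => ?_
  rw [Function.update_of_ne (Finset.ne_of_mem_erase hk)]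

lemma FF_update (h : Fin n → X →L[ℝ] ℝ) (i : Fin n) (g : X →L[ℝ] ℝ) :
    FF b p (Function.update h i g) = g (wv b p h i) := by
  unfold FF wv
  rw [dt_update, prod_update, map_add, map_sum, map_smul]
  simp only [map_smul, smul_eq_mul]
  ring

lemma dt_update_eq_zero (h : Fin n → X →L[ℝ] ℝ) {i k : Fin n} (hk : k ≠ i) :
    dt b (Function.update h i (h k)) = 0 := by
  unfold dt
  refine Matrix.det_zero_of_row_eq hk ?_
  ext j
  rw [Matrix.of_apply, Matrix.of_apply, Function.update_self, Function.update_of_ne hk]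

lemma norm_update {h : Fin n → X →L[ℝ] ℝ} (hh : ∀ i, ‖h i‖ ≤ 1) (i : Fin n) {g : X →L[ℝ] ℝ} (hg : ‖g‖ ≤ 1) :
    ∀ k, ‖Function.update h i g k‖ ≤ 1 := by
  intro k
  by_cases hk : k = i
  · subst hk; rw [Function.update_self]; exact hg
  · rw [Function.update_of_ne hk]; exact hh k

end

lemma norm_le_one {X : Type u} [NormedAddCommGroup X] [NormedSpace ℝ X] {g : X →L[ℝ] ℝ}
    (hg : ∀ y, g y ≤ ‖y‖) : ‖g‖ ≤ 1 := by
  refine ContinuousLinearMap.opNorm_le_bound _ zero_le_one fun y => ?_
  rw [one_mul, Real.norm_eq_abs, abs_le]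
  refine ⟨?_, hg y⟩
  have := hg (-y)
  rw [map_neg, norm_neg] at this
  linarith

lemma le_norm {X : Type u} [NormedAddCommGroup X] [NormedSpace ℝ X] {g : X →L[ℝ] ℝ}
    (hg : ‖g‖ ≤ 1) (y : X) : g y ≤ ‖y‖ := by
  calc g y ≤ |g y| := le_abs_self _
    _ = ‖g y‖ := rfl
    _ ≤ ‖g‖ * ‖y‖ := g.le_opNorm y
    _ ≤ 1 * ‖y‖ := by gcongr
    _ = ‖y‖ := one_mul _

theorem t_FC : S_FC.{u} := by
  intro hFA hFB X _ _ _ n hn h2
  let b : Basis (Fin n) ℝ X := finBasisOfFinrankEq ℝ X hn
  obtain ⟨O, hO, hOn, hOm⟩ := hFA X n b h2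
  obtain ⟨p, hp, ⟨h, hmx⟩, L, hL⟩ := hFB X n b O hO hOn
  obtain ⟨hD, hP⟩ := hOm p hp h hmx
  have hη : ∀ i, h i p ≠ 0 := fun i => by
    have := Finset.prod_ne_zero_iff.1 hP.ne'
    exact this i (Finset.mem_univ i)
  have hF : 0 < FF b p h := add_pos hD hP
  have i0 : Fin n := ⟨0, by omega⟩
  have hp0 : p ≠ 0 := by
    rintro rfl
    exact hη i0 (map_zero _)
  set F : ℝ := FF b p h with hFdef
  set P : ℝ := ∏ i, h i p with hPdef
  have hPF : P < F := by
    have : F = dt b h + P := rfl
    linarith
  have hwi : ∀ i, h i (wv b p h i) = F := by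
    intro i
    rw [← FF_update, Function.update_eq_self]
  have hwk : ∀ k i, k ≠ i → h k (wv b p h i) = h k p * (P / h i p) := by
    intro k i hk
    rw [← FF_update]
    unfold FF
    rw [dt_update_eq_zero b h hk, prod_update, zero_add]
    congr 1
    rw [eq_div_iff (hη i), mul_comm]
    exact Finset.mul_prod_erase Finset.univ (fun k => h k p) (Finset.mem_univ i)
  have hle : ∀ i (g : X →L[ℝ] ℝ), ‖g‖ ≤ 1 → g (wv b p h i) ≤ F := by
    intro i g hg
    rw [← FF_update]
    exact hmx.2 _ (norm_update hmx.1 i hg)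
  have hnorm : ∀ i, ‖wv b p h i‖ = F := by
    intro i
    apply le_antisymm
    · obtain ⟨g, hg1, hg2⟩ := exists_dual_vector'' ℝ (wv b p h i)
      have h3 := hle i g hg1
      rw [hg2] at h3
      exact h3
    · rw [← hwi i]
      exact le_norm (hmx.1 i) _
  refine ⟨p, P / F, fun i => F⁻¹ • wv b p h i, h, hp0, div_pos hP hF, (div_lt_one hF).2 hPF, ?_, ?_⟩
  · constructor
    · exact fun i y => le_norm (hmx.1 i) y
    · intro i
      rw [norm_smul, hnorm i, Real.norm_eq_abs, abs_of_pos (inv_pos.2 hF), inv_mul_cancel₀ hF.ne']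
    · intro i
      rw [map_smul, hwi i, smul_eq_mul, inv_mul_cancel₀ hF.ne']
    · exact hη
    · intro k i hk
      rw [map_smul, hwk k i hk, smul_eq_mul]
      field_simp
    · rw [Fintype.linearIndependent_iff]
      intro c hc i
      have hM : (mat b h).det ≠ 0 := hD.ne'
      have h3 : Matrix.vecMul c (mat b h) = 0 := by
        ext j
        have h4 := congrArg (fun f : X →L[ℝ] ℝ => f (b j)) hc
        simp only [ContinuousLinearMap.sum_apply, ContinuousLinearMap.smul_apply, smul_eq_mul,
          ContinuousLinearMap.zero_apply] at h4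
        exact h4
      exact congrFun (Matrix.eq_zero_of_vecMul_eq_zero hM h3) i
  · intro i g hg hgv
    have hg1 : ‖g‖ ≤ 1 := norm_le_one hg
    have hgw : g (wv b p h i) = F := by
      have h3 : F⁻¹ * g (wv b p h i) = 1 := by
        rw [← smul_eq_mul, ← map_smul]; exact hgv
      field_simp at h3
      exact h3
    have hmx1 : IsMx b p (Function.update h i g) := by
      refine ⟨norm_update hmx.1 i hg1, fun h' hh' => ?_⟩
      rw [FF_update, hgw]
      exact hmx.2 h' hh'
    have e1 := hL h hmx
    have e2 := hL _ hmx1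
    have key : ∀ f : Fin n → X →L[ℝ] ℝ,
        (∑ j, (∏ k ∈ Finset.univ.erase j, f k p) • f j) p = n * ∏ k, f k p := by
      intro f
      rw [ContinuousLinearMap.sum_apply]
      have : ∀ j ∈ (Finset.univ : Finset (Fin n)),
          ((∏ k ∈ Finset.univ.erase j, f k p) • f j) p = ∏ k, f k p := by
        intro j _
        rw [ContinuousLinearMap.smul_apply, smul_eq_mul]
        exact Finset.prod_erase_mul Finset.univ (fun k => f k p) (Finset.mem_univ j)
      rw [Finset.sum_congr rfl this, Finset.sum_const, Finset.card_univ, Fintype.card_fin, nsmul_eq_mul]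
    have e3 : (n : ℝ) * ∏ k, Function.update h i g k p = n * ∏ k, h k p := by
      rw [← key, ← key, e1, e2]
    have hn0 : (n : ℝ) ≠ 0 := by
      have : 0 < n := by omega
      exact_mod_cast this.ne'
    have e4 := mul_left_cancel₀ hn0 e3
    have hQ : (∏ k ∈ Finset.univ.erase i, h k p) ≠ 0 := Finset.prod_ne_zero_iff.2 fun k _ => hη k
    have e5 : g p = h i p := by
      rw [prod_update, ← Finset.mul_prod_erase Finset.univ (fun k => h k p) (Finset.mem_univ i)] at e4
      exact mul_right_cancel₀ hQ e4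
    have e6 : ∀ k, Function.update h i g k p = h k p := by
      intro k
      by_cases hk : k = i
      · subst hk; rw [Function.update_self]; exact e5
      · rw [Function.update_of_ne hk]
    have e7 : ∑ j, (∏ k ∈ Finset.univ.erase j, h k p) • (Function.update h i g j - h j) = 0 := by
      have e8 : ∑ j, (∏ k ∈ Finset.univ.erase j, Function.update h i g k p) • Function.update h i g j =
          ∑ j, (∏ k ∈ Finset.univ.erase j, h k p) • Function.update h i g j := by
        refine Finset.sum_congr rfl fun j _ => ?_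
        congr 1
        exact Finset.prod_congr rfl fun k _ => e6 k
      simp only [smul_sub]
      rw [Finset.sum_sub_distrib, ← e8, e2, e1, sub_self]
    rw [Finset.sum_eq_single i] at e7
    · rw [Function.update_self] at e7
      rcases smul_eq_zero.1 e7 with h9 | h9
      · exact absurd h9 hQ
      · exact sub_eq_zero.1 h9
    · intro j _ hj
      rw [Function.update_of_ne hj, sub_self, smul_zero]
    · intro hi
      exact absurd (Finset.mem_univ i) hi

end Pool.Agent.Q113.KS4_FC
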