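import Mathlib

/-!
# Splitting P₄-free relations (cographs) into unions and joins
-/

namespace Pool.Q113.LP

open Finset

variable {α : Type*} [DecidableEq α]

/-- no induced path on four vertices -/
def NoP4 (R : α → α → Prop) (F : Finset α) : Prop :=
  ∀ a ∈ F, ∀ b ∈ F, ∀ c ∈ F, ∀ d ∈ F, a ≠ b → a ≠ c → a ≠ d → b ≠ c → b ≠ d → c ≠ d →
    R a b → R b c → R c d → R a c ∨ R a d ∨ R b d

omit [DecidableEq α] in
lemma NoP4.mono {R : α → α → Prop} {F G : Finset α} (h : NoP4 R F) (hG : G ⊆ F) : NoP4 R G :=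
  fun a ha b hb c hc d hd => h a (hG ha) b (hG hb) c (hG hc) d (hG hd)

omit [DecidableEq α] in
lemma NoP4.compl {R : α → α → Prop} (hs : ∀ a b, R a b → R b a) {F : Finset α}
    (h : NoP4 R F) : NoP4 (fun a b => ¬ R a b) F := by
  intro a ha b hb c hc d hd hab hac had hbc hbd hcd h1 h2 h3
  by_contra hcon
  simp only [not_or, not_not] at hcon
  obtain ⟨k1, k2, k3⟩ := hcon
  rcases h c hc a ha d hd b hb hac.symm hcd hbc.symm had hab hbd.symm (hs _ _ k1) k2 (hs _ _ k3)
    with h' | h' | h'
  · exact h3 h'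
  · exact h2 (hs _ _ h')
  · exact h1 h'

/-- `P, Q` is a split of `F` -/
def IsSplit (R : α → α → Prop) (F P Q : Finset α) : Prop :=
  P.Nonempty ∧ Q.Nonempty ∧ Disjoint P Q ∧ P ∪ Q = F ∧
    ((∀ p ∈ P, ∀ q ∈ Q, R p q) ∨ (∀ p ∈ P, ∀ q ∈ Q, ¬ R p q))

lemma step {R : α → α → Prop} (hs : ∀ a b, R a b → R b a) {F P Q : Finset α} {x : α}
    (hx : x ∉ F) (h4 : NoP4 R (insert x F)) (hP : P.Nonempty) (hQ : Q.Nonempty)
    (hd : Disjoint P Q) (hPQ : P ∪ Q = F) (hn : ∀ p ∈ P, ∀ q ∈ Q, ¬ R p q) :
    ∃ P' Q', IsSplit R (insert x F) P' Q' := by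
  classical
  -- main case: some `y ∈ P` is not adjacent to `x`
  have key : ∀ P Q : Finset α, P.Nonempty → Q.Nonempty → Disjoint P Q → P ∪ Q = F →
      (∀ p ∈ P, ∀ q ∈ Q, ¬ R p q) → (∃ y ∈ P, ¬ R x y) →
      ∃ P' Q', IsSplit R (insert x F) P' Q' := by
    rintro P Q hP hQ hd hPQ hn ⟨y, hyP, hxy⟩
    have hPF : P ⊆ F := hPQ ▸ subset_union_left
    have hQF : Q ⊆ F := hPQ ▸ subset_union_right
    by_cases hz : ∃ z ∈ Q, R x z
    · obtain ⟨z, hzQ, hxz⟩ := hz
      have hzx : z ≠ x := fun h => hx (h ▸ hQF hzQ)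
      refine ⟨P.filter (fun p => ¬ R x p), insert x (P.filter (fun p => R x p) ∪ Q),
        ⟨y, by simp [hyP, hxy]⟩, ⟨x, by simp⟩, ?_, ?_, Or.inr ?_⟩
      · rw [Finset.disjoint_left]
        intro a ha hb
        rw [mem_filter] at ha
        rw [mem_insert, mem_union, mem_filter] at hb
        rcases hb with hb | hb | hb
        · exact hx (hb ▸ hPF ha.1)
        · exact ha.2 hb.2
        · exact Finset.disjoint_left.mp hd ha.1 hb
      · ext a
        rw [← hPQ]
        simp only [mem_union, mem_insert, mem_filter]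
        by_cases hR : R x a
        · simp only [hR]; tauto
        · simp only [hR]; tauto
      · intro p hp q hq hpq
        rw [mem_filter] at hp
        rw [mem_insert, mem_union, mem_filter] at hq
        have hpx : p ≠ x := fun h => hx (h ▸ hPF hp.1)
        rcases hq with hq | hq | hq
        · subst hq; exact hp.2 (hs _ _ hpq)
        · have hqx : q ≠ x := fun h => hx (h ▸ hPF hq.1)
          have hpq' : p ≠ q := by
            rintro rfl
            exact hp.2 hq.2
          have hpz : p ≠ z := fun h => Finset.disjoint_left.mp hd hp.1 (h ▸ hzQ)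
          have hqz : q ≠ z := fun h => Finset.disjoint_left.mp hd hq.1 (h ▸ hzQ)
          rcases h4 p (by simp [hPF hp.1]) q (by simp [hPF hq.1]) x (by simp)
            z (by simp [hQF hzQ]) hpq' hpx hpz hqx hqz hzx.symm hpq (hs _ _ hq.2) hxz with h | h | h
          · exact hp.2 (hs _ _ h)
          · exact hn _ hp.1 _ hzQ h
          · exact hn _ hq.1 _ hzQ h
        · exact hn _ hp.1 _ hq hpq
    · push Not at hz
      refine ⟨insert x P, Q, ⟨x, by simp⟩, hQ, ?_, ?_, Or.inr ?_⟩
      · rw [Finset.disjoint_left]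
        intro a ha hb
        rw [mem_insert] at ha
        rcases ha with ha | ha
        · exact hx (ha ▸ hQF hb)
        · exact Finset.disjoint_left.mp hd ha hb
      · rw [← hPQ, insert_union]
      · intro p hp q hq
        rw [mem_insert] at hp
        rcases hp with hp | hp
        · subst hp; exact hz q hq
        · exact hn p hp q hq
  by_cases h1 : ∃ y ∈ P, ¬ R x y
  · exact key P Q hP hQ hd hPQ hn h1
  by_cases h2 : ∃ y ∈ Q, ¬ R x y
  · exact key Q P hQ hP hd.symm (by rw [union_comm]; exact hPQ)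
      (fun p hp q hq h => hn q hq p hp (hs _ _ h)) h2
  push Not at h1 h2
  refine ⟨{x}, F, ⟨x, by simp⟩, ?_, by simpa using hx, by simp, Or.inl ?_⟩
  · obtain ⟨p, hp⟩ := hP
    exact ⟨p, hPQ ▸ mem_union_left _ hp⟩
  · intro p hp q hq
    rw [mem_singleton] at hp
    subst hp
    rw [← hPQ, mem_union] at hq
    rcases hq with hq | hq
    · exact h1 q hq
    · exact h2 q hq

theorem cograph_split {R : α → α → Prop} (hs : ∀ a b, R a b → R b a) (F : Finset α)
    (h4 : NoP4 R F) (h2 : 2 ≤ F.card) : ∃ P Q, IsSplit R F P Q := by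
  classical
  induction F using Finset.induction_on with
  | empty => simp at h2
  | insert x F hx ih =>
    rcases Nat.lt_or_ge F.card 2 with hlt | hge
    · rw [card_insert_of_notMem hx] at h2
      have h1 : F.card = 1 := by omega
      obtain ⟨y, rfl⟩ := card_eq_one.mp h1
      refine ⟨{x}, {y}, ⟨x, by simp⟩, ⟨y, by simp⟩, ?_, by ext; simp, ?_⟩
      · simpa using hx
      · by_cases hR : R x y
        · left; simpa using hR
        · right; simpa using hR
    · obtain ⟨P, Q, hP, hQ, hd, hPQ, hc⟩ := ih (h4.mono (subset_insert _ _)) hge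
      rcases hc with hc | hc
      · have := step (R := fun a b => ¬ R a b) (fun a b h h' => h (hs _ _ h')) hx
          (h4.compl hs) hP hQ hd hPQ (fun p hp q hq h => h (hc p hp q hq))
        obtain ⟨P', Q', a1, a2, a3, a4, a5⟩ := this
        refine ⟨P', Q', a1, a2, a3, a4, ?_⟩
        rcases a5 with a5 | a5
        · exact Or.inr a5
        · left
          intro p hp q hq
          exact not_not.mp (a5 p hp q hq)
      · exact step hs hx h4 hP hQ hd hPQ hc

end Pool.Q113.LP
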