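import Mathlib
import Pool.Agent.Q113.LP1

/-!
# Incidence vectors of edges, unions and joins
-/

namespace Pool.Q113.LP

open Finset Module

variable {V : Type*} [Fintype V] [DecidableEq V]

/-- incidence vector -/
def ind (g : Finset V) : V → ℝ := fun v => if v ∈ g then 1 else 0

/-- coordinate sum -/
def cs (a : V → ℝ) : ℝ := ∑ v, a v

/-- the span of the incidence vectors -/
def U (F : Finset (Finset V)) : Submodule ℝ (V → ℝ) :=
  Submodule.span ℝ (ind '' (F : Set (Finset V)))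

noncomputable def rk (F : Finset (Finset V)) : ℕ := finrank ℝ (U F)

noncomputable def nul (F : Finset (Finset V)) : ℕ := F.card - rk F

lemma ind_dot_ind (g h : Finset V) : ind g ⬝ᵥ ind h = ((g ∩ h).card : ℝ) := by
  have h0 : ∀ v : V, ind g v * ind h v = if v ∈ g ∩ h then 1 else 0 := by
    intro v
    by_cases h1 : v ∈ g <;> by_cases h2 : v ∈ h <;> simp [ind, h1, h2]
  simp only [dotProduct, h0]
  rw [Finset.sum_ite_mem, Finset.univ_inter]
  simp

lemma cs_ind (g : Finset V) : cs (ind g) = (g.card : ℝ) := by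
  simp [cs, ind]

omit [DecidableEq V] in
lemma cs_add (a b : V → ℝ) : cs (a + b) = cs a + cs b := by
  simp [cs, Finset.sum_add_distrib]

omit [DecidableEq V] in
lemma cs_smul (c : ℝ) (a : V → ℝ) : cs (c • a) = c * cs a := by
  simp [cs, Finset.mul_sum]

omit [Fintype V] in
lemma ind_mem {F : Finset (Finset V)} {g : Finset V} (hg : g ∈ F) : ind g ∈ U F :=
  Submodule.subset_span ⟨g, by exact_mod_cast hg, rfl⟩

omit [Fintype V] in
lemma U_union (P Q : Finset (Finset V)) : U (P ∪ Q) = U P ⊔ U Q := by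
  unfold U
  rw [Finset.coe_union, Set.image_union, Submodule.span_union]

omit [Fintype V] in
lemma U_mono {P Q : Finset (Finset V)} (h : P ⊆ Q) : U P ≤ U Q := by
  unfold U
  apply Submodule.span_mono
  apply Set.image_mono
  exact_mod_cast h

lemma rk_le_card (F : Finset (Finset V)) : rk F ≤ F.card := by
  classical
  unfold rk U
  have : (ind '' (F : Set (Finset V))) = ((F.image ind : Finset (V → ℝ)) : Set (V → ℝ)) := by
    rw [Finset.coe_image]
  rw [this]
  exact (finrank_span_finset_le_card _).trans Finset.card_image_le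

lemma rk_add_nul (F : Finset (Finset V)) : rk F + nul F = F.card := by
  have := rk_le_card F
  unfold nul
  omega

lemma rk_union (P Q : Finset (Finset V)) :
    rk (P ∪ Q) + finrank ℝ (U P ⊓ U Q : Submodule ℝ (V → ℝ)) = rk P + rk Q := by
  unfold rk
  rw [U_union]
  exact Submodule.finrank_sup_add_finrank_inf_eq _ _

/-- if `a` has the same product `c` with all edges of an `r`-uniform family, then
`⟨a, b⟩ = c * (cs b / r)` for all `b` in the span -/
lemma dot_of_const {r : ℕ} (hr : r ≠ 0) {F : Finset (Finset V)} (hu : ∀ g ∈ F, g.card = r)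
    {a : V → ℝ} {c : ℝ} (ha : ∀ g ∈ F, a ⬝ᵥ ind g = c) {b : V → ℝ} (hb : b ∈ U F) :
    a ⬝ᵥ b = c * (cs b / r) := by
  have hr' : (r : ℝ) ≠ 0 := by exact_mod_cast hr
  refine Submodule.span_induction (p := fun b _ => a ⬝ᵥ b = c * (cs b / r)) ?_ ?_ ?_ ?_ hb
  · rintro x ⟨g, hg, rfl⟩
    have hg' : g ∈ F := by exact_mod_cast hg
    rw [ha g hg', cs_ind, hu g hg', div_self hr', mul_one]
  · simp [cs]
  · intro x y _ _ hx hy
    rw [dotProduct_add, hx, hy, cs_add]; ring
  · intro t x _ hx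
    rw [dotProduct_smul, hx, cs_smul, smul_eq_mul]; ring

lemma dot_zero_of {F : Finset (Finset V)}
    {a : V → ℝ} (ha : ∀ g ∈ F, a ⬝ᵥ ind g = 0) {b : V → ℝ} (hb : b ∈ U F) :
    a ⬝ᵥ b = 0 := by
  refine Submodule.span_induction (p := fun b _ => a ⬝ᵥ b = 0) ?_ ?_ ?_ ?_ hb
  · rintro x ⟨g, hg, rfl⟩
    exact ha g (by exact_mod_cast hg)
  · simp
  · intro x y _ _ hx hy
    rw [dotProduct_add, hx, hy]; ring
  · intro t x _ hx
    rw [dotProduct_smul, hx, smul_zero]

omit [Fintype V] in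
/-- coordinates outside all edges vanish -/
lemma apply_zero_of {F : Finset (Finset V)} {v : V} (hv : ∀ g ∈ F, v ∉ g) {b : V → ℝ}
    (hb : b ∈ U F) : b v = 0 := by
  refine Submodule.span_induction (p := fun b _ => b v = 0) ?_ ?_ ?_ ?_ hb
  · rintro x ⟨g, hg, rfl⟩
    simp [ind, hv g (by exact_mod_cast hg)]
  · simp
  · intro x y _ _ hx hy
    simp [hx, hy]
  · intro t x _ hx
    simp [hx]

/-- the join condition -/
def Join (P Q : Finset (Finset V)) : Prop := ∀ p ∈ P, ∀ q ∈ Q, (p ∩ q).card = 1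

/-- the union condition -/
def Sep (P Q : Finset (Finset V)) : Prop := ∀ p ∈ P, ∀ q ∈ Q, Disjoint p q

omit [Fintype V] in
lemma Join.symm {P Q : Finset (Finset V)} (h : Join P Q) : Join Q P :=
  fun p hp q hq => by rw [inter_comm]; exact h q hq p hp

omit [Fintype V] [DecidableEq V] in
lemma Sep.symm {P Q : Finset (Finset V)} (h : Sep P Q) : Sep Q P :=
  fun p hp q hq => (h q hq p hp).symm

section join

variable {r : ℕ} {P Q : Finset (Finset V)}

lemma Join.dot_ind (hr : r ≠ 0) (hP : ∀ g ∈ P, g.card = r) (h : Join P Q) {a : V → ℝ}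
    (ha : a ∈ U P) {q : Finset V} (hq : q ∈ Q) : a ⬝ᵥ ind q = cs a / r := by
  rw [dotProduct_comm]
  have := dot_of_const (a := ind q) (c := 1) hr hP (fun g hg => by
    rw [ind_dot_ind, inter_comm, h g hg q hq]; simp) ha
  rw [this, one_mul]

lemma Join.dot (hr : r ≠ 0) (hP : ∀ g ∈ P, g.card = r) (hQ : ∀ g ∈ Q, g.card = r)
    (h : Join P Q) {a b : V → ℝ} (ha : a ∈ U P) (hb : b ∈ U Q) :
    a ⬝ᵥ b = (cs a / r) * (cs b / r) :=
  dot_of_const hr hQ (fun _ hg => h.dot_ind hr hP ha hg) hb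

lemma Sep.dot_ind (h : Sep P Q) {a : V → ℝ}
    (ha : a ∈ U P) {q : Finset V} (hq : q ∈ Q) : a ⬝ᵥ ind q = 0 := by
  rw [dotProduct_comm]
  exact dot_zero_of (fun g hg => by
    rw [ind_dot_ind, inter_comm, Finset.disjoint_iff_inter_eq_empty.mp (h g hg q hq)]; simp) ha

lemma Sep.dot (h : Sep P Q) {a b : V → ℝ} (ha : a ∈ U P) (hb : b ∈ U Q) :
    a ⬝ᵥ b = 0 :=
  dot_zero_of (fun _ hg => h.dot_ind ha hg) hb

lemma Sep.inf (h : Sep P Q) : U P ⊓ U Q = ⊥ := by
  rw [Submodule.eq_bot_iff]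
  intro x hx
  have := h.dot hx.1 hx.2
  exact dotProduct_self_eq_zero.mp this

lemma Sep.rk_union (h : Sep P Q) : rk (P ∪ Q) = rk P + rk Q := by
  have := Pool.Q113.LP.rk_union P Q
  rw [h.inf] at this
  simpa using this

/-- a dual unit vector -/
structure IsW (r : ℕ) (F : Finset (Finset V)) (w : V → ℝ) : Prop where
  mem : w ∈ U F
  dot : ∀ g ∈ F, w ⬝ᵥ ind g = 1
  sq : w ⬝ᵥ w = 1

lemma IsW.cs_eq (hr : r ≠ 0) (hP : ∀ g ∈ P, g.card = r) {w : V → ℝ} (hw : IsW r P w) :
    cs w = r := by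
  have hr' : (r : ℝ) ≠ 0 := by exact_mod_cast hr
  have := dot_of_const hr hP hw.dot hw.mem
  rw [hw.sq, one_mul] at this
  field_simp at this
  linarith

/-- the dichotomy in a join -/
lemma Join.inf (hr : r ≠ 0) (hP : ∀ g ∈ P, g.card = r) (hQ : ∀ g ∈ Q, g.card = r)
    (h : Join P Q) :
    U P ⊓ U Q = ⊥ ∨ (finrank ℝ (U P ⊓ U Q : Submodule ℝ (V → ℝ)) = 1 ∧
      ∃ w, IsW r P w ∧ IsW r Q w) := by
  have hr' : (r : ℝ) ≠ 0 := by exact_mod_cast hr
  by_cases h0 : U P ⊓ U Q = ⊥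
  · exact Or.inl h0
  right
  obtain ⟨u, hu, hu0⟩ := Submodule.exists_mem_ne_zero_of_ne_bot h0
  have hcs : ∀ x ∈ U P ⊓ U Q, cs x = 0 → x = 0 := by
    intro x hx hx0
    have := h.dot hr hP hQ hx.1 hx.2
    rw [hx0] at this
    simp only [zero_div, mul_zero] at this
    exact dotProduct_self_eq_zero.mp this
  have huc : cs u ≠ 0 := fun h' => hu0 (hcs u hu h')
  constructor
  · rw [finrank_eq_one_iff']
    refine ⟨⟨u, hu⟩, ?_, ?_⟩
    · intro h'; exact hu0 (congrArg Subtype.val h')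
    · rintro ⟨x, hx⟩
      refine ⟨cs x / cs u, ?_⟩
      apply Subtype.ext
      have h1 : x - (cs x / cs u) • u ∈ U P ⊓ U Q :=
        Submodule.sub_mem _ hx (Submodule.smul_mem _ _ hu)
      have h2 : cs (x - (cs x / cs u) • u) = 0 := by
        rw [sub_eq_add_neg, ← neg_smul, cs_add, cs_smul]
        field_simp
        ring
      have h3 := hcs _ h1 h2
      exact (sub_eq_zero.mp h3).symm
  · set w : V → ℝ := ((r : ℝ) / cs u) • u with hw
    have hwP : w ∈ U P := Submodule.smul_mem _ _ hu.1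
    have hwQ : w ∈ U Q := Submodule.smul_mem _ _ hu.2
    have hwc : cs w = r := by
      rw [hw, cs_smul]; field_simp
    have hsq : w ⬝ᵥ w = 1 := by
      rw [h.dot hr hP hQ hwP hwQ, hwc, div_self hr', one_mul]
    refine ⟨w, ⟨hwP, ?_, hsq⟩, ⟨hwQ, ?_, hsq⟩⟩
    · intro g hg
      rw [h.symm.dot_ind hr hQ hwQ hg, hwc, div_self hr']
    · intro g hg
      rw [h.dot_ind hr hP hwP hg, hwc, div_self hr']

end join

end Pool.Q113.LP
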