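import Mathlib
import Pool.Agent.Q113.LP2

/-!
# The claims D, E, C and the rank inequality
-/

namespace Pool.Q113.LP

open Finset Module

variable {V : Type*} [Fintype V] [DecidableEq V]

/-- an `r`-uniform linear family without a linear path with four edges -/
structure Sys (r : ℕ) (E : Finset (Finset V)) : Prop where
  card : ∀ g ∈ E, g.card = r
  lin : ∀ g ∈ E, ∀ h ∈ E, g ≠ h → (g ∩ h).card ≤ 1
  p4 : NoP4 (fun g h => ¬ Disjoint g h) E

omit [Fintype V] in
lemma Sys.mono {r : ℕ} {E F : Finset (Finset V)} (h : Sys r E) (hF : F ⊆ E) : Sys r F :=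
  ⟨fun g hg => h.card g (hF hg), fun g hg k hk => h.lin g (hF hg) k (hF hk), h.p4.mono hF⟩

omit [Fintype V] in
theorem Sys.induction {r : ℕ} {Φ : Finset (Finset V) → Prop}
    (single : ∀ g : Finset V, g.card = r → Φ {g})
    (union : ∀ P Q, Sys r (P ∪ Q) → P.Nonempty → Q.Nonempty → Disjoint P Q → Sep P Q →
      Φ P → Φ Q → Φ (P ∪ Q))
    (join : ∀ P Q, Sys r (P ∪ Q) → P.Nonempty → Q.Nonempty → Disjoint P Q → Join P Q →
      Φ P → Φ Q → Φ (P ∪ Q)) :
    ∀ F : Finset (Finset V), Sys r F → F.Nonempty → Φ F := by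
  intro F
  induction F using Finset.strongInduction with
  | H F ih =>
    intro hF hne
    rcases Nat.lt_or_ge F.card 2 with hlt | hge
    · have h1 : F.card = 1 := by
        have := hne.card_pos
        omega
      obtain ⟨g, rfl⟩ := card_eq_one.mp h1
      exact single g (hF.card g (by simp))
    · obtain ⟨P, Q, hP, hQ, hd, hPQ, hc⟩ :=
        cograph_split (R := fun g h : Finset V => ¬ Disjoint g h)
          (fun a b h h' => h h'.symm) F hF.p4 hge
      subst hPQ
      have hPF : P ⊂ P ∪ Q := by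
        refine ⟨subset_union_left, fun h => ?_⟩
        obtain ⟨q, hq⟩ := hQ
        exact Finset.disjoint_left.mp hd (h (mem_union_right _ hq)) hq
      have hQF : Q ⊂ P ∪ Q := by
        refine ⟨subset_union_right, fun h => ?_⟩
        obtain ⟨q, hq⟩ := hP
        exact Finset.disjoint_left.mp hd hq (h (mem_union_left _ hq))
      have iP := ih P hPF (hF.mono hPF.1) hP
      have iQ := ih Q hQF (hF.mono hQF.1) hQ
      rcases hc with hc | hc
      · refine join P Q hF hP hQ hd ?_ iP iQ
        intro p hp q hq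
        have hne : p ≠ q := by
          rintro rfl
          exact Finset.disjoint_left.mp hd hp hq
        have h1 := hF.lin p (mem_union_left _ hp) q (mem_union_right _ hq) hne
        have h2 : 0 < (p ∩ q).card := by
          rw [card_pos]
          exact not_disjoint_iff_nonempty_inter.mp (hc p hp q hq)
        omega
      · refine union P Q hF hP hQ hd ?_ iP iQ
        intro p hp q hq
        exact not_not.mp (hc p hp q hq)

lemma rk_single {r : ℕ} (hr : r ≠ 0) {g : Finset V} (hg : g.card = r) : rk {g} = 1 := by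
  unfold rk U
  rw [Finset.coe_singleton, Set.image_singleton]
  apply finrank_span_singleton
  intro h
  have := cs_ind g
  rw [h, hg] at this
  simp [cs] at this
  exact hr (by exact_mod_cast this.symm)

omit [Fintype V] in
lemma mem_U_single {g : Finset V} {a : V → ℝ} (ha : a ∈ U ({g} : Finset (Finset V))) :
    ∃ c : ℝ, a = c • ind g := by
  unfold U at ha
  rw [Finset.coe_singleton, Set.image_singleton] at ha
  obtain ⟨c, hc⟩ := Submodule.mem_span_singleton.mp ha
  exact ⟨c, hc.symm⟩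

theorem claimD {r : ℕ} (hr : r ≠ 0) (F : Finset (Finset V)) (hF : Sys r F) (hne : F.Nonempty) :
    rk F < F.card → ∃ w ∈ U F, w ⬝ᵥ w = 1 ∧ cs w = r := by
  refine Sys.induction (r := r)
    (Φ := fun F => rk F < F.card → ∃ w ∈ U F, w ⬝ᵥ w = 1 ∧ cs w = r) ?_ ?_ ?_ F hF hne
  · intro g hg h
    rw [rk_single hr hg] at h
    simp at h
  · intro P Q hS _ _ hd hsep iP iQ h
    rw [hsep.rk_union, card_union_of_disjoint hd] at h
    have h1 := rk_le_card P
    have h2 := rk_le_card Q
    rcases Nat.lt_or_ge (rk P) P.card with h3 | h3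
    · obtain ⟨w, hw, h4, h5⟩ := iP h3
      exact ⟨w, U_mono subset_union_left hw, h4, h5⟩
    · obtain ⟨w, hw, h4, h5⟩ := iQ (by omega)
      exact ⟨w, U_mono subset_union_right hw, h4, h5⟩
  · intro P Q hS _ _ hd hj iP iQ h
    have hP : ∀ g ∈ P, g.card = r := fun g hg => hS.card g (mem_union_left _ hg)
    have hQ : ∀ g ∈ Q, g.card = r := fun g hg => hS.card g (mem_union_right _ hg)
    rcases hj.inf hr hP hQ with h0 | ⟨_, w, hw, _⟩
    · have := rk_union P Q
      rw [h0] at this
      simp only [finrank_bot, add_zero] at this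
      rw [this, card_union_of_disjoint hd] at h
      have h1 := rk_le_card P
      have h2 := rk_le_card Q
      rcases Nat.lt_or_ge (rk P) P.card with h3 | h3
      · obtain ⟨w, hw, h4, h5⟩ := iP h3
        exact ⟨w, U_mono subset_union_left hw, h4, h5⟩
      · obtain ⟨w, hw, h4, h5⟩ := iQ (by omega)
        exact ⟨w, U_mono subset_union_right hw, h4, h5⟩
    · exact ⟨w, U_mono subset_union_left hw.mem, hw.sq, hw.cs_eq hr hP⟩

omit [Fintype V] in
lemma mem_union_iff {P Q : Finset (Finset V)} {w : V → ℝ} (hw : w ∈ U (P ∪ Q)) :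
    ∃ a ∈ U P, ∃ b ∈ U Q, w = a + b := by
  rw [U_union] at hw
  obtain ⟨a, ha, b, hb, h⟩ := Submodule.mem_sup.mp hw
  exact ⟨a, ha, b, hb, h.symm⟩

omit [DecidableEq V] in
lemma dot_self_nonneg (a : V → ℝ) : 0 ≤ a ⬝ᵥ a := by
  simp only [dotProduct]
  exact Finset.sum_nonneg (fun i _ => mul_self_nonneg _)

omit [DecidableEq V] in
lemma cauchy (a b : V → ℝ) : (a ⬝ᵥ b) ^ 2 ≤ (a ⬝ᵥ a) * (b ⬝ᵥ b) := by
  simp only [dotProduct]
  have := Finset.sum_mul_sq_le_sq_mul_sq univ a b
  simpa [sq] using this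

theorem claimE {r : ℕ} (hr : r ≠ 0) (F : Finset (Finset V)) (hF : Sys r F) (hne : F.Nonempty) :
    ∀ w ∈ U F, (∀ g ∈ F, w ⬝ᵥ ind g = 1) → w ⬝ᵥ w < 1 → w ⬝ᵥ w ≤ (F.card : ℝ) / r := by
  have hr' : (r : ℝ) ≠ 0 := by exact_mod_cast hr
  have hr0 : (0 : ℝ) < r := by positivity
  refine Sys.induction (r := r)
    (Φ := fun F => ∀ w ∈ U F, (∀ g ∈ F, w ⬝ᵥ ind g = 1) → w ⬝ᵥ w < 1 →
      w ⬝ᵥ w ≤ (F.card : ℝ) / r) ?_ ?_ ?_ F hF hne
  · intro g hg w hw h1 _
    obtain ⟨c, rfl⟩ := mem_U_single hw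
    have h2 := h1 g (by simp)
    rw [smul_dotProduct, ind_dot_ind, inter_self, hg, smul_eq_mul] at h2
    rw [smul_dotProduct, dotProduct_smul, ind_dot_ind, inter_self, hg, smul_eq_mul, smul_eq_mul,
      h2, card_singleton]
    rw [mul_one, Nat.cast_one, eq_div_of_mul_eq hr' h2]
  · intro P Q hS _ _ hd hsep iP iQ w hw h1 hlt
    obtain ⟨a, ha, b, hb, rfl⟩ := mem_union_iff hw
    have hab : a ⬝ᵥ b = 0 := hsep.dot ha hb
    have hba : b ⬝ᵥ a = 0 := by rw [dotProduct_comm]; exact hab
    have hsq : (a + b) ⬝ᵥ (a + b) = a ⬝ᵥ a + b ⬝ᵥ b := by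
      rw [add_dotProduct, dotProduct_add, dotProduct_add, hab, hba]; ring
    have hna := dot_self_nonneg a
    have hnb := dot_self_nonneg b
    have e1 := iP a ha (fun g hg => by
      have := h1 g (mem_union_left _ hg)
      rw [add_dotProduct, hsep.symm.dot_ind hb hg, add_zero] at this
      exact this) (by linarith)
    have e2 := iQ b hb (fun g hg => by
      have := h1 g (mem_union_right _ hg)
      rw [add_dotProduct, hsep.dot_ind ha hg, zero_add] at this
      exact this) (by linarith)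
    rw [hsq, card_union_of_disjoint hd, Nat.cast_add, add_div]
    linarith
  · intro P Q hS _ _ hd hj iP iQ w hw h1 hlt
    have hP : ∀ g ∈ P, g.card = r := fun g hg => hS.card g (mem_union_left _ hg)
    have hQ : ∀ g ∈ Q, g.card = r := fun g hg => hS.card g (mem_union_right _ hg)
    obtain ⟨a, ha, b, hb, rfl⟩ := mem_union_iff hw
    set x := cs a / r with hx
    set y := cs b / r with hy
    have hPa : ∀ g ∈ P, a ⬝ᵥ ind g = 1 - y := by
      intro g hg
      have := h1 g (mem_union_left _ hg)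
      rw [add_dotProduct, hj.symm.dot_ind hr hQ hb hg] at this
      linarith
    have hQb : ∀ g ∈ Q, b ⬝ᵥ ind g = 1 - x := by
      intro g hg
      have := h1 g (mem_union_right _ hg)
      rw [add_dotProduct, hj.dot_ind hr hP ha hg] at this
      linarith
    have haa : a ⬝ᵥ a = (1 - y) * x := dot_of_const hr hP hPa ha
    have hbb : b ⬝ᵥ b = (1 - x) * y := dot_of_const hr hQ hQb hb
    have hab : a ⬝ᵥ b = x * y := hj.dot hr hP hQ ha hb
    have hba : b ⬝ᵥ a = x * y := by rw [dotProduct_comm]; exact hab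
    have hsq : (a + b) ⬝ᵥ (a + b) = x + y := by
      rw [add_dotProduct, dotProduct_add, dotProduct_add, hab, hba, haa, hbb]; ring
    have hnn := dot_self_nonneg (a + b)
    have hcs := cauchy a b
    rw [haa, hbb, hab] at hcs
    rw [hsq] at hlt hnn
    have hxy : 0 ≤ x * y := by
      by_contra hneg
      push Not at hneg
      have : x * y * (1 - (x + y)) < 0 := mul_neg_of_neg_of_pos hneg (by linarith)
      nlinarith
    have hx0 : 0 ≤ x := by
      by_contra hneg
      push Not at hneg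
      have hy1 : 0 < y := by linarith
      nlinarith
    have hy0 : 0 ≤ y := by
      by_contra hneg
      push Not at hneg
      have hy1 : 0 < x := by linarith
      nlinarith
    have aux : ∀ (P : Finset (Finset V)) (a : V → ℝ) (x y : ℝ), 0 ≤ x → 0 ≤ y → x + y < 1 →
        a ∈ U P → (∀ g ∈ P, a ⬝ᵥ ind g = 1 - y) → a ⬝ᵥ a = (1 - y) * x →
        (∀ w ∈ U P, (∀ g ∈ P, w ⬝ᵥ ind g = 1) → w ⬝ᵥ w < 1 → w ⬝ᵥ w ≤ (P.card : ℝ) / r) →
        x ≤ (P.card : ℝ) / r := by
      intro P a x y hx0 hy0 hxy ha hPa haa iP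
      have hy1 : 0 < 1 - y := by linarith
      have h2 : ((1 - y)⁻¹ • a) ⬝ᵥ ((1 - y)⁻¹ • a) = x / (1 - y) := by
        rw [smul_dotProduct, dotProduct_smul, haa, smul_eq_mul, smul_eq_mul]
        field_simp
      have h3 := iP ((1 - y)⁻¹ • a) (Submodule.smul_mem _ _ ha) (fun g hg => by
        rw [smul_dotProduct, hPa g hg, smul_eq_mul]
        field_simp) (by
          rw [h2, div_lt_one hy1]; linarith)
      rw [h2, div_le_iff₀ hy1] at h3
      have h4 : (0 : ℝ) ≤ (P.card : ℝ) / r := by positivity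
      nlinarith
    have e1 := aux P a x y hx0 hy0 (by linarith) ha hPa haa iP
    have e2 := aux Q b y x hy0 hx0 (by linarith) hb hQb hbb iQ
    rw [hsq, card_union_of_disjoint hd, Nat.cast_add, add_div]
    linarith

/-- a dual vector of norm `< 1` forces independence -/
lemma indep_of_lt {r : ℕ} (hr : r ≠ 0) {F : Finset (Finset V)} (hF : Sys r F)
    (hne : F.Nonempty) {w : V → ℝ} (h1 : ∀ g ∈ F, w ⬝ᵥ ind g = 1)
    (h2 : w ⬝ᵥ w < 1) : nul F = 0 := by
  have hr' : (r : ℝ) ≠ 0 := by exact_mod_cast hr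
  by_contra h
  have h3 : rk F < F.card := by unfold nul at h; omega
  obtain ⟨w0, hw0, hsq, hcs⟩ := claimD hr F hF hne h3
  have h4 := dot_of_const hr hF.card h1 hw0
  rw [hcs, div_self hr', mul_one] at h4
  have h5 := cauchy w w0
  rw [h4, hsq] at h5
  linarith

end Pool.Q113.LP
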