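import Mathlib
import Pool.Agent.Q113.LP3

/-!
# Claim C and the rank inequality
-/

namespace Pool.Q113.LP

open Finset Module

variable {V : Type*} [Fintype V] [DecidableEq V]

/-- edges through `v` -/
def deg (F : Finset (Finset V)) (v : V) : ℕ := (F.filter (fun g => v ∈ g)).card

/-- edges through `v`, other than `h`, meeting `h` -/
def nb (F : Finset (Finset V)) (v : V) (h : Finset V) : ℕ :=
  (F.filter (fun g => g ≠ h ∧ v ∈ g ∧ ¬ Disjoint g h)).card

omit [Fintype V] in
lemma deg_union {P Q : Finset (Finset V)} (hd : Disjoint P Q) (v : V) :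
    deg (P ∪ Q) v = deg P v + deg Q v := by
  unfold deg
  rw [filter_union, card_union_of_disjoint (disjoint_filter_filter hd)]

omit [Fintype V] in
lemma nb_union {P Q : Finset (Finset V)} (hd : Disjoint P Q) (v : V) (h : Finset V) :
    nb (P ∪ Q) v h = nb P v h + nb Q v h := by
  unfold nb
  rw [filter_union, card_union_of_disjoint (disjoint_filter_filter hd)]

omit [Fintype V] in
lemma Join.nb_eq {P Q : Finset (Finset V)} (hj : Join P Q) (hd : Disjoint P Q) (v : V)
    {h : Finset V} (hh : h ∈ P) : nb Q v h = deg Q v := by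
  unfold nb deg
  congr 1
  apply filter_congr
  intro g hg
  constructor
  · exact fun h' => h'.2.1
  · intro h'
    refine ⟨?_, h', ?_⟩
    · rintro rfl
      exact Finset.disjoint_left.mp hd hh hg
    · rw [not_disjoint_iff_nonempty_inter, ← card_pos, inter_comm, hj h hh g hg]
      exact Nat.one_pos

omit [DecidableEq V] in
/-- unit vectors with product one are equal -/
lemma eq_of_dot_one {a b : V → ℝ} (ha : a ⬝ᵥ a = 1) (hb : b ⬝ᵥ b = 1) (hab : a ⬝ᵥ b = 1) :
    a = b := by
  have : (a - b) ⬝ᵥ (a - b) = 0 := by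
    rw [sub_dotProduct, dotProduct_sub, dotProduct_sub, ha, hb, hab, dotProduct_comm b a, hab]
    ring
  exact sub_eq_zero.mp (dotProduct_self_eq_zero.mp this)

/-- the conclusion of claim C -/
def CC (r : ℕ) (F : Finset (Finset V)) (w : V → ℝ) : Prop :=
  r * (nul F + 1) ≤ F.card ∧ ∀ v, w v ≠ 0 → nul F + 1 ≤ deg F v ∧ ∀ h ∈ F, nul F ≤ nb F v h

omit [Fintype V] in
lemma CC.comm {r : ℕ} {P Q : Finset (Finset V)} {w : V → ℝ} (h : CC r (Q ∪ P) w) :
    CC r (P ∪ Q) w := by rw [union_comm]; exact h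

/-- both case -/
lemma both {r : ℕ} (hr : r ≠ 0) {P Q : Finset (Finset V)} (hS : Sys r (P ∪ Q))
    (hd : Disjoint P Q) (hj : Join P Q) {w : V → ℝ} (hwP : IsW r P w) (hwQ : IsW r Q w)
    (cP : CC r P w) (cQ : CC r Q w) : CC r (P ∪ Q) w ∧ nul (P ∪ Q) = nul P + nul Q + 1 := by
  have hP : ∀ g ∈ P, g.card = r := fun g hg => hS.card g (mem_union_left _ hg)
  have hQ : ∀ g ∈ Q, g.card = r := fun g hg => hS.card g (mem_union_right _ hg)
  have hinf : finrank ℝ (U P ⊓ U Q : Submodule ℝ (V → ℝ)) = 1 := by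
    rcases hj.inf hr hP hQ with h0 | ⟨h1, _⟩
    · exfalso
      have : w ∈ U P ⊓ U Q := ⟨hwP.mem, hwQ.mem⟩
      rw [h0, Submodule.mem_bot] at this
      have h2 := hwP.sq
      rw [this] at h2
      simp at h2
    · exact h1
  have hrk := rk_union P Q
  rw [hinf] at hrk
  have e1 := rk_add_nul P
  have e2 := rk_add_nul Q
  have e3 := rk_add_nul (P ∪ Q)
  have e4 := card_union_of_disjoint hd
  have hn : nul (P ∪ Q) = nul P + nul Q + 1 := by omega
  refine ⟨⟨?_, ?_⟩, hn⟩
  · rw [hn, e4]
    have h1 := cP.1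
    have h2 := cQ.1
    nlinarith
  · intro v hv
    obtain ⟨a1, a2⟩ := cP.2 v hv
    obtain ⟨b1, b2⟩ := cQ.2 v hv
    refine ⟨?_, ?_⟩
    · rw [deg_union hd, hn]; omega
    · intro h hh
      rw [nb_union hd, hn]
      rcases mem_union.mp hh with hh | hh
      · have := a2 h hh
        have h3 := hj.nb_eq hd v hh
        omega
      · have := b2 h hh
        have h3 := hj.symm.nb_eq hd.symm v hh
        omega

/-- one-sided case -/
lemma oneside {r : ℕ} (hr : r ≠ 0) {P Q : Finset (Finset V)} (hS : Sys r (P ∪ Q))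
    (hPne : P.Nonempty)
    (hd : Disjoint P Q) (hj : Join P Q) {w : V → ℝ} (hwP : w ∉ U P) (hwQ : IsW r Q w)
    (cQ : CC r Q w) : CC r (P ∪ Q) w := by
  have hr' : (r : ℝ) ≠ 0 := by exact_mod_cast hr
  have hP : ∀ g ∈ P, g.card = r := fun g hg => hS.card g (mem_union_left _ hg)
  have hQ : ∀ g ∈ Q, g.card = r := fun g hg => hS.card g (mem_union_right _ hg)
  have hcw := hwQ.cs_eq hr hQ
  have hw0 : ∀ w0 ∈ U P, w0 ⬝ᵥ w0 = 1 → cs w0 = r → False := by
    intro w0 h1 h2 h3
    have h4 := hj.dot hr hP hQ h1 hwQ.mem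
    rw [h3, hcw, div_self hr', one_mul] at h4
    have h5 := eq_of_dot_one h2 hwQ.sq h4
    exact hwP (h5 ▸ h1)
  have hinf : U P ⊓ U Q = ⊥ := by
    rcases hj.inf hr hP hQ with h0 | ⟨_, w1, h1, h2⟩
    · exact h0
    · exact (hw0 w1 h1.mem h1.sq (h1.cs_eq hr hP)).elim
  have hnP : nul P = 0 := by
    by_contra h
    have h3 : rk P < P.card := by unfold nul at h; omega
    obtain ⟨w0, hw0', hsq, hcs⟩ := claimD hr P (hS.mono subset_union_left) hPne h3
    exact hw0 w0 hw0' hsq hcs
  have hrk := rk_union P Q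
  rw [hinf] at hrk
  simp only [finrank_bot, add_zero] at hrk
  have e1 := rk_add_nul P
  have e2 := rk_add_nul Q
  have e3 := rk_add_nul (P ∪ Q)
  have e4 := card_union_of_disjoint hd
  have hn : nul (P ∪ Q) = nul Q := by omega
  refine ⟨?_, ?_⟩
  · rw [hn, e4]
    have := cQ.1
    omega
  · intro v hv
    obtain ⟨b1, b2⟩ := cQ.2 v hv
    refine ⟨?_, ?_⟩
    · rw [deg_union hd, hn]; omega
    · intro h hh
      rw [nb_union hd, hn]
      rcases mem_union.mp hh with hh | hh
      · have h3 := hj.nb_eq hd v hh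
        omega
      · have := b2 h hh
        omega

theorem claimC {r : ℕ} (hr : 2 ≤ r) (F : Finset (Finset V)) (hF : Sys r F) (hne : F.Nonempty) :
    ∀ w, IsW r F w → CC r F w := by
  have hr0 : r ≠ 0 := by omega
  have hr' : (r : ℝ) ≠ 0 := by exact_mod_cast hr0
  refine Sys.induction (r := r) (Φ := fun F => ∀ w, IsW r F w → CC r F w) ?_ ?_ ?_ F hF hne
  · intro g hg w hw
    exfalso
    obtain ⟨c, rfl⟩ := mem_U_single hw.mem
    have h2 := hw.dot g (by simp)
    have h3 := hw.sq
    rw [smul_dotProduct, ind_dot_ind, inter_self, hg, smul_eq_mul] at h2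
    rw [smul_dotProduct, dotProduct_smul, ind_dot_ind, inter_self, hg, smul_eq_mul, smul_eq_mul,
      h2, mul_one] at h3
    rw [h3, one_mul] at h2
    have : r = 1 := by exact_mod_cast h2
    omega
  · intro P Q hS hP hQ hd hsep _ _ w hw
    obtain ⟨a, ha, b, hb, hab'⟩ := mem_union_iff hw.mem
    have hab : a ⬝ᵥ b = 0 := hsep.dot ha hb
    have hba : b ⬝ᵥ a = 0 := by rw [dotProduct_comm]; exact hab
    have hsq : a ⬝ᵥ a + b ⬝ᵥ b = 1 := by
      rw [← hw.sq, hab', add_dotProduct, dotProduct_add, dotProduct_add, hab, hba]; ring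
    have hdP : ∀ g ∈ P, a ⬝ᵥ ind g = 1 := fun g hg => by
      have := hw.dot g (mem_union_left _ hg)
      rw [hab', add_dotProduct, hsep.symm.dot_ind hb hg, add_zero] at this
      exact this
    have hdQ : ∀ g ∈ Q, b ⬝ᵥ ind g = 1 := fun g hg => by
      have := hw.dot g (mem_union_right _ hg)
      rw [hab', add_dotProduct, hsep.dot_ind ha hg, zero_add] at this
      exact this
    have hpos : ∀ (P : Finset (Finset V)) (a : V → ℝ), P.Nonempty →
        (∀ g ∈ P, a ⬝ᵥ ind g = 1) → 0 < a ⬝ᵥ a := by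
      intro P a hP h
      obtain ⟨g, hg⟩ := hP
      rcases (dot_self_nonneg a).lt_or_eq with h0 | h0
      · exact h0
      · have : a = 0 := dotProduct_self_eq_zero.mp h0.symm
        have h1 := h g hg
        rw [this] at h1
        simp at h1
    have hpa := hpos P a hP hdP
    have hpb := hpos Q b hQ hdQ
    have hSP := hS.mono (subset_union_left : P ⊆ P ∪ Q)
    have hSQ := hS.mono (subset_union_right : Q ⊆ P ∪ Q)
    have n1 := indep_of_lt hr0 hSP hP hdP (by linarith)
    have n2 := indep_of_lt hr0 hSQ hQ hdQ (by linarith)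
    have e1 := rk_add_nul P
    have e2 := rk_add_nul Q
    have e3 := rk_add_nul (P ∪ Q)
    have e4 := card_union_of_disjoint hd
    have e5 := hsep.rk_union
    have hn : nul (P ∪ Q) = 0 := by omega
    have c1 := claimE hr0 P hSP hP a ha hdP (by linarith)
    have c2 := claimE hr0 Q hSQ hQ b hb hdQ (by linarith)
    refine ⟨?_, ?_⟩
    · rw [hn, e4]
      have h5 : (1 : ℝ) ≤ ((P.card : ℝ) + Q.card) / r := by
        rw [add_div]; linarith
      have hr0' : (0 : ℝ) < r := by positivity
      rw [le_div_iff₀ hr0'] at h5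
      have h6 : (1 * r : ℝ) ≤ ((P.card + Q.card : ℕ) : ℝ) := by push_cast; exact h5
      have h7 : 1 * r ≤ P.card + Q.card := by exact_mod_cast h6
      omega
    · intro v hv
      refine ⟨?_, ?_⟩
      · rw [hn]
        unfold deg
        rw [zero_add, Nat.one_le_iff_ne_zero, ← Nat.pos_iff_ne_zero, card_pos]
        by_contra h
        rw [not_nonempty_iff_eq_empty, filter_eq_empty_iff] at h
        exact hv (apply_zero_of (fun g hg => h hg) hw.mem)
      · intro h _
        rw [hn]; exact Nat.zero_le _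
  · intro P Q hS hPne hQne hd hj iP iQ w hw
    have hP : ∀ g ∈ P, g.card = r := fun g hg => hS.card g (mem_union_left _ hg)
    have hQ : ∀ g ∈ Q, g.card = r := fun g hg => hS.card g (mem_union_right _ hg)
    -- enough to decide membership
    have fin : w ∈ U P ∨ w ∈ U Q → CC r (P ∪ Q) w := by
      intro h
      have hdP : ∀ g ∈ P, w ⬝ᵥ ind g = 1 := fun g hg => hw.dot g (mem_union_left _ hg)
      have hdQ : ∀ g ∈ Q, w ⬝ᵥ ind g = 1 := fun g hg => hw.dot g (mem_union_right _ hg)
      by_cases h1 : w ∈ U P <;> by_cases h2 : w ∈ U Q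
      · exact (both hr0 hS hd hj ⟨h1, hdP, hw.sq⟩ ⟨h2, hdQ, hw.sq⟩
          (iP w ⟨h1, hdP, hw.sq⟩) (iQ w ⟨h2, hdQ, hw.sq⟩)).1
      · apply CC.comm
        exact oneside hr0 (by rw [union_comm]; exact hS) hQne hd.symm hj.symm h2
          ⟨h1, hdP, hw.sq⟩ (iP w ⟨h1, hdP, hw.sq⟩)
      · exact oneside hr0 hS hPne hd hj h1 ⟨h2, hdQ, hw.sq⟩ (iQ w ⟨h2, hdQ, hw.sq⟩)
      · tauto
    apply fin
    obtain ⟨a, ha, b, hb, hab'⟩ := mem_union_iff hw.mem
    set x := cs a / r with hx
    set y := cs b / r with hy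
    have hPa : ∀ g ∈ P, a ⬝ᵥ ind g = 1 - y := by
      intro g hg
      have := hw.dot g (mem_union_left _ hg)
      rw [hab', add_dotProduct, hj.symm.dot_ind hr0 hQ hb hg] at this
      linarith
    have hQb : ∀ g ∈ Q, b ⬝ᵥ ind g = 1 - x := by
      intro g hg
      have := hw.dot g (mem_union_right _ hg)
      rw [hab', add_dotProduct, hj.dot_ind hr0 hP ha hg] at this
      linarith
    have haa : a ⬝ᵥ a = (1 - y) * x := dot_of_const hr0 hP hPa ha
    have hbb : b ⬝ᵥ b = (1 - x) * y := dot_of_const hr0 hQ hQb hb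
    have hab : a ⬝ᵥ b = x * y := hj.dot hr0 hP hQ ha hb
    have hba : b ⬝ᵥ a = x * y := by rw [dotProduct_comm]; exact hab
    have hsq : x + y = 1 := by
      rw [← hw.sq, hab', add_dotProduct, dotProduct_add, dotProduct_add, hab, hba, haa, hbb]; ring
    have hy1 : y = 1 - x := by linarith
    by_cases hx0 : x = 0
    · right
      have h0 : a ⬝ᵥ a = 0 := by rw [haa, hx0, mul_zero]
      have : a = 0 := dotProduct_self_eq_zero.mp h0
      rw [hab', this, zero_add]; exact hb
    by_cases hy0 : y = 0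
    · left
      have h0 : b ⬝ᵥ b = 0 := by rw [hbb, hy0, mul_zero]
      have : b = 0 := dotProduct_self_eq_zero.mp h0
      rw [hab', this, add_zero]; exact ha
    have hxx : 1 - y = x := by linarith
    have hyy : 1 - x = y := by linarith
    rw [hxx] at haa
    rw [hyy] at hbb
    have h1 : (x⁻¹ • a) ⬝ᵥ (x⁻¹ • a) = 1 := by
      rw [smul_dotProduct, dotProduct_smul, haa, smul_eq_mul, smul_eq_mul]
      field_simp
    have h2 : (y⁻¹ • b) ⬝ᵥ (y⁻¹ • b) = 1 := by
      rw [smul_dotProduct, dotProduct_smul, hbb, smul_eq_mul, smul_eq_mul]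
      field_simp
    have h3 : (x⁻¹ • a) ⬝ᵥ (y⁻¹ • b) = 1 := by
      rw [smul_dotProduct, dotProduct_smul, hab, smul_eq_mul, smul_eq_mul]
      field_simp
    have h4 := eq_of_dot_one h1 h2 h3
    left
    have h5 : b = (y * x⁻¹) • a := by
      have : b = y • (y⁻¹ • b) := by
        rw [smul_smul, mul_inv_cancel₀ hy0, one_smul]
      rw [this, ← h4, smul_smul]
    rw [hab']
    exact Submodule.add_mem _ ha (h5 ▸ Submodule.smul_mem _ _ ha)

omit [Fintype V] in
/-- edges of a linear family through `v` meeting a set `h` avoiding `v` meet it in distinct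
points -/
lemma nb_le {r : ℕ} {F : Finset (Finset V)} (hF : Sys r F) {v : V} {h : Finset V}
    (hv : v ∉ h) {G : Finset (Finset V)} (hG : G ⊆ F) (hGv : ∀ g ∈ G, v ∈ g ∧ ¬ Disjoint g h) :
    G.card ≤ h.card := by
  classical
  have : Nonempty V := ⟨v⟩
  have hex : ∀ g ∈ G, ∃ x, x ∈ g ∧ x ∈ h := by
    intro g hg
    exact Finset.not_disjoint_iff.mp (hGv g hg).2
  choose! f hf1 hf2 using hex
  apply Finset.card_le_card_of_injOn f (fun g hg => hf2 g hg)
  intro g hg k hk hgk
  by_contra hne
  have h1 := hF.lin g (hG hg) k (hG hk) hne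
  have h2 : ({v, f g} : Finset V) ⊆ g ∩ k := by
    intro z hz
    rw [mem_insert, mem_singleton] at hz
    rcases hz with rfl | rfl
    · exact mem_inter.mpr ⟨(hGv g hg).1, (hGv k hk).1⟩
    · refine mem_inter.mpr ⟨hf1 g hg, ?_⟩
      rw [hgk]; exact hf1 k hk
  have h3 : v ≠ f g := fun h' => hv (h' ▸ hf2 g hg)
  have h4 := card_le_card h2
  rw [card_pair h3] at h4
  omega

/-- in a family with at least two edges and a dual unit vector the nullity is at most `r` -/
lemma nul_le {r : ℕ} (hr : 2 ≤ r) {F : Finset (Finset V)} (hF : Sys r F) (h2 : 2 ≤ F.card)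
    {w : V → ℝ} (hw : IsW r F w) : nul F ≤ r := by
  have hr0 : r ≠ 0 := by omega
  have hne : F.Nonempty := card_pos.mp (by omega)
  have hC := claimC hr F hF hne w hw
  -- there are `v` in the support and `h` in `F` with `v ∉ h`
  have : ∃ v, w v ≠ 0 ∧ ∃ h ∈ F, v ∉ h := by
    by_contra hcon
    push Not at hcon
    obtain ⟨g, hg, h, hh, hgh⟩ := Finset.one_lt_card.mp (by omega : 1 < F.card)
    have h1 := hF.lin g hg h hh hgh
    have hcs := hw.cs_eq hr0 hF.card
    have hsup : ∀ v, w v ≠ 0 → v ∈ g ∩ h := fun v hv =>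
      mem_inter.mpr ⟨hcon v hv g hg, hcon v hv h hh⟩
    have hc1 : cs w = ∑ v ∈ g ∩ h, w v := by
      unfold cs
      symm
      apply Finset.sum_subset (subset_univ _)
      intro v _ hv
      by_contra h'
      exact hv (hsup v h')
    have hc2 : w ⬝ᵥ w = ∑ v ∈ g ∩ h, w v * w v := by
      unfold dotProduct
      symm
      apply Finset.sum_subset (subset_univ _)
      intro v _ hv
      by_contra h'
      exact hv (hsup v (fun h0 => h' (by rw [h0, mul_zero])))
    rw [hcs] at hc1
    rw [hw.sq] at hc2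
    rcases Nat.lt_or_ge (g ∩ h).card 1 with h3 | h3
    · have : g ∩ h = ∅ := card_eq_zero.mp (by omega)
      rw [this] at hc2
      simp at hc2
    · obtain ⟨u, hu⟩ := card_eq_one.mp (le_antisymm h1 h3)
      rw [hu, sum_singleton] at hc1 hc2
      rw [← hc1] at hc2
      have : (1 : ℝ) = ((r * r : ℕ) : ℝ) := by push_cast; exact hc2
      have h5 : 1 = r * r := by exact_mod_cast this
      nlinarith
  obtain ⟨v, hv, h, hh, hvh⟩ := this
  have h3 := (hC.2 v hv).2 h hh
  refine h3.trans ?_
  rw [← hF.card h hh]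
  exact nb_le hF hvh (filter_subset _ _) (fun g hg => (mem_filter.mp hg).2.2)

/-- the main inequality -/
theorem main_ineq {r : ℕ} (hr : 2 ≤ r) (F : Finset (Finset V)) (hF : Sys r F)
    (hne : F.Nonempty) : r * F.card ≤ (r + 1) * rk F := by
  have hr0 : r ≠ 0 := by omega
  refine Sys.induction (r := r) (Φ := fun F => r * F.card ≤ (r + 1) * rk F) ?_ ?_ ?_ F hF hne
  · intro g hg
    rw [rk_single hr0 hg, card_singleton]
    omega
  · intro P Q hS _ _ hd hsep iP iQ
    rw [hsep.rk_union, card_union_of_disjoint hd]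
    nlinarith
  · intro P Q hS hPne hQne hd hj iP iQ
    have hP : ∀ g ∈ P, g.card = r := fun g hg => hS.card g (mem_union_left _ hg)
    have hQ : ∀ g ∈ Q, g.card = r := fun g hg => hS.card g (mem_union_right _ hg)
    rcases hj.inf hr0 hP hQ with h0 | ⟨h1, w, hwP, hwQ⟩
    · have hrk := rk_union P Q
      rw [h0] at hrk
      simp only [finrank_bot, add_zero] at hrk
      rw [hrk, card_union_of_disjoint hd]
      nlinarith
    · have hw : IsW r (P ∪ Q) w := by
        refine ⟨U_mono subset_union_left hwP.mem, ?_, hwP.sq⟩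
        intro g hg
        rcases mem_union.mp hg with hg | hg
        · exact hwP.dot g hg
        · exact hwQ.dot g hg
      have hne' : (P ∪ Q).Nonempty := hPne.mono subset_union_left
      have hC := (claimC hr _ hS hne' w hw).1
      have h2 : 2 ≤ (P ∪ Q).card := by
        rw [card_union_of_disjoint hd]
        have := hPne.card_pos
        have := hQne.card_pos
        omega
      have hn := nul_le hr hS h2 hw
      have e3 := rk_add_nul (P ∪ Q)
      nlinarith

end Pool.Q113.LP
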