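import Mathlib
import Pool.Agent.Q113.LP4

/-!
# The equality case
-/

namespace Pool.Q113.LP

open Finset Module

variable {V : Type*} [Fintype V] [DecidableEq V]

/-- the vertices covered by a family -/
def cov (F : Finset (Finset V)) : Finset V := F.biUnion id

omit [Fintype V] in
lemma subset_cov {F : Finset (Finset V)} {g : Finset V} (hg : g ∈ F) : g ⊆ cov F :=
  subset_biUnion_of_mem id hg

omit [Fintype V] in
lemma cov_union (P Q : Finset (Finset V)) : cov (P ∪ Q) = cov P ∪ cov Q := by
  unfold cov; ext x; simp only [mem_biUnion, mem_union, id]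
  constructor
  · rintro ⟨a, ha | ha, hx⟩
    · exact Or.inl ⟨a, ha, hx⟩
    · exact Or.inr ⟨a, ha, hx⟩
  · rintro (⟨a, ha, hx⟩ | ⟨a, ha, hx⟩)
    · exact ⟨a, Or.inl ha, hx⟩
    · exact ⟨a, Or.inr ha, hx⟩

omit [Fintype V] in
lemma Sep.cov {P Q : Finset (Finset V)} (h : Sep P Q) : Disjoint (cov P) (cov Q) := by
  unfold Pool.Q113.LP.cov
  rw [Finset.disjoint_left]
  intro x hx hy
  simp only [mem_biUnion, id] at hx hy
  obtain ⟨p, hp, hxp⟩ := hx
  obtain ⟨q, hq, hxq⟩ := hy
  exact Finset.disjoint_left.mp (h p hp q hq) hxp hxq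

lemma rk_le_cov (F : Finset (Finset V)) : rk F ≤ (cov F).card := by
  classical
  have h1 : U F ≤ Submodule.span ℝ
      (((cov F).image (fun v => (Pi.single v 1 : V → ℝ)) : Finset (V → ℝ)) : Set (V → ℝ)) := by
    unfold U
    rw [Submodule.span_le]
    rintro _ ⟨g, hg, rfl⟩
    have hg' : g ∈ F := by exact_mod_cast hg
    have : ind g = ∑ v ∈ g, (Pi.single v 1 : V → ℝ) := by
      ext x
      rw [Finset.sum_apply]
      simp only [ind, Pi.single_apply]
      rw [Finset.sum_ite_eq]
    rw [this]
    refine Submodule.sum_mem _ (fun v hv => Submodule.subset_span ?_)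
    simp only [coe_image, Set.mem_image, mem_coe]
    exact ⟨v, subset_cov hg' hv, rfl⟩
  unfold rk
  refine (Submodule.finrank_mono h1).trans ?_
  exact (finrank_span_finset_le_card _).trans Finset.card_image_le

/-- an equality join with a common dual vector -/
lemma eq_join {r : ℕ} (hr : 2 ≤ r) {F : Finset (Finset V)} (hS : Sys r F) (h2 : 2 ≤ F.card)
    {w : V → ℝ} (hw : IsW r F w) (heq : r * F.card = (r + 1) * rk F) :
    nul F = r ∧ F.card = (r + 1) * r ∧ rk F = r * r := by
  have hne : F.Nonempty := card_pos.mp (by omega)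
  have hC := (claimC hr _ hS hne w hw).1
  have hn := nul_le hr hS h2 hw
  have e3 := rk_add_nul F
  have h3 : F.card = (r + 1) * nul F := by nlinarith
  have h4 : r ≤ nul F := by nlinarith
  have h5 : nul F = r := le_antisymm hn h4
  rw [h5] at h3 e3
  refine ⟨h5, h3, ?_⟩
  nlinarith

lemma IsW.union {r : ℕ} {P Q : Finset (Finset V)} {w : V → ℝ} (hwP : IsW r P w)
    (hwQ : IsW r Q w) : IsW r (P ∪ Q) w := by
  refine ⟨U_mono subset_union_left hwP.mem, ?_, hwP.sq⟩
  intro g hg
  rcases mem_union.mp hg with hg | hg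
  · exact hwP.dot g hg
  · exact hwQ.dot g hg

theorem no_transversal {r : ℕ} (hr : 2 ≤ r) (F : Finset (Finset V)) (hF : Sys r F)
    (hne : F.Nonempty) : r * F.card = (r + 1) * rk F → ∀ q : Finset V, q.card = r →
      (∀ g ∈ F, (g ∩ q).card = 1) → False := by
  have hr0 : r ≠ 0 := by omega
  refine Sys.induction (r := r) (Φ := fun F => r * F.card = (r + 1) * rk F →
    ∀ q : Finset V, q.card = r → (∀ g ∈ F, (g ∩ q).card = 1) → False) ?_ ?_ ?_ F hF hne
  · intro g hg h
    rw [rk_single hr0 hg, card_singleton] at h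
    omega
  · intro P Q hS hPne hQne hd hsep iP iQ h q hq hgq
    rw [hsep.rk_union, card_union_of_disjoint hd] at h
    have m1 := main_ineq hr P (hS.mono subset_union_left) hPne
    have m2 := main_ineq hr Q (hS.mono subset_union_right) hQne
    exact iP (by nlinarith) q hq (fun g hg => hgq g (mem_union_left _ hg))
  · intro P Q hS hPne hQne hd hj iP iQ h q hq hgq
    have hP : ∀ g ∈ P, g.card = r := fun g hg => hS.card g (mem_union_left _ hg)
    have hQ : ∀ g ∈ Q, g.card = r := fun g hg => hS.card g (mem_union_right _ hg)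
    rcases hj.inf hr0 hP hQ with h0 | ⟨h1, w, hwP, hwQ⟩
    · have hrk := rk_union P Q
      rw [h0] at hrk
      simp only [finrank_bot, add_zero] at hrk
      rw [hrk, card_union_of_disjoint hd] at h
      have m1 := main_ineq hr P (hS.mono subset_union_left) hPne
      have m2 := main_ineq hr Q (hS.mono subset_union_right) hQne
      exact iP (by nlinarith) q hq (fun g hg => hgq g (mem_union_left _ hg))
    · have hw := hwP.union hwQ
      have hne' : (P ∪ Q).Nonempty := hPne.mono subset_union_left
      have h2 : 2 ≤ (P ∪ Q).card := by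
        rw [card_union_of_disjoint hd]
        have := hPne.card_pos
        have := hQne.card_pos
        omega
      obtain ⟨k1, k2, k3⟩ := eq_join hr hS h2 hw h
      have hC := (claimC hr _ hS hne' w hw).2
      have hsup : ∀ v, w v ≠ 0 → v ∈ q := by
        intro v hv
        by_contra hvq
        have h3 := (hC v hv).1
        have h4 := nb_le hS hvq (filter_subset (fun g => v ∈ g) (P ∪ Q)) (fun g hg => by
          rw [mem_filter] at hg
          refine ⟨hg.2, ?_⟩
          rw [not_disjoint_iff_nonempty_inter, ← card_pos, hgq g hg.1]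
          exact Nat.one_pos)
        unfold deg at h3
        rw [hq] at h4
        omega
      have h3 : w ⬝ᵥ ind q = r := by
        rw [← hw.cs_eq hr0 hS.card]
        unfold dotProduct cs
        apply Finset.sum_congr rfl
        intro v _
        by_cases hv : w v = 0
        · rw [hv, zero_mul]
        · simp [ind, hsup v hv]
      have h4 := cauchy w (ind q)
      rw [h3, hw.sq, ind_dot_ind, inter_self, hq, one_mul] at h4
      have h5 : ((r ^ 2 : ℕ) : ℝ) ≤ (r : ℕ) := by push_cast; exact h4
      have h6 : r ^ 2 ≤ r := by exact_mod_cast h5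
      nlinarith

/-- block structure of a family on the set of covered vertices -/
structure Blocks (r : ℕ) (F : Finset (Finset V)) (X : Finset V) (B : Finset (Finset V)) :
    Prop where
  disj : (B : Set (Finset V)).PairwiseDisjoint id
  cover : B.biUnion id = X
  card : ∀ b ∈ B, b.card = r ^ 2
  sub : ∀ e ∈ F, ∃ b ∈ B, e ⊆ b
  pair : ∀ b ∈ B, ∀ x ∈ b, ∀ y ∈ b, x ≠ y → ∃ e ∈ F, x ∈ e ∧ y ∈ e

omit [Fintype V] in
lemma offDiag_disj {r : ℕ} {F : Finset (Finset V)} (hS : Sys r F) :
    (F : Set (Finset V)).PairwiseDisjoint (fun e => e.offDiag) := by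
  intro e he f hf hne
  rw [Function.onFun, Finset.disjoint_left]
  rintro ⟨x, y⟩ h1 h2
  rw [mem_offDiag] at h1 h2
  have h3 := hS.lin e he f hf hne
  have h4 : ({x, y} : Finset V) ⊆ e ∩ f := by
    intro z hz
    rw [mem_insert, mem_singleton] at hz
    rcases hz with rfl | rfl
    · exact mem_inter.mpr ⟨h1.1, h2.1⟩
    · exact mem_inter.mpr ⟨h1.2.1, h2.2.1⟩
  have h5 := card_le_card h4
  rw [card_pair h1.2.2] at h5
  omega

omit [Fintype V] in
lemma card_offDiag_union {r : ℕ} {F : Finset (Finset V)} (hS : Sys r F) :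
    (F.biUnion (fun e => e.offDiag)).card = F.card * (r * (r - 1)) := by
  rw [card_biUnion (offDiag_disj hS)]
  rw [Finset.sum_congr rfl (g := fun _ => r * (r - 1))]
  · rw [sum_const, smul_eq_mul]
  · intro e he
    rw [offDiag_card, hS.card e he, Nat.mul_sub, mul_one]

theorem blocks_of_eq {r : ℕ} (hr : 2 ≤ r) (F : Finset (Finset V)) (hF : Sys r F)
    (hne : F.Nonempty) : r * F.card = (r + 1) * (cov F).card → ∃ B, Blocks r F (cov F) B := by
  have hr0 : r ≠ 0 := by omega
  refine Sys.induction (r := r) (Φ := fun F => r * F.card = (r + 1) * (cov F).card →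
    ∃ B, Blocks r F (cov F) B) ?_ ?_ ?_ F hF hne
  · intro g hg h
    have : cov {g} = g := by simp [cov]
    rw [this, hg, card_singleton] at h
    nlinarith
  · intro P Q hS hPne hQne hd hsep iP iQ h
    rw [cov_union, card_union_of_disjoint hsep.cov, card_union_of_disjoint hd] at h
    have m1 := main_ineq hr P (hS.mono subset_union_left) hPne
    have m2 := main_ineq hr Q (hS.mono subset_union_right) hQne
    have r1 := rk_le_cov P
    have r2 := rk_le_cov Q
    obtain ⟨B1, hB1⟩ := iP (by nlinarith)
    obtain ⟨B2, hB2⟩ := iQ (by nlinarith)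
    refine ⟨B1 ∪ B2, ?_, ?_, ?_, ?_, ?_⟩
    · intro a ha b hb hab
      rw [mem_coe, mem_union] at ha hb
      have key : ∀ a ∈ B1, ∀ b ∈ B2, Disjoint a b := by
        intro a ha b hb
        refine Disjoint.mono ?_ ?_ hsep.cov
        · rw [← hB1.cover]; exact subset_biUnion_of_mem id ha
        · rw [← hB2.cover]; exact subset_biUnion_of_mem id hb
      rcases ha with ha | ha <;> rcases hb with hb | hb
      · exact hB1.disj ha hb hab
      · exact key a ha b hb
      · exact (key b hb a ha).symm
      · exact hB2.disj ha hb hab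
    · rw [cov_union, ← hB1.cover, ← hB2.cover]
      exact cov_union B1 B2
    · intro b hb
      rcases mem_union.mp hb with hb | hb
      · exact hB1.card b hb
      · exact hB2.card b hb
    · intro e he
      rcases mem_union.mp he with he | he
      · obtain ⟨b, hb, h'⟩ := hB1.sub e he
        exact ⟨b, mem_union_left _ hb, h'⟩
      · obtain ⟨b, hb, h'⟩ := hB2.sub e he
        exact ⟨b, mem_union_right _ hb, h'⟩
    · intro b hb x hx y hy hxy
      rcases mem_union.mp hb with hb | hb
      · obtain ⟨e, he, h'⟩ := hB1.pair b hb x hx y hy hxy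
        exact ⟨e, mem_union_left _ he, h'⟩
      · obtain ⟨e, he, h'⟩ := hB2.pair b hb x hx y hy hxy
        exact ⟨e, mem_union_right _ he, h'⟩
  · intro P Q hS hPne hQne hd hj _ _ h
    have hP : ∀ g ∈ P, g.card = r := fun g hg => hS.card g (mem_union_left _ hg)
    have hQ : ∀ g ∈ Q, g.card = r := fun g hg => hS.card g (mem_union_right _ hg)
    have hne' : (P ∪ Q).Nonempty := hPne.mono subset_union_left
    have m0 := main_ineq hr (P ∪ Q) hS hne'
    have r0 := rk_le_cov (P ∪ Q)
    have hrkeq : r * (P ∪ Q).card = (r + 1) * rk (P ∪ Q) := by nlinarith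
    rcases hj.inf hr0 hP hQ with h0 | ⟨h1, w, hwP, hwQ⟩
    · exfalso
      have hrk := rk_union P Q
      rw [h0] at hrk
      simp only [finrank_bot, add_zero] at hrk
      rw [hrk, card_union_of_disjoint hd] at hrkeq
      have m1 := main_ineq hr P (hS.mono subset_union_left) hPne
      have m2 := main_ineq hr Q (hS.mono subset_union_right) hQne
      obtain ⟨q, hq⟩ := hQne
      exact no_transversal hr P (hS.mono subset_union_left) hPne (by nlinarith) q (hQ q hq)
        (fun g hg => hj g hg q hq)
    · have hw := hwP.union hwQ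
      have h2 : 2 ≤ (P ∪ Q).card := by
        rw [card_union_of_disjoint hd]
        have := hPne.card_pos
        have := hQne.card_pos
        omega
      obtain ⟨k1, k2, k3⟩ := eq_join hr hS h2 hw hrkeq
      have hX : (cov (P ∪ Q)).card = r ^ 2 := by
        rw [k2] at h
        have : (r + 1) * (cov (P ∪ Q)).card = (r + 1) * (r ^ 2) := by rw [← h]; ring
        exact Nat.eq_of_mul_eq_mul_left (by omega) this
      refine ⟨{cov (P ∪ Q)}, ?_, by simp, by simpa using hX,
        fun e he => ⟨_, by simp, subset_cov he⟩, ?_⟩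
      · simp
      · intro b hb x hx y hy hxy
        rw [mem_singleton] at hb
        subst hb
        have hsub : (P ∪ Q).biUnion (fun e => e.offDiag) ⊆ (cov (P ∪ Q)).offDiag := by
          intro z hz
          rw [mem_biUnion] at hz
          obtain ⟨e, he, hz⟩ := hz
          exact offDiag_mono (subset_cov he) hz
        have hcard : (cov (P ∪ Q)).offDiag.card ≤ ((P ∪ Q).biUnion (fun e => e.offDiag)).card := by
          rw [card_offDiag_union hS, offDiag_card, hX, k2]
          obtain ⟨s, rfl⟩ := Nat.exists_eq_add_of_le hr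
          have : 2 + s - 1 = 1 + s := by omega
          rw [this]
          apply le_of_eq
          zify [show (2 + s) ^ 2 ≤ (2 + s) ^ 2 * (2 + s) ^ 2 by nlinarith [pow_pos (show 0 < 2 + s by omega) 2]]
          ring
        have heq := Finset.eq_of_subset_of_card_le hsub hcard
        have hxy' : (x, y) ∈ (cov (P ∪ Q)).offDiag := by
          rw [mem_offDiag]; exact ⟨hx, hy, hxy⟩
        rw [← heq, mem_biUnion] at hxy'
        obtain ⟨e, he, hz⟩ := hxy'
        rw [mem_offDiag] at hz
        exact ⟨e, he, hz.1, hz.2.1⟩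

omit [Fintype V] in
/-- the converse count -/
theorem eq_of_blocks {r : ℕ} (hr : 2 ≤ r) {F : Finset (Finset V)} (hS : Sys r F)
    {X : Finset V} {B : Finset (Finset V)} (hB : Blocks r F X B) :
    r * F.card = (r + 1) * X.card := by
  have h1 : F.biUnion (fun e => e.offDiag) = B.biUnion (fun e => e.offDiag) := by
    ext ⟨x, y⟩
    simp only [mem_biUnion, mem_offDiag]
    constructor
    · rintro ⟨e, he, hx, hy, hxy⟩
      obtain ⟨b, hb, hsub⟩ := hB.sub e he
      exact ⟨b, hb, hsub hx, hsub hy, hxy⟩
    · rintro ⟨b, hb, hx, hy, hxy⟩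
      obtain ⟨e, he, h1, h2⟩ := hB.pair b hb x hx y hy hxy
      exact ⟨e, he, h1, h2, hxy⟩
  have h2 : (B.biUnion (fun e => e.offDiag)).card = B.card * (r ^ 2 * (r ^ 2 - 1)) := by
    rw [card_biUnion]
    · rw [Finset.sum_congr rfl (g := fun _ => r ^ 2 * (r ^ 2 - 1))]
      · rw [sum_const, smul_eq_mul]
      · intro e he
        rw [offDiag_card, hB.card e he, Nat.mul_sub, mul_one]
    · intro e he f hf hne
      rw [Function.onFun, Finset.disjoint_left]
      rintro ⟨x, y⟩ h1 h2
      rw [mem_offDiag] at h1 h2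
      exact Finset.disjoint_left.mp (hB.disj he hf hne) h1.1 h2.1
  have h3 : X.card = B.card * r ^ 2 := by
    rw [← hB.cover, card_biUnion]
    · rw [Finset.sum_congr rfl (g := fun _ => r ^ 2)]
      · rw [sum_const, smul_eq_mul]
      · exact fun e he => hB.card e he
    · exact fun e he f hf hne => hB.disj he hf hne
  have h4 := card_offDiag_union hS
  rw [h1, h2] at h4
  rw [h3]
  obtain ⟨s, rfl⟩ := Nat.exists_eq_add_of_le hr
  have e1 : 2 + s - 1 = 1 + s := by omega
  have e2 : (2 + s) ^ 2 - 1 = (1 + s) * (3 + s) := by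
    zify [show 1 ≤ (2 + s) ^ 2 by nlinarith]
    ring
  rw [e1, e2] at h4
  have h5 : ((2 + s) * (1 + s)) * ((2 + s) * F.card) =
      ((2 + s) * (1 + s)) * ((2 + s + 1) * (B.card * (2 + s) ^ 2)) := by
    have : ((2 + s) * (1 + s)) * ((2 + s) * F.card) =
      (2 + s) * (F.card * ((2 + s) * (1 + s))) := by ring
    rw [this, ← h4]
    ring
  exact Nat.eq_of_mul_eq_mul_left (by positivity) h5

end Pool.Q113.LP
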