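import Mathlib
import Pool.Agent.Q113.LP5

/-!
# The expansion of the path with four edges
-/

namespace Pool.Q113.LP

open Finset Module

/-- the vertex type of `P₄^r`: the five path vertices and `r - 2` new vertices for each of the
four edges -/
abbrev PV (r : ℕ) : Type := Fin 5 ⊕ (Fin 4 × Fin (r - 2))

/-- the `i`-th hyperedge of `P₄^r`: the `i`-th edge `{i, i+1}` of the path together with its
`r - 2` new vertices -/
def pEdge (r : ℕ) (i : Fin 4) : Finset (PV r) :=
  {Sum.inl i.castSucc, Sum.inl i.succ} ∪ (univ.image (fun j : Fin (r - 2) => Sum.inr (i, j)))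

/-- `E` contains a copy of `P₄^r` -/
def ContainsP4 (r : ℕ) {V : Type*} [DecidableEq V] (E : Finset (Finset V)) : Prop :=
  ∃ φ : PV r → V, Function.Injective φ ∧ ∀ i : Fin 4, (pEdge r i).image φ ∈ E

variable {V : Type*} [DecidableEq V]

lemma contains_of {r : ℕ} (hr : 3 ≤ r) {E : Finset (Finset V)} (e : Fin 4 → Finset V)
    (he : ∀ i, e i ∈ E) (hc : ∀ i, (e i).card = r)
    (h01 : (e 0 ∩ e 1).card = 1) (h12 : (e 1 ∩ e 2).card = 1) (h23 : (e 2 ∩ e 3).card = 1)
    (h02 : Disjoint (e 0) (e 2)) (h03 : Disjoint (e 0) (e 3)) (h13 : Disjoint (e 1) (e 3)) :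
    ContainsP4 r E := by
  classical
  obtain ⟨v1, hv1⟩ := card_eq_one.mp h01
  obtain ⟨v2, hv2⟩ := card_eq_one.mp h12
  obtain ⟨v3, hv3⟩ := card_eq_one.mp h23
  have a1 : v1 ∈ e 0 ∧ v1 ∈ e 1 := mem_inter.mp (hv1 ▸ mem_singleton_self _)
  have a2 : v2 ∈ e 1 ∧ v2 ∈ e 2 := mem_inter.mp (hv2 ▸ mem_singleton_self _)
  have a3 : v3 ∈ e 2 ∧ v3 ∈ e 3 := mem_inter.mp (hv3 ▸ mem_singleton_self _)
  have b1 : ∀ x, x ∈ e 0 → x ∈ e 1 → x = v1 := fun x h h' =>
    mem_singleton.mp (hv1 ▸ mem_inter.mpr ⟨h, h'⟩)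
  have b2 : ∀ x, x ∈ e 1 → x ∈ e 2 → x = v2 := fun x h h' =>
    mem_singleton.mp (hv2 ▸ mem_inter.mpr ⟨h, h'⟩)
  have b3 : ∀ x, x ∈ e 2 → x ∈ e 3 → x = v3 := fun x h h' =>
    mem_singleton.mp (hv3 ▸ mem_inter.mpr ⟨h, h'⟩)
  have d02 : ∀ x, x ∈ e 0 → x ∉ e 2 := fun _ h => Finset.disjoint_left.mp h02 h
  have d03 : ∀ x, x ∈ e 0 → x ∉ e 3 := fun _ h => Finset.disjoint_left.mp h03 h
  have d13 : ∀ x, x ∈ e 1 → x ∉ e 3 := fun _ h => Finset.disjoint_left.mp h13 h
  obtain ⟨v0, hv0⟩ : ∃ v0, v0 ∈ e 0 ∧ v0 ∉ e 1 := by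
    by_contra h
    push Not at h
    have : e 0 ∩ e 1 = e 0 := inter_eq_left.mpr h
    rw [this, hc 0] at h01
    omega
  obtain ⟨v4, hv4⟩ : ∃ v4, v4 ∈ e 3 ∧ v4 ∉ e 2 := by
    by_contra h
    push Not at h
    have : e 2 ∩ e 3 = e 3 := inter_eq_right.mpr h
    rw [this, hc 3] at h23
    omega
  set v : Fin 5 → V := ![v0, v1, v2, v3, v4] with hv
  have hvin : ∀ i : Fin 4, v i.castSucc ∈ e i ∧ v i.succ ∈ e i := by
    intro i
    fin_cases i
    · exact ⟨hv0.1, a1.1⟩
    · exact ⟨a1.2, a2.1⟩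
    · exact ⟨a2.2, a3.1⟩
    · exact ⟨a3.2, hv4.1⟩
  have hvinj : Function.Injective v := by
    have c01 : v0 ≠ v1 := fun h => hv0.2 (h ▸ a1.2)
    have c02 : v0 ≠ v2 := fun h => hv0.2 (h ▸ a2.1)
    have c03 : v0 ≠ v3 := fun h => d02 _ hv0.1 (h ▸ a3.1)
    have c04 : v0 ≠ v4 := fun h => d03 _ hv0.1 (h ▸ hv4.1)
    have c12 : v1 ≠ v2 := fun h => d02 _ a1.1 (h ▸ a2.2)
    have c13 : v1 ≠ v3 := fun h => d02 _ a1.1 (h ▸ a3.1)
    have c14 : v1 ≠ v4 := fun h => d03 _ a1.1 (h ▸ hv4.1)
    have c23 : v2 ≠ v3 := fun h => d13 _ a2.1 (h ▸ a3.2)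
    have c24 : v2 ≠ v4 := fun h => d13 _ a2.1 (h ▸ hv4.1)
    have c34 : v3 ≠ v4 := fun h => hv4.2 (h ▸ a3.1)
    intro i j hij
    fin_cases i <;> fin_cases j <;> first | rfl | exfalso
    all_goals simp [hv] at hij
    · exact c01 hij
    · exact c02 hij
    · exact c03 hij
    · exact c04 hij
    · exact c01 hij.symm
    · exact c12 hij
    · exact c13 hij
    · exact c14 hij
    · exact c02 hij.symm
    · exact c12 hij.symm
    · exact c23 hij
    · exact c24 hij
    · exact c03 hij.symm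
    · exact c13 hij.symm
    · exact c23 hij.symm
    · exact c34 hij
    · exact c04 hij.symm
    · exact c14 hij.symm
    · exact c24 hij.symm
    · exact c34 hij.symm
  have hvmem : ∀ (k : Fin 5) (i : Fin 4), v k ∈ e i → v k = v i.castSucc ∨ v k = v i.succ := by
    intro k i h
    fin_cases i <;> fin_cases k
    -- e 0
    · left; rfl
    · right; rfl
    · exact (d02 _ h a2.2).elim
    · exact (d02 _ h a3.1).elim
    · exact (d03 _ h hv4.1).elim
    -- e 1
    · exact (hv0.2 h).elim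
    · left; rfl
    · right; rfl
    · exact (d13 _ h a3.2).elim
    · exact (d13 _ h hv4.1).elim
    -- e 2
    · exact (d02 _ hv0.1 h).elim
    · exact (d02 _ a1.1 h).elim
    · left; rfl
    · right; rfl
    · exact (hv4.2 h).elim
    -- e 3
    · exact (d03 _ hv0.1 h).elim
    · exact (d03 _ a1.1 h).elim
    · exact (d13 _ a2.1 h).elim
    · left; rfl
    · right; rfl
  have hne : ∀ i : Fin 4, v i.castSucc ≠ v i.succ := by
    intro i h
    have := hvinj h
    exact absurd this (Fin.castSucc_lt_succ (i := i)).ne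
  set W : Fin 4 → Finset V := fun i => e i \ {v i.castSucc, v i.succ} with hW
  have hWc : ∀ i, (W i).card = r - 2 := by
    intro i
    rw [hW]
    simp only
    rw [card_sdiff_of_subset, hc i, card_pair (hne i)]
    intro x hx
    rw [mem_insert, mem_singleton] at hx
    rcases hx with rfl | rfl
    · exact (hvin i).1
    · exact (hvin i).2
  have hWd : ∀ i j : Fin 4, i ≠ j → ∀ x, x ∈ W i → x ∉ W j := by
    have key : ∀ i j : Fin 4, i < j → ∀ x, x ∈ W i → x ∉ W j := by
      intro i j hij x hx hx'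
      simp only [hW, mem_sdiff, mem_insert, mem_singleton, not_or] at hx hx'
      fin_cases i <;> fin_cases j <;> first | (exact absurd hij (by decide)) | skip
      · exact hx.2.2 (b1 x hx.1 hx'.1)
      · exact d02 x hx.1 hx'.1
      · exact d03 x hx.1 hx'.1
      · exact hx.2.2 (b2 x hx.1 hx'.1)
      · exact d13 x hx.1 hx'.1
      · exact hx.2.2 (b3 x hx.1 hx'.1)
    intro i j hij x hx hx'
    rcases lt_or_gt_of_ne hij with h | h
    · exact key i j h x hx hx'
    · exact key j i h x hx' hx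
  set f : ∀ i : Fin 4, W i ≃ Fin (r - 2) := fun i => Finset.equivFinOfCardEq (hWc i) with hf
  set φ : PV r → V := Sum.elim v (fun p => (((f p.1).symm p.2 : W p.1) : V)) with hφ
  have hφW : ∀ i j, φ (Sum.inr (i, j)) ∈ W i := fun i j => ((f i).symm j).2
  refine ⟨φ, ?_, ?_⟩
  · rintro (k | ⟨i, j⟩) (k' | ⟨i', j'⟩) h
    · exact congrArg Sum.inl (hvinj h)
    · exfalso
      have h1 : v k ∈ W i' := by
        have := hφW i' j'
        rw [← h] at this
        exact this
      simp only [hW, mem_sdiff, mem_insert, mem_singleton] at h1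
      exact h1.2 (hvmem k i' h1.1)
    · exfalso
      have h1 : v k' ∈ W i := by
        have := hφW i j
        rw [h] at this
        exact this
      simp only [hW, mem_sdiff, mem_insert, mem_singleton] at h1
      exact h1.2 (hvmem k' i h1.1)
    · by_cases hi : i = i'
      · subst hi
        have h1 : (((f i).symm j : W i) : V) = (((f i).symm j' : W i) : V) := h
        have h2 := (f i).symm.injective (Subtype.ext h1)
        rw [h2]
      · exfalso
        have h1 := hφW i j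
        have h2 := hφW i' j'
        rw [← h] at h2
        exact hWd i i' hi _ h1 h2
  · intro i
    have : (pEdge r i).image φ = e i := by
      ext x
      simp only [pEdge, mem_image, mem_union, mem_insert, mem_singleton, mem_univ, true_and]
      constructor
      · rintro ⟨y, (rfl | rfl) | ⟨j, rfl⟩, rfl⟩
        · exact (hvin i).1
        · exact (hvin i).2
        · have := hφW i j
          simp only [hW, mem_sdiff] at this
          exact this.1
      · intro hx
        by_cases h1 : x = v i.castSucc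
        · exact ⟨Sum.inl i.castSucc, Or.inl (Or.inl rfl), h1.symm⟩
        by_cases h2 : x = v i.succ
        · exact ⟨Sum.inl i.succ, Or.inl (Or.inr rfl), h2.symm⟩
        have h3 : x ∈ W i := by
          simp only [hW, mem_sdiff, mem_insert, mem_singleton, not_or]
          exact ⟨hx, h1, h2⟩
        refine ⟨Sum.inr (i, f i ⟨x, h3⟩), Or.inr ⟨_, rfl⟩, ?_⟩
        simp [hφ]
    rw [this]
    exact he i

/-- a linear `r`-uniform family without `P₄^r` -/
lemma sys_of {r : ℕ} (hr : 3 ≤ r) {E : Finset (Finset V)} (hc : ∀ e ∈ E, e.card = r)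
    (hl : ∀ e ∈ E, ∀ f ∈ E, e ≠ f → (e ∩ f).card ≤ 1) (hp : ¬ ContainsP4 r E) : Sys r E := by
  refine ⟨hc, hl, ?_⟩
  intro a ha b hb c hc' d hd hab hac had hbc hbd hcd h1 h2 h3
  by_contra hcon
  simp only [not_or, not_not] at hcon
  obtain ⟨k1, k2, k3⟩ := hcon
  have one : ∀ x ∈ E, ∀ y ∈ E, x ≠ y → ¬ Disjoint x y → (x ∩ y).card = 1 := by
    intro x hx y hy hxy hd'
    have h4 := hl x hx y hy hxy
    have h5 : 0 < (x ∩ y).card := card_pos.mpr (not_disjoint_iff_nonempty_inter.mp hd')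
    omega
  apply hp
  refine contains_of hr ![a, b, c, d] ?_ ?_ (one a ha b hb hab h1) (one b hb c hc' hbc h2)
    (one c hc' d hd hcd h3) k1 k2 k3
  · intro i
    fin_cases i
    · exact ha
    · exact hb
    · exact hc'
    · exact hd
  · intro i
    fin_cases i
    · exact hc a ha
    · exact hc b hb
    · exact hc c hc'
    · exact hc d hd

end Pool.Q113.LP
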