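import Mathlib

/-!
# Purity of rank-bounded sets of cells

Cells are pairs of natural numbers `(row, column)`. An antidiagonal chain is a finite set of cells
any two of which are related by `row` smaller, `column` larger. Let `Q` be a finite set of cells and
`w : ℕ → ℕ` injective. A *face* is a set `F ⊆ Q` such that for all `i, j` every antidiagonal chain
of `F ∪ Qᶜ` inside `[0,i) × [0,j)` has at most `#{a < i : w a < j}` elements.
We show that every maximal face has exactly `|Q| - inv(w)` elements.
-/

set_option autoImplicit false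

namespace Q113.Pur

open Finset

/-- cells: (row, column) -/
abbrev Cell := ℕ × ℕ

/-- antidiagonal chains -/
def AC (C : Finset Cell) : Prop :=
  ∀ p ∈ C, ∀ q ∈ C, p ≠ q → (p.1 < q.1 ∧ q.2 < p.2) ∨ (q.1 < p.1 ∧ p.2 < q.2)

theorem AC.mono {C D : Finset Cell} (h : AC D) (hCD : C ⊆ D) : AC C :=
  fun p hp q hq hpq => h p (hCD hp) q (hCD hq) hpq

theorem AC.fst_inj {C : Finset Cell} (h : AC C) : Set.InjOn Prod.fst (C : Set Cell) := by
  intro p hp q hq hpq
  by_contra hne
  rcases h p hp q hq hne with h1 | h1 <;> omega

theorem AC.snd_inj {C : Finset Cell} (h : AC C) : Set.InjOn Prod.snd (C : Set Cell) := by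
  intro p hp q hq hpq
  by_contra hne
  rcases h p hp q hq hne with h1 | h1 <;> omega

theorem AC.card_le_rows {C : Finset Cell} (h : AC C) {a b : ℕ}
    (hb : ∀ p ∈ C, a ≤ p.1 ∧ p.1 < b) : C.card ≤ b - a := by
  rw [← Finset.card_image_of_injOn h.fst_inj, ← Nat.card_Ico]
  apply Finset.card_le_card
  intro x hx
  rw [mem_image] at hx
  obtain ⟨p, hp, rfl⟩ := hx
  exact mem_Ico.2 (hb p hp)

theorem AC.card_le_cols {C : Finset Cell} (h : AC C) {a b : ℕ}
    (hb : ∀ p ∈ C, a ≤ p.2 ∧ p.2 < b) : C.card ≤ b - a := by
  rw [← Finset.card_image_of_injOn h.snd_inj, ← Nat.card_Ico]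
  apply Finset.card_le_card
  intro x hx
  rw [mem_image] at hx
  obtain ⟨p, hp, rfl⟩ := hx
  exact mem_Ico.2 (hb p hp)

theorem AC.insert {C : Finset Cell} (h : AC C) {m v : ℕ}
    (hC : ∀ p ∈ C, p.1 < m ∧ v < p.2) : AC (insert (m, v) C) := by
  intro p hp q hq hpq
  rw [mem_insert] at hp hq
  rcases hp with rfl | hp
  · rcases hq with rfl | hq
    · exact absurd rfl hpq
    · exact Or.inr ⟨(hC q hq).1, (hC q hq).2⟩
  · rcases hq with rfl | hq
    · exact Or.inl ⟨(hC p hp).1, (hC p hp).2⟩
    · exact h p hp q hq hpq

theorem card_insert' {C : Finset Cell} {m v : ℕ} (hC : ∀ p ∈ C, p.1 < m ∧ v < p.2) :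
    (insert (m, v) C).card = C.card + 1 := by
  apply card_insert_of_notMem
  intro h
  have := (hC _ h).1
  simp at this

/-- a staircase: `q` cells in the rows `a, a+1, ...`, columns `q-1, ..., 0` -/
def stair (a q : ℕ) : Finset Cell := (range q).image fun l => (a + l, q - 1 - l)

theorem mem_stair {a q : ℕ} {p : Cell} :
    p ∈ stair a q ↔ a ≤ p.1 ∧ p.2 < q ∧ p.1 + p.2 + 1 = a + q := by
  obtain ⟨x, y⟩ := p
  simp only [stair, mem_image, mem_range, Prod.mk.injEq]
  constructor
  · rintro ⟨l, hl, h1, h2⟩
    omega
  · rintro ⟨h1, h2, h3⟩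
    exact ⟨x - a, by omega, by omega, by omega⟩

theorem card_stair (a q : ℕ) : (stair a q).card = q := by
  rw [stair, card_image_of_injective, card_range]
  intro x y hxy
  simp only [Prod.mk.injEq] at hxy
  omega

theorem AC.glue {C : Finset Cell} (h : AC C) {m q : ℕ} (hrow : ∀ p ∈ C, p.1 ≤ m)
    (hcol : ∀ p ∈ C, q ≤ p.2) :
    AC (C ∪ stair (m + 1) q) ∧ (C ∪ stair (m + 1) q).card = C.card + q := by
  constructor
  · intro p hp p' hp' hpq
    rw [mem_union] at hp hp'
    rcases hp with hp | hp
    · rcases hp' with hp' | hp'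
      · exact h p hp p' hp' hpq
      · rw [mem_stair] at hp'
        have h1 := hrow p hp
        have h2 := hcol p hp
        left; omega
    · rcases hp' with hp' | hp'
      · rw [mem_stair] at hp
        have h1 := hrow p' hp'
        have h2 := hcol p' hp'
        right; omega
      · rw [mem_stair] at hp hp'
        have : p.1 ≠ p'.1 := by
          intro he
          apply hpq
          apply Prod.ext he
          omega
        omega
  · rw [card_union_of_disjoint, card_stair]
    rw [disjoint_left]
    intro p hp hp'
    rw [mem_stair] at hp'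
    have := hrow p hp
    omega

/-- every chain of `G` in the box has at most `r` elements -/
def Bdd (G : Set Cell) (i j r : ℕ) : Prop :=
  ∀ C : Finset Cell, AC C → (∀ p ∈ C, p ∈ G ∧ p.1 < i ∧ p.2 < j) → C.card ≤ r

theorem Bdd.mono {G H : Set Cell} {i j r : ℕ} (h : Bdd H i j r) (hGH : G ⊆ H) : Bdd G i j r :=
  fun C hC hb => h C hC fun p hp => ⟨hGH (hb p hp).1, (hb p hp).2⟩

/-- splitting a chain at row `m` -/
theorem AC.split {C : Finset Cell} (h : AC C) {i j m : ℕ} (hb : ∀ p ∈ C, p.1 < i ∧ p.2 < j) :
    (C.filter fun p => p.1 ≤ m).card + (C.filter fun p => m < p.1).card = C.card ∧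
    (C.filter fun p => m < p.1).card ≤ i - (m + 1) ∧
    (C.filter fun p => m < p.1).card ≤ j ∧
    ∀ p ∈ C, p.1 ≤ m → (C.filter fun p => m < p.1).card ≤ p.2 := by
  refine ⟨?_, ?_, ?_, ?_⟩
  · have := card_filter_add_card_filter_not (s := C) (fun p : Cell => p.1 ≤ m)
    simpa only [not_le] using this
  · apply (h.mono (filter_subset _ _)).card_le_rows
    intro p hp
    rw [mem_filter] at hp
    have := hb p hp.1
    omega
  · have := (h.mono (filter_subset (fun p => m < p.1) _)).card_le_cols (a := 0) (b := j)
      (fun p hp => by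
        rw [mem_filter] at hp
        have := hb p hp.1
        omega)
    simpa using this
  · intro p hp hpm
    have := (h.mono (filter_subset (fun p => m < p.1) _)).card_le_cols (a := 0) (b := p.2)
      (fun q hq => by
        rw [mem_filter] at hq
        rcases h p hp q hq.1 (by rintro rfl; omega) with h1 | h1 <;> omega)
    simpa using this

section Step

variable {G : Set Cell} {m j0 : ℕ} (hfull : ∀ p : Cell, m < p.1 → p ∈ G)
  (hrow : ∀ v, v < j0 → ((m, v) : Cell) ∈ G)

include hfull hrow

/-- (C1) Removing the cell `(m, j0)` changes the longest chains only in boxes with `m + j0 + 1`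
rows. -/
theorem C1 {i j r : ℕ} (hi : i ≠ m + j0 + 1) (h : Bdd (G \ {(m, j0)}) i j r) : Bdd G i j r := by
  intro C hC hb
  by_cases hc : ((m, j0) : Cell) ∈ C
  swap
  · exact h C hC fun p hp => ⟨⟨(hb p hp).1, by
      rintro rfl; exact hc hp⟩, (hb p hp).2⟩
  have hcb := hb _ hc
  simp only at hcb
  have hbox : ∀ p ∈ C, p.1 < i ∧ p.2 < j := fun p hp => (hb p hp).2
  obtain ⟨s1, s2, s3, s4⟩ := hC.split (m := m) hbox
  have s5 := s4 _ hc le_rfl
  simp only at s5
  set q2 := (C.filter fun p => m < p.1).card with hq2
  set C0 : Finset Cell := (C.filter fun p => p.1 ≤ m).erase (m, j0) with hC0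
  have hC0card : C0.card + 1 = (C.filter fun p => p.1 ≤ m).card := by
    rw [hC0]
    apply card_erase_add_one
    rw [mem_filter]
    exact ⟨hc, le_rfl⟩
  have hC0mem : ∀ p ∈ C0, p ∈ C ∧ p.1 < m ∧ j0 < p.2 := by
    intro p hp
    rw [hC0, mem_erase, mem_filter] at hp
    obtain ⟨h1, h2, h3⟩ := hp
    refine ⟨h2, ?_⟩
    rcases hC p h2 _ hc h1 with h4 | h4
    · exact h4
    · exfalso
      simp only at h4
      omega
  have hC0AC : AC C0 := hC.mono fun p hp => (hC0mem p hp).1
  rcases lt_or_gt_of_ne hi with hlt | hgt
  · -- few rows: use the cell to the left of `c`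
    have hj0 : 0 < j0 := by omega
    have hA : AC (insert (m, j0 - 1) C0) := hC0AC.insert fun p hp => by
      have := hC0mem p hp
      omega
    have hAc : (insert (m, j0 - 1) C0).card = C0.card + 1 := card_insert' fun p hp => by
      have := hC0mem p hp
      omega
    have hg := hA.glue (m := m) (q := i - (m + 1))
      (fun p hp => by
        rw [mem_insert] at hp
        rcases hp with rfl | hp
        · exact le_rfl
        · have := hC0mem p hp
          omega)
      (fun p hp => by
        rw [mem_insert] at hp
        rcases hp with rfl | hp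
        · simp only
          omega
        · have := hC0mem p hp
          omega)
    have hle := h _ hg.1 (fun p hp => by
      rw [mem_union, mem_insert] at hp
      rcases hp with (rfl | hp) | hp
      · refine ⟨⟨hrow _ (by omega), ?_⟩, ?_, ?_⟩
        · simp only [Set.mem_singleton_iff, Prod.mk.injEq, not_and]
          omega
        · exact hcb.2.1
        · have := hcb.2.2
          simp only
          omega
      · have h1 := hC0mem p hp
        have h2 := hb p h1.1
        refine ⟨⟨h2.1, ?_⟩, h2.2⟩
        simp only [Set.mem_singleton_iff]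
        rintro rfl
        simp at h1
      · rw [mem_stair] at hp
        refine ⟨⟨hfull p (by omega), ?_⟩, ?_, ?_⟩
        · simp only [Set.mem_singleton_iff]
          rintro rfl
          simp at hp
        · omega
        · omega)
    rw [hg.2, hAc] at hle
    omega
  · -- many rows: use the cell below `c`
    have hg := hC0AC.glue (m := m) (q := j0 + 1)
      (fun p hp => by have := hC0mem p hp; omega)
      (fun p hp => by have := hC0mem p hp; omega)
    have hle := h _ hg.1 (fun p hp => by
      rw [mem_union] at hp
      rcases hp with hp | hp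
      · have h1 := hC0mem p hp
        have h2 := hb p h1.1
        refine ⟨⟨h2.1, ?_⟩, h2.2⟩
        simp only [Set.mem_singleton_iff]
        rintro rfl
        simp at h1
      · rw [mem_stair] at hp
        refine ⟨⟨hfull p (by omega), ?_⟩, ?_, ?_⟩
        · simp only [Set.mem_singleton_iff]
          rintro rfl
          simp at hp
        · omega
        · omega)
    rw [hg.2] at hle
    omega

/-- (C2) The longest chains of `G \ {c}` in boxes with `m + j0 + 1` rows. -/
theorem C2 {j r r1 r2 : ℕ} (h1 : Bdd G (m + j0) j r1) (h2 : Bdd G (m + j0 + 2) j r2)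
    (hr1 : r1 ≤ r) (hr2 : r2 ≤ r + 1) : Bdd (G \ {(m, j0)}) (m + j0 + 1) j r := by
  intro C hC hb
  have hbox : ∀ p ∈ C, p.1 < m + j0 + 1 ∧ p.2 < j := fun p hp => (hb p hp).2
  obtain ⟨s1, s2, s3, s4⟩ := hC.split (m := m) hbox
  set q2 := (C.filter fun p => m < p.1).card with hq2
  set C1 : Finset Cell := C.filter fun p => p.1 ≤ m with hC1
  have hC1mem : ∀ p ∈ C1, p ∈ C ∧ p.1 ≤ m ∧ q2 ≤ p.2 := by
    intro p hp
    rw [hC1, mem_filter] at hp
    exact ⟨hp.1, hp.2, s4 p hp.1 hp.2⟩
  have hC1AC : AC C1 := hC.mono fun p hp => (hC1mem p hp).1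
  have hq2le : q2 ≤ j0 := by omega
  rcases lt_or_eq_of_le hq2le with hlt | heq
  · -- compress
    have hg := hC1AC.glue (m := m) (q := q2) (fun p hp => (hC1mem p hp).2.1)
      (fun p hp => (hC1mem p hp).2.2)
    have hle := h1 _ hg.1 (fun p hp => by
      rw [mem_union] at hp
      rcases hp with hp | hp
      · have h3 := hC1mem p hp
        have h4 := hb p h3.1
        refine ⟨h4.1.1, by omega, h4.2.2⟩
      · rw [mem_stair] at hp
        exact ⟨hfull p (by omega), by omega, by omega⟩)
    rw [hg.2] at hle
    omega
  · by_cases hA : ∃ p ∈ C, p.1 = m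
    · -- extend
      obtain ⟨p0, hp0, hp0m⟩ := hA
      have hp0b := hb p0 hp0
      have hp0q : q2 ≤ p0.2 := s4 p0 hp0 hp0m.le
      have hp0ne : p0.2 ≠ j0 := by
        intro he
        apply hp0b.1.2
        simp only [Set.mem_singleton_iff]
        exact Prod.ext hp0m he
      have hcols : ∀ p ∈ C1, j0 + 1 ≤ p.2 := by
        intro p hp
        have h3 := hC1mem p hp
        by_cases hpe : p = p0
        · rw [hpe]; omega
        · rcases hC p h3.1 p0 hp0 hpe with h4 | h4 <;> omega
      have hg := hC1AC.glue (m := m) (q := j0 + 1) (fun p hp => (hC1mem p hp).2.1) hcols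
      have hle := h2 _ hg.1 (fun p hp => by
        rw [mem_union] at hp
        rcases hp with hp | hp
        · have h3 := hC1mem p hp
          have h4 := hb p h3.1
          refine ⟨h4.1.1, by omega, h4.2.2⟩
        · rw [mem_stair] at hp
          exact ⟨hfull p (by omega), by omega, by omega⟩)
      rw [hg.2] at hle
      omega
    · -- all rows of `C1` are smaller than `m`
      have hrows : ∀ p ∈ C1, p.1 < m := by
        intro p hp
        have h3 := hC1mem p hp
        refine lt_of_le_of_ne h3.2.1 fun he => hA ⟨p, h3.1, he⟩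
      rcases Nat.eq_zero_or_pos j0 with hj0 | hj0
      · have hle := h1 C1 hC1AC (fun p hp => by
          have h3 := hC1mem p hp
          have h4 := hb p h3.1
          exact ⟨h4.1.1, by have := hrows p hp; omega, h4.2.2⟩)
        omega
      · have hI : AC (insert (m, j0 - 1) C1) := hC1AC.insert fun p hp => by
          have := hC1mem p hp
          have := hrows p hp
          omega
        have hIc : (insert (m, j0 - 1) C1).card = C1.card + 1 := card_insert' fun p hp => by
          have := hC1mem p hp
          have := hrows p hp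
          omega
        have hg := hI.glue (m := m) (q := j0 - 1)
          (fun p hp => by
            rw [mem_insert] at hp
            rcases hp with rfl | hp
            · exact le_rfl
            · exact (hC1mem p hp).2.1)
          (fun p hp => by
            rw [mem_insert] at hp
            rcases hp with rfl | hp
            · exact le_rfl
            · have := hC1mem p hp
              omega)
        have hle := h1 _ hg.1 (fun p hp => by
          rw [mem_union, mem_insert] at hp
          rcases hp with (rfl | hp) | hp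
          · refine ⟨hrow _ (by omega), ?_, ?_⟩
            · simp only; omega
            · simp only; omega
          · have h3 := hC1mem p hp
            have h4 := hb p h3.1
            exact ⟨h4.1.1, by omega, h4.2.2⟩
          · rw [mem_stair] at hp
            exact ⟨hfull p (by omega), by omega, by omega⟩)
        rw [hg.2, hIc] at hle
        omega

end Step

/-! ### Ranks and inversions -/

/-- the rank function of `w` -/
def rk (w : ℕ → ℕ) (i j : ℕ) : ℕ := ((range i).filter fun a => w a < j).card

theorem rk_succ (w : ℕ → ℕ) (i j : ℕ) : rk w (i + 1) j = rk w i j + if w i < j then 1 else 0 := by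
  unfold rk
  rw [range_add_one, filter_insert]
  split_ifs with h
  · rw [card_insert_of_notMem (by simp)]
  · rfl

/-- the number of inversions among the first `N` positions -/
def inv (N : ℕ) (w : ℕ → ℕ) : ℕ :=
  ((range N ×ˢ range N).filter fun p => p.1 < p.2 ∧ w p.2 < w p.1).card

/-- `w` with the values at `t` and `t+1` exchanged -/
def sw (w : ℕ → ℕ) (t : ℕ) : ℕ → ℕ := w ∘ Equiv.swap t (t + 1)

theorem sw_of_ne {w : ℕ → ℕ} {t a : ℕ} (h1 : a ≠ t) (h2 : a ≠ t + 1) : sw w t a = w a := by
  simp [sw, Equiv.swap_apply_of_ne_of_ne h1 h2]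

theorem sw_left (w : ℕ → ℕ) (t : ℕ) : sw w t t = w (t + 1) := by simp [sw]

theorem sw_right (w : ℕ → ℕ) (t : ℕ) : sw w t (t + 1) = w t := by simp [sw]

theorem rk_sw_le {w : ℕ → ℕ} {t i : ℕ} (j : ℕ) (hi : i ≤ t) : rk (sw w t) i j = rk w i j := by
  unfold rk
  congr 1
  apply filter_congr
  intro a ha
  rw [mem_range] at ha
  rw [sw_of_ne (by omega) (by omega)]

theorem rk_sw_ge {w : ℕ → ℕ} {t i : ℕ} (j : ℕ) (hi : t + 2 ≤ i) :
    rk (sw w t) i j = rk w i j := by
  induction i, hi using Nat.le_induction with
  | base =>
    rw [show t + 2 = t + 1 + 1 from rfl, rk_succ, rk_succ, rk_succ, rk_succ, sw_left, sw_right,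
      rk_sw_le j le_rfl]
    omega
  | succ n hn ih =>
    rw [rk_succ, rk_succ, ih, sw_of_ne (by omega) (by omega)]

theorem rk_sw {w : ℕ → ℕ} {t i : ℕ} (j : ℕ) (hi : i ≠ t + 1) : rk (sw w t) i j = rk w i j := by
  rcases Nat.lt_or_ge t i with h | h
  · exact rk_sw_ge j (by omega)
  · exact rk_sw_le j h

theorem inv_sw {N t : ℕ} (hN : t + 1 < N) {w : ℕ → ℕ} (h : w (t + 1) < w t) :
    inv N w = inv N (sw w t) + 1 := by
  have hswap : ∀ a, (Equiv.swap t (t + 1)) ((Equiv.swap t (t + 1)) a) = a := fun a =>
    Equiv.swap_apply_self _ _ a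
  have hlt : ∀ a, a < N → Equiv.swap t (t + 1) a < N := by
    intro a ha
    rw [Equiv.swap_apply_def]
    split_ifs <;> omega
  -- transport the inversions of `sw w t`
  have e1 : inv N (sw w t) = ((range N ×ˢ range N).filter fun p =>
      Equiv.swap t (t + 1) p.1 < Equiv.swap t (t + 1) p.2 ∧ w p.2 < w p.1).card := by
    unfold inv
    apply card_bij' (fun p _ => (Equiv.swap t (t + 1) p.1, Equiv.swap t (t + 1) p.2))
      (fun p _ => (Equiv.swap t (t + 1) p.1, Equiv.swap t (t + 1) p.2))
    · intro p hp
      simp only [mem_filter, mem_product, mem_range] at hp ⊢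
      refine ⟨⟨hlt _ hp.1.1, hlt _ hp.1.2⟩, ?_, ?_⟩
      · rw [hswap, hswap]; exact hp.2.1
      · exact hp.2.2
    · intro p hp
      simp only [mem_filter, mem_product, mem_range] at hp ⊢
      refine ⟨⟨hlt _ hp.1.1, hlt _ hp.1.2⟩, hp.2.1, ?_⟩
      simp only [sw, Function.comp, hswap]
      exact hp.2.2
    · intro p _
      simp [hswap]
    · intro p _
      simp [hswap]
  rw [e1]
  have e2 : ((range N ×ˢ range N).filter fun p => p.1 < p.2 ∧ w p.2 < w p.1) =
      insert (t, t + 1) ((range N ×ˢ range N).filter fun p =>
        Equiv.swap t (t + 1) p.1 < Equiv.swap t (t + 1) p.2 ∧ w p.2 < w p.1) := by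
    ext ⟨a, b⟩
    simp only [mem_filter, mem_product, mem_range, mem_insert, Prod.mk.injEq]
    constructor
    · rintro ⟨⟨ha, hb⟩, hab, hw⟩
      by_cases hc : a = t ∧ b = t + 1
      · exact Or.inl hc
      · refine Or.inr ⟨⟨ha, hb⟩, ?_, hw⟩
        rw [Equiv.swap_apply_def, Equiv.swap_apply_def]
        split_ifs <;> omega
    · rintro (⟨rfl, rfl⟩ | ⟨⟨ha, hb⟩, hab, hw⟩)
      · exact ⟨⟨by omega, hN⟩, by omega, h⟩
      · refine ⟨⟨ha, hb⟩, ?_, hw⟩
        rw [Equiv.swap_apply_def, Equiv.swap_apply_def] at hab
        split_ifs at hab with h1 h2 h3 h4 h5 h6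
        all_goals first | omega | skip
        all_goals
          subst_vars
          omega
  unfold inv
  rw [e2, card_insert_of_notMem]
  simp only [mem_filter, not_and]
  intro _ h1
  simp at h1

/-! ### Faces and facets -/

/-- faces -/
def Face (Q : Finset Cell) (w : ℕ → ℕ) (F : Finset Cell) : Prop :=
  F ⊆ Q ∧ ∀ i j, Bdd ((F : Set Cell) ∪ (Q : Set Cell)ᶜ) i j (rk w i j)

/-- facets: maximal faces -/
def Facet (Q : Finset Cell) (w : ℕ → ℕ) (F : Finset Cell) : Prop :=
  Face Q w F ∧ ∀ F', Face Q w F' → F ⊆ F' → F' = F

theorem id_of_face {w : ℕ → ℕ} (hw : Function.Injective w) {F : Finset Cell}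
    (h : Face ∅ w F) : ∀ a, w a = a := by
  have h1 : ∀ i, i ≤ rk w i i := by
    intro i
    have h2 := h.2 i i (stair 0 i) ?_ ?_
    · rwa [card_stair] at h2
    · have := (show AC (∅ : Finset Cell) from fun p hp => absurd hp (notMem_empty p))
      intro p hp q hq hpq
      rw [mem_stair] at hp hq
      have : p.1 ≠ q.1 := by
        intro he
        exact hpq (Prod.ext he (by omega))
      omega
    · intro p hp
      rw [mem_stair] at hp
      refine ⟨by simp, by omega, by omega⟩
  have h2 : ∀ i a, a < i → w a < i := by
    intro i a ha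
    have h3 : ((range i).filter fun a => w a < i) = range i := by
      apply eq_of_subset_of_card_le (filter_subset _ _)
      rw [card_range]
      exact h1 i
    have h4 : a ∈ ((range i).filter fun a => w a < i) := by
      rw [h3]; exact mem_range.2 ha
    exact (mem_filter.1 h4).2
  intro a
  induction a using Nat.strong_induction_on with
  | _ a ih =>
    have h3 := h2 (a + 1) a (by omega)
    by_contra hne
    have h4 := ih (w a) (by omega)
    have := hw h4
    omega

/-- **Purity.** -/
theorem purity (N : ℕ) : ∀ (n : ℕ) (Q : Finset Cell), Q.card = n → ∀ (w : ℕ → ℕ),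
    Function.Injective w → (∀ c ∈ Q, c.1 + c.2 + 1 < N) → ∀ F, Facet Q w F →
    (Q \ F).card = inv N w := by
  intro n
  induction n with
  | zero =>
    intro Q hQ w hw _ F hF
    rw [card_eq_zero] at hQ
    subst hQ
    have hid := id_of_face hw hF.1
    have : inv N w = 0 := by
      unfold inv
      rw [card_eq_zero, filter_eq_empty_iff]
      rintro ⟨a, b⟩ _ ⟨h1, h2⟩
      simp only [hid] at h1 h2
      omega
    rw [this]
    simp
  | succ n ih =>
    intro Q hQ w hw hN F hF
    have hne : Q.Nonempty := by
      rw [← card_pos]; omega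
    obtain ⟨c1, hc1, hmax⟩ := exists_max_image Q Prod.fst hne
    obtain ⟨c, hc, hmin⟩ := exists_min_image (Q.filter fun p => p.1 = c1.1) Prod.snd
      ⟨c1, by simp [hc1]⟩
    rw [mem_filter] at hc
    obtain ⟨hcQ, hc1'⟩ := hc
    obtain ⟨m, j0⟩ := c
    simp only at hc1' hmin
    have hrowQ : ∀ p ∈ Q, p.1 ≤ m := fun p hp => by rw [hc1']; exact hmax p hp
    have hcolQ : ∀ v, ((m, v) : Cell) ∈ Q → j0 ≤ v := fun v hv =>
      hmin (m, v) (mem_filter.2 ⟨hv, hc1'⟩)
    set t := m + j0 with ht
    have htN : t + 1 < N := hN _ hcQ
    set Q' := Q.erase (m, j0) with hQ'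
    have hQ'card : Q'.card = n := by
      rw [hQ', card_erase_of_mem hcQ, hQ]
      rfl
    have hQ'N : ∀ c ∈ Q', c.1 + c.2 + 1 < N := fun c hc => hN c (mem_of_mem_erase hc)
    -- the sets of available cells
    have hset : ∀ E : Finset Cell, E ⊆ Q' →
        ((E : Set Cell) ∪ (Q' : Set Cell)ᶜ) \ {(m, j0)} = (E : Set Cell) ∪ (Q : Set Cell)ᶜ := by
      intro E hE
      ext p
      simp only [hQ', Set.mem_sdiff, Set.mem_union, mem_coe, Set.mem_compl_iff, mem_erase,
        Set.mem_singleton_iff]
      constructor
      · rintro ⟨h1 | h1, h2⟩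
        · exact Or.inl h1
        · right
          intro h3
          exact h1 ⟨h2, h3⟩
      · rintro (h1 | h1)
        · refine ⟨Or.inl h1, ?_⟩
          rintro rfl
          have := hE h1
          rw [hQ', mem_erase] at this
          exact this.1 rfl
        · refine ⟨Or.inr fun h2 => h1 h2.2, ?_⟩
          rintro rfl
          exact h1 hcQ
    have hfull : ∀ E : Finset Cell, ∀ p : Cell, m < p.1 →
        p ∈ (E : Set Cell) ∪ (Q' : Set Cell)ᶜ := by
      intro E p hp
      right
      simp only [Set.mem_compl_iff, mem_coe]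
      intro h1
      have := hrowQ p (mem_of_mem_erase h1)
      omega
    have hrow : ∀ E : Finset Cell, ∀ v, v < j0 → ((m, v) : Cell) ∈ (E : Set Cell) ∪ (Q' : Set Cell)ᶜ := by
      intro E v hv
      right
      simp only [Set.mem_compl_iff, mem_coe]
      intro h1
      have := hcolQ v (mem_of_mem_erase h1)
      omega
    -- adding `c` to a face of `(Q, w)` gives a face of `(Q', w')` if `w'` is increasing at `t`
    have hadd : ∀ E : Finset Cell, E ⊆ Q' → ∀ w' : ℕ → ℕ, w' t < w' (t + 1) →
        (∀ i j, i ≠ t + 1 → Bdd ((E : Set Cell) ∪ (Q : Set Cell)ᶜ) i j (rk w' i j)) →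
        ∀ i j, Bdd ((E : Set Cell) ∪ (Q' : Set Cell)ᶜ) i j (rk w' i j) := by
      intro E hE w' hw' hbd i j
      have hgood : ∀ i, i ≠ t + 1 → Bdd ((E : Set Cell) ∪ (Q' : Set Cell)ᶜ) i j (rk w' i j) := by
        intro i hi
        apply C1 (hfull E) (hrow E) (by rw [ht] at hi; exact hi)
        rw [hset E hE]
        exact hbd i j hi
      by_cases hi : i = t + 1
      swap
      · exact hgood i hi
      subst hi
      intro C hC hb
      -- one row more, one row less
      have hle1 : C.card ≤ rk w' (t + 2) j :=
        hgood (t + 2) (by omega) C hC fun p hp => ⟨(hb p hp).1, by have := (hb p hp).2; omega,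
          (hb p hp).2.2⟩
      have hle2 : C.card ≤ rk w' t j + 1 := by
        have h1 := hgood t (by omega) (C.filter fun p => p.1 < t) (hC.mono (filter_subset _ _))
          fun p hp => by
            rw [mem_filter] at hp
            exact ⟨(hb p hp.1).1, hp.2, (hb p hp.1).2.2⟩
        have h2 := card_filter_add_card_filter_not (s := C) (fun p : Cell => p.1 < t)
        have h3 : (C.filter fun p : Cell => ¬ p.1 < t).card ≤ 1 := by
          have := (hC.mono (filter_subset (fun p : Cell => ¬ p.1 < t) _)).card_le_rows
            (a := t) (b := t + 1) fun p hp => by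
              rw [mem_filter] at hp
              have := (hb p hp.1).2.1
              omega
          omega
        omega
      have e1 := rk_succ w' t j
      have e2 := rk_succ w' (t + 1) j
      rw [show t + 2 = t + 1 + 1 from rfl] at hle1
      split_ifs at e1 e2 <;> omega
    have hFQ := hF.1.1
    by_cases hcF : ((m, j0) : Cell) ∈ F
    · -- the cell belongs to the facet
      have hE : F.erase (m, j0) ⊆ Q' := erase_subset_erase _ hFQ
      have hunion : ∀ E : Finset Cell, E ⊆ Q' →
          (((insert (m, j0) E : Finset Cell) : Set Cell) ∪ (Q : Set Cell)ᶜ) =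
            (E : Set Cell) ∪ (Q' : Set Cell)ᶜ := by
        intro E _
        ext p
        simp only [hQ', coe_insert, Set.mem_union, Set.mem_insert_iff, mem_coe,
          Set.mem_compl_iff, mem_erase]
        tauto
      have hfacet : Facet Q' w (F.erase (m, j0)) := by
        refine ⟨⟨hE, ?_⟩, ?_⟩
        · intro i j
          rw [← hunion _ hE, insert_erase hcF]
          exact hF.1.2 i j
        · intro F' hF' hsub
          have h1 : Face Q w (insert (m, j0) F') := by
            refine ⟨?_, ?_⟩
            · intro p hp
              rw [mem_insert] at hp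
              rcases hp with rfl | hp
              · exact hcQ
              · exact mem_of_mem_erase (hF'.1 hp)
            · intro i j
              rw [hunion _ hF'.1]
              exact hF'.2 i j
          have h2 := hF.2 _ h1 (by
            intro p hp
            rw [mem_insert]
            by_cases hpe : p = (m, j0)
            · exact Or.inl hpe
            · exact Or.inr (hsub (mem_erase.2 ⟨hpe, hp⟩)))
          rw [← h2, erase_insert]
          intro h3
          have := hF'.1 h3
          rw [hQ', mem_erase] at this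
          exact this.1 rfl
      have h1 := ih Q' hQ'card w hw hQ'N _ hfacet
      rw [← h1]
      congr 1
      ext p
      simp only [hQ', mem_sdiff, mem_erase]
      constructor
      · rintro ⟨h2, h3⟩
        refine ⟨⟨?_, h2⟩, fun h4 => h3 h4.2⟩
        rintro rfl
        exact h3 hcF
      · rintro ⟨⟨h2, h3⟩, h4⟩
        exact ⟨h3, fun h5 => h4 ⟨h2, h5⟩⟩
    · -- the cell does not belong to the facet
      have hE : F ⊆ Q' := by
        intro p hp
        rw [hQ', mem_erase]
        exact ⟨by rintro rfl; exact hcF hp, hFQ hp⟩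
      -- `w` is decreasing at `t`
      have hdesc : w (t + 1) < w t := by
        by_contra hcon
        have hasc : w t < w (t + 1) := by
          have : w t ≠ w (t + 1) := fun h => by have := hw h; omega
          omega
        have h1 := hadd F hE w hasc fun i j _ => hF.1.2 i j
        have h2 : Face Q w (insert (m, j0) F) := by
          refine ⟨?_, ?_⟩
          · intro p hp
            rw [mem_insert] at hp
            rcases hp with rfl | hp
            · exact hcQ
            · exact hFQ hp
          · intro i j
            refine (h1 i j).mono ?_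
            intro p hp
            simp only [hQ', coe_insert, Set.mem_union, Set.mem_insert_iff, mem_coe,
              Set.mem_compl_iff, mem_erase] at hp ⊢
            tauto
        have h3 := hF.2 _ h2 (subset_insert _ _)
        apply hcF
        rw [← h3]
        exact mem_insert_self _ _
      have hw' : Function.Injective (sw w t) := hw.comp (Equiv.injective _)
      have hfacet : Facet Q' (sw w t) F := by
        refine ⟨⟨hE, ?_⟩, ?_⟩
        · apply hadd F hE
          · rw [sw_left, sw_right]; exact hdesc
          · intro i j hi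
            rw [rk_sw j hi]
            exact hF.1.2 i j
        · intro F' hF' hsub
          apply hF.2 F' _ hsub
          refine ⟨hF'.1.trans (erase_subset _ _), ?_⟩
          intro i j
          rw [← hset F' hF'.1]
          by_cases hi : i = t + 1
          · subst hi
            have b1 := hF'.2 t j
            have b2 := hF'.2 (t + 2) j
            rw [rk_sw j (by omega)] at b1 b2
            apply C2 (hfull F') (hrow F') b1 b2
            · rw [rk_succ]; omega
            · rw [show t + 2 = t + 1 + 1 from rfl, rk_succ, rk_succ]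
              split_ifs <;> omega
          · have b1 := hF'.2 i j
            rw [rk_sw j hi] at b1
            exact b1.mono Set.sdiff_subset
      have h1 := ih Q' hQ'card (sw w t) hw' hQ'N _ hfacet
      rw [inv_sw htN hdesc, ← h1, hQ']
      have h2 : Q \ F = insert (m, j0) (Q.erase (m, j0) \ F) := by
        ext p
        simp only [mem_sdiff, mem_insert, mem_erase]
        constructor
        · rintro ⟨h3, h4⟩
          by_cases hpe : p = (m, j0)
          · exact Or.inl hpe
          · exact Or.inr ⟨⟨hpe, h3⟩, h4⟩
        · rintro (rfl | ⟨⟨_, h3⟩, h4⟩)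
          · exact ⟨hcQ, hcF⟩
          · exact ⟨h3, h4⟩
      rw [h2, card_insert_of_notMem]
      simp

end Q113.Pur
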