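import Pool.Agent.Q113.Purity

/-!
# Purity for Young diagrams

Let `D` be a finite down-closed set of cells. `Free k D F` says that every antidiagonal chain of
`F` whose bounding box lies in `D` has at most `k` elements. All maximal free subsets of `D` have
the same number of elements as the canonical one,
`{(a, b) ∈ D : a < k or (a, b + k) ∉ D}`.
-/

set_option autoImplicit false

namespace Q113.Pur

open Finset

/-- down-closed sets of cells -/
def Down (D : Finset Cell) : Prop := ∀ p ∈ D, ∀ q : Cell, q.1 ≤ p.1 → q.2 ≤ p.2 → q ∈ D

/-- chains of `F` with bounding box in `D` have at most `k` elements -/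
def Free (k : ℕ) (D F : Finset Cell) : Prop :=
  ∀ C : Finset Cell, AC C → C ⊆ F → (∃ u ∈ D, ∀ p ∈ C, p.1 ≤ u.1 ∧ p.2 ≤ u.2) → C.card ≤ k

theorem Free.mono {k : ℕ} {D F F' : Finset Cell} (h : Free k D F') (hF : F ⊆ F') : Free k D F :=
  fun C hC hs hu => h C hC (hs.trans hF) hu

/-- maximal free subsets -/
def MaxFree (k : ℕ) (D F : Finset Cell) : Prop :=
  F ⊆ D ∧ Free k D F ∧ ∀ x ∈ D, x ∉ F → ¬ Free k D (insert x F)

/-! ### The greedy permutation -/

/-- `w a = a` for `a < k`; otherwise the least unused `v ≥ k` with `(a, v) ∉ D` -/
noncomputable def gw (k : ℕ) (D : Finset Cell) (a : ℕ) : ℕ :=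
  if a < k then a else sInf {v | k ≤ v ∧ (a, v) ∉ D ∧ ∀ b, (h : b < a) → gw k D b ≠ v}
termination_by a

variable {k : ℕ} {D : Finset Cell}

theorem gw_lt {a : ℕ} (h : a < k) : gw k D a = a := by
  rw [gw, if_pos h]

theorem gw_set_nonempty (a : ℕ) :
    {v | k ≤ v ∧ (a, v) ∉ D ∧ ∀ b, (_ : b < a) → gw k D b ≠ v}.Nonempty := by
  refine ⟨k + D.sup Prod.snd + (range a).sup (gw k D) + 1, by omega, ?_, ?_⟩
  · intro h
    have := le_sup (f := Prod.snd) h
    simp only at this
    omega
  · intro b hb h
    have := le_sup (f := gw k D) (mem_range.2 hb)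
    omega

theorem gw_mem {a : ℕ} (h : k ≤ a) :
    k ≤ gw k D a ∧ (a, gw k D a) ∉ D ∧ ∀ b, b < a → gw k D b ≠ gw k D a := by
  have h1 := Nat.sInf_mem (gw_set_nonempty (k := k) (D := D) a)
  have h2 : gw k D a = sInf {v | k ≤ v ∧ (a, v) ∉ D ∧ ∀ b, (_ : b < a) → gw k D b ≠ v} := by
    conv_lhs => rw [gw, if_neg (by omega)]
  rw [← h2] at h1
  exact h1

theorem gw_min {a v : ℕ} (h : k ≤ a) (h1 : k ≤ v) (h2 : (a, v) ∉ D)
    (h3 : ∀ b, b < a → gw k D b ≠ v) : gw k D a ≤ v := by
  have h4 : gw k D a = sInf {v | k ≤ v ∧ (a, v) ∉ D ∧ ∀ b, (_ : b < a) → gw k D b ≠ v} := by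
    conv_lhs => rw [gw, if_neg (by omega)]
  rw [h4]
  exact Nat.sInf_le ⟨h1, h2, h3⟩

theorem gw_ne {a b : ℕ} (h : b < a) : gw k D b ≠ gw k D a := by
  rcases Nat.lt_or_ge a k with h1 | h1
  · rw [gw_lt h1, gw_lt (by omega)]
    omega
  · exact (gw_mem h1).2.2 b h

theorem gw_injective : Function.Injective (gw k D) := by
  intro a b hab
  by_contra hne
  rcases lt_or_gt_of_ne hne with h | h
  · exact gw_ne h hab
  · exact gw_ne h hab.symm

theorem rk_gw (hD : Down D) (i j : ℕ) :
    i ≤ rk (gw k D) i j ∨ j ≤ rk (gw k D) i j ∨
    ∃ i' j', i' ≤ i ∧ j' ≤ j ∧ (∀ a b, a < i' → b < j' → (a, b) ∈ D) ∧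
      k + (i - i') + (j - j') ≤ rk (gw k D) i j := by
  by_cases hi : i ≤ rk (gw k D) i j
  · exact Or.inl hi
  by_cases hj : j ≤ rk (gw k D) i j
  · exact Or.inr (Or.inl hj)
  right; right
  push Not at hi hj
  -- a position with a large value
  obtain ⟨a0, ha0, hga0⟩ : ∃ a, a < i ∧ j ≤ gw k D a := by
    by_contra hcon
    push Not at hcon
    apply hi.not_ge
    unfold rk
    rw [filter_true_of_mem, card_range]
    intro a ha
    exact hcon a (mem_range.1 ha)
  -- the largest unused value
  set S := (range j).filter fun v => ∀ a, a < i → gw k D a ≠ v with hS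
  have hSne : S.Nonempty := by
    by_contra hcon
    rw [not_nonempty_iff_eq_empty, hS, filter_eq_empty_iff] at hcon
    apply hj.not_ge
    unfold rk
    calc j = (range j).card := (card_range j).symm
      _ ≤ (((range i).filter fun a => gw k D a < j).image (gw k D)).card := by
        apply card_le_card
        intro v hv
        have h1 := hcon hv
        push Not at h1
        obtain ⟨a, ha, hav⟩ := h1
        rw [mem_image]
        exact ⟨a, mem_filter.2 ⟨mem_range.2 ha, by rw [hav]; exact mem_range.1 hv⟩, hav⟩
      _ ≤ _ := card_image_le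
  obtain ⟨v, hvS, hvmax⟩ := exists_max_image S id hSne
  rw [hS, mem_filter, mem_range] at hvS
  obtain ⟨hvj, hvun⟩ := hvS
  have hkv : k ≤ v := by
    by_contra hcon
    push Not at hcon
    by_cases hvi : v < i
    · exact hvun v hvi (gw_lt hcon)
    · apply hi.not_ge
      unfold rk
      rw [filter_true_of_mem, card_range]
      intro a ha
      rw [mem_range] at ha
      rw [gw_lt (by omega)]
      omega
  -- the number of rows containing column `v`
  have hex : ∃ a, i ≤ a ∨ (a, v) ∉ D := ⟨i, Or.inl le_rfl⟩
  classical
  set i' := Nat.find hex with hi'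
  have hi'spec := Nat.find_spec hex
  have hi'min : ∀ a, a < i' → a < i ∧ (a, v) ∈ D := by
    intro a ha
    have := Nat.find_min hex ha
    push Not at this
    exact this
  have hi'i : i' ≤ i := Nat.find_min' hex (Or.inl le_rfl)
  have hbig : ∀ a, i' ≤ a → a < i → (a, v) ∉ D := by
    intro a ha hai hmem
    rcases hi'spec with h1 | h1
    · rw [← hi'] at h1; omega
    · apply h1
      exact hD _ hmem _ ha le_rfl
  have hka0 : k ≤ a0 := by
    by_contra hcon
    push Not at hcon
    rw [gw_lt hcon] at hga0
    omega
  have ha0i' : a0 < i' := by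
    by_contra hcon
    push Not at hcon
    have h1 := hbig a0 hcon ha0
    have h2 := gw_min (D := D) hka0 hkv h1 fun b hb => hvun b (by omega)
    omega
  refine ⟨i', v + 1, hi'i, by omega, ?_, ?_⟩
  · intro a b ha hb
    exact hD _ (hi'min a ha).2 _ le_rfl (by simp only; omega)
  · have hA2 : ∀ a, i' ≤ a → a < i → gw k D a < v := by
      intro a ha hai
      have h1 := hbig a ha hai
      have h2 := gw_min (D := D) (show k ≤ a by omega) hkv h1 fun b hb => hvun b (by omega)
      exact lt_of_le_of_ne h2 (hvun a hai)
    set A3 := (range i).filter fun a => v < gw k D a ∧ gw k D a < j with hA3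
    have hA3card : j - (v + 1) ≤ A3.card := by
      calc j - (v + 1) = (Ioo v j).card := by rw [Nat.card_Ioo]; omega
        _ ≤ (A3.image (gw k D)).card := by
          apply card_le_card
          intro u hu
          rw [mem_Ioo] at hu
          by_contra hcon
          have h1 : u ∈ S := by
            rw [hS, mem_filter, mem_range]
            refine ⟨hu.2, fun a ha hau => hcon ?_⟩
            rw [mem_image]
            refine ⟨a, ?_, hau⟩
            rw [hA3, mem_filter, mem_range, hau]
            exact ⟨ha, hu⟩
          have := hvmax u h1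
          simp only [id] at this
          omega
        _ ≤ _ := card_image_le
    have hsub : (range k ∪ Ico i' i) ∪ A3 ⊆ (range i).filter fun a => gw k D a < j := by
      intro a ha
      rw [mem_union, mem_union, mem_range, mem_Ico] at ha
      rw [mem_filter, mem_range]
      rcases ha with (ha | ha) | ha
      · rw [gw_lt ha]
        omega
      · have := hA2 a ha.1 ha.2
        omega
      · rw [hA3, mem_filter, mem_range] at ha
        exact ⟨ha.1, ha.2.2⟩
    have hle := card_le_card hsub
    rw [card_union_of_disjoint, card_union_of_disjoint, card_range, Nat.card_Ico] at hle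
    · unfold rk
      omega
    · rw [disjoint_left]
      intro a ha hb
      rw [mem_range] at ha
      rw [mem_Ico] at hb
      omega
    · rw [disjoint_left]
      intro a ha hb
      rw [mem_union, mem_range, mem_Ico] at ha
      rw [hA3, mem_filter] at hb
      rcases ha with ha | ha
      · rw [gw_lt ha] at hb
        omega
      · have := hA2 a ha.1 ha.2
        omega

/-! ### Faces are the free sets -/

theorem face_iff (hD : Down D) (F : Finset Cell) :
    Face D (gw k D) F ↔ F ⊆ D ∧ Free k D F := by
  constructor
  · rintro ⟨h1, h2⟩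
    refine ⟨h1, ?_⟩
    rintro C hC hCF ⟨u, hu, hb⟩
    have h3 := h2 (u.1 + 1) (u.2 + 1) C hC fun p hp =>
      ⟨Or.inl (hCF hp), by have := hb p hp; omega, by have := hb p hp; omega⟩
    refine h3.trans ?_
    unfold rk
    calc _ ≤ (range k).card := by
          apply card_le_card
          intro a ha
          rw [mem_filter, mem_range] at ha
          rw [mem_range]
          by_contra hcon
          push Not at hcon
          apply (gw_mem (D := D) hcon).2.1
          exact hD u hu _ (by simp only; omega) (by simp only; omega)
      _ = k := card_range k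
  · rintro ⟨h1, h2⟩
    refine ⟨h1, ?_⟩
    intro i j C hC hb
    rcases rk_gw (k := k) hD i j with h | h | ⟨i', j', hi', hj', hrect, h⟩
    · refine le_trans ?_ h
      have := hC.card_le_rows (a := 0) (b := i) fun p hp => ⟨Nat.zero_le _, (hb p hp).2.1⟩
      omega
    · refine le_trans ?_ h
      have := hC.card_le_cols (a := 0) (b := j) fun p hp => ⟨Nat.zero_le _, (hb p hp).2.2⟩
      omega
    · refine le_trans ?_ h
      -- split the chain
      have hsplit : C ⊆ (C.filter fun p => p.1 < i' ∧ p.2 < j') ∪ (C.filter fun p => i' ≤ p.1) ∪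
          (C.filter fun p => j' ≤ p.2) := by
        intro p hp
        simp only [mem_union, mem_filter]
        by_cases h3 : p.1 < i'
        · by_cases h4 : p.2 < j'
          · exact Or.inl (Or.inl ⟨hp, h3, h4⟩)
          · exact Or.inr ⟨hp, by omega⟩
        · exact Or.inl (Or.inr ⟨hp, by omega⟩)
      have c1 : (C.filter fun p => p.1 < i' ∧ p.2 < j').card ≤ k := by
        rcases Nat.eq_zero_or_pos i' with h0 | h0
        · have : (C.filter fun p => p.1 < i' ∧ p.2 < j') = ∅ := by
            rw [filter_eq_empty_iff]
            intro p _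
            omega
          rw [this]; simp
        rcases Nat.eq_zero_or_pos j' with h0' | h0'
        · have : (C.filter fun p => p.1 < i' ∧ p.2 < j') = ∅ := by
            rw [filter_eq_empty_iff]
            intro p _
            omega
          rw [this]; simp
        apply h2 _ (hC.mono (filter_subset _ _))
        · intro p hp
          rw [mem_filter] at hp
          rcases (hb p hp.1).1 with h3 | h3
          · exact h3
          · exact absurd (hrect p.1 p.2 hp.2.1 hp.2.2) h3
        · refine ⟨(i' - 1, j' - 1), hrect _ _ (by omega) (by omega), ?_⟩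
          intro p hp
          rw [mem_filter] at hp
          simp only
          omega
      have c2 : (C.filter fun p => i' ≤ p.1).card ≤ i - i' := by
        apply (hC.mono (filter_subset _ _)).card_le_rows
        intro p hp
        rw [mem_filter] at hp
        exact ⟨hp.2, (hb p hp.1).2.1⟩
      have c3 : (C.filter fun p => j' ≤ p.2).card ≤ j - j' := by
        apply (hC.mono (filter_subset _ _)).card_le_cols
        intro p hp
        rw [mem_filter] at hp
        exact ⟨hp.2, (hb p hp.1).2.2⟩
      have c4 := card_le_card hsplit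
      have c5 := card_union_le ((C.filter fun p => p.1 < i' ∧ p.2 < j') ∪
        (C.filter fun p => i' ≤ p.1)) (C.filter fun p => j' ≤ p.2)
      have c6 := card_union_le (C.filter fun p => p.1 < i' ∧ p.2 < j')
        (C.filter fun p => i' ≤ p.1)
      omega

theorem MaxFree.facet (hD : Down D) {F : Finset Cell} (h : MaxFree k D F) :
    Facet D (gw k D) F := by
  refine ⟨(face_iff hD F).2 ⟨h.1, h.2.1⟩, ?_⟩
  intro F' hF' hsub
  rw [face_iff hD] at hF'
  by_contra hne
  have : ∃ x ∈ F', x ∉ F := by
    by_contra hcon
    push Not at hcon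
    exact hne (subset_antisymm hcon hsub)
  obtain ⟨x, hx, hxF⟩ := this
  apply h.2.2 x (hF'.1 hx) hxF
  exact hF'.2.mono (insert_subset hx hsub)

/-- the canonical maximal free set -/
def canon (k : ℕ) (D : Finset Cell) : Finset Cell :=
  D.filter fun p => p.1 < k ∨ (p.1, p.2 + k) ∉ D

theorem canon_maxFree (hD : Down D) : MaxFree k D (canon k D) := by
  refine ⟨filter_subset _ _, ?_, ?_⟩
  · rintro C hC hCF ⟨u, hu, hb⟩
    by_contra hcard
    push Not at hcard
    have hne : C.Nonempty := by rw [← card_pos]; omega
    obtain ⟨p, hp, hmax⟩ := exists_max_image C Prod.fst hne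
    have h1 : C.card ≤ p.1 + 1 := by
      have := hC.card_le_rows (a := 0) (b := p.1 + 1) fun q hq =>
        ⟨Nat.zero_le _, by have := hmax q hq; omega⟩
      omega
    have h2 : C.card ≤ u.2 + 1 - p.2 := by
      apply hC.card_le_cols
      intro q hq
      refine ⟨?_, by have := hb q hq; omega⟩
      by_cases hqp : q = p
      · rw [hqp]
      · have h3 := hmax q hq
        rcases hC q hq p hp hqp with h4 | h4 <;> omega
    have h3 := hCF hp
    rw [canon, mem_filter] at h3
    rcases h3.2 with h4 | h4
    · omega
    · apply h4
      have := hb p hp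
      exact hD u hu _ (by simp only; omega) (by simp only; omega)
  · intro x hx hxn hfree
    rw [canon, mem_filter] at hxn
    have h1 : k ≤ x.1 ∧ (x.1, x.2 + k) ∈ D := by
      by_contra hcon
      apply hxn
      refine ⟨hx, ?_⟩
      by_contra hcon2
      push Not at hcon2
      exact hcon ⟨hcon2.1, hcon2.2⟩
    set C : Finset Cell := (range k).image fun i => (i, x.2 + k - i) with hCdef
    have hCmem : ∀ p ∈ C, p.1 < k ∧ p.1 + p.2 = x.2 + k := by
      intro p hp
      rw [hCdef, mem_image] at hp
      obtain ⟨i, hi, rfl⟩ := hp
      rw [mem_range] at hi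
      simp only
      omega
    have hCcard : C.card = k := by
      rw [hCdef, card_image_of_injective, card_range]
      intro a b hab
      simp only [Prod.mk.injEq] at hab
      exact hab.1
    have hCAC : AC C := by
      intro p hp q hq hpq
      have h2 := hCmem p hp
      have h3 := hCmem q hq
      have : p.1 ≠ q.1 := by
        intro he
        exact hpq (Prod.ext he (by omega))
      omega
    have hAC : AC (insert x C) := by
      have := hCAC.insert (m := x.1) (v := x.2) fun p hp => by
        have := hCmem p hp
        omega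
      exact this
    have hcard : (insert x C).card = k + 1 := by
      have := card_insert' (C := C) (m := x.1) (v := x.2) fun p hp => by
        have := hCmem p hp
        omega
      rw [hCcard] at this
      exact this
    have h2 := hfree _ hAC ?_ ⟨(x.1, x.2 + k), h1.2, ?_⟩
    · omega
    · apply insert_subset_insert
      intro p hp
      have h3 := hCmem p hp
      rw [canon, mem_filter]
      exact ⟨hD _ h1.2 p (by simp only; omega) (by simp only; omega), Or.inl h3.1⟩
    · intro p hp
      rw [mem_insert] at hp
      rcases hp with rfl | hp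
      · simp
      · have h3 := hCmem p hp
        simp only
        omega

/-- **All maximal free sets have the same number of elements.** -/
theorem MaxFree.card_eq (hD : Down D) {F : Finset Cell} (h : MaxFree k D F) :
    F.card = (canon k D).card := by
  obtain ⟨N, hN⟩ : ∃ N, ∀ c ∈ D, c.1 + c.2 + 1 < N := by
    refine ⟨(D.sup fun c => c.1 + c.2) + 2, fun c hc => ?_⟩
    have := le_sup (f := fun c : Cell => c.1 + c.2) hc
    omega
  have h1 := purity N D.card D rfl (gw k D) gw_injective hN F (h.facet hD)
  have h2 := purity N D.card D rfl (gw k D) gw_injective hN _ ((canon_maxFree hD).facet hD)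
  have h3 := card_sdiff_add_card_eq_card h.1
  have h4 := card_sdiff_add_card_eq_card (canon_maxFree (k := k) hD).1
  omega

/-! ### The size for diagrams with a thick border -/

theorem card_canon_small {n : ℕ} (hbox : ∀ p ∈ D, p.1 < n ∧ p.2 < n)
    (hborder : ∀ i j, i < n → j < n → (i < k ∨ j < k) → (i, j) ∈ D) (hn : n ≤ k) :
    (canon k D).card = n * n := by
  have : canon k D = range n ×ˢ range n := by
    ext ⟨a, b⟩
    rw [canon, mem_filter, mem_product, mem_range, mem_range]
    constructor
    · rintro ⟨h1, _⟩
      exact hbox _ h1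
    · rintro ⟨h1, h2⟩
      exact ⟨hborder a b h1 h2 (Or.inl (by omega)), Or.inl (by simp only at h1 ⊢; omega)⟩
  rw [this, card_product, card_range]

theorem card_canon_large (hD : Down D) {n : ℕ} (hbox : ∀ p ∈ D, p.1 < n ∧ p.2 < n)
    (hborder : ∀ i j, i < n → j < n → (i < k ∨ j < k) → (i, j) ∈ D) (hn : k ≤ n) :
    (canon k D).card = k * (2 * n - k) := by
  have h1 : (canon k D).card = ∑ a ∈ range n, ((canon k D).filter fun p => p.1 = a).card := by
    apply card_eq_sum_card_fiberwise
    intro p hp
    rw [mem_coe, canon, mem_filter] at hp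
    exact mem_coe.2 (mem_range.2 (hbox p hp.1).1)
  have h2 : ∀ a ∈ range n, ((canon k D).filter fun p => p.1 = a).card =
      if a < k then n else k := by
    intro a ha
    rw [mem_range] at ha
    split_ifs with hak
    · have : ((canon k D).filter fun p => p.1 = a) = (range n).image fun b => (a, b) := by
        ext ⟨x, y⟩
        simp only [canon, mem_filter, mem_image, mem_range, Prod.mk.injEq]
        constructor
        · rintro ⟨⟨h3, _⟩, rfl⟩
          exact ⟨y, (hbox _ h3).2, rfl, rfl⟩
        · rintro ⟨b, hb, rfl, rfl⟩
          exact ⟨⟨hborder _ _ ha hb (Or.inl hak), Or.inl hak⟩, rfl⟩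
      rw [this, card_image_of_injective, card_range]
      intro x y hxy
      simp only [Prod.mk.injEq] at hxy
      exact hxy.2
    · classical
      have hex : ∃ v, (a, v) ∉ D := ⟨n, fun h => by have := (hbox _ h).2; simp at this⟩
      set L := Nat.find hex with hL
      have hLspec : (a, L) ∉ D := Nat.find_spec hex
      have hLmin : ∀ v, v < L → (a, v) ∈ D := fun v hv => by
        have := Nat.find_min hex hv
        simpa using this
      have hiff : ∀ v, (a, v) ∈ D ↔ v < L := by
        intro v
        refine ⟨fun h => ?_, hLmin v⟩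
        by_contra hcon
        push Not at hcon
        exact hLspec (hD _ h _ le_rfl hcon)
      have hkL : k ≤ L := by
        by_contra hcon
        push Not at hcon
        exact hLspec (hborder a L ha (by omega) (Or.inr hcon))
      have : ((canon k D).filter fun p => p.1 = a) = (Ico (L - k) L).image fun b => (a, b) := by
        ext ⟨x, y⟩
        simp only [canon, mem_filter, mem_image, mem_Ico, Prod.mk.injEq]
        constructor
        · rintro ⟨⟨h3, h4⟩, rfl⟩
          rw [hiff] at h3
          rcases h4 with h4 | h4
          · exact absurd h4 hak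
          · rw [hiff] at h4
            exact ⟨y, by omega, rfl, rfl⟩
        · rintro ⟨b, hb, rfl, rfl⟩
          refine ⟨⟨(hiff _).2 hb.2, Or.inr ?_⟩, rfl⟩
          rw [hiff]
          omega
      rw [this, card_image_of_injective, Nat.card_Ico]
      · omega
      · intro x y hxy
        simp only [Prod.mk.injEq] at hxy
        exact hxy.2
  rw [h1, sum_congr rfl h2, sum_ite, sum_const, sum_const, smul_eq_mul, smul_eq_mul]
  have h3 : ((range n).filter fun a => a < k).card = k := by
    have : ((range n).filter fun a => a < k) = range k := by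
      ext a
      simp only [mem_filter, mem_range]
      omega
    rw [this, card_range]
  have h4 : ((range n).filter fun a => ¬ a < k).card = n - k := by
    have h5 := card_filter_add_card_filter_not (s := range n) (fun a : ℕ => a < k)
    rw [card_range, h3] at h5
    omega
  rw [h3, h4]
  obtain ⟨d, rfl⟩ := Nat.exists_eq_add_of_le hn
  rw [show 2 * (k + d) - k = k + 2 * d by omega, show k + d - k = d by omega]
  ring

end Q113.Pur
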