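import Pool.Agent.Q82.QD.Stm

/-!
Project QD: the derivatives of the approximate solution away from the point of concentration.
-/

set_option autoImplicit false

open MeasureTheory Filter Topology Real InnerProductSpace Laplacian Set
open Pool.Agent.Q82.QC (E)

namespace Pool.Agent.Q82.QD

/-- the profile with the linear part removed -/
noncomputable def cvw2_G (F : ℝ → ℝ) (a : ℝ) (y : E) : ℝ := F (‖y‖ ^ 2) + a * ‖y‖ ^ 2

theorem cvw2_scale (g : E → ℝ) (m : ℕ) (hg : ContDiff ℝ m g) (L : ℝ) (hL : 0 < L) (x : E) :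
    ‖iteratedFDeriv ℝ m (fun x => g (L • (x - x0))) x‖ ≤
      L ^ m * ‖iteratedFDeriv ℝ m g (L • (x - x0))‖ := by
  let A : E →L[ℝ] E := L • ContinuousLinearMap.id ℝ E
  have hA : ∀ z, A z = L • z := fun z => rfl
  have hAn : ‖A‖ ≤ L := by
    refine ContinuousLinearMap.opNorm_le_bound _ hL.le fun z => ?_
    rw [hA, norm_smul, Real.norm_of_nonneg hL.le]
  have h1 : (fun x => g (L • (x - x0))) = fun x => (g ∘ A) (x - x0) := rfl
  rw [h1, iteratedFDeriv_comp_sub, A.iteratedFDeriv_comp_right hg (x - x0) le_rfl]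
  refine (ContinuousMultilinearMap.norm_compContinuousLinearMap_le _ _).trans ?_
  rw [Finset.prod_const, Finset.card_univ, Fintype.card_fin, mul_comm]
  gcongr
  rfl

theorem cvw2_W (F : ℝ → ℝ) (a N : ℝ) (x : E) : W F a N x + bet a N * PP x =
    cvw2_G F a ((N ^ 5) • (x - x0)) + Real.log (N ^ 5) := by
  have h1 : ‖(N ^ 5) • (x - x0)‖ ^ 2 = (N ^ 5) ^ 2 * ‖x - x0‖ ^ 2 := by
    rw [norm_smul, mul_pow, Real.norm_eq_abs, sq_abs]
  unfold cvw2_G W
  rw [h1]
  ring

theorem cvw2_smooth (h5 : S_ETA) (F : ℝ → ℝ) (hF : Prof F) (a : ℝ) (n : ℕ) :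
    ContDiff ℝ n (cvw2_G F a) := by
  unfold cvw2_G
  exact ((h5 F hF).1 n).add (contDiff_const.mul (contDiff_norm_sq ℝ))

theorem cvw2_eq (h3 : S_PP) (h4 : S_WL2) (F : ℝ → ℝ) (hF : Prof F) (a N : ℝ) (hN : 0 < N) (m : ℕ)
    (x : E) : iteratedFDeriv ℝ m (W F a N) x + bet a N • iteratedFDeriv ℝ m PP x =
      iteratedFDeriv ℝ m (fun x => cvw2_G F a ((N ^ 5) • (x - x0)) + Real.log (N ^ 5)) x := by
  have h1 : (fun x => cvw2_G F a ((N ^ 5) • (x - x0)) + Real.log (N ^ 5)) =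
      W F a N + bet a N • PP := by
    funext x
    rw [← cvw2_W]
    rfl
  have hW : ContDiffAt ℝ m (W F a N) x := ((h4 F hF a N hN).1 m).contDiffAt
  have hP : ContDiffAt ℝ m PP x := (h3.1 m).contDiffAt
  have hP' : ContDiffAt ℝ m (bet a N • PP) x := ContDiffAt.const_smul (f := PP) (bet a N) hP
  rw [h1, iteratedFDeriv_add_apply hW hP', iteratedFDeriv_const_smul_apply hP]

theorem cvw2_smoothN (h5 : S_ETA) (F : ℝ → ℝ) (hF : Prof F) (a N : ℝ) (n : ℕ) :
    ContDiff ℝ n (fun x => cvw2_G F a ((N ^ 5) • (x - x0)) + Real.log (N ^ 5)) := by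
  refine ContDiff.add ?_ contDiff_const
  exact (cvw2_smooth h5 F hF a n).comp ((contDiff_id.sub contDiff_const).const_smul _)

/-- the derivatives of order `m ≥ 1` away from `x0` -/
theorem cvw2_bound (h5 : S_ETA) (F : ℝ → ℝ) (hF : Prof F) (a C' : ℝ) (m : ℕ) (hm : 1 ≤ m)
    (hC : ∀ y : E, 1 ≤ ‖y‖ → ‖iteratedFDeriv ℝ m (cvw2_G F a) y‖ ≤ C' / ‖y‖ ^ m)
    (N : ℝ) (hN : 0 < N) (x : E) (hx : 1 ≤ N ^ 5 * ‖x - x0‖) :
    ‖iteratedFDeriv ℝ m (fun x => cvw2_G F a ((N ^ 5) • (x - x0)) + Real.log (N ^ 5)) x‖ ≤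
      C' / ‖x - x0‖ ^ m := by
  have hL : 0 < N ^ 5 := by positivity
  have hs : ContDiff ℝ m (fun x : E => cvw2_G F a ((N ^ 5) • (x - x0))) :=
    (cvw2_smooth h5 F hF a m).comp ((contDiff_id.sub contDiff_const).const_smul _)
  have h1 : (fun x => cvw2_G F a ((N ^ 5) • (x - x0)) + Real.log (N ^ 5)) =
      (fun x => cvw2_G F a ((N ^ 5) • (x - x0))) + fun _ => Real.log (N ^ 5) := rfl
  rw [h1, iteratedFDeriv_add_apply hs.contDiffAt contDiffAt_const,
    iteratedFDeriv_const_of_ne (by omega), Pi.zero_apply, add_zero]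
  refine (cvw2_scale _ m (cvw2_smooth h5 F hF a m) _ hL x).trans ?_
  have hn : ‖(N ^ 5) • (x - x0)‖ = N ^ 5 * ‖x - x0‖ := by
    rw [norm_smul, Real.norm_of_nonneg hL.le]
  have h2 := hC ((N ^ 5) • (x - x0)) (by rw [hn]; exact hx)
  rw [hn] at h2
  have hr : 0 < ‖x - x0‖ := by
    by_contra h
    have : ‖x - x0‖ = 0 := le_antisymm (not_lt.1 h) (norm_nonneg _)
    rw [this] at hx
    linarith
  calc (N ^ 5) ^ m * ‖iteratedFDeriv ℝ m (cvw2_G F a) ((N ^ 5) • (x - x0))‖ ≤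
      (N ^ 5) ^ m * (C' / (N ^ 5 * ‖x - x0‖) ^ m) := by gcongr
    _ = C' / ‖x - x0‖ ^ m := by
      rw [mul_pow]
      field_simp

theorem cvw2 (h1 : S_ZE) (h2 : S_SMF) (h3 : S_PP) (h4 : S_WL2) (h5 : S_ETA) : S_CVW2 := by
  intro F a C hD K hK hx0 α hα0 hα1
  obtain ⟨hF, ha, hC, hD1, hD2, hD3⟩ := hD
  -- the constant for the derivatives of the profile
  obtain ⟨C', hC', hZ⟩ := h1 (fun s => F s + a * s) C (fun n => by
    refine ContDiffOn.add ((h2 F hF n).mono Set.Ioi_subset_Ici_self) ?_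
    exact (contDiff_const.mul contDiff_id).contDiffOn) hD3
  have hG : ∀ m : ℕ, 1 ≤ m → m ≤ 4 → ∀ y : E, 1 ≤ ‖y‖ →
      ‖iteratedFDeriv ℝ m (cvw2_G F a) y‖ ≤ C' / ‖y‖ ^ m := hZ
  -- the distances
  obtain ⟨d, hd0, hd1, hdK⟩ : ∃ d : ℝ, 0 < d ∧ d ≤ 1 ∧ ∀ x ∈ K, d ≤ ‖x - x0‖ := by
    have h6 : Kᶜ ∈ 𝓝 x0 := hK.isClosed.isOpen_compl.mem_nhds hx0
    obtain ⟨r, hr, hrK⟩ := Metric.mem_nhds_iff.1 h6
    refine ⟨min r 1, lt_min hr one_pos, min_le_right _ _, fun x hx => ?_⟩
    by_contra h7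
    push Not at h7
    exact hrK (Metric.mem_ball.2 (by rw [dist_eq_norm]; exact h7.trans_le (min_le_left _ _))) hx
  obtain ⟨D, hD0, hDK⟩ : ∃ D : ℝ, 1 ≤ D ∧ ∀ x ∈ K, ‖x - x0‖ ≤ D := by
    obtain ⟨R, hR⟩ := hK.isBounded.subset_closedBall x0
    refine ⟨max R 1, le_max_right _ _, fun x hx => ?_⟩
    have := Metric.mem_closedBall.1 (hR hx)
    rw [dist_eq_norm] at this
    exact this.trans (le_max_left _ _)
  set M1 : ℝ := 16 * C' / d ^ 4 with hM1
  have hM1pos : 0 < M1 := by positivity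
  have hlD : 0 ≤ Real.log D := Real.log_nonneg hD0
  refine ⟨M1 + (C * (11 + 2 * Real.log D) + 5), by positivity, ?_⟩
  filter_upwards [eventually_ge_atTop (1 : ℝ), eventually_ge_atTop (2 / d)] with N hN1 hN2
  have hN0 : 0 < N := by linarith
  have hlN : 0 ≤ Real.log N := Real.log_nonneg hN1
  have hN5 : N ≤ N ^ 5 := by
    calc N = N ^ 1 := (pow_one N).symm
      _ ≤ N ^ 5 := pow_le_pow_right₀ hN1 (by norm_num)
  have hNd : ∀ x : E, d / 2 ≤ ‖x - x0‖ → 1 ≤ N ^ 5 * ‖x - x0‖ := by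
    intro x hx
    have h6 : 2 / d * (d / 2) ≤ N ^ 5 * ‖x - x0‖ := by
      have : 2 / d ≤ N ^ 5 := hN2.trans hN5
      gcongr
    have h7 : 2 / d * (d / 2) = 1 := by field_simp
    linarith
  have hB : ∀ m : ℕ, 1 ≤ m → m ≤ 4 → ∀ x : E, d / 2 ≤ ‖x - x0‖ →
      ‖iteratedFDeriv ℝ m (fun x => cvw2_G F a ((N ^ 5) • (x - x0)) + Real.log (N ^ 5)) x‖ ≤
        C' / ‖x - x0‖ ^ m := fun m hm hm' x hx =>
    cvw2_bound h5 F hF a C' m hm (hG m hm hm') N hN0 x (hNd x hx)
  have hlog5 : Real.log (N ^ 5) = 5 * Real.log N := by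
    rw [Real.log_pow]; norm_num
  constructor
  · intro m hm x hx
    rw [cvw2_eq h3 h4 F hF a N hN0 m x]
    have hdx := hdK x hx
    rcases Nat.eq_zero_or_pos m with hm0 | hm0
    · subst hm0
      rw [norm_iteratedFDeriv_zero]
      set s : ℝ := (N ^ 5) ^ 2 * ‖x - x0‖ ^ 2 with hs
      have hns : ‖(N ^ 5) • (x - x0)‖ ^ 2 = s := by
        rw [norm_smul, mul_pow, Real.norm_eq_abs, sq_abs]
      have hs1 : 1 ≤ s := by
        have := hNd x (by linarith)
        rw [hs, ← mul_pow]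
        exact one_le_pow₀ this
      have h6 := hD2 s hs1
      have hxp : 0 < ‖x - x0‖ := by linarith
      have h7 : Real.log s ≤ 10 * Real.log N + 2 * Real.log D := by
        rw [hs, Real.log_mul (by positivity) (by positivity), Real.log_pow, Real.log_pow, Real.log_pow]
        have : Real.log ‖x - x0‖ ≤ Real.log D := Real.log_le_log hxp (hDK x hx)
        push_cast
        linarith
      unfold cvw2_G
      rw [hns, hlog5, Real.norm_eq_abs]
      have h8 : |F s + a * s + 5 * Real.log N| ≤ |F s + a * s| + |5 * Real.log N| :=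
        abs_add_le _ _
      have h9 : |5 * Real.log N| = 5 * Real.log N := abs_of_nonneg (by positivity)
      have h10 : C * (1 + Real.log s) ≤ C * (1 + (10 * Real.log N + 2 * Real.log D)) := by
        gcongr
      have h11 : 0 ≤ C * Real.log D * Real.log N := by positivity
      have h12 : 0 ≤ C * Real.log N := by positivity
      have h13 : 0 ≤ M1 * (1 + Real.log N) := by positivity
      nlinarith
    · have h6 := hB m hm0 (by omega) x (by linarith)
      have h7 : C' / ‖x - x0‖ ^ m ≤ C' / d ^ 4 := by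
        have h8 : d ^ 4 ≤ ‖x - x0‖ ^ m := by
          calc d ^ 4 ≤ d ^ m := pow_le_pow_of_le_one hd0.le hd1 (by omega)
            _ ≤ ‖x - x0‖ ^ m := by gcongr
        gcongr
      have h8 : C' / d ^ 4 ≤ M1 := by
        rw [hM1]
        gcongr
        linarith
      have h9 : 0 ≤ (C * (11 + 2 * Real.log D) + 5) * (1 + Real.log N) := by positivity
      have h10 : 0 ≤ M1 * Real.log N := by positivity
      nlinarith
  · intro x hx y hy
    rw [cvw2_eq h3 h4 F hF a N hN0 3 x, cvw2_eq h3 h4 F hF a N hN0 3 y]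
    have hdx := hdK x hx
    have hdy := hdK y hy
    have ht0 : 0 ≤ ‖x - y‖ := norm_nonneg _
    set g : E → ℝ := fun x => cvw2_G F a ((N ^ 5) • (x - x0)) + Real.log (N ^ 5) with hg
    have hfin : ‖iteratedFDeriv ℝ 3 g x - iteratedFDeriv ℝ 3 g y‖ ≤ M1 * ‖x - y‖ ^ α := by
      rcases le_or_gt (d / 2) ‖x - y‖ with ht | ht
      · have h6 := hB 3 (by norm_num) (by norm_num) x (by linarith)
        have h7 := hB 3 (by norm_num) (by norm_num) y (by linarith)
        have h8 : ‖iteratedFDeriv ℝ 3 g x - iteratedFDeriv ℝ 3 g y‖ ≤ 2 * (C' / d ^ 3) := by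
          have h9 : C' / ‖x - x0‖ ^ 3 ≤ C' / d ^ 3 := by gcongr
          have h10 : C' / ‖y - x0‖ ^ 3 ≤ C' / d ^ 3 := by gcongr
          have := norm_sub_le (iteratedFDeriv ℝ 3 g x) (iteratedFDeriv ℝ 3 g y)
          linarith
        have h9 : d / 2 ≤ ‖x - y‖ ^ α := by
          calc d / 2 ≤ (d / 2) ^ α := by
                have h10 : (d / 2) ^ (1 : ℝ) ≤ (d / 2) ^ α :=
                  Real.rpow_le_rpow_of_exponent_ge' (by positivity) (by linarith) hα0 hα1.le
                rwa [Real.rpow_one] at h10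
            _ ≤ ‖x - y‖ ^ α := Real.rpow_le_rpow (by positivity) ht hα0
        calc ‖iteratedFDeriv ℝ 3 g x - iteratedFDeriv ℝ 3 g y‖ ≤ 2 * (C' / d ^ 3) := h8
          _ = (4 * C' / d ^ 4) * (d / 2) := by field_simp; ring
          _ ≤ M1 * ‖x - y‖ ^ α := by
            rw [hM1]
            gcongr
            linarith
      · have hseg : ∀ z ∈ Metric.ball x (d / 2), d / 2 ≤ ‖z - x0‖ := by
          intro z hz
          rw [Metric.mem_ball, dist_eq_norm] at hz
          have : ‖x - x0‖ ≤ ‖z - x0‖ + ‖z - x‖ := by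
            calc ‖x - x0‖ = ‖(z - x0) - (z - x)‖ := by congr 1; abel
              _ ≤ _ := norm_sub_le _ _
          linarith
        have hdiff : ∀ z ∈ Metric.ball x (d / 2),
            DifferentiableAt ℝ (iteratedFDeriv ℝ 3 g) z := by
          intro z _
          have : ContDiff ℝ (4 : ℕ) g := cvw2_smoothN h5 F hF a N 4
          exact (this.differentiable_iteratedFDeriv (by norm_num)) z
        have hbd : ∀ z ∈ Metric.ball x (d / 2), ‖fderiv ℝ (iteratedFDeriv ℝ 3 g) z‖ ≤ M1 := by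
          intro z hz
          rw [norm_fderiv_iteratedFDeriv]
          have h6 := hB 4 (by norm_num) (by norm_num) z (hseg z hz)
          have h7 : C' / ‖z - x0‖ ^ 4 ≤ C' / (d / 2) ^ 4 := by
            have := hseg z hz
            gcongr
          have h8 : C' / (d / 2) ^ 4 = M1 := by
            rw [hM1]
            field_simp
            norm_num
          linarith
        have h6 := (convex_ball x (d / 2)).norm_image_sub_le_of_norm_fderiv_le hdiff hbd
          (Metric.mem_ball.2 (by rw [dist_comm, dist_eq_norm]; exact ht) : y ∈ _)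
          (Metric.mem_ball_self (by positivity))
        have h7 : ‖x - y‖ ≤ ‖x - y‖ ^ α := by
          have h10 : ‖x - y‖ ^ (1 : ℝ) ≤ ‖x - y‖ ^ α :=
            Real.rpow_le_rpow_of_exponent_ge' ht0 (by linarith) hα0 hα1.le
          rwa [Real.rpow_one] at h10
        calc ‖iteratedFDeriv ℝ 3 g x - iteratedFDeriv ℝ 3 g y‖ ≤ M1 * ‖x - y‖ := h6
          _ ≤ M1 * ‖x - y‖ ^ α := by gcongr
    have h6 : 0 ≤ ‖x - y‖ ^ α := by positivity
    have h7 : M1 ≤ (M1 + (C * (11 + 2 * Real.log D) + 5)) * (1 + Real.log N) := by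
      have h8 : 0 ≤ (C * (11 + 2 * Real.log D) + 5) := by positivity
      have h9 : 0 ≤ (M1 + (C * (11 + 2 * Real.log D) + 5)) * Real.log N := by positivity
      nlinarith
    exact hfin.trans (mul_le_mul_of_nonneg_right h7 h6)

end Pool.Agent.Q82.QD
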