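import Mathlib

/-!
# Connected edge sets and the weighted sum `Phi` of a rooted multigraph

Library for the Tutte polynomial of a rooted graph.
-/

set_option autoImplicit false

open Finset
open scoped Classical

namespace Pool.Agent.Q113.RT

variable {V E : Type*} (ends : E → Sym2 V)

/-- edges of `F` with both ends in `P` -/
noncomputable def ins (F : Finset E) (P : Finset V) : Finset E :=
  F.filter (fun e => ∀ x ∈ ends e, x ∈ P)

/-- `u` and `v` are joined by an edge of `F` -/
def adj (F : Finset E) (u v : V) : Prop := ∃ e ∈ F, ends e = s(u, v)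

/-- all vertices of `S` can be reached from `R` by edges of `A` inside `R ∪ S` (cut form) -/
def conn (A : Finset E) (R S : Finset V) : Prop :=
  ∀ B ⊆ S, B.Nonempty → ∃ u ∈ B, ∃ v ∈ (R ∪ S) \ B, adj ends A u v

variable {ends}

lemma adj_symm {F : Finset E} {u v : V} (h : adj ends F u v) : adj ends F v u := by
  obtain ⟨e, he, h⟩ := h
  exact ⟨e, he, by rw [h, Sym2.eq_swap]⟩

lemma adj_mono {F G : Finset E} (h : F ⊆ G) {u v : V} (hu : adj ends F u v) : adj ends G u v := by
  obtain ⟨e, he, h2⟩ := hu
  exact ⟨e, h he, h2⟩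

lemma mem_ins {F : Finset E} {P : Finset V} {e : E} :
    e ∈ ins ends F P ↔ e ∈ F ∧ ∀ x ∈ ends e, x ∈ P := by
  unfold ins
  rw [mem_filter]

lemma mem_ins_of {F : Finset E} {P : Finset V} {e : E} {u v : V} (h : ends e = s(u, v)) :
    e ∈ ins ends F P ↔ e ∈ F ∧ u ∈ P ∧ v ∈ P := by
  rw [mem_ins, h]
  constructor
  · rintro ⟨h1, h2⟩
    exact ⟨h1, h2 u (by simp), h2 v (by simp)⟩
  · rintro ⟨h1, h2, h3⟩
    refine ⟨h1, fun x hx => ?_⟩
    rw [Sym2.mem_iff] at hx
    rcases hx with rfl | rfl <;> assumption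

lemma conn_insert {A : Finset E} {R S : Finset V} {e0 : E} {u v : V} (he : ends e0 = s(u, v))
    (hu : u ∈ R) (hv : v ∈ S) (hd : Disjoint R S) :
    conn ends (insert e0 A) R S ↔ conn ends A (insert v R) (S.erase v) := by
  have huS : u ∉ S := Finset.disjoint_left.mp hd hu
  have hRS : ∀ B : Finset V, (insert v R ∪ S.erase v) \ B = (R ∪ S) \ B := by
    intro B
    congr 1
    ext x
    simp only [mem_union, mem_insert, mem_erase]
    by_cases h : x = v
    · subst h; simp [hv]
    · simp [h]
  constructor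
  · intro h B hB hne
    have hvB : v ∉ B := fun hh => (mem_erase.mp (hB hh)).1 rfl
    obtain ⟨a, ha, b, hb, e, he1, he2⟩ := h B (hB.trans (erase_subset _ _)) hne
    rw [mem_insert] at he1
    rcases he1 with rfl | he1
    · exfalso
      rw [he] at he2
      rw [Sym2.eq_iff] at he2
      have haS : a ∈ S := (mem_erase.mp (hB ha)).2
      rcases he2 with ⟨h1, h2⟩ | ⟨h1, h2⟩
      · exact huS (h1 ▸ haS)
      · exact hvB (h2 ▸ ha)
    · exact ⟨a, ha, b, by rw [hRS]; exact hb, e, he1, he2⟩
  · intro h B hB hne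
    by_cases hvB : v ∈ B
    · refine ⟨v, hvB, u, ?_, e0, mem_insert_self _ _, by rw [he, Sym2.eq_swap]⟩
      rw [mem_sdiff, mem_union]
      exact ⟨Or.inl hu, fun hh => huS (hB hh)⟩
    · have hB' : B ⊆ S.erase v := fun x hx => mem_erase.mpr ⟨fun hh => hvB (hh ▸ hx), hB hx⟩
      obtain ⟨a, ha, b, hb, e, he1, he2⟩ := h B hB' hne
      rw [hRS] at hb
      exact ⟨a, ha, b, hb, e, mem_insert_of_mem he1, he2⟩

lemma conn_card {A : Finset E} {R S : Finset V} (hd : Disjoint R S) (h : conn ends A R S) :
    S.card ≤ A.card := by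
  induction hn : S.card generalizing A R S with
  | zero => simp
  | succ n ih =>
    have hne : S.Nonempty := by rw [← card_pos]; omega
    obtain ⟨a, ha, b, hb, e, he1, he2⟩ := h S (Subset.refl _) hne
    rw [mem_sdiff, mem_union] at hb
    have hbR : b ∈ R := by tauto
    have h2 : conn ends (A.erase e) (insert a R) (S.erase a) := by
      rw [← conn_insert (A := A.erase e) (e0 := e) (by rw [he2, Sym2.eq_swap]) hbR ha hd]
      rwa [insert_erase he1]
    have h3 := ih (A := A.erase e) (R := insert a R) (S := S.erase a) ?_ h2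
      (by rw [card_erase_of_mem ha, hn]; rfl)
    · rw [card_erase_of_mem he1] at h3
      have : 0 < A.card := card_pos.mpr ⟨e, he1⟩
      omega
    · rw [disjoint_insert_left]
      exact ⟨by simp, hd.mono_right (erase_subset _ _)⟩

/-- splitting a sum over the subsets of a disjoint union -/
lemma sum_powerset_union {α M : Type*} [AddCommMonoid M] {s t : Finset α} (h : Disjoint s t)
    (f : Finset α → M) :
    ∑ A ∈ (s ∪ t).powerset, f A = ∑ A1 ∈ s.powerset, ∑ A2 ∈ t.powerset, f (A1 ∪ A2) := by
  induction t using Finset.induction_on generalizing f with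
  | empty => simp
  | insert a t ha ih =>
    rw [disjoint_insert_right] at h
    have h1 : a ∉ s ∪ t := by simp [h.1, ha]
    rw [union_insert, sum_powerset_insert h1, ih h.2, ih h.2 (fun A => f (insert a A)),
      ← sum_add_distrib]
    refine sum_congr rfl fun A1 hA1 => ?_
    rw [sum_powerset_insert ha]
    congr 1
    refine sum_congr rfl fun A2 hA2 => ?_
    rw [union_insert]

section ring

variable {𝓡 : Type*} [CommRing 𝓡]

variable (ends)

/-- the generating function of the edge sets that connect `S` to `R` -/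
noncomputable def CC (y : 𝓡) (F : Finset E) (R S : Finset V) : 𝓡 :=
  ∑ A ∈ (ins ends F (R ∪ S)).powerset,
    if conn ends A R S then (y - 1) ^ (A.card - S.card) else 0

/-- the weighted sum over the sets `S` of reached vertices -/
noncomputable def Phi (y : 𝓡) (τ ω : V → 𝓡) (F : Finset E) (R K : Finset V) : 𝓡 :=
  ∑ S ∈ K.powerset, CC ends y F R S * y ^ (ins ends F (K \ S)).card *
    ((∏ v ∈ S, τ v) * ∏ v ∈ K \ S, ω v)

variable {ends}

lemma CC_map {𝓢 : Type*} [CommRing 𝓢] (φ : 𝓡 →+* 𝓢) (y : 𝓡) (F : Finset E) (R S : Finset V) :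
    φ (CC ends y F R S) = CC ends (φ y) F R S := by
  unfold CC
  rw [map_sum]
  refine sum_congr rfl fun A _ => ?_
  split_ifs <;> simp

lemma Phi_map {𝓢 : Type*} [CommRing 𝓢] (φ : 𝓡 →+* 𝓢) (y : 𝓡) (τ ω : V → 𝓡) (F : Finset E)
    (R K : Finset V) :
    φ (Phi ends y τ ω F R K) = Phi ends (φ y) (fun v => φ (τ v)) (fun v => φ (ω v)) F R K := by
  unfold Phi
  rw [map_sum]
  refine sum_congr rfl fun S _ => ?_
  simp only [map_mul, map_pow, map_prod, CC_map]

lemma Phi_congr {y : 𝓡} {τ ω τ' ω' : V → 𝓡} {F : Finset E} {R K : Finset V}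
    (hτ : ∀ v ∈ K, τ v = τ' v) (hω : ∀ v ∈ K, ω v = ω' v) :
    Phi ends y τ ω F R K = Phi ends y τ' ω' F R K := by
  unfold Phi
  refine sum_congr rfl fun S hS => ?_
  rw [mem_powerset] at hS
  rw [prod_congr rfl fun v hv => hτ v (hS hv),
    prod_congr rfl fun v hv => hω v (mem_sdiff.mp hv).1]

lemma Phi_scale (y : 𝓡) (τ ω lam : V → 𝓡) (F : Finset E) (R K : Finset V) :
    Phi ends y (fun v => lam v * τ v) (fun v => lam v * ω v) F R K
      = (∏ v ∈ K, lam v) * Phi ends y τ ω F R K := by
  unfold Phi
  rw [mul_sum]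
  refine sum_congr rfl fun S hS => ?_
  rw [mem_powerset] at hS
  rw [prod_mul_distrib, prod_mul_distrib, ← prod_sdiff hS]
  ring

lemma CC_empty (y : 𝓡) (F : Finset E) (R : Finset V) :
    CC ends y F R ∅ = y ^ (ins ends F R).card := by
  unfold CC
  have h := Finset.sum_pow_mul_eq_add_pow (y - 1) 1 (ins ends F R)
  simp only [one_pow, mul_one, sub_add_cancel] at h
  rw [← h, union_empty]
  refine sum_congr rfl fun A _ => ?_
  have : conn ends A R ∅ := by
    intro B hB hne
    rw [subset_empty] at hB
    simp [hB] at hne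
  simp [this]

lemma CC_rec {y : 𝓡} {F : Finset E} {R S : Finset V} {e0 : E} {u v : V} (he0 : e0 ∈ F)
    (he : ends e0 = s(u, v)) (hu : u ∈ R) (hv : v ∈ S) (hd : Disjoint R S) :
    CC ends y F R S = CC ends y (F.erase e0) R S +
      CC ends y (F.erase e0) (insert v R) (S.erase v) := by
  unfold CC
  have h1 : ins ends F (R ∪ S) = insert e0 (ins ends (F.erase e0) (R ∪ S)) := by
    ext e
    rw [mem_insert, mem_ins, mem_ins, mem_erase]
    by_cases h : e = e0
    · subst h
      simp only [ne_eq, not_true_eq_false, false_and, or_false, iff_true, true_or]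
      refine ⟨he0, fun x hx => ?_⟩
      rw [he, Sym2.mem_iff] at hx
      rcases hx with rfl | rfl
      · exact mem_union_left _ hu
      · exact mem_union_right _ hv
    · simp [h]
  have h2 : e0 ∉ ins ends (F.erase e0) (R ∪ S) := by
    rw [mem_ins]; simp
  have h3 : insert v R ∪ S.erase v = R ∪ S := by
    ext x
    simp only [mem_union, mem_insert, mem_erase]
    by_cases h : x = v
    · subst h; simp [hv]
    · simp [h]
  rw [h1, sum_powerset_insert h2, h3]
  congr 1
  refine sum_congr rfl fun A hA => ?_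
  have hA0 : e0 ∉ A := fun h => h2 (mem_powerset.mp hA h)
  rw [conn_insert he hu hv hd, card_insert_of_notMem hA0, card_erase_of_mem hv]
  have : 0 < S.card := card_pos.mpr ⟨v, hv⟩
  congr 2
  omega

lemma ins_erase_of_not {F : Finset E} {P : Finset V} {e0 : E} (h : ¬ ∀ x ∈ ends e0, x ∈ P) :
    ins ends (F.erase e0) P = ins ends F P := by
  ext e
  rw [mem_ins, mem_ins, mem_erase]
  by_cases h2 : e = e0
  · subst h2
    constructor
    · rintro ⟨⟨h3, _⟩, _⟩; exact absurd rfl h3
    · rintro ⟨_, h3⟩; exact absurd h3 h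
  · simp [h2]

lemma CC_erase_of_notMem {y : 𝓡} {F : Finset E} {R S : Finset V} {e0 : E}
    (h : ¬ ∀ x ∈ ends e0, x ∈ R ∪ S) :
    CC ends y (F.erase e0) R S = CC ends y F R S := by
  unfold CC
  rw [ins_erase_of_not h]

/-- deletion and contraction of an edge that joins `R` to a vertex of `K` -/
lemma Phi_rec {y : 𝓡} {τ ω : V → 𝓡} {F : Finset E} {R K : Finset V} {e0 : E} {u v : V}
    (he0 : e0 ∈ F) (he : ends e0 = s(u, v)) (hu : u ∈ R) (hv : v ∈ K) (hd : Disjoint R K) :
    Phi ends y τ ω F R K = Phi ends y τ ω (F.erase e0) R K +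
      τ v * Phi ends y τ ω (F.erase e0) (insert v R) (K.erase v) := by
  have huK : u ∉ K := Finset.disjoint_left.mp hd hu
  have hvR : v ∉ R := Finset.disjoint_right.mp hd hv
  have hK : K = insert v (K.erase v) := (insert_erase hv).symm
  have hvK : v ∉ K.erase v := by simp
  unfold Phi
  conv_lhs => rw [hK, sum_powerset_insert hvK, ← hK]
  conv_rhs => rw [hK, sum_powerset_insert hvK, ← hK]
  rw [add_assoc]
  have hins : ∀ S : Finset V, ins ends (F.erase e0) (K \ S) = ins ends F (K \ S) := by
    intro S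
    apply ins_erase_of_not
    intro h
    have := h u (by rw [he]; simp)
    rw [mem_sdiff] at this
    exact huK this.1
  congr 1
  · refine sum_congr rfl fun S hS => ?_
    rw [mem_powerset] at hS
    have hvS : v ∉ S := fun h => hvK (hS h)
    rw [hins, CC_erase_of_notMem]
    intro h
    have := h v (by rw [he]; simp)
    rw [mem_union] at this
    tauto
  · rw [mul_sum, ← sum_add_distrib]
    refine sum_congr rfl fun S hS => ?_
    rw [mem_powerset] at hS
    have hvS : v ∉ S := fun h => hvK (hS h)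
    have hSK : S ⊆ K := hS.trans (erase_subset _ _)
    have hd2 : Disjoint R (insert v S) := by
      rw [disjoint_insert_right]
      exact ⟨hvR, hd.mono_right hSK⟩
    rw [CC_rec he0 he hu (mem_insert_self v S) hd2, hins, erase_insert hvS]
    have h3 : K \ insert v S = K.erase v \ S := by
      ext x
      simp only [mem_sdiff, mem_insert, mem_erase]
      tauto
    have h4 : ins ends (F.erase e0) (K.erase v \ S) = ins ends F (K.erase v \ S) := by
      rw [← h3]; exact hins _
    rw [h3, h4, prod_insert hvS]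
    ring

end ring

end Pool.Agent.Q113.RT
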