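import Pool.Agent.Q113.RT1

/-!
# Factorisation lemmas for `Phi`
-/

set_option autoImplicit false

open Finset
open scoped Classical

namespace Pool.Agent.Q113.RT

variable {V E : Type*} {ends : E → Sym2 V} {𝓡 : Type*} [CommRing 𝓡]

lemma conn_mono {A A' : Finset E} {R S : Finset V} (h : A ⊆ A') (hc : conn ends A R S) :
    conn ends A' R S := by
  intro B hB hne
  obtain ⟨u, hu, v, hv, ha⟩ := hc B hB hne
  exact ⟨u, hu, v, hv, adj_mono h ha⟩

lemma conn_insert_irrel {A : Finset E} {R S : Finset V} {e0 : E} (hd : Disjoint R S)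
    (h0 : (∀ x ∈ ends e0, x ∈ R) ∨ (ends e0).IsDiag) :
    conn ends (insert e0 A) R S ↔ conn ends A R S := by
  refine ⟨fun h B hB hne => ?_, fun h => conn_mono (subset_insert _ _) h⟩
  obtain ⟨a, ha, b, hb, e, he1, he2⟩ := h B hB hne
  rw [mem_insert] at he1
  rcases he1 with rfl | he1
  · exfalso
    rcases h0 with h0 | h0
    · exact Finset.disjoint_left.mp hd (h0 a (by rw [he2]; simp)) (hB ha)
    · rw [he2, Sym2.mk_isDiag_iff] at h0
      subst h0
      exact (mem_sdiff.mp hb).2 ha
  · exact ⟨a, ha, b, hb, e, he1, he2⟩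

lemma CC_irrel {y : 𝓡} {F : Finset E} {R S : Finset V} {e0 : E} (he0 : e0 ∈ F)
    (hd : Disjoint R S) (h0 : (∀ x ∈ ends e0, x ∈ R) ∨ (ends e0).IsDiag)
    (h1 : ∀ x ∈ ends e0, x ∈ R ∪ S) :
    CC ends y F R S = y * CC ends y (F.erase e0) R S := by
  unfold CC
  have h1' : ins ends F (R ∪ S) = insert e0 (ins ends (F.erase e0) (R ∪ S)) := by
    ext e
    rw [mem_insert, mem_ins, mem_ins, mem_erase]
    by_cases h : e = e0
    · subst h
      simp only [ne_eq, not_true_eq_false, false_and, or_false, iff_true]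
      exact ⟨he0, h1⟩
    · simp [h]
  have h2 : e0 ∉ ins ends (F.erase e0) (R ∪ S) := by
    rw [mem_ins]; simp
  rw [h1', sum_powerset_insert h2, mul_sum, ← sum_add_distrib]
  refine sum_congr rfl fun A hA => ?_
  have hA0 : e0 ∉ A := fun h => h2 (mem_powerset.mp hA h)
  rw [conn_insert_irrel hd h0, card_insert_of_notMem hA0]
  by_cases hc : conn ends A R S
  · rw [if_pos hc, if_pos hc]
    have := conn_card hd hc
    rw [show A.card + 1 - S.card = (A.card - S.card) + 1 by omega, pow_succ]
    ring
  · rw [if_neg hc, if_neg hc]; ring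

/-- an edge inside `R` contributes a factor `y` -/
lemma Phi_inR {y : 𝓡} {τ ω : V → 𝓡} {F : Finset E} {R K : Finset V} {e0 : E} (he0 : e0 ∈ F)
    (hd : Disjoint R K) (h0 : ∀ x ∈ ends e0, x ∈ R) :
    Phi ends y τ ω F R K = y * Phi ends y τ ω (F.erase e0) R K := by
  unfold Phi
  rw [mul_sum]
  refine sum_congr rfl fun S hS => ?_
  rw [mem_powerset] at hS
  rw [CC_irrel he0 (hd.mono_right hS) (Or.inl h0) (fun x hx => mem_union_left _ (h0 x hx)),
    ins_erase_of_not]
  · ring
  · intro h
    induction he : ends e0 using Sym2.ind with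
    | _ a b =>
      have h1 := h a (by rw [he]; simp)
      have h2 := h0 a (by rw [he]; simp)
      exact Finset.disjoint_left.mp hd h2 (mem_sdiff.mp h1).1

lemma card_ins_erase {F : Finset E} {P : Finset V} {e0 : E} (he0 : e0 ∈ F)
    (h : ∀ x ∈ ends e0, x ∈ P) :
    (ins ends F P).card = (ins ends (F.erase e0) P).card + 1 := by
  have h1 : ins ends F P = insert e0 (ins ends (F.erase e0) P) := by
    ext e
    rw [mem_insert, mem_ins, mem_ins, mem_erase]
    by_cases h' : e = e0
    · subst h'
      simp only [ne_eq, not_true_eq_false, false_and, or_false, iff_true]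
      exact ⟨he0, h⟩
    · simp [h']
  rw [h1, card_insert_of_notMem]
  rw [mem_ins]; simp

/-- a loop contributes a factor `y` or nothing -/
lemma Phi_loop {y : 𝓡} {τ ω : V → 𝓡} {F : Finset E} {R K : Finset V} {e0 : E} (he0 : e0 ∈ F)
    (hd : Disjoint R K) (h0 : (ends e0).IsDiag) :
    Phi ends y τ ω F R K = y * Phi ends y τ ω (F.erase e0) R K ∨
      Phi ends y τ ω F R K = Phi ends y τ ω (F.erase e0) R K := by
  induction he : ends e0 using Sym2.ind with
  | _ a b =>
    rw [he, Sym2.mk_isDiag_iff] at h0
    subst h0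
    have hmem : ∀ P : Finset V, (∀ x ∈ ends e0, x ∈ P) ↔ a ∈ P := by
      intro P; rw [he]; simp
    by_cases haR : a ∈ R
    · left
      exact Phi_inR he0 hd ((hmem R).mpr haR)
    by_cases haK : a ∈ K
    · left
      unfold Phi
      rw [mul_sum]
      refine sum_congr rfl fun S hS => ?_
      rw [mem_powerset] at hS
      by_cases haS : a ∈ S
      · rw [CC_irrel he0 (hd.mono_right hS) (Or.inr (by rw [he]; simp))
          ((hmem _).mpr (mem_union_right _ haS)), ins_erase_of_not]
        · ring
        · rw [hmem, mem_sdiff]; tauto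
      · rw [CC_erase_of_notMem (F := F), card_ins_erase he0 ((hmem _).mpr (mem_sdiff.mpr ⟨haK, haS⟩)),
          pow_succ]
        · ring
        · rw [hmem, mem_union]; tauto
    · right
      unfold Phi
      refine sum_congr rfl fun S hS => ?_
      rw [mem_powerset] at hS
      rw [CC_erase_of_notMem, ins_erase_of_not]
      · rw [hmem, mem_sdiff]; tauto
      · rw [hmem, mem_union]
        have : a ∉ S := fun h => haK (hS h)
        tauto

lemma CC_eq_zero {y : 𝓡} {F : Finset E} {R S B : Finset V} (hB : B ⊆ S) (hne : B.Nonempty)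
    (h : ∀ u ∈ B, ∀ v ∈ (R ∪ S) \ B, ¬ adj ends F u v) : CC ends y F R S = 0 := by
  unfold CC
  refine sum_eq_zero fun A hA => ?_
  rw [if_neg]
  intro hc
  obtain ⟨u, hu, v, hv, ha⟩ := hc B hB hne
  refine h u hu v hv (adj_mono ?_ ha)
  exact (mem_powerset.mp hA).trans (filter_subset _ _)

lemma Phi_base {y : 𝓡} {τ ω : V → 𝓡} {F : Finset E} {R K : Finset V}
    (h : ∀ u ∈ R, ∀ v ∈ K, ¬ adj ends F u v) :
    Phi ends y τ ω F R K = y ^ (ins ends F R).card * y ^ (ins ends F K).card * ∏ v ∈ K, ω v := by
  unfold Phi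
  rw [sum_eq_single ∅]
  · rw [CC_empty, sdiff_empty, prod_empty, one_mul]
  · intro S hS hne
    rw [mem_powerset] at hS
    rw [CC_eq_zero (B := S) (Subset.refl _) (nonempty_iff_ne_empty.mpr hne)]
    · ring
    · intro u hu v hv ha
      rw [mem_sdiff, mem_union] at hv
      exact h v (by tauto) u (hS hu) (adj_symm ha)
  · intro h2
    simp at h2

/-- splitting off the part `S1`, which is joined to the rest only by `T` -/
lemma CC_union {y : 𝓡} {F : Finset E} {R T S1 S2 : Finset V} (hR2 : Disjoint R S2)
    (h1 : Disjoint (R ∪ S2) S1) (hT : T ⊆ R ∪ S2) (hTi : ins ends F T = ∅)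
    (hTB : ∀ B ⊆ S2, T ⊆ B ∨ Disjoint T B)
    (hadj : ∀ u ∈ S1, ∀ v ∈ R ∪ S2, adj ends F u v → v ∈ T) :
    CC ends y F R (S2 ∪ S1) = CC ends y F R S2 * CC ends y F T S1 := by
  have hd1 : ∀ x, x ∈ S1 → x ∉ R ∧ x ∉ S2 := by
    intro x hx
    have := Finset.disjoint_right.mp h1 hx
    rw [mem_union] at this
    tauto
  have hdT : ∀ x, x ∈ T → x ∉ S1 := fun x hx hx1 => Finset.disjoint_left.mp h1 (hT hx) hx1
  have hU : ins ends F (R ∪ (S2 ∪ S1)) = ins ends F (R ∪ S2) ∪ ins ends F (T ∪ S1) := by
    ext e
    rw [mem_union]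
    induction he : ends e using Sym2.ind with
    | _ a b =>
      rw [mem_ins_of he, mem_ins_of he, mem_ins_of he]
      simp only [mem_union]
      constructor
      · rintro ⟨heF, ha, hb⟩
        by_cases ha1 : a ∈ S1
        · right
          refine ⟨heF, Or.inr ha1, ?_⟩
          by_cases hb1 : b ∈ S1
          · exact Or.inr hb1
          · left
            exact hadj a ha1 b (by rw [mem_union]; tauto) ⟨e, heF, he⟩
        · by_cases hb1 : b ∈ S1
          · right
            refine ⟨heF, ?_, Or.inr hb1⟩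
            left
            exact hadj b hb1 a (by rw [mem_union]; tauto) ⟨e, heF, by rw [he, Sym2.eq_swap]⟩
          · left
            exact ⟨heF, by tauto, by tauto⟩
      · rintro (⟨heF, ha, hb⟩ | ⟨heF, ha, hb⟩)
        · exact ⟨heF, by tauto, by tauto⟩
        · have hTa : a ∈ T → a ∈ R ∨ a ∈ S2 := fun h => mem_union.mp (hT h)
          have hTb : b ∈ T → b ∈ R ∨ b ∈ S2 := fun h => mem_union.mp (hT h)
          exact ⟨heF, by tauto, by tauto⟩
  have hdis : Disjoint (ins ends F (R ∪ S2)) (ins ends F (T ∪ S1)) := by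
    rw [Finset.disjoint_left]
    intro e h2 h3
    have : e ∈ ins ends F T := by
      rw [mem_ins] at h2 h3 ⊢
      refine ⟨h2.1, fun x hx => ?_⟩
      have h4 := h2.2 x hx
      have h5 := h3.2 x hx
      rw [mem_union] at h5
      rcases h5 with h5 | h5
      · exact h5
      · exact absurd h5 (Finset.disjoint_left.mp h1 h4)
    rw [hTi] at this
    simp at this
  have hdTS : Disjoint T S1 := by
    rw [Finset.disjoint_left]; exact hdT
  unfold CC
  rw [hU, sum_powerset_union hdis, sum_mul_sum]
  refine sum_congr rfl fun A2 hA2 => sum_congr rfl fun A1 hA1 => ?_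
  rw [mem_powerset] at hA1 hA2
  have hconn : conn ends (A2 ∪ A1) R (S2 ∪ S1) ↔ conn ends A2 R S2 ∧ conn ends A1 T S1 := by
    constructor
    · intro h
      constructor
      · intro B hB hne
        rcases hTB B hB with hTB | hTB
        · obtain ⟨a, ha, b, hb, e, he1, he2⟩ := h (B ∪ S1)
            (union_subset_union hB (Subset.refl _)) (hne.mono subset_union_left)
          rw [mem_sdiff, mem_union, mem_union, mem_union, not_or] at hb
          have heF : e ∈ F := by
            rcases mem_union.mp he1 with he1 | he1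
            · exact (mem_ins.mp (hA2 he1)).1
            · exact (mem_ins.mp (hA1 he1)).1
          have hb2 : b ∈ R ∪ S2 := by rw [mem_union]; tauto
          have ha1 : a ∉ S1 := fun ha1 => hb.2.1 (hTB (hadj a ha1 b hb2 ⟨e, heF, he2⟩))
          have haB : a ∈ B := by rw [mem_union] at ha; tauto
          refine ⟨a, haB, b, mem_sdiff.mpr ⟨hb2, hb.2.1⟩, e, ?_, he2⟩
          rcases mem_union.mp he1 with he1 | he1
          · exact he1
          · exfalso
            have := (mem_ins_of he2).mp (hA1 he1)
            rw [mem_union, mem_union] at this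
            rcases this.2.2 with h5 | h5
            · exact hb.2.1 (hTB h5)
            · exact hb.2.2 h5
        · obtain ⟨a, ha, b, hb, e, he1, he2⟩ := h B (hB.trans subset_union_left) hne
          have he3 : e ∈ A2 := by
            rcases mem_union.mp he1 with he1 | he1
            · exact he1
            · exfalso
              have := (mem_ins_of he2).mp (hA1 he1)
              rw [mem_union, mem_union] at this
              rcases this.2.1 with h5 | h5
              · exact Finset.disjoint_left.mp hTB h5 ha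
              · exact (hd1 a h5).2 (hB ha)
          refine ⟨a, ha, b, ?_, e, he3, he2⟩
          rw [mem_sdiff]
          exact ⟨((mem_ins_of he2).mp (hA2 he3)).2.2, (mem_sdiff.mp hb).2⟩
      · intro B hB hne
        obtain ⟨a, ha, b, hb, e, he1, he2⟩ := h B (hB.trans subset_union_right) hne
        have he3 : e ∈ A1 := by
          rcases mem_union.mp he1 with he1 | he1
          · exfalso
            have := (mem_ins_of he2).mp (hA2 he1)
            exact Finset.disjoint_left.mp h1 this.2.1 (hB ha)
          · exact he1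
        refine ⟨a, ha, b, ?_, e, he3, he2⟩
        rw [mem_sdiff]
        exact ⟨((mem_ins_of he2).mp (hA1 he3)).2.2, (mem_sdiff.mp hb).2⟩
    · rintro ⟨hc2, hc1⟩ B hB hne
      by_cases hB2 : (B ∩ S2).Nonempty
      · obtain ⟨a, ha, b, hb, ht⟩ := hc2 (B ∩ S2) inter_subset_right hB2
        refine ⟨a, (mem_inter.mp ha).1, b, ?_, adj_mono subset_union_left ht⟩
        rw [mem_sdiff, mem_inter] at hb
        rw [mem_sdiff]
        refine ⟨?_, fun hbB => ?_⟩
        · have := hb.1
          rw [mem_union] at this ⊢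
          rw [mem_union]; tauto
        · have h5 := hB hbB
          rw [mem_union] at h5
          rcases h5 with h5 | h5
          · exact hb.2 ⟨hbB, h5⟩
          · exact Finset.disjoint_left.mp h1 hb.1 h5
      · have hB1 : B ⊆ S1 := by
          intro x hx
          have h5 := hB hx
          rw [mem_union] at h5
          rcases h5 with h5 | h5
          · exact absurd ⟨x, mem_inter.mpr ⟨hx, h5⟩⟩ hB2
          · exact h5
        obtain ⟨a, ha, b, hb, ht⟩ := hc1 B hB1 hne
        refine ⟨a, ha, b, ?_, adj_mono subset_union_right ht⟩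
        rw [mem_sdiff, mem_union] at hb
        rw [mem_sdiff]
        refine ⟨?_, hb.2⟩
        rcases hb.1 with h5 | h5
        · have := hT h5
          rw [mem_union] at this ⊢
          rw [mem_union]; tauto
        · rw [mem_union, mem_union]; tauto
  have hdA : Disjoint A2 A1 := hdis.mono hA2 hA1
  have hdS : Disjoint S2 S1 := h1.mono_left subset_union_right
  rw [card_union_of_disjoint hdA, card_union_of_disjoint hdS]
  by_cases h2 : conn ends A2 R S2
  · by_cases h3 : conn ends A1 T S1
    · rw [if_pos (hconn.mpr ⟨h2, h3⟩), if_pos h2, if_pos h3, ← pow_add]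
      have := conn_card hR2 h2
      have := conn_card hdTS h3
      congr 1
      omega
    · rw [if_neg (fun h => h3 (hconn.mp h).2), if_neg h3, mul_zero]
  · rw [if_neg (fun h => h2 (hconn.mp h).1), if_neg h2, zero_mul]

lemma card_ins_union {F : Finset E} {P Q : Finset V} (hd : Disjoint P Q)
    (h : ∀ u ∈ Q, ∀ v ∈ P, ¬ adj ends F u v) :
    (ins ends F (P ∪ Q)).card = (ins ends F P).card + (ins ends F Q).card := by
  rw [← card_union_of_disjoint]
  · congr 1
    ext e
    rw [mem_union]
    induction he : ends e using Sym2.ind with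
    | _ a b =>
      rw [mem_ins_of he, mem_ins_of he, mem_ins_of he, mem_union, mem_union]
      constructor
      · rintro ⟨heF, ha, hb⟩
        have h1 : a ∈ Q → b ∈ P → False := fun h1 h2 => h a h1 b h2 ⟨e, heF, he⟩
        have h2 : b ∈ Q → a ∈ P → False := fun h1 h2 =>
          h b h1 a h2 ⟨e, heF, by rw [he, Sym2.eq_swap]⟩
        tauto
      · tauto
  · rw [Finset.disjoint_left]
    intro e h1 h2
    induction he : ends e using Sym2.ind with
    | _ a b =>
      rw [mem_ins_of he] at h1 h2
      exact Finset.disjoint_left.mp hd h1.2.1 h2.2.1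

/-- if `B` is joined only to `R`, then `Phi` is a product -/
lemma Phi_prod {y : 𝓡} {τ ω : V → 𝓡} {F : Finset E} {R K B : Finset V} (hd : Disjoint R K)
    (hB : B ⊆ K) (hR : ins ends F R = ∅) (h : ∀ u ∈ B, ∀ v ∈ K \ B, ¬ adj ends F u v) :
    Phi ends y τ ω F R K = Phi ends y τ ω F R (K \ B) * Phi ends y τ ω F R B := by
  have hK : K = (K \ B) ∪ B := (sdiff_union_of_subset hB).symm
  have hdKB : Disjoint (K \ B) B := sdiff_disjoint
  unfold Phi
  conv_lhs => rw [hK]
  rw [sum_powerset_union hdKB, sum_mul_sum]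
  refine sum_congr rfl fun S2 hS2 => sum_congr rfl fun S1 hS1 => ?_
  rw [mem_powerset] at hS1 hS2
  have hS2K : S2 ⊆ K := hS2.trans sdiff_subset
  have hS1K : S1 ⊆ K := hS1.trans hB
  have h1 : (K \ B ∪ B) \ (S2 ∪ S1) = ((K \ B) \ S2) ∪ (B \ S1) := by
    ext x
    have h2 : x ∈ S2 → x ∉ B := fun h => (mem_sdiff.mp (hS2 h)).2
    have h3 : x ∈ S1 → x ∈ B := fun h => hS1 h
    simp only [mem_sdiff, mem_union]
    tauto
  have hd2 : Disjoint S2 S1 := hdKB.mono hS2 hS1
  have hd3 : Disjoint ((K \ B) \ S2) (B \ S1) := hdKB.mono sdiff_subset sdiff_subset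
  rw [h1, CC_union (T := R), card_ins_union hd3, prod_union hd2, prod_union hd3, pow_add]
  · ring
  · intro u hu v hv
    exact h u (mem_sdiff.mp hu).1 v (mem_sdiff.mp hv).1
  · exact hd.mono_right hS2K
  · rw [disjoint_union_left]
    exact ⟨hd.mono_right hS1K, hd2⟩
  · exact subset_union_left
  · exact hR
  · intro B' hB'
    right
    exact hd.mono_right (hB'.trans hS2K)
  · intro u hu v hv ha
    rw [mem_union] at hv
    rcases hv with hv | hv
    · exact hv
    · exact absurd ha (h u (hS1 hu) v (hS2 hv))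

lemma card_ins_union_cut {F : Finset E} {P Q : Finset V} {c : V} (hd : Disjoint P Q) (hc : c ∈ P)
    (hci : ins ends F {c} = ∅) (h : ∀ u ∈ Q, ∀ v ∈ P, adj ends F u v → v = c) :
    (ins ends F (P ∪ Q)).card = (ins ends F P).card + (ins ends F (insert c Q)).card := by
  rw [← card_union_of_disjoint]
  · congr 1
    ext e
    rw [mem_union]
    induction he : ends e using Sym2.ind with
    | _ a b =>
      rw [mem_ins_of he, mem_ins_of he, mem_ins_of he, mem_union, mem_union, mem_insert, mem_insert]
      constructor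
      · rintro ⟨heF, ha, hb⟩
        have h1 : a ∈ Q → b ∈ P → b = c := fun h1 h2 => h a h1 b h2 ⟨e, heF, he⟩
        have h2 : b ∈ Q → a ∈ P → a = c := fun h1 h2 =>
          h b h1 a h2 ⟨e, heF, by rw [he, Sym2.eq_swap]⟩
        tauto
      · rintro (⟨heF, ha, hb⟩ | ⟨heF, ha, hb⟩)
        · exact ⟨heF, Or.inl ha, Or.inl hb⟩
        · refine ⟨heF, ?_, ?_⟩
          · rcases ha with rfl | ha
            · exact Or.inl hc
            · exact Or.inr ha
          · rcases hb with rfl | hb
            · exact Or.inl hc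
            · exact Or.inr hb
  · rw [Finset.disjoint_left]
    intro e h1 h2
    have h3 : e ∈ ins ends F {c} := by
      rw [mem_ins] at h1 h2 ⊢
      refine ⟨h1.1, fun x hx => ?_⟩
      have h4 := h1.2 x hx
      have h5 := h2.2 x hx
      rw [mem_insert] at h5
      rw [mem_singleton]
      rcases h5 with h5 | h5
      · exact h5
      · exact absurd h5 (Finset.disjoint_left.mp hd h4)
    rw [hci] at h3
    simp at h3

/-- if `B` is joined to the rest only by `c`, it can be replaced by weights of `c` -/
lemma Phi_cut {y : 𝓡} {τ ω : V → 𝓡} {F : Finset E} {R K B : Finset V} {c : V}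
    (hd : Disjoint R K) (hB : B ⊆ K) (hcK : c ∈ K) (hcB : c ∉ B) (hci : ins ends F {c} = ∅)
    (h : ∀ u ∈ B, ∀ v ∈ R ∪ K, v ∉ B → adj ends F u v → v = c) :
    Phi ends y τ ω F R K =
      Phi ends y (fun v => τ v * (if v = c then Phi ends y τ ω F {c} B else 1))
        (fun v => ω v * (if v = c then y ^ (ins ends F (insert c B)).card * ∏ v ∈ B, ω v else 1))
        F R (K \ B) := by
  have hK : K = (K \ B) ∪ B := (sdiff_union_of_subset hB).symm
  have hdKB : Disjoint (K \ B) B := sdiff_disjoint
  have hcR : c ∉ R := Finset.disjoint_right.mp hd hcK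
  conv_lhs => unfold Phi
  conv_lhs => rw [hK]
  rw [sum_powerset_union hdKB]
  conv_rhs => unfold Phi
  refine sum_congr rfl fun S2 hS2 => ?_
  rw [mem_powerset] at hS2
  have hS2K : S2 ⊆ K := hS2.trans sdiff_subset
  have hS2B : ∀ x ∈ S2, x ∉ B := fun x hx => (mem_sdiff.mp (hS2 hx)).2
  rw [prod_mul_distrib, prod_mul_distrib, prod_ite_eq', prod_ite_eq']
  have h1 : ∀ S1 : Finset V, S1 ⊆ B →
      (K \ B ∪ B) \ (S2 ∪ S1) = ((K \ B) \ S2) ∪ (B \ S1) := by
    intro S1 hS1
    ext x
    have h2 : x ∈ S2 → x ∉ B := hS2B x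
    have h3 : x ∈ S1 → x ∈ B := fun h => hS1 h
    simp only [mem_sdiff, mem_union]
    tauto
  by_cases hc2 : c ∈ S2
  · have hc3 : c ∉ (K \ B) \ S2 := by simp [hc2]
    rw [if_pos hc2, if_neg hc3, mul_one]
    rw [show ∀ a b c d e : 𝓡, a * b * (c * d * e) = (a * b * (c * e)) * d by intros; ring]
    rw [mul_sum]
    refine sum_congr rfl fun S1 hS1 => ?_
    rw [mem_powerset] at hS1
    have hS1K : S1 ⊆ K := hS1.trans hB
    have hd2 : Disjoint S2 S1 := hdKB.mono hS2 hS1
    have hd3 : Disjoint ((K \ B) \ S2) (B \ S1) := hdKB.mono sdiff_subset sdiff_subset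
    rw [h1 S1 hS1, CC_union (T := {c}), card_ins_union hd3, prod_union hd2, prod_union hd3, pow_add]
    · ring
    · intro u hu v hv ha
      rw [mem_sdiff, mem_sdiff] at hv
      have := h u (mem_sdiff.mp hu).1 v (mem_union_right _ hv.1.1) hv.1.2 ha
      subst this
      exact hv.2 hc2
    · exact hd.mono_right hS2K
    · rw [disjoint_union_left]
      exact ⟨hd.mono_right hS1K, hd2⟩
    · rw [singleton_subset_iff]; exact mem_union_right _ hc2
    · exact hci
    · intro B' hB'
      by_cases hcB' : c ∈ B'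
      · left; rw [singleton_subset_iff]; exact hcB'
      · right; rw [disjoint_singleton_left]; exact hcB'
    · intro u hu v hv ha
      rw [mem_singleton]
      rw [mem_union] at hv
      rcases hv with hv | hv
      · exact h u (hS1 hu) v (mem_union_left _ hv)
          (fun hvB => Finset.disjoint_left.mp hd hv (hB hvB)) ha
      · exact h u (hS1 hu) v (mem_union_right _ (hS2K hv)) (hS2B v hv) ha
  · have hc3 : c ∈ (K \ B) \ S2 := by
      rw [mem_sdiff, mem_sdiff]; exact ⟨⟨hcK, hcB⟩, hc2⟩
    rw [if_neg hc2, if_pos hc3, mul_one, sum_eq_single ∅]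
    · have h10 := h1 ∅ (empty_subset _)
      rw [union_empty] at h10
      rw [union_empty, h10]
      have hd3 : Disjoint ((K \ B) \ S2) (B \ ∅) := hdKB.mono sdiff_subset sdiff_subset
      rw [card_ins_union_cut hd3 hc3 hci, prod_union hd3, sdiff_empty, pow_add]
      · ring
      · intro u hu v hv ha
        rw [mem_sdiff, mem_sdiff] at hv
        exact h u (mem_sdiff.mp hu).1 v (mem_union_right _ hv.1.1) hv.1.2 ha
    · intro S1 hS1 hne
      rw [mem_powerset] at hS1
      rw [CC_eq_zero (B := S1) subset_union_right (nonempty_iff_ne_empty.mpr hne)]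
      · ring
      · intro u hu v hv ha
        rw [mem_sdiff, mem_union, mem_union] at hv
        have hvB : v ∉ B := by
          intro hvB
          rcases hv.1 with h5 | h5 | h5
          · exact Finset.disjoint_left.mp hd h5 (hB hvB)
          · exact hS2B v h5 hvB
          · exact hv.2 h5
        have hv2 : v ∈ R ∪ K := by
          rw [mem_union]
          rcases hv.1 with h5 | h5 | h5
          · exact Or.inl h5
          · exact Or.inr (hS2K h5)
          · exact absurd h5 hv.2
        have := h u (hS1 hu) v hv2 hvB ha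
        subst this
        rcases hv.1 with h5 | h5 | h5
        · exact hcR h5
        · exact hc2 h5
        · exact hv.2 h5
    · intro h2
      simp at h2

end Pool.Agent.Q113.RT
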