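import Pool.Agent.Q113.RT2

/-!
# Elimination of a vertex that is never reached; isolated vertices; nonnegativity
-/

set_option autoImplicit false

open Finset
open scoped Classical

namespace Pool.Agent.Q113.RT

variable {V E : Type*} {ends : E → Sym2 V} {𝓡 : Type*} [CommRing 𝓡]

variable (ends) in
/-- number of edges of `F` that join `u` and `v` -/
noncomputable def mult (F : Finset E) (u v : V) : ℕ := (F.filter (fun e => ends e = s(u, v))).card

lemma mult_eq_zero {F : Finset E} {u v : V} : mult ends F u v = 0 ↔ ¬ adj ends F u v := by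
  unfold mult adj
  rw [card_eq_zero, filter_eq_empty_iff]
  push Not
  rfl

lemma card_ins_insert {F : Finset E} {P : Finset V} {z : V} (hz : z ∉ P)
    (hzi : ins ends F {z} = ∅) :
    (ins ends F (insert z P)).card = (ins ends F P).card + ∑ v ∈ P, mult ends F v z := by
  have h : ins ends F (insert z P) =
      ins ends F P ∪ P.biUnion (fun v => F.filter (fun e => ends e = s(v, z))) := by
    ext e
    rw [mem_union, mem_biUnion]
    induction he : ends e using Sym2.ind with
    | _ a b =>
      rw [mem_ins_of he, mem_ins_of he, mem_insert, mem_insert]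
      simp only [mem_filter, he]
      constructor
      · rintro ⟨heF, ha, hb⟩
        rcases ha with rfl | ha
        · rcases hb with rfl | hb
          · exfalso
            have : e ∈ ins ends F {b} := by
              rw [mem_ins_of he]; exact ⟨heF, mem_singleton_self _, mem_singleton_self _⟩
            rw [hzi] at this; simp at this
          · right
            exact ⟨b, hb, heF, Sym2.eq_swap⟩
        · rcases hb with rfl | hb
          · right
            exact ⟨a, ha, heF, rfl⟩
          · left; exact ⟨heF, ha, hb⟩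
      · rintro (⟨heF, ha, hb⟩ | ⟨v, hv, heF, h5⟩)
        · exact ⟨heF, Or.inr ha, Or.inr hb⟩
        · rw [Sym2.eq_iff] at h5
          rcases h5 with ⟨rfl, rfl⟩ | ⟨rfl, rfl⟩
          · exact ⟨heF, Or.inr hv, Or.inl rfl⟩
          · exact ⟨heF, Or.inl rfl, Or.inr hv⟩
  rw [h, card_union_of_disjoint, card_biUnion]
  · rfl
  · intro u hu v hv huv
    show Disjoint _ _
    rw [Finset.disjoint_left]
    intro e h1 h2
    rw [mem_filter] at h1 h2
    rw [h1.2, Sym2.eq_iff] at h2
    rcases h2.2 with h3 | h3
    · exact huv h3.1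
    · exact hz (h3.1 ▸ hu)
  · rw [Finset.disjoint_left]
    intro e h1 h2
    rw [mem_biUnion] at h2
    obtain ⟨v, hv, h3⟩ := h2
    rw [mem_filter] at h3
    rw [mem_ins_of h3.2] at h1
    exact hz h1.2.2

/-- elimination of a vertex of weight `τ z = 0` -/
lemma Phi_elim {y : 𝓡} {τ ω : V → 𝓡} {F : Finset E} {R K : Finset V} {z : V} (hz : z ∈ K)
    (hτ : τ z = 0) (hzi : ins ends F {z} = ∅) :
    Phi ends y τ ω F R K =
      ω z * Phi ends y τ (fun v => ω v * y ^ mult ends F v z) F R (K.erase z) := by
  have hK : K = insert z (K.erase z) := (insert_erase hz).symm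
  have hzK : z ∉ K.erase z := by simp
  unfold Phi
  conv_lhs => rw [hK, sum_powerset_insert hzK, ← hK]
  rw [mul_sum]
  rw [sum_eq_zero (s := (K.erase z).powerset)
    (f := fun t => CC ends y F R (insert z t) * y ^ (ins ends F (K \ insert z t)).card *
      ((∏ v ∈ insert z t, τ v) * ∏ v ∈ K \ insert z t, ω v)), add_zero]
  · refine sum_congr rfl fun S hS => ?_
    rw [mem_powerset] at hS
    have hzS : z ∉ S := fun h => hzK (hS h)
    have h1 : K \ S = insert z (K.erase z \ S) := by
      ext x
      simp only [mem_sdiff, mem_insert, mem_erase]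
      by_cases hx : x = z
      · subst hx; simp [hz, hzS]
      · simp [hx]
    have h2 : z ∉ K.erase z \ S := by simp
    rw [h1, card_ins_insert h2 hzi, prod_insert h2, prod_mul_distrib, prod_pow_eq_pow_sum, pow_add]
    ring
  · intro t ht
    rw [mem_powerset] at ht
    have hzt : z ∉ t := fun h => hzK (ht h)
    rw [prod_insert hzt, hτ]
    ring

/-- an isolated vertex can be removed from `R` -/
lemma Phi_isolated_R {y : 𝓡} {τ ω : V → 𝓡} {F : Finset E} {R K : Finset V} {v : V}
    (hv : v ∉ K) (h : ∀ x ∈ insert v (R ∪ K), ¬ adj ends F v x) :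
    Phi ends y τ ω F (insert v R) K = Phi ends y τ ω F R K := by
  unfold Phi
  refine sum_congr rfl fun S hS => ?_
  rw [mem_powerset] at hS
  congr 2
  have hvS : v ∉ S := fun h => hv (hS h)
  have h1 : ins ends F (insert v R ∪ S) = ins ends F (R ∪ S) := by
    ext e
    induction he : ends e using Sym2.ind with
    | _ a b =>
      rw [mem_ins_of he, mem_ins_of he, insert_union, mem_insert, mem_insert]
      have hsub : ∀ x, x ∈ R ∪ S → x ∈ insert v (R ∪ K) := by
        intro x hx
        rw [mem_union] at hx
        rw [mem_insert, mem_union]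
        rcases hx with hx | hx
        · exact Or.inr (Or.inl hx)
        · exact Or.inr (Or.inr (hS hx))
      constructor
      · rintro ⟨heF, ha, hb⟩
        refine ⟨heF, ?_, ?_⟩
        · rcases ha with rfl | ha
          · exfalso
            refine h b ?_ ⟨e, heF, he⟩
            rcases hb with rfl | hb
            · exact mem_insert_self _ _
            · exact hsub b hb
          · exact ha
        · rcases hb with rfl | hb
          · exfalso
            refine h a ?_ ⟨e, heF, by rw [he, Sym2.eq_swap]⟩
            rcases ha with rfl | ha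
            · exact mem_insert_self _ _
            · exact hsub a ha
          · exact hb
      · rintro ⟨heF, ha, hb⟩
        exact ⟨heF, Or.inr ha, Or.inr hb⟩
  unfold CC
  rw [h1]
  refine sum_congr rfl fun A hA => ?_
  have h2 : conn ends A (insert v R) S ↔ conn ends A R S := by
    constructor
    · intro hc B hB hne
      obtain ⟨a, ha, b, hb, ht⟩ := hc B hB hne
      refine ⟨a, ha, b, ?_, ht⟩
      rw [mem_sdiff, insert_union, mem_insert] at hb
      rw [mem_sdiff]
      refine ⟨?_, hb.2⟩
      rcases hb.1 with rfl | hb1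
      · exfalso
        have haK : a ∈ insert b (R ∪ K) := by
          rw [mem_insert, mem_union]; exact Or.inr (Or.inr (hS (hB ha)))
        exact h a haK (adj_symm (adj_mono ((mem_powerset.mp hA).trans (filter_subset _ _)) ht))
      · exact hb1
    · intro hc B hB hne
      obtain ⟨a, ha, b, hb, ht⟩ := hc B hB hne
      refine ⟨a, ha, b, ?_, ht⟩
      rw [mem_sdiff] at hb ⊢
      rw [insert_union, mem_insert]
      exact ⟨Or.inr hb.1, hb.2⟩
  simp only [h2]

/-- an isolated vertex of `K` contributes its weight `ω` -/
lemma Phi_isolated_K {y : 𝓡} {τ ω : V → 𝓡} {F : Finset E} {R K : Finset V} {v : V}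
    (hd : Disjoint R K) (hv : v ∈ K) (hR : ins ends F R = ∅)
    (h : ∀ x ∈ R ∪ K, ¬ adj ends F v x) :
    Phi ends y τ ω F R K = ω v * Phi ends y τ ω F R (K.erase v) := by
  have h1 := Phi_prod (y := y) (τ := τ) (ω := ω) (B := {v}) hd (singleton_subset_iff.mpr hv) hR
    (by
      intro u hu w hw
      rw [mem_singleton] at hu
      subst hu
      exact h w (mem_union_right _ (mem_sdiff.mp hw).1))
  rw [h1, sdiff_singleton_eq_erase, mul_comm]
  congr 1
  rw [Phi_base]
  · have : ins ends F {v} = ∅ := by
      rw [eq_empty_iff_forall_notMem]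
      intro e he
      induction he2 : ends e using Sym2.ind with
      | _ a b =>
        rw [mem_ins_of he2, mem_singleton, mem_singleton] at he
        obtain ⟨h3, rfl, rfl⟩ := he
        exact h b (mem_union_right _ hv) ⟨e, h3, he2⟩
    rw [hR, this]
    simp
  · intro u hu w hw ha
    rw [mem_singleton] at hw
    subst hw
    exact h u (mem_union_left _ hu) (adj_symm ha)

/-- a leaf of weights `τ = 1`, `ω = -1` that is joined to `R` makes `Phi` vanish -/
lemma Phi_leaf {y : 𝓡} {τ ω : V → 𝓡} {F : Finset E} {R K : Finset V} {e0 : E} {u v : V}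
    (he0 : e0 ∈ F) (he : ends e0 = s(u, v)) (hu : u ∈ R) (hv : v ∈ K) (hd : Disjoint R K)
    (hR : ins ends F R = ∅) (hω : ω v = - τ v)
    (h : ∀ x ∈ R ∪ K, ¬ adj ends (F.erase e0) v x) :
    Phi ends y τ ω F R K = 0 := by
  have hR' : ins ends (F.erase e0) R = ∅ := by
    rw [← subset_empty, ← hR]
    exact filter_subset_filter _ (erase_subset _ _)
  have hvK : v ∉ K.erase v := by simp
  rw [Phi_rec he0 he hu hv hd, Phi_isolated_K hd hv hR' h, Phi_isolated_R hvK, hω]
  · ring
  · intro x hx
    apply h
    rw [mem_insert, mem_union, mem_erase] at hx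
    rw [mem_union]
    rcases hx with rfl | hx | hx
    · exact Or.inr hv
    · exact Or.inl hx
    · exact Or.inr hx.2

variable (ends) in
/-- no vertex of `K` of weight `-1` is isolated in `R ∪ K` -/
def NonIso (w : V → ℤ) (F : Finset E) (R K : Finset V) : Prop :=
  ∀ v ∈ K, w v = -1 → ∃ x ∈ R ∪ K, adj ends F v x

lemma adj_erase {F : Finset E} {e0 : E} {u v a b : V} (he : ends e0 = s(u, v))
    (h : adj ends F a b) (h2 : ¬ (a = u ∧ b = v)) (h3 : ¬ (a = v ∧ b = u)) :
    adj ends (F.erase e0) a b := by
  obtain ⟨e, h4, h5⟩ := h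
  refine ⟨e, mem_erase.mpr ⟨?_, h4⟩, h5⟩
  rintro rfl
  rw [he, Sym2.eq_iff] at h5
  rcases h5 with ⟨rfl, rfl⟩ | ⟨rfl, rfl⟩
  · exact h2 ⟨rfl, rfl⟩
  · exact h3 ⟨rfl, rfl⟩

lemma nonIso_contract {w : V → ℤ} {F : Finset E} {R K : Finset V} {e0 : E} {u v : V}
    (he : ends e0 = s(u, v)) (hu : u ∈ R) (hd : Disjoint R K) (h : NonIso ends w F R K) :
    NonIso ends w (F.erase e0) (insert v R) (K.erase v) := by
  intro x hx hwx
  rw [mem_erase] at hx
  obtain ⟨z, hz, ha⟩ := h x hx.2 hwx
  refine ⟨z, ?_, adj_erase he ha ?_ ?_⟩
  · rw [mem_union] at hz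
    rw [mem_union, mem_insert, mem_erase]
    by_cases hzv : z = v
    · exact Or.inl (Or.inl hzv)
    · rcases hz with hz | hz
      · exact Or.inl (Or.inr hz)
      · exact Or.inr ⟨hzv, hz⟩
  · rintro ⟨rfl, _⟩
    exact Finset.disjoint_left.mp hd hu hx.2
  · rintro ⟨rfl, _⟩
    exact hx.1 rfl

/-- the dichotomy of the deletion -/
lemma nonIso_delete {w : V → ℤ} {F : Finset E} {R K : Finset V} {e0 : E} {u v : V}
    (he : ends e0 = s(u, v)) (hu : u ∈ R) (hd : Disjoint R K) (h : NonIso ends w F R K) :
    NonIso ends w (F.erase e0) R K ∨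
      (w v = -1 ∧ ∀ x ∈ R ∪ K, ¬ adj ends (F.erase e0) v x) := by
  by_cases hv : w v = -1 ∧ ∀ x ∈ R ∪ K, ¬ adj ends (F.erase e0) v x
  · exact Or.inr hv
  · left
    intro x hx hwx
    by_cases hxv : x = v
    · subst hxv
      by_contra hcon
      push Not at hcon
      exact hv ⟨hwx, hcon⟩
    · obtain ⟨z, hz, ha⟩ := h x hx hwx
      refine ⟨z, hz, adj_erase he ha ?_ ?_⟩
      · rintro ⟨rfl, _⟩
        exact Finset.disjoint_left.mp hd hu hx
      · rintro ⟨rfl, _⟩
        exact hxv rfl

/-- nonnegativity at `y = 0` -/
theorem Phi_zero_nonneg (w : V → ℤ) (hw : ∀ v, w v = 0 ∨ w v = -1) (F : Finset E) :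
    ∀ (R K : Finset V), Disjoint R K → NonIso ends w F R K →
      0 ≤ Phi ends (0 : ℤ) (fun _ => 1) w F R K := by
  induction hn : F.card generalizing F with
  | zero =>
    intro R K hd hN
    rw [card_eq_zero] at hn
    subst hn
    rw [Phi_base]
    · have h1 : ∀ P : Finset V, ins ends (∅ : Finset E) P = ∅ := fun P => by simp [ins]
      rw [h1, h1, card_empty, pow_zero, one_mul, one_mul]
      by_cases hK : K = ∅
      · subst hK; simp
      · obtain ⟨v, hv⟩ := nonempty_iff_ne_empty.mpr hK
        rcases hw v with h2 | h2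
        · rw [prod_eq_zero hv h2]
        · obtain ⟨x, _, e, he, _⟩ := hN v hv h2
          simp at he
    · rintro u hu v hv ⟨e, he, _⟩
      simp at he
  | succ n ih =>
    intro R K hd hN
    by_cases hR : ins ends F R = ∅
    · by_cases hRK : ∃ u ∈ R, ∃ v ∈ K, adj ends F u v
      · obtain ⟨u, hu, v, hv, e0, he0, he⟩ := hRK
        have hcard : (F.erase e0).card = n := by rw [card_erase_of_mem he0, hn]; rfl
        have hd2 : Disjoint (insert v R) (K.erase v) := by
          rw [disjoint_insert_left]
          exact ⟨by simp, hd.mono_right (erase_subset _ _)⟩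
        rcases nonIso_delete he hu hd hN with h1 | h1
        · rw [Phi_rec he0 he hu hv hd]
          have h2 := ih (F.erase e0) hcard R K hd h1
          have h3 := ih (F.erase e0) hcard (insert v R) (K.erase v) hd2
            (nonIso_contract he hu hd hN)
          linarith
        · rw [Phi_leaf he0 he hu hv hd hR (by rw [h1.1]) h1.2]
      · push Not at hRK
        rw [Phi_base hRK, hR, card_empty, pow_zero, one_mul]
        by_cases hK : K = ∅
        · subst hK
          have : ins ends F ∅ = ∅ := by
            rw [eq_empty_iff_forall_notMem]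
            intro e he
            induction he2 : ends e using Sym2.ind with
            | _ a b =>
              rw [mem_ins_of he2] at he
              simp at he
          rw [this]; simp
        · by_cases hKi : ins ends F K = ∅
          · obtain ⟨v, hv⟩ := nonempty_iff_ne_empty.mpr hK
            rcases hw v with h2 | h2
            · rw [prod_eq_zero hv h2]; simp
            · obtain ⟨x, hx, ha⟩ := hN v hv h2
              exfalso
              rw [mem_union] at hx
              rcases hx with hx | hx
              · exact hRK x hx v hv (adj_symm ha)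
              · obtain ⟨e, he, he2⟩ := ha
                have : e ∈ ins ends F K := by
                  rw [mem_ins_of he2]; exact ⟨he, hv, hx⟩
                rw [hKi] at this; simp at this
          · have h3 : (ins ends F K).card ≠ 0 := by rw [Ne, card_eq_zero]; exact hKi
            rw [zero_pow h3]; simp
    · obtain ⟨e0, he0⟩ := nonempty_iff_ne_empty.mpr hR
      rw [mem_ins] at he0
      rw [Phi_inR he0.1 hd he0.2]
      simp

end Pool.Agent.Q113.RT
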