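import Pool.Agent.Q113.RT3

/-!
# Positivity
-/

set_option autoImplicit false

open Finset Polynomial
open scoped Classical

namespace Pool.Agent.Q113.RT

variable {V E : Type*} {ends : E → Sym2 V}

variable (ends) in
/-- `Phi` with the weights `1` and `-1` over `ℤ[X]` at `y = X` -/
noncomputable def PX (F : Finset E) (R K : Finset V) : ℤ[X] :=
  Phi ends (X : ℤ[X]) (fun _ => 1) (fun _ => -1) F R K

lemma PX_coeff_zero (F : Finset E) (R K : Finset V) :
    (PX ends F R K).coeff 0 = Phi ends (0 : ℤ) (fun _ => 1) (fun _ => -1) F R K := by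
  unfold PX
  have h := Phi_map (ends := ends) (Polynomial.evalRingHom (0 : ℤ)) (X : ℤ[X]) (fun _ => 1)
    (fun _ => -1) F R K
  simp only [coe_evalRingHom, eval_X, eval_one, eval_neg] at h
  rw [coeff_zero_eq_eval_zero]
  exact h

lemma PX_coeff_zero_nonneg {F : Finset E} {R K : Finset V} (hd : Disjoint R K)
    (hN : NonIso ends (fun _ => -1) F R K) : 0 ≤ (PX ends F R K).coeff 0 := by
  rw [PX_coeff_zero]
  exact Phi_zero_nonneg (fun _ => -1) (fun _ => Or.inr rfl) F R K hd hN

lemma PX_rec {F : Finset E} {R K : Finset V} {e0 : E} {u v : V} (he0 : e0 ∈ F)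
    (he : ends e0 = s(u, v)) (hu : u ∈ R) (hv : v ∈ K) (hd : Disjoint R K) :
    PX ends F R K = PX ends (F.erase e0) R K + PX ends (F.erase e0) (insert v R) (K.erase v) := by
  unfold PX
  rw [Phi_rec he0 he hu hv hd, one_mul]

theorem PX_coeff_one_nonneg (F : Finset E) (hF : ∀ e ∈ F, ¬ (ends e).IsDiag) :
    ∀ (R K : Finset V), Disjoint R K → NonIso ends (fun _ => -1) F R K →
      0 ≤ (PX ends F R K).coeff 1 := by
  induction hn : F.card generalizing F with
  | zero =>
    intro R K hd hN
    rw [card_eq_zero] at hn
    subst hn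
    unfold PX
    rw [Phi_base]
    · have h1 : ∀ P : Finset V, ins ends (∅ : Finset E) P = ∅ := fun P => by simp [ins]
      rw [h1, h1, card_empty, pow_zero, one_mul, one_mul]
      by_cases hK : K = ∅
      · subst hK; simp [coeff_one]
      · obtain ⟨v, hv⟩ := nonempty_iff_ne_empty.mpr hK
        obtain ⟨x, _, e, he, _⟩ := hN v hv rfl
        simp at he
    · rintro u hu v hv ⟨e, he, _⟩
      simp at he
  | succ n ih =>
    intro R K hd hN
    by_cases hR : ins ends F R = ∅
    · by_cases hRK : ∃ u ∈ R, ∃ v ∈ K, adj ends F u v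
      · obtain ⟨u, hu, v, hv, e0, he0, he⟩ := hRK
        have hcard : (F.erase e0).card = n := by rw [card_erase_of_mem he0, hn]; rfl
        have hd2 : Disjoint (insert v R) (K.erase v) := by
          rw [disjoint_insert_left]
          exact ⟨by simp, hd.mono_right (erase_subset _ _)⟩
        have hF' : ∀ e ∈ F.erase e0, ¬ (ends e).IsDiag := fun e he => hF e (mem_erase.mp he).2
        rcases nonIso_delete he hu hd hN with h1 | h1
        · rw [PX_rec he0 he hu hv hd, coeff_add]
          have h2 := ih (F.erase e0) hF' hcard R K hd h1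
          have h3 := ih (F.erase e0) hF' hcard (insert v R) (K.erase v) hd2
            (nonIso_contract he hu hd hN)
          linarith
        · unfold PX
          rw [Phi_leaf he0 he hu hv hd hR rfl h1.2]
          simp
      · push Not at hRK
        unfold PX
        rw [Phi_base hRK, hR, card_empty, pow_zero, one_mul, prod_const, ← map_one (C : ℤ →+* ℤ[X]),
          ← map_neg, ← map_pow, mul_comm, coeff_C_mul, coeff_X_pow]
        by_cases hc : 1 = (ins ends F K).card
        · rw [if_pos hc, mul_one]
          have hKc : K.card = 2 := by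
            obtain ⟨e, he⟩ := card_eq_one.mp hc.symm
            have hee : e ∈ ins ends F K := by rw [he]; simp
            induction he2 : ends e using Sym2.ind with
            | _ a b =>
              have h5 := (mem_ins_of he2).mp hee
              have hsub : K ⊆ {a, b} := by
                intro v hv
                obtain ⟨x, hx, e', he', h6⟩ := hN v hv rfl
                rw [mem_union] at hx
                rcases hx with hx | hx
                · exact absurd (adj_symm ⟨e', he', h6⟩) (hRK x hx v hv)
                · have : e' ∈ ins ends F K := by rw [mem_ins_of h6]; exact ⟨he', hv, hx⟩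
                  rw [he, mem_singleton] at this
                  subst this
                  rw [he2, Sym2.eq_iff] at h6
                  rw [mem_insert, mem_singleton]
                  rcases h6 with h6 | h6
                  · left; exact h6.1.symm
                  · right; exact h6.2.symm
              have hK : K = {a, b} := by
                apply Subset.antisymm hsub
                rw [insert_subset_iff, singleton_subset_iff]
                exact h5.2
              have hab : a ≠ b := by
                have := hF e h5.1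
                rwa [he2, Sym2.mk_isDiag_iff] at this
              rw [hK, card_pair hab]
          rw [hKc]; norm_num
        · rw [if_neg hc, mul_zero]
    · obtain ⟨e0, he0⟩ := nonempty_iff_ne_empty.mpr hR
      rw [mem_ins] at he0
      unfold PX
      rw [Phi_inR he0.1 hd he0.2, mul_comm, coeff_mul_X]
      apply PX_coeff_zero_nonneg hd
      intro v hv _
      obtain ⟨x, hx, ha⟩ := hN v hv rfl
      induction he2 : ends e0 using Sym2.ind with
      | _ a b =>
        have h1 := he0.2 a (by rw [he2]; simp)
        have h2 := he0.2 b (by rw [he2]; simp)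
        refine ⟨x, hx, adj_erase he2 ha ?_ ?_⟩
        · rintro ⟨rfl, _⟩
          exact Finset.disjoint_left.mp hd h1 hv
        · rintro ⟨rfl, _⟩
          exact Finset.disjoint_left.mp hd h2 hv

variable (ends) in
/-- `B` has at most one neighbour outside, `R` being regarded as one vertex -/
def Bad (F : Finset E) (R K B : Finset V) : Prop :=
  (∀ u ∈ B, ∀ v ∈ K \ B, ¬ adj ends F u v) ∨
    ((∀ u ∈ B, ∀ v ∈ R, ¬ adj ends F u v) ∧
      ∃ c, ∀ u ∈ B, ∀ v ∈ K \ B, adj ends F u v → v = c)

variable (ends) in
/-- the structural condition for positivity -/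
structure Pr (F : Finset E) (R K D : Finset V) : Prop where
  bad : ∀ B ⊆ K, Disjoint B D → B.Nonempty → ¬ Bad ends F R K B
  out : ∀ B ⊆ K, B.Nonempty → ∃ u ∈ B, ∃ v ∈ R ∪ (K \ B), adj ends F u v

lemma Pr.contract_or_delete {F : Finset E} {R K D : Finset V} {e0 : E} {u0 v : V}
    (h : Pr ends F R K D) (he : ends e0 = s(u0, v)) (hu : u0 ∈ R) (hv : v ∈ K)
    (hd : Disjoint R K) :
    Pr ends (F.erase e0) (insert v R) (K.erase v) D ∨ Pr ends (F.erase e0) R K D := by
  have huK : u0 ∉ K := Finset.disjoint_left.mp hd hu
  -- adjacency after the deletion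
  have hadj1 : ∀ a b, a ∈ K → a ≠ v → adj ends F a b → adj ends (F.erase e0) a b := by
    intro a b ha hav hab
    refine adj_erase he hab ?_ ?_
    · rintro ⟨rfl, _⟩; exact huK ha
    · rintro ⟨rfl, _⟩; exact hav rfl
  have hadj2 : ∀ a b, a ∈ K → b ∈ K → adj ends F a b → adj ends (F.erase e0) a b := by
    intro a b ha hb hab
    refine adj_erase he hab ?_ ?_
    · rintro ⟨rfl, _⟩; exact huK ha
    · rintro ⟨_, rfl⟩; exact huK hb
  have hmono : ∀ a b, adj ends (F.erase e0) a b → adj ends F a b :=
    fun a b => adj_mono (erase_subset _ _)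
  by_contra hcon
  rw [not_or] at hcon
  obtain ⟨hc1, hc2⟩ := hcon
  -- the set B1
  have hB1 : ∃ B1 ⊆ K.erase v, Disjoint B1 D ∧ B1.Nonempty ∧
      (∀ u ∈ B1, ∀ w ∈ K \ B1, adj ends F u w → w = v) ∧ ∃ b ∈ B1, adj ends F b v := by
    by_contra hno
    apply hc1
    refine ⟨?_, ?_⟩
    · intro B hB hBD hne hbad
      apply hno
      have hBv : ∀ u ∈ B, u ∈ K ∧ u ≠ v := fun u hu => ⟨(mem_erase.mp (hB hu)).2,
        (mem_erase.mp (hB hu)).1⟩
      have hnb := h.bad B (hB.trans (erase_subset _ _)) hBD hne
      rcases hbad with hbad | ⟨hbad, c, hc⟩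
      · have f1 : ∀ u ∈ B, ∀ w ∈ K \ B, adj ends F u w → w = v := by
          intro u hu w hw ha
          by_contra hwv
          rw [mem_sdiff] at hw
          refine hbad u hu w ?_ (hadj1 u w (hBv u hu).1 (hBv u hu).2 ha)
          rw [mem_sdiff, mem_erase]
          exact ⟨⟨hwv, hw.1⟩, hw.2⟩
        refine ⟨B, hB, hBD, hne, f1, ?_⟩
        by_contra hno2
        push Not at hno2
        apply hnb
        left
        intro u hu w hw ha
        have := f1 u hu w hw ha
        subst this
        exact hno2 u hu ha
      · exfalso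
        apply hnb
        right
        refine ⟨fun u hu w hw ha => hbad u hu w (mem_insert_of_mem hw)
          (hadj1 u w (hBv u hu).1 (hBv u hu).2 ha), c, ?_⟩
        intro u hu w hw ha
        have ha' := hadj1 u w (hBv u hu).1 (hBv u hu).2 ha
        have hwv : w ≠ v := by
          rintro rfl
          exact hbad u hu w (mem_insert_self _ _) ha'
        rw [mem_sdiff] at hw
        exact hc u hu w (mem_sdiff.mpr ⟨mem_erase.mpr ⟨hwv, hw.1⟩, hw.2⟩) ha'
    · intro B hB hne
      obtain ⟨u, hu, w, hw, ha⟩ := h.out B (hB.trans (erase_subset _ _)) hne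
      have hBv : u ∈ K ∧ u ≠ v := ⟨(mem_erase.mp (hB hu)).2, (mem_erase.mp (hB hu)).1⟩
      refine ⟨u, hu, w, ?_, hadj1 u w hBv.1 hBv.2 ha⟩
      rw [mem_union, mem_insert, mem_sdiff, mem_erase]
      rw [mem_union, mem_sdiff] at hw
      tauto
  -- the set B2
  have hB2 : ∃ B2 ⊆ K, v ∈ B2 ∧ (∀ u ∈ B2, ∀ x ∈ R, ¬ adj ends (F.erase e0) u x) ∧
      ((Disjoint B2 D ∧ ∃ c, ∀ u ∈ B2, ∀ w ∈ K \ B2, adj ends F u w → w = c) ∨
        ∀ u ∈ B2, ∀ w ∈ K \ B2, ¬ adj ends F u w) := by
    by_contra hno
    apply hc2
    refine ⟨?_, ?_⟩
    · intro B hB hBD hne hbad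
      have hnb := h.bad B hB hBD hne
      rcases hbad with hbad | ⟨hbad, c, hc⟩
      · apply hnb
        left
        intro u hu w hw ha
        exact hbad u hu w hw (hadj2 u w (hB hu) (mem_sdiff.mp hw).1 ha)
      · apply hno
        refine ⟨B, hB, ?_, hbad, Or.inl ⟨hBD, c, ?_⟩⟩
        · by_contra hvB
          apply hnb
          right
          refine ⟨?_, c, ?_⟩
          · intro u hu x hx ha
            exact hbad u hu x hx (hadj1 u x (hB hu) (fun h => hvB (h ▸ hu)) ha)
          · intro u hu w hw ha
            exact hc u hu w hw (hadj2 u w (hB hu) (mem_sdiff.mp hw).1 ha)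
        · intro u hu w hw ha
          exact hc u hu w hw (hadj2 u w (hB hu) (mem_sdiff.mp hw).1 ha)
    · intro B hB hne
      by_contra hno2
      push Not at hno2
      apply hno
      refine ⟨B, hB, ?_, fun u hu x hx => hno2 u hu x (mem_union_left _ hx), Or.inr ?_⟩
      · obtain ⟨u, hu, w, hw, ha⟩ := h.out B hB hne
        by_contra hvB
        exact hno2 u hu w hw (hadj1 u w (hB hu) (fun h => hvB (h ▸ hu)) ha)
      · intro u hu w hw ha
        exact hno2 u hu w (mem_union_right _ hw) (hadj2 u w (hB hu) (mem_sdiff.mp hw).1 ha)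
  obtain ⟨B1, hB1K, hB1D, hB1n, f1, b, hb, f3⟩ := hB1
  obtain ⟨B2, hB2K, hvB2, g1, g2⟩ := hB2
  have hvB1 : v ∉ B1 := fun h => (mem_erase.mp (hB1K h)).1 rfl
  have hB1K' : B1 ⊆ K := hB1K.trans (erase_subset _ _)
  -- no edge from the intersection to `R`
  have hIR : ∀ x ∈ B1 ∩ B2, ∀ y ∈ R, ¬ adj ends F x y := by
    intro x hx y hy ha
    rw [mem_inter] at hx
    exact g1 x hx.2 y hy (hadj1 x y (hB2K hx.2) (fun h => hvB1 (h ▸ hx.1)) ha)
  have hIbad : (∀ x ∈ B1 ∩ B2, ∀ w ∈ B1 \ B2, ¬ adj ends F x w) → ¬ (B1 ∩ B2).Nonempty := by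
    intro h5 hne
    refine h.bad (B1 ∩ B2) (inter_subset_left.trans hB1K') (hB1D.mono_left inter_subset_left) hne ?_
    right
    refine ⟨hIR, v, ?_⟩
    intro x hx w hw ha
    rw [mem_sdiff, mem_inter] at hw
    by_cases hwB1 : w ∈ B1
    · exfalso
      exact h5 x hx w (mem_sdiff.mpr ⟨hwB1, fun h => hw.2 ⟨hwB1, h⟩⟩) ha
    · exact f1 x (mem_inter.mp hx).1 w (mem_sdiff.mpr ⟨hw.1, hwB1⟩) ha
  rcases g2 with ⟨hB2D, c, hc⟩ | g2
  · have hcB1 : c ∈ B1 := by
      by_cases hI : (B1 ∩ B2).Nonempty
      · by_contra hcB1
        refine hIbad ?_ hI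
        intro x hx w hw ha
        rw [mem_sdiff] at hw
        have := hc x (mem_inter.mp hx).2 w (mem_sdiff.mpr ⟨hB1K' hw.1, hw.2⟩) ha
        exact hcB1 (this ▸ hw.1)
      · have hbB2 : b ∉ B2 := fun h => hI ⟨b, mem_inter.mpr ⟨hb, h⟩⟩
        have := hc v hvB2 b (mem_sdiff.mpr ⟨hB1K' hb, hbB2⟩) (adj_symm f3)
        exact this ▸ hb
    refine h.bad (B1 ∪ B2) (union_subset hB1K' hB2K) (disjoint_union_left.mpr ⟨hB1D, hB2D⟩)
      (hB1n.mono subset_union_left) (Or.inl ?_)
    intro u hu w hw ha
    rw [mem_sdiff, mem_union, not_or] at hw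
    rw [mem_union] at hu
    rcases hu with hu | hu
    · have := f1 u hu w (mem_sdiff.mpr ⟨hw.1, hw.2.1⟩) ha
      exact hw.2.2 (this ▸ hvB2)
    · have := hc u hu w (mem_sdiff.mpr ⟨hw.1, hw.2.2⟩) ha
      exact hw.2.1 (this ▸ hcB1)
  · have hbB2 : b ∈ B2 := by
      by_contra hbB2
      exact g2 v hvB2 b (mem_sdiff.mpr ⟨hB1K' hb, hbB2⟩) (adj_symm f3)
    refine hIbad ?_ ⟨b, mem_inter.mpr ⟨hb, hbB2⟩⟩
    intro x hx w hw ha
    rw [mem_sdiff] at hw
    exact g2 x (mem_inter.mp hx).2 w (mem_sdiff.mpr ⟨hB1K' hw.1, hw.2⟩) ha

lemma Pr.delete_parallel {F : Finset E} {R K D : Finset V} {e0 e1 : E} {u0 u1 v : V}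
    (h : Pr ends F R K D) (he : ends e0 = s(u0, v)) (hu : u0 ∈ R)
    (hd : Disjoint R K) (he1F : e1 ∈ F) (he1 : ends e1 = s(u1, v)) (hu1 : u1 ∈ R)
    (hne : e1 ≠ e0) : Pr ends (F.erase e0) R K D := by
  have huK : u0 ∉ K := Finset.disjoint_left.mp hd hu
  have hadj1 : ∀ a b, a ∈ K → a ≠ v → adj ends F a b → adj ends (F.erase e0) a b := by
    intro a b ha hav hab
    refine adj_erase he hab ?_ ?_
    · rintro ⟨rfl, _⟩; exact huK ha
    · rintro ⟨rfl, _⟩; exact hav rfl
  have hadj2 : ∀ a b, a ∈ K → b ∈ K → adj ends F a b → adj ends (F.erase e0) a b := by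
    intro a b ha hb hab
    refine adj_erase he hab ?_ ?_
    · rintro ⟨rfl, _⟩; exact huK ha
    · rintro ⟨_, rfl⟩; exact huK hb
  have hv1 : adj ends (F.erase e0) v u1 :=
    ⟨e1, mem_erase.mpr ⟨hne, he1F⟩, by rw [he1, Sym2.eq_swap]⟩
  refine ⟨?_, ?_⟩
  · intro B hB hBD hne hbad
    apply h.bad B hB hBD hne
    rcases hbad with hbad | ⟨hbad, c, hc⟩
    · left
      intro u hu w hw ha
      exact hbad u hu w hw (hadj2 u w (hB hu) (mem_sdiff.mp hw).1 ha)
    · right
      refine ⟨?_, c, ?_⟩
      · intro u hu x hx ha
        by_cases huv : u = v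
        · subst huv
          exact hbad u hu u1 hu1 hv1
        · exact hbad u hu x hx (hadj1 u x (hB hu) huv ha)
      · intro u hu w hw ha
        exact hc u hu w hw (hadj2 u w (hB hu) (mem_sdiff.mp hw).1 ha)
  · intro B hB hne
    obtain ⟨u, hu, w, hw, ha⟩ := h.out B hB hne
    by_cases huv : u = v
    · subst huv
      exact ⟨u, hu, u1, mem_union_left _ hu1, hv1⟩
    · exact ⟨u, hu, w, hw, hadj1 u w (hB hu) huv ha⟩

lemma Pr.adj_of_notMem {F : Finset E} {R K D : Finset V} (h : Pr ends F R K D) {v : V}
    (hv : v ∈ K) (hvD : v ∉ D) : ∃ x ∈ K, x ≠ v ∧ adj ends F v x := by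
  have h1 := h.bad {v} (singleton_subset_iff.mpr hv) (disjoint_singleton_left.mpr hvD)
    (singleton_nonempty v)
  unfold Bad at h1
  rw [not_or] at h1
  have h2 := h1.1
  push Not at h2
  obtain ⟨u, hu, x, hx, ha⟩ := h2
  rw [mem_singleton] at hu
  subst hu
  rw [mem_sdiff, mem_singleton] at hx
  exact ⟨x, hx.1, hx.2, ha⟩

/-- positivity at `y = 0` -/
theorem Phi_zero_pos (w : V → ℤ) (hw : ∀ v, w v = 0 ∨ w v = -1) (F : Finset E)
    (hF : ∀ e ∈ F, ¬ (ends e).IsDiag) :
    ∀ (R K D : Finset V), Disjoint R K → ins ends F R = ∅ → Pr ends F R K D →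
      (∀ v ∈ K, v ∈ D → w v = 0) →
      0 < Phi ends (0 : ℤ) (fun _ => 1) w F R K := by
  induction hn : F.card generalizing F with
  | zero =>
    intro R K D hd hR hP hwD
    rw [card_eq_zero] at hn
    subst hn
    by_cases hK : K = ∅
    · subst hK
      rw [Phi_base (by simp), hR]
      have : ins ends (∅ : Finset E) ∅ = ∅ := by simp [ins]
      rw [this]; simp
    · obtain ⟨u, _, v, _, e, he, _⟩ := hP.out K (Subset.refl _) (nonempty_iff_ne_empty.mpr hK)
      simp at he
  | succ n ih =>
    intro R K D hd hR hP hwD
    by_cases hK : K = ∅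
    · subst hK
      rw [Phi_base (by simp), hR]
      have : ins ends F ∅ = ∅ := by
        rw [eq_empty_iff_forall_notMem]
        intro e he
        induction he2 : ends e using Sym2.ind with
        | _ a b =>
          rw [mem_ins_of he2] at he
          simp at he
      rw [this]; simp
    · obtain ⟨v, hv, u, hu, e0, he0, he'⟩ := hP.out K (Subset.refl _)
        (nonempty_iff_ne_empty.mpr hK)
      rw [Finset.sdiff_self, union_empty] at hu
      have he : ends e0 = s(u, v) := by rw [he', Sym2.eq_swap]
      have hF' : ∀ e ∈ F.erase e0, ¬ (ends e).IsDiag := fun e he => hF e (mem_erase.mp he).2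
      have hcard : (F.erase e0).card = n := by rw [card_erase_of_mem he0, hn]; rfl
      have hd2 : Disjoint (insert v R) (K.erase v) := by
        rw [disjoint_insert_left]
        exact ⟨by simp, hd.mono_right (erase_subset _ _)⟩
      have hNI : NonIso ends w F R K := by
        intro x hx hwx
        have hxD : x ∉ D := fun h => by rw [hwD x hx h] at hwx; omega
        obtain ⟨z, hz, _, ha⟩ := hP.adj_of_notMem hx hxD
        exact ⟨z, mem_union_right _ hz, ha⟩
      have hNI2 : NonIso ends w (F.erase e0) R K := by
        intro x hx hwx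
        have hxD : x ∉ D := fun h => by rw [hwD x hx h] at hwx; omega
        obtain ⟨z, hz, _, ha⟩ := hP.adj_of_notMem hx hxD
        refine ⟨z, mem_union_right _ hz, adj_erase he ha ?_ ?_⟩
        · rintro ⟨rfl, _⟩; exact Finset.disjoint_left.mp hd hu hx
        · rintro ⟨_, rfl⟩; exact Finset.disjoint_left.mp hd hu hz
      have hR' : ins ends (F.erase e0) R = ∅ := by
        rw [← subset_empty, ← hR]
        exact filter_subset_filter _ (erase_subset _ _)
      have hdel := Phi_zero_nonneg w hw (F.erase e0) R K hd hNI2
      have hcon := Phi_zero_nonneg w hw (F.erase e0) (insert v R) (K.erase v) hd2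
        (nonIso_contract he hu hd hNI)
      rw [Phi_rec he0 he hu hv hd, one_mul]
      by_cases hpar : ∃ e1 ∈ F, e1 ≠ e0 ∧ ∃ u1 ∈ R, ends e1 = s(u1, v)
      · obtain ⟨e1, he1F, hne, u1, hu1, he1⟩ := hpar
        have h1 := ih (F.erase e0) hF' hcard R K D hd hR'
          (hP.delete_parallel he hu hd he1F he1 hu1 hne) hwD
        linarith
      · push Not at hpar
        rcases hP.contract_or_delete he hu hv hd with h1 | h1
        · have h2 := ih (F.erase e0) hF' hcard (insert v R) (K.erase v) D hd2 ?_ h1
            (fun x hx => hwD x (mem_erase.mp hx).2)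
          · linarith
          · rw [eq_empty_iff_forall_notMem]
            intro e he2
            induction he3 : ends e using Sym2.ind with
            | _ a b =>
              rw [mem_ins_of he3, mem_erase, mem_insert, mem_insert] at he2
              obtain ⟨⟨h3, h4⟩, h5, h6⟩ := he2
              rcases h5 with rfl | h5
              · rcases h6 with rfl | h6
                · apply hF e h4
                  rw [he3]; simp
                · exact hpar e h4 h3 b h6 (by rw [he3, Sym2.eq_swap])
              · rcases h6 with rfl | h6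
                · exact hpar e h4 h3 a h5 he3
                · have : e ∈ ins ends F R := by rw [mem_ins_of he3]; exact ⟨h4, h5, h6⟩
                  rw [hR] at this; simp at this
        · have h2 := ih (F.erase e0) hF' hcard R K D hd hR' h1 hwD
          linarith

variable (ends) in
/-- number of edges at `z` inside `P` -/
noncomputable def dg (F : Finset E) (P : Finset V) (z : V) : ℕ :=
  (F.filter (fun e => z ∈ ends e ∧ ∀ x ∈ ends e, x ∈ P)).card

lemma exists_adj_of_dg {F : Finset E} {P : Finset V} {z : V} (h : 0 < dg ends F P z) :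
    ∃ x ∈ P, adj ends F z x := by
  obtain ⟨e, he⟩ := card_pos.mp h
  rw [mem_filter] at he
  obtain ⟨he1, he2, he3⟩ := he
  obtain ⟨x, hx⟩ := he2
  exact ⟨x, he3 x (by rw [hx]; simp), e, he1, hx⟩

/-- positivity of the coefficient of `X` for weights `-1` -/
theorem PX_coeff_one_pos (F : Finset E) (hF : ∀ e ∈ F, ¬ (ends e).IsDiag) :
    ∀ (R K : Finset V) (z : V), Disjoint R K → ins ends F R = ∅ → z ∈ K →
      Pr ends F R K {z} → 2 ≤ dg ends F (R ∪ K) z →
      0 < (PX ends F R K).coeff 1 := by
  induction hn : F.card generalizing F with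
  | zero =>
    intro R K z hd hR hz hP hdg
    rw [card_eq_zero] at hn
    subst hn
    obtain ⟨u, _, v, _, e, he, _⟩ := hP.out K (Subset.refl _) ⟨z, hz⟩
    simp at he
  | succ n ih =>
    intro R K z hd hR hz hP hdg
    -- the vertex `v`
    have hv : ∃ v ∈ K, ∃ u ∈ R, adj ends F v u ∧ (v = z → K = {z}) := by
      by_cases hK : K = {z}
      · obtain ⟨v, hv, u, hu, ha⟩ := hP.out K (Subset.refl _) ⟨z, hz⟩
        rw [Finset.sdiff_self, union_empty] at hu
        exact ⟨v, hv, u, hu, ha, fun _ => hK⟩
      · have hne : (K.erase z).Nonempty := by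
          rw [nonempty_iff_ne_empty]
          intro h
          rw [erase_eq_empty_iff] at h
          rcases h with h | h
          · subst h; simp at hz
          · exact hK h
        have h1 := hP.bad (K.erase z) (erase_subset _ _)
          (disjoint_singleton_right.mpr (by simp)) hne
        unfold Bad at h1
        rw [not_or, not_and_or] at h1
        have h3 : ∃ c, ∀ u ∈ K.erase z, ∀ v ∈ K \ K.erase z, adj ends F u v → v = c := by
          refine ⟨z, fun u _ v hv _ => ?_⟩
          rw [mem_sdiff, mem_erase] at hv
          by_contra hvz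
          exact hv.2 ⟨hvz, hv.1⟩
        have h4 := h1.2.resolve_right (fun h => h h3)
        push Not at h4
        obtain ⟨v, hv, u, hu, ha⟩ := h4
        exact ⟨v, (mem_erase.mp hv).2, u, hu, ha, fun h => absurd h (mem_erase.mp hv).1⟩
    obtain ⟨v, hv, u, hu, ⟨e0, he0, he'⟩, hvz⟩ := hv
    have he : ends e0 = s(u, v) := by rw [he', Sym2.eq_swap]
    have hF' : ∀ e ∈ F.erase e0, ¬ (ends e).IsDiag := fun e he => hF e (mem_erase.mp he).2
    have hcard : (F.erase e0).card = n := by rw [card_erase_of_mem he0, hn]; rfl
    have hd2 : Disjoint (insert v R) (K.erase v) := by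
      rw [disjoint_insert_left]
      exact ⟨by simp, hd.mono_right (erase_subset _ _)⟩
    have hR' : ins ends (F.erase e0) R = ∅ := by
      rw [← subset_empty, ← hR]
      exact filter_subset_filter _ (erase_subset _ _)
    have hNI : NonIso ends (fun _ => -1) F R K := by
      intro x hx _
      by_cases hxz : x = z
      · subst hxz
        exact exists_adj_of_dg (by omega)
      · obtain ⟨y, hy, _, ha⟩ := hP.adj_of_notMem hx (by simp [hxz])
        exact ⟨y, mem_union_right _ hy, ha⟩
    have hcon := PX_coeff_one_nonneg (F.erase e0) hF' (insert v R) (K.erase v) hd2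
      (nonIso_contract he hu hd hNI)
    rw [PX_rec he0 he hu hv hd, coeff_add]
    by_cases hvz' : v = z
    · -- `K = {z}`
      subst hvz'
      have hK := hvz rfl
      subst hK
      have hdg1 : dg ends (F.erase e0) (R ∪ {v}) v + 1 = dg ends F (R ∪ {v}) v := by
        unfold dg
        rw [filter_erase, card_erase_add_one]
        rw [mem_filter]
        refine ⟨he0, by rw [he]; simp, ?_⟩
        intro x hx
        rw [he, Sym2.mem_iff] at hx
        rw [mem_union, mem_singleton]
        rcases hx with rfl | rfl
        · exact Or.inl hu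
        · exact Or.inr rfl
      obtain ⟨x1, hx1, ha1⟩ := exists_adj_of_dg (ends := ends) (F := F.erase e0) (P := R ∪ {v})
        (z := v) (by omega)
      have hNI2 : NonIso ends (fun _ => -1) (F.erase e0) R {v} := by
        intro x hx _
        rw [mem_singleton] at hx
        subst hx
        exact ⟨x1, hx1, ha1⟩
      have hdel := PX_coeff_one_nonneg (F.erase e0) hF' R {v} hd hNI2
      by_cases h3 : 2 ≤ dg ends (F.erase e0) (R ∪ {v}) v
      · have hP' : Pr ends (F.erase e0) R {v} {v} := by
          refine ⟨?_, ?_⟩
          · intro B hB hBD hne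
            exfalso
            obtain ⟨b, hb⟩ := hne
            exact Finset.disjoint_left.mp hBD hb (hB hb)
          · intro B hB hne
            have hB' : B = {v} := by
              rw [subset_singleton_iff] at hB
              exact hB.resolve_left (nonempty_iff_ne_empty.mp hne)
            subst hB'
            refine ⟨v, mem_singleton_self v, x1, ?_, ha1⟩
            rw [mem_union, mem_singleton] at hx1
            rcases hx1 with hx1 | hx1
            · exact mem_union_left _ hx1
            · exfalso
              subst hx1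
              obtain ⟨e, he2, he3⟩ := ha1
              apply hF' e he2
              rw [he3]; simp
        have := ih (F.erase e0) hF' hcard R {v} v hd hR' (mem_singleton_self v) hP' h3
        linarith
      · have h4 : (PX ends (F.erase e0) (insert v R) (({v} : Finset V).erase v)).coeff 1 = 1 := by
          rw [erase_singleton]
          unfold PX
          rw [Phi_base (by simp)]
          have h5 : ins ends (F.erase e0) ∅ = ∅ := by
            rw [eq_empty_iff_forall_notMem]
            intro e he
            induction he2 : ends e using Sym2.ind with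
            | _ a b =>
              rw [mem_ins_of he2] at he
              simp at he
          have h6 : (ins ends (F.erase e0) (insert v R)).card = 1 := by
            have h7 : ins ends (F.erase e0) (insert v R) =
                (F.erase e0).filter (fun e => v ∈ ends e ∧ ∀ x ∈ ends e, x ∈ R ∪ {v}) := by
              ext e
              rw [mem_filter, mem_ins]
              constructor
              · rintro ⟨h8, h9⟩
                refine ⟨h8, ?_, ?_⟩
                · by_contra hve
                  have : e ∈ ins ends (F.erase e0) R := by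
                    rw [mem_ins]
                    refine ⟨h8, fun x hx => ?_⟩
                    have := h9 x hx
                    rw [mem_insert] at this
                    rcases this with rfl | this
                    · exact absurd hx hve
                    · exact this
                  rw [hR'] at this; simp at this
                · intro x hx
                  have := h9 x hx
                  rw [mem_insert] at this
                  rw [mem_union, mem_singleton]
                  tauto
              · rintro ⟨h8, _, h9⟩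
                refine ⟨h8, fun x hx => ?_⟩
                have := h9 x hx
                rw [mem_union, mem_singleton] at this
                rw [mem_insert]
                tauto
            rw [h7]
            have : dg ends (F.erase e0) (R ∪ {v}) v = 1 := by omega
            exact this
          rw [h5, h6]
          simp
        rw [h4]
        linarith
    · have hNI2 : NonIso ends (fun _ => -1) (F.erase e0) R K := by
        intro x hx _
        by_cases hxz : x = z
        · subst hxz
          obtain ⟨y, hy, ha⟩ := exists_adj_of_dg (ends := ends) (F := F) (P := R ∪ K) (z := x)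
            (by omega)
          refine ⟨y, hy, adj_erase he ha ?_ ?_⟩
          · rintro ⟨rfl, _⟩; exact Finset.disjoint_left.mp hd hu hx
          · rintro ⟨rfl, _⟩; exact hvz' rfl
        · obtain ⟨y, hy, _, ha⟩ := hP.adj_of_notMem hx (by simp [hxz])
          refine ⟨y, mem_union_right _ hy, adj_erase he ha ?_ ?_⟩
          · rintro ⟨rfl, _⟩; exact Finset.disjoint_left.mp hd hu hx
          · rintro ⟨_, rfl⟩; exact Finset.disjoint_left.mp hd hu hy
      have hdel := PX_coeff_one_nonneg (F.erase e0) hF' R K hd hNI2
      have hdg' : dg ends (F.erase e0) (R ∪ K) z = dg ends F (R ∪ K) z := by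
        unfold dg
        congr 1
        rw [filter_erase, erase_eq_of_notMem]
        rw [mem_filter]
        rintro ⟨_, h5, _⟩
        rw [he, Sym2.mem_iff] at h5
        rcases h5 with rfl | rfl
        · exact Finset.disjoint_left.mp hd hu hz
        · exact hvz' rfl
      have hRK : insert v R ∪ K.erase v = R ∪ K := by
        ext x
        simp only [mem_union, mem_insert, mem_erase]
        by_cases h : x = v
        · subst h; simp [hv]
        · simp [h]
      by_cases hpar : ∃ e1 ∈ F, e1 ≠ e0 ∧ ∃ u1 ∈ R, ends e1 = s(u1, v)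
      · obtain ⟨e1, he1F, hne, u1, hu1, he1⟩ := hpar
        have h1 := ih (F.erase e0) hF' hcard R K z hd hR' hz
          (hP.delete_parallel he hu hd he1F he1 hu1 hne) (by rw [hdg']; exact hdg)
        linarith
      · push Not at hpar
        rcases hP.contract_or_delete he hu hv hd with h1 | h1
        · have h2 := ih (F.erase e0) hF' hcard (insert v R) (K.erase v) z hd2 ?_
            (mem_erase.mpr ⟨fun h => hvz' h.symm, hz⟩) h1 (by rw [hRK, hdg']; exact hdg)
          · linarith
          · rw [eq_empty_iff_forall_notMem]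
            intro e he2
            induction he3 : ends e using Sym2.ind with
            | _ a b =>
              rw [mem_ins_of he3, mem_erase, mem_insert, mem_insert] at he2
              obtain ⟨⟨h3, h4⟩, h5, h6⟩ := he2
              rcases h5 with rfl | h5
              · rcases h6 with rfl | h6
                · apply hF e h4
                  rw [he3]; simp
                · exact hpar e h4 h3 b h6 (by rw [he3, Sym2.eq_swap])
              · rcases h6 with rfl | h6
                · exact hpar e h4 h3 a h5 he3
                · have : e ∈ ins ends F R := by rw [mem_ins_of he3]; exact ⟨h4, h5, h6⟩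
                  rw [hR] at this; simp at this
        · have h2 := ih (F.erase e0) hF' hcard R K z hd hR' hz h1 (by rw [hdg']; exact hdg)
          linarith

end Pool.Agent.Q113.RT
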