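import Pool.Agent.Q113.RT4

/-!
# Non-vanishing of the weighted sum
-/

set_option autoImplicit false

open Finset Polynomial
open scoped Classical

namespace Pool.Agent.Q113.RT

variable {V E : Type*} {ends : E → Sym2 V}

lemma natDegree_CC_le (F : Finset E) (R S : Finset V) :
    (CC ends (X : ℤ[X]) F R S).natDegree ≤ (ins ends F (R ∪ S)).card - S.card := by
  unfold CC
  apply natDegree_sum_le_of_forall_le
  intro A hA
  rw [mem_powerset] at hA
  split_ifs
  · refine (natDegree_pow_le).trans ?_
    have h1 : (X - 1 : ℤ[X]).natDegree = 1 := by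
      have := natDegree_X_sub_C (1 : ℤ)
      rwa [map_one] at this
    rw [h1, mul_one]
    have := card_le_card hA
    omega
  · simp

lemma CC_ne_zero_card {F : Finset E} {R S : Finset V} (hd : Disjoint R S)
    (h : CC ends (X : ℤ[X]) F R S ≠ 0) : S.card ≤ (ins ends F (R ∪ S)).card := by
  unfold CC at h
  obtain ⟨A, hA, h2⟩ := exists_ne_zero_of_sum_ne_zero h
  rw [mem_powerset] at hA
  have h3 : conn ends A R S := by
    by_contra hc
    rw [if_neg hc] at h2
    exact h2 rfl
  exact (conn_card hd h3).trans (card_le_card hA)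

lemma natDegree_Phi_lt {F : Finset E} {c : V} {B : Finset V} {τ ω : V → ℤ[X]} {ex : V → ℕ}
    (hcB : c ∉ B) (hci : ins ends F {c} = ∅) (hτ : ∀ v ∈ B, (τ v).natDegree ≤ ex v)
    (hω : ∀ v ∈ B, (ω v).natDegree ≤ ex v) (hadj : ∃ u ∈ B, adj ends F c u) :
    (Phi ends (X : ℤ[X]) τ ω F {c} B).natDegree <
      (ins ends F (insert c B)).card + ∑ v ∈ B, ex v := by
  obtain ⟨u, hu, e0, he0, he⟩ := hadj
  have hpos : 0 < (ins ends F (insert c B)).card := by
    rw [card_pos]
    refine ⟨e0, ?_⟩
    rw [mem_ins_of he]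
    exact ⟨he0, mem_insert_self _ _, mem_insert_of_mem hu⟩
  suffices h : (Phi ends (X : ℤ[X]) τ ω F {c} B).natDegree ≤
      (ins ends F (insert c B)).card + ∑ v ∈ B, ex v - 1 by omega
  unfold Phi
  apply natDegree_sum_le_of_forall_le
  intro S hS
  rw [mem_powerset] at hS
  have hdS : Disjoint {c} S := by
    rw [disjoint_singleton_left]; exact fun h => hcB (hS h)
  by_cases hCC : CC ends (X : ℤ[X]) F {c} S = 0
  · rw [hCC]; simp
  have h1 := natDegree_CC_le (ends := ends) F {c} S
  have h2 := CC_ne_zero_card hdS hCC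
  have h3 : (∏ v ∈ S, τ v).natDegree ≤ ∑ v ∈ S, ex v :=
    (natDegree_prod_le _ _).trans (sum_le_sum fun v hv => hτ v (hS hv))
  have h4 : (∏ v ∈ B \ S, ω v).natDegree ≤ ∑ v ∈ B \ S, ex v :=
    (natDegree_prod_le _ _).trans (sum_le_sum fun v hv => hω v (mem_sdiff.mp hv).1)
  have h5 : ∑ v ∈ B, ex v = ∑ v ∈ B \ S, ex v + ∑ v ∈ S, ex v := (sum_sdiff hS).symm
  have h6 : (ins ends F ({c} ∪ S)).card + (ins ends F (B \ S)).card ≤
      (ins ends F (insert c B)).card := by
    rw [← card_union_of_disjoint]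
    · apply card_le_card
      intro e h7
      rw [mem_union] at h7
      induction he : ends e using Sym2.ind with
      | _ a b =>
        rw [mem_ins_of he, mem_ins_of he] at h7
        rw [mem_ins_of he]
        simp only [mem_union, mem_singleton, mem_sdiff] at h7
        simp only [mem_insert]
        rcases h7 with ⟨h7, h8, h9⟩ | ⟨h7, h8, h9⟩
        · refine ⟨h7, ?_, ?_⟩
          · rcases h8 with h8 | h8
            · exact Or.inl h8
            · exact Or.inr (hS h8)
          · rcases h9 with h8 | h8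
            · exact Or.inl h8
            · exact Or.inr (hS h8)
        · exact ⟨h7, Or.inr h8.1, Or.inr h9.1⟩
    · rw [Finset.disjoint_left]
      intro e h7 h8
      induction he : ends e using Sym2.ind with
      | _ a b =>
        rw [mem_ins_of he] at h7 h8
        simp only [mem_union, mem_singleton, mem_sdiff] at h7 h8
        rcases h7.2.1 with rfl | h9
        · exact hcB h8.2.1.1
        · exact h8.2.1.2 h9
  have hmul : (CC ends (X : ℤ[X]) F {c} S * X ^ (ins ends F (B \ S)).card *
      ((∏ v ∈ S, τ v) * ∏ v ∈ B \ S, ω v)).natDegree ≤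
      (CC ends (X : ℤ[X]) F {c} S).natDegree + (ins ends F (B \ S)).card +
        (∑ v ∈ S, ex v + ∑ v ∈ B \ S, ex v) := by
    refine natDegree_mul_le.trans (add_le_add (natDegree_mul_le.trans ?_)
      (natDegree_mul_le.trans (add_le_add h3 h4)))
    exact add_le_add le_rfl (natDegree_X_pow_le _)
  refine hmul.trans ?_
  by_cases hS0 : S = ∅
  · subst hS0
    have h7 : (CC ends (X : ℤ[X]) F {c} ∅).natDegree = 0 := by
      rw [CC_empty, hci]; simp
    have h8 : (ins ends F B).card < (ins ends F (insert c B)).card := by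
      apply card_lt_card
      refine ⟨?_, ?_⟩
      · intro e h9
        rw [mem_ins] at h9 ⊢
        exact ⟨h9.1, fun x hx => mem_insert_of_mem (h9.2 x hx)⟩
      · intro h9
        have h10 : e0 ∈ ins ends F (insert c B) := by
          rw [mem_ins_of he]
          exact ⟨he0, mem_insert_self _ _, mem_insert_of_mem hu⟩
        have h11 := h9 h10
        rw [mem_ins_of he] at h11
        exact hcB h11.2.1
    simp only [sdiff_empty, sum_empty] at *
    omega
  · have : 0 < S.card := card_pos.mpr (nonempty_iff_ne_empty.mpr hS0)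
    omega

lemma ins_singleton_eq_empty {F : Finset E} (hF : ∀ e ∈ F, ¬ (ends e).IsDiag) (c : V) :
    ins ends F {c} = ∅ := by
  rw [eq_empty_iff_forall_notMem]
  intro e he
  induction he2 : ends e using Sym2.ind with
  | _ a b =>
    rw [mem_ins_of he2, mem_singleton, mem_singleton] at he
    apply hF e he.1
    rw [he2, Sym2.mk_isDiag_iff, he.2.1, he.2.2]

/-- the admissible weights -/
def Good (τ ω : V → ℤ[X]) (ex : V → ℕ) (K : Finset V) : Prop :=
  ∀ v ∈ K, (ex v = 0 ∧ τ v = 1 ∧ ω v = -1) ∨
    (1 ≤ ex v ∧ (∃ s : ℤˣ, ω v = C (s : ℤ) * X ^ ex v) ∧ (τ v).natDegree < ex v)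

lemma Good.sign {τ ω : V → ℤ[X]} {ex : V → ℕ} {K : Finset V} (h : Good τ ω ex K) {v : V}
    (hv : v ∈ K) : ∃ s : ℤˣ, ω v = C (s : ℤ) * X ^ ex v := by
  rcases h v hv with ⟨h1, _, h2⟩ | ⟨_, h2, _⟩
  · exact ⟨-1, by rw [h1, h2]; simp⟩
  · exact h2

lemma Good.natDegree_τ {τ ω : V → ℤ[X]} {ex : V → ℕ} {K : Finset V} (h : Good τ ω ex K) {v : V}
    (hv : v ∈ K) : (τ v).natDegree ≤ ex v := by
  rcases h v hv with ⟨h1, h2, _⟩ | ⟨_, _, h2⟩
  · rw [h2]; simp
  · exact h2.le

lemma natDegree_unit (s : ℤˣ) (n : ℕ) : (C (s : ℤ) * X ^ n : ℤ[X]).natDegree ≤ n := by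
  exact natDegree_C_mul_X_pow_le _ _

lemma unit_mul_ne_zero (s : ℤˣ) (n : ℕ) : (C (s : ℤ) * X ^ n : ℤ[X]) ≠ 0 := by
  refine mul_ne_zero ?_ (pow_ne_zero _ X_ne_zero)
  rw [Ne, C_eq_zero]
  exact s.ne_zero

lemma Good.sign_prod {τ ω : V → ℤ[X]} {ex : V → ℕ} {K : Finset V} (h : Good τ ω ex K)
    {B : Finset V} (hB : B ⊆ K) :
    ∃ s : ℤˣ, ∏ v ∈ B, ω v = C (s : ℤ) * X ^ (∑ v ∈ B, ex v) := by
  induction B using Finset.induction_on with
  | empty => exact ⟨1, by simp⟩
  | insert a B ha ih =>
    obtain ⟨s, hs⟩ := ih ((subset_insert _ _).trans hB)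
    obtain ⟨t, ht⟩ := h.sign (hB (mem_insert_self _ _))
    refine ⟨t * s, ?_⟩
    rw [prod_insert ha, sum_insert ha, hs, ht, Units.val_mul, map_mul, pow_add]
    ring

variable (ends) in
/-- no vertex of exponent zero is joined to the rest by a single edge to `r` only -/
def NoLeaf (F : Finset E) (r : V) (K : Finset V) (ex : V → ℕ) : Prop :=
  ∀ v ∈ K, ex v = 0 → (∃ u ∈ K, adj ends F v u) ∨ mult ends F v r ≠ 1

/-- splitting off the power of `X` of a weight -/
lemma normal_form {τ ω : V → ℤ[X]} {ex : V → ℕ} {K : Finset V} (h : Good τ ω ex K) {v : V}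
    (hv : v ∈ K) (hτ : τ v ≠ 0) :
    ∃ lam τ1 ω1 : ℤ[X], lam ≠ 0 ∧ τ v = lam * τ1 ∧ ω v = lam * ω1 ∧ τ1.eval 0 ≠ 0 ∧
      ω1.eval 0 = τ1.eval 0 * (if ex v = 0 then -1 else 0) := by
  rcases h v hv with ⟨h1, h2, h3⟩ | ⟨h1, ⟨s, h2⟩, h3⟩
  · refine ⟨1, 1, -1, one_ne_zero, by rw [h2]; ring, by rw [h3]; ring, by simp, ?_⟩
    rw [if_pos h1]; simp
  · set t := (τ v).natTrailingDegree with ht
    have htle : t ≤ (τ v).natDegree := natTrailingDegree_le_natDegree _
    have hdvd : X ^ t ∣ τ v := by
      rw [X_pow_dvd_iff]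
      intro d hd
      exact coeff_eq_zero_of_lt_natTrailingDegree hd
    obtain ⟨q, hq⟩ := hdvd
    have hq0 : q.eval 0 ≠ 0 := by
      rw [← coeff_zero_eq_eval_zero]
      have h4 : (τ v).coeff t = q.coeff 0 := by
        have h5 := coeff_X_pow_mul q t 0
        rw [zero_add] at h5
        rw [hq]; exact h5
      rw [← h4]
      have := trailingCoeff_nonzero_iff_nonzero.mpr hτ
      exact this
    refine ⟨X ^ t, q, C (s : ℤ) * X ^ (ex v - t), pow_ne_zero _ X_ne_zero, hq, ?_, hq0, ?_⟩
    · rw [h2]
      conv_lhs => rw [show ex v = t + (ex v - t) by omega, pow_add]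
      ring
    · rw [if_neg (by omega)]
      simp only [eval_mul, eval_C, eval_pow, eval_X]
      rw [zero_pow (by omega)]
      ring

theorem main (F : Finset E) (hF : ∀ e ∈ F, ¬ (ends e).IsDiag) :
    ∀ (n : ℕ) (K : Finset V), K.card = n → ∀ r, r ∉ K → ∀ (τ ω : V → ℤ[X]) (ex : V → ℕ),
      Good τ ω ex K → NoLeaf ends F r K ex → Phi ends (X : ℤ[X]) τ ω F {r} K ≠ 0 := by
  intro n
  induction n using Nat.strong_induction_on with
  | _ n ih =>
  intro K hn r hr τ ω ex hG hL
  have hd : Disjoint {r} K := disjoint_singleton_left.mpr hr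
  have hri := ins_singleton_eq_empty hF r
  -- a vertex of weight zero
  by_cases hZ : ∃ z ∈ K, τ z = 0
  · obtain ⟨z, hz, hz0⟩ := hZ
    rw [Phi_elim hz hz0 (ins_singleton_eq_empty hF z)]
    obtain ⟨s, hs⟩ := hG.sign hz
    refine mul_ne_zero (by rw [hs]; exact unit_mul_ne_zero s _) ?_
    have hc : 0 < K.card := card_pos.mpr ⟨z, hz⟩
    refine ih (K.erase z).card (by rw [card_erase_of_mem hz]; omega) _ rfl r
      (fun h => hr (mem_erase.mp h).2) τ _ (fun v => ex v + mult ends F v z) ?_ ?_
    · intro v hv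
      beta_reduce
      have hvK := (mem_erase.mp hv).2
      rcases hG v hvK with ⟨h1, h2, h3⟩ | ⟨h1, ⟨s, h2⟩, h3⟩
      · by_cases hm : mult ends F v z = 0
        · left
          rw [h1, h2, h3, hm]
          simp
        · right
          refine ⟨by omega, ⟨-1, ?_⟩, ?_⟩
          · rw [h1, h3]; simp
          · rw [h2]; simp; omega
      · right
        refine ⟨by omega, ⟨s, ?_⟩, by omega⟩
        rw [h2, pow_add]; ring
    · intro v hv hex
      beta_reduce at hex
      rw [mem_erase] at hv
      have h1 : ex v = 0 := by omega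
      have h2 : mult ends F v z = 0 := by omega
      rcases hL v hv.2 h1 with ⟨u, hu, ha⟩ | h3
      · left
        refine ⟨u, mem_erase.mpr ⟨?_, hu⟩, ha⟩
        rintro rfl
        exact mult_eq_zero.mp h2 ha
      · exact Or.inr h3
  push Not at hZ
  -- product
  by_cases hA : ∃ B ⊆ K, B.Nonempty ∧ B ≠ K ∧ ∀ u ∈ B, ∀ v ∈ K \ B, ¬ adj ends F u v
  · obtain ⟨B, hBK, hBn, hBne, hB⟩ := hA
    rw [Phi_prod hd hBK hri hB]
    have hc : 0 < B.card := card_pos.mpr hBn
    have hcK : B.card < K.card := card_lt_card (hBK.ssubset_of_ne hBne)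
    have hcs : (K \ B).card = K.card - B.card := card_sdiff_of_subset hBK
    refine mul_ne_zero ?_ ?_
    · refine ih (K \ B).card (by omega) _ rfl r (fun h => hr (mem_sdiff.mp h).1) τ ω ex
        (fun v hv => hG v (mem_sdiff.mp hv).1) ?_
      intro v hv hex
      rcases hL v (mem_sdiff.mp hv).1 hex with ⟨u, hu, ha⟩ | h3
      · left
        refine ⟨u, mem_sdiff.mpr ⟨hu, fun huB => hB u huB v hv (adj_symm ha)⟩, ha⟩
      · exact Or.inr h3
    · refine ih B.card (by omega) _ rfl r (fun h => hr (hBK h)) τ ω ex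
        (fun v hv => hG v (hBK hv)) ?_
      intro v hv hex
      rcases hL v (hBK hv) hex with ⟨u, hu, ha⟩ | h3
      · left
        refine ⟨u, ?_, ha⟩
        by_contra huB
        exact hB v hv u (mem_sdiff.mpr ⟨hu, huB⟩) ha
      · exact Or.inr h3
  push Not at hA
  -- nothing is joined to the root
  by_cases hA' : ∃ v ∈ K, adj ends F r v
  swap
  · push Not at hA'
    rw [Phi_base]
    · obtain ⟨s, hs⟩ := hG.sign_prod (Subset.refl K)
      rw [hs]
      exact mul_ne_zero (mul_ne_zero (pow_ne_zero _ X_ne_zero) (pow_ne_zero _ X_ne_zero))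
        (unit_mul_ne_zero s _)
    · intro u hu v hv
      rw [mem_singleton] at hu
      subst hu
      exact hA' v hv
  -- a cut vertex
  by_cases hB : ∃ B ⊆ K, B.Nonempty ∧ ∃ c ∈ K \ B, ∀ u ∈ B, ∀ v ∈ {r} ∪ K, v ∉ B →
      adj ends F u v → v = c
  · obtain ⟨B, hBK, hBn, c, hc, hBc⟩ := hB
    rw [mem_sdiff] at hc
    rw [Phi_cut hd hBK hc.1 hc.2 (ins_singleton_eq_empty hF c) hBc]
    have hcard : 0 < B.card := card_pos.mpr hBn
    have hcle : B.card ≤ K.card := card_le_card hBK
    have hcs : (K \ B).card = K.card - B.card := card_sdiff_of_subset hBK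
    have hcadj : ∃ u ∈ B, adj ends F c u := by
      have hBne : B ≠ K := by rintro rfl; exact hc.2 hc.1
      obtain ⟨u, hu, v, hv, ha⟩ := hA B hBK hBn hBne
      have := hBc u hu v (mem_union_right _ (mem_sdiff.mp hv).1) (mem_sdiff.mp hv).2 ha
      subst this
      exact ⟨u, hu, adj_symm ha⟩
    have hGB : Good τ ω ex B := fun v hv => hG v (hBK hv)
    have hlt := natDegree_Phi_lt (ends := ends) (F := F) (ex := ex) (τ := τ) (ω := ω) hc.2
      (ins_singleton_eq_empty hF c) (fun v hv => hGB.natDegree_τ hv)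
      (fun v hv => by
        obtain ⟨s, hs⟩ := hGB.sign hv
        rw [hs]; exact natDegree_unit s _) hcadj
    set M := (ins ends F (insert c B)).card + ∑ v ∈ B, ex v with hM
    have hMpos : 0 < M := by omega
    refine ih (K \ B).card (by omega) _ rfl r (fun h => hr (mem_sdiff.mp h).1) _ _
      (fun v => ex v + (if v = c then M else 0)) ?_ ?_
    · intro v hv
      have hvK := (mem_sdiff.mp hv).1
      by_cases hvc : v = c
      · subst hvc
        right
        simp only [if_true]
        obtain ⟨s, hs⟩ := hG.sign hvK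
        obtain ⟨t, ht⟩ := hG.sign_prod hBK
        refine ⟨by omega, ⟨s * t, ?_⟩, ?_⟩
        · rw [hs, ht, hM, pow_add, pow_add, Units.val_mul, map_mul]
          ring
        · refine natDegree_mul_le.trans_lt ?_
          have := hG.natDegree_τ hvK
          omega
      · simp only [if_neg hvc, mul_one, add_zero]
        exact hG v hvK
    · intro v hv hex
      have hvc : v ≠ c := by
        rintro rfl
        simp at hex
        omega
      beta_reduce at hex
      rw [if_neg hvc, add_zero] at hex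
      rcases hL v (mem_sdiff.mp hv).1 hex with ⟨u, hu, ha⟩ | h3
      · left
        refine ⟨u, mem_sdiff.mpr ⟨hu, fun huB => ?_⟩, ha⟩
        exact hvc (hBc u huB v (mem_union_right _ (mem_sdiff.mp hv).1) (mem_sdiff.mp hv).2
          (adj_symm ha))
      · exact Or.inr h3
  -- the final case
  have hPr : ∀ D : Finset V, (∃ d ∈ K, d ∈ D) → Pr ends F {r} K D := by
    rintro D ⟨d, hdK, hdD⟩
    refine ⟨?_, ?_⟩
    · intro B hBK hBD hBn hbad
      have hBne : B ≠ K := by
        rintro rfl
        exact Finset.disjoint_left.mp hBD hdK hdD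
      obtain ⟨u, hu, v, hv, ha⟩ := hA B hBK hBn hBne
      rcases hbad with hbad | ⟨hbad, c, hc⟩
      · exact hbad u hu v hv ha
      · apply hB
        have hvc := hc u hu v hv ha
        refine ⟨B, hBK, hBn, c, hvc ▸ hv, ?_⟩
        intro u' hu' v' hv' hv'B ha'
        rw [mem_union] at hv'
        rcases hv' with hv' | hv'
        · exact absurd ha' (hbad u' hu' v' hv')
        · exact hc u' hu' v' (mem_sdiff.mpr ⟨hv', hv'B⟩) ha'
    · intro B hBK hBn
      by_cases hBne : B = K
      · subst hBne
        obtain ⟨v, hv, ha⟩ := hA'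
        exact ⟨v, hv, r, by simp, adj_symm ha⟩
      · obtain ⟨u, hu, v, hv, ha⟩ := hA B hBK hBn hBne
        exact ⟨u, hu, v, mem_union_right _ hv, ha⟩
  by_cases hD : ∃ d ∈ K, ex d ≠ 0
  · -- evaluation at zero
    have hnf : ∀ v, v ∈ K → ∃ lam τ1 ω1 : ℤ[X], lam ≠ 0 ∧ τ v = lam * τ1 ∧ ω v = lam * ω1 ∧
        τ1.eval 0 ≠ 0 ∧ ω1.eval 0 = τ1.eval 0 * (if ex v = 0 then -1 else 0) :=
      fun v hv => normal_form hG hv (hZ v hv)
    have hnf' : ∀ v, ∃ lam τ1 ω1 : ℤ[X], v ∈ K → lam ≠ 0 ∧ τ v = lam * τ1 ∧ ω v = lam * ω1 ∧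
        τ1.eval 0 ≠ 0 ∧ ω1.eval 0 = τ1.eval 0 * (if ex v = 0 then -1 else 0) := by
      intro v
      by_cases hv : v ∈ K
      · obtain ⟨a, b, c, h⟩ := hnf v hv
        exact ⟨a, b, c, fun _ => h⟩
      · exact ⟨0, 0, 0, fun h => absurd h hv⟩
    choose lam τ1 ω1 hlam using hnf'
    rw [Phi_congr (τ' := fun v => lam v * τ1 v) (ω' := fun v => lam v * ω1 v)
      (fun v hv => (hlam v hv).2.1) (fun v hv => (hlam v hv).2.2.1), Phi_scale]
    refine mul_ne_zero (prod_ne_zero_iff.mpr fun v hv => (hlam v hv).1) ?_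
    intro h0
    have h1 := Phi_map (ends := ends) (Polynomial.evalRingHom (0 : ℤ)) (X : ℤ[X]) τ1 ω1 F {r} K
    rw [h0, map_zero] at h1
    simp only [coe_evalRingHom, eval_X] at h1
    set w : V → ℤ := fun v => if ex v = 0 then -1 else 0 with hw
    rw [Phi_congr (τ' := fun v => (τ1 v).eval 0 * (fun _ => (1 : ℤ)) v)
      (ω' := fun v => (τ1 v).eval 0 * w v)
      (fun v hv => by simp) (fun v hv => (hlam v hv).2.2.2.2), Phi_scale] at h1
    have h2 : (∏ v ∈ K, (τ1 v).eval 0) ≠ 0 := prod_ne_zero_iff.mpr fun v hv => (hlam v hv).2.2.2.1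
    have h3 : 0 < Phi ends (0 : ℤ) (fun _ => 1) w F {r} K := by
      refine Phi_zero_pos w ?_ F hF {r} K (K.filter (fun v => ex v ≠ 0)) hd hri (hPr _ ?_) ?_
      · intro v
        rw [hw]
        by_cases h : ex v = 0
        · right; simp [h]
        · left; simp [h]
      · obtain ⟨d, hdK, hd0⟩ := hD
        exact ⟨d, hdK, mem_filter.mpr ⟨hdK, hd0⟩⟩
      · intro v _ hv
        rw [hw]
        simp [(mem_filter.mp hv).2]
    exact (mul_ne_zero h2 h3.ne') h1.symm
  · push Not at hD
    obtain ⟨z, hz, haz⟩ := hA'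
    have hcongr : Phi ends (X : ℤ[X]) τ ω F {r} K = PX ends F {r} K := by
      unfold PX
      refine Phi_congr (fun v hv => ?_) (fun v hv => ?_)
      · rcases hG v hv with ⟨_, h2, _⟩ | ⟨h1, _, _⟩
        · exact h2
        · rw [hD v hv] at h1; omega
      · rcases hG v hv with ⟨_, _, h2⟩ | ⟨h1, _, _⟩
        · exact h2
        · rw [hD v hv] at h1; omega
    have hdg : 2 ≤ dg ends F ({r} ∪ K) z := by
      by_cases hKz : K = {z}
      · have h1 : mult ends F z r ≠ 1 := by
          rcases hL z hz (hD z hz) with ⟨u, hu, ha⟩ | h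
          · exfalso
            rw [hKz, mem_singleton] at hu
            subst hu
            obtain ⟨e, he1, he2⟩ := ha
            apply hF e he1
            rw [he2]; simp
          · exact h
        have h2 : mult ends F z r ≠ 0 := by
          rw [Ne, mult_eq_zero, not_not]
          exact adj_symm haz
        have h3 : mult ends F z r ≤ dg ends F ({r} ∪ K) z := by
          unfold mult dg
          apply card_le_card
          intro e he
          rw [mem_filter] at he ⊢
          refine ⟨he.1, by rw [he.2]; simp, ?_⟩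
          intro x hx
          rw [he.2, Sym2.mem_iff] at hx
          rw [mem_union, mem_singleton]
          rcases hx with rfl | rfl
          · exact Or.inr hz
          · exact Or.inl rfl
        omega
      · have hex : ∃ z' ∈ K, z' ≠ z := by
          by_contra hno
          push Not at hno
          apply hKz
          ext x
          rw [mem_singleton]
          exact ⟨fun h => hno x h, fun h => h ▸ hz⟩
        obtain ⟨z', hz'K, hz'⟩ := hex
        have hP := hPr {z'} ⟨z', hz'K, mem_singleton_self _⟩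
        have h1 := hP.bad {z} (singleton_subset_iff.mpr hz)
          (disjoint_singleton_left.mpr (by rw [mem_singleton]; exact fun h => hz' h.symm))
          (singleton_nonempty z)
        obtain ⟨x, hxK, hxz, e1, he1F, he1⟩ := hP.adj_of_notMem hz
          (by rw [mem_singleton]; exact fun h => hz' h.symm)
        have h2 : ∃ y ∈ {r} ∪ K, y ≠ x ∧ adj ends F z y := by
          by_contra hno
          push Not at hno
          apply h1
          right
          refine ⟨?_, x, ?_⟩
          · intro u hu v hv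
            rw [mem_singleton] at hu hv
            subst hu hv
            apply hno _ (mem_union_left _ (mem_singleton_self _))
            rintro rfl
            exact hr hxK
          · intro u hu v hv ha
            rw [mem_singleton] at hu
            subst hu
            by_contra hvx
            exact hno v (mem_union_right _ (mem_sdiff.mp hv).1) hvx ha
        obtain ⟨y, hy, hyx, e2, he2F, he2⟩ := h2
        have hne : e1 ≠ e2 := by
          rintro rfl
          rw [he1, Sym2.eq_iff] at he2
          rcases he2 with h | h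
          · exact hyx h.2.symm
          · exact hxz h.2
        have hsub : ({e1, e2} : Finset E) ⊆
            F.filter (fun e => z ∈ ends e ∧ ∀ x ∈ ends e, x ∈ {r} ∪ K) := by
          intro e he
          rw [mem_insert, mem_singleton] at he
          rw [mem_filter]
          rcases he with rfl | rfl
          · refine ⟨he1F, by rw [he1]; simp, ?_⟩
            intro t ht
            rw [he1, Sym2.mem_iff] at ht
            rcases ht with rfl | rfl
            · exact mem_union_right _ hz
            · exact mem_union_right _ hxK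
          · refine ⟨he2F, by rw [he2]; simp, ?_⟩
            intro t ht
            rw [he2, Sym2.mem_iff] at ht
            rcases ht with rfl | rfl
            · exact mem_union_right _ hz
            · exact hy
        have := card_le_card hsub
        rw [card_pair hne] at this
        exact this
    have := PX_coeff_one_pos F hF {r} K z hd hri hz (hPr {z} ⟨z, hz, mem_singleton_self _⟩) hdg
    rw [hcongr]
    intro h
    rw [h] at this
    simp at this

end Pool.Agent.Q113.RT
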