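import Pool.Agent.Q113.RT5

/-!
# The Tutte polynomial of a rooted graph
-/

set_option autoImplicit false

open Finset Polynomial
open scoped Classical

namespace Pool.Agent.Q113.RT

variable {V E : Type*} [Fintype V] [Fintype E] (ends : E → Sym2 V)

/-- the vertices that can be reached from `r` by edges of `A` -/
noncomputable def comp (r : V) (A : Finset E) : Finset V :=
  univ.filter (fun v => Relation.ReflTransGen (adj ends A) r v)

/-- `A` is the edge set of a tree that contains `r` -/
def Feasible (r : V) (A : Finset E) : Prop :=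
  (∀ e ∈ A, ∀ x ∈ ends e, x ∈ comp ends r A) ∧ (comp ends r A).card = A.card + 1

/-- the rank -/
noncomputable def rk (r : V) (A : Finset E) : ℕ :=
  (A.powerset.filter (fun B => Feasible ends r B)).sup card

/-- the Tutte polynomial -/
noncomputable def tutte (r : V) : ℤ[X][X] :=
  ∑ A : Finset E, (X - 1) ^ (rk ends r univ - rk ends r A) * (C X - 1) ^ (A.card - rk ends r A)

variable {ends}

lemma mem_comp {r : V} {A : Finset E} {v : V} :
    v ∈ comp ends r A ↔ Relation.ReflTransGen (adj ends A) r v := by
  unfold comp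
  rw [mem_filter]; simp

lemma root_mem_comp (r : V) (A : Finset E) : r ∈ comp ends r A :=
  mem_comp.mpr Relation.ReflTransGen.refl

lemma comp_step {r : V} {A : Finset E} {u v : V} (hu : u ∈ comp ends r A) (h : adj ends A u v) :
    v ∈ comp ends r A :=
  mem_comp.mpr ((mem_comp.mp hu).tail h)

lemma comp_subset_of_closed {r : V} {A : Finset E} {S : Finset V} (hr : r ∈ S)
    (h : ∀ u ∈ S, ∀ v, adj ends A u v → v ∈ S) : comp ends r A ⊆ S := by
  intro v hv
  rw [mem_comp] at hv
  induction hv with
  | refl => exact hr
  | tail _ h2 ih => exact h _ ih _ h2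

lemma comp_mono {r : V} {A B : Finset E} (h : A ⊆ B) : comp ends r A ⊆ comp ends r B :=
  comp_subset_of_closed (root_mem_comp r B) fun _ hu _ ha => comp_step hu (adj_mono h ha)

lemma rk_add_one (r : V) (A : Finset E) : rk ends r A + 1 = (comp ends r A).card := by
  apply le_antisymm
  · have h : rk ends r A ≤ (comp ends r A).card - 1 := by
      unfold rk
      apply Finset.sup_le
      intro B hB
      rw [mem_filter, mem_powerset] at hB
      have h1 := hB.2.2
      have h2 := card_le_card (comp_mono (ends := ends) (r := r) hB.1)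
      omega
    have : 0 < (comp ends r A).card := card_pos.mpr ⟨r, root_mem_comp r A⟩
    omega
  · have hne : (A.powerset.filter (fun B => Feasible ends r B)).Nonempty := by
      refine ⟨∅, ?_⟩
      rw [mem_filter]
      refine ⟨by simp, by simp, ?_⟩
      have h1 : comp ends r (∅ : Finset E) = {r} := by
        apply Subset.antisymm
        · apply comp_subset_of_closed (by simp)
          rintro u _ v ⟨e, he, _⟩
          simp at he
        · rw [singleton_subset_iff]; exact root_mem_comp r _
      rw [h1]; simp
    obtain ⟨F, hF, hmax⟩ := exists_max_image _ card hne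
    rw [mem_filter, mem_powerset] at hF
    obtain ⟨hFA, hFi, hFc⟩ := hF
    have hrk : F.card ≤ rk ends r A := by
      unfold rk
      exact Finset.le_sup (f := card) (by rw [mem_filter, mem_powerset]; exact ⟨hFA, hFi, hFc⟩)
    have hsub : comp ends r A ⊆ comp ends r F := by
      apply comp_subset_of_closed (root_mem_comp r F)
      by_contra hcon
      push Not at hcon
      obtain ⟨a, ha, b, ⟨e, heA, he⟩, hb⟩ := hcon
      have heF : e ∉ F := fun h => hb (hFi e h b (by rw [he]; simp))
      have hcomp : comp ends r (insert e F) = insert b (comp ends r F) := by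
        apply Subset.antisymm
        · apply comp_subset_of_closed (mem_insert_of_mem (root_mem_comp r F))
          rintro x hx y ⟨e', he', h2⟩
          rw [mem_insert] at he'
          rcases he' with rfl | he'
          · rw [he, Sym2.eq_iff] at h2
            rcases h2 with h2 | h2
            · rw [← h2.2]; exact mem_insert_self _ _
            · rw [← h2.1]; exact mem_insert_of_mem ha
          · exact mem_insert_of_mem (hFi e' he' y (by rw [h2]; simp))
        · intro x hx
          rw [mem_insert] at hx
          rcases hx with rfl | hx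
          · exact comp_step (comp_mono (subset_insert _ _) ha) ⟨e, mem_insert_self _ _, he⟩
          · exact comp_mono (subset_insert _ _) hx
      have hfeas : insert e F ∈ A.powerset.filter (fun B => Feasible ends r B) := by
        rw [mem_filter, mem_powerset]
        refine ⟨insert_subset_iff.mpr ⟨heA, hFA⟩, ?_, ?_⟩
        · intro e' he' x hx
          rw [hcomp]
          rw [mem_insert] at he'
          rcases he' with rfl | he'
          · rw [he, Sym2.mem_iff] at hx
            rcases hx with rfl | rfl
            · exact mem_insert_of_mem ha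
            · exact mem_insert_self _ _
          · exact mem_insert_of_mem (hFi e' he' x hx)
        · rw [hcomp, card_insert_of_notMem hb, card_insert_of_notMem heF, hFc]
      have := hmax _ hfeas
      rw [card_insert_of_notMem heF] at this
      omega
    have := card_le_card hsub
    omega

/-- which edge sets reach exactly the set `S` -/
lemma comp_iff {r : V} {A : Finset E} {S : Finset V} (hr : r ∉ S) :
    (comp ends r A).erase r = S ↔
      A ⊆ ins ends univ ({r} ∪ S) ∪ ins ends univ (univ \ ({r} ∪ S)) ∧
        conn ends (A ∩ ins ends univ ({r} ∪ S)) {r} S := by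
  constructor
  · intro h
    have hc : ∀ x, x ∈ comp ends r A ↔ x ∈ ({r} : Finset V) ∪ S := by
      intro x
      rw [mem_union, mem_singleton, ← h, mem_erase]
      by_cases hx : x = r
      · subst hx; simp [root_mem_comp]
      · simp [hx]
    constructor
    · intro e he
      rw [mem_union]
      induction he2 : ends e using Sym2.ind with
      | _ a b =>
        rw [mem_ins_of he2, mem_ins_of he2]
        simp only [mem_univ, true_and, mem_sdiff]
        by_cases ha : a ∈ ({r} : Finset V) ∪ S
        · left
          exact ⟨ha, (hc b).mp (comp_step ((hc a).mpr ha) ⟨e, he, he2⟩)⟩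
        · right
          refine ⟨ha, fun hb => ha ?_⟩
          exact (hc a).mp (comp_step ((hc b).mpr hb) ⟨e, he, by rw [he2, Sym2.eq_swap]⟩)
    · intro B hB hne
      by_contra hcon
      push Not at hcon
      have hsub : comp ends r A ⊆ comp ends r A \ B := by
        apply comp_subset_of_closed
        · rw [mem_sdiff]
          exact ⟨root_mem_comp r A, fun h => hr (hB h)⟩
        · intro u hu v ha
          rw [mem_sdiff] at hu ⊢
          refine ⟨comp_step hu.1 ha, fun hvB => ?_⟩
          refine hcon v hvB u (mem_sdiff.mpr ⟨(hc u).mp hu.1, hu.2⟩) ?_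
          obtain ⟨e, he, he2⟩ := ha
          refine ⟨e, ?_, by rw [he2, Sym2.eq_swap]⟩
          rw [mem_inter, mem_ins_of he2]
          exact ⟨he, mem_univ _, (hc u).mp hu.1, mem_union_right _ (hB hvB)⟩
      obtain ⟨b, hb⟩ := hne
      have hbc : b ∈ comp ends r A := (hc b).mpr (mem_union_right _ (hB hb))
      exact (mem_sdiff.mp (hsub hbc)).2 hb
  · rintro ⟨h1, h2⟩
    have hsub : comp ends r A ⊆ {r} ∪ S := by
      apply comp_subset_of_closed (by simp)
      rintro u hu v ⟨e, he, he2⟩
      have := h1 he
      rw [mem_union, mem_ins_of he2, mem_ins_of he2, mem_sdiff, mem_sdiff] at this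
      tauto
    have hsup : S ⊆ comp ends r A := by
      by_contra hcon
      have hne : (S \ comp ends r A).Nonempty := by
        rw [nonempty_iff_ne_empty, Ne, sdiff_eq_empty_iff_subset]; exact hcon
      obtain ⟨u, hu, v, hv, ha⟩ := h2 _ sdiff_subset hne
      rw [mem_sdiff] at hu
      rw [mem_sdiff, mem_union, mem_singleton, mem_sdiff] at hv
      have hvc : v ∈ comp ends r A := by
        rcases hv.1 with rfl | h
        · exact root_mem_comp _ _
        · by_contra h3; exact hv.2 ⟨h, h3⟩
      exact hu.2 (comp_step hvc (adj_symm (adj_mono inter_subset_left ha)))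
    ext x
    rw [mem_erase]
    constructor
    · rintro ⟨hx, hxc⟩
      have := hsub hxc
      rw [mem_union, mem_singleton] at this
      tauto
    · intro hx
      exact ⟨fun h => hr (h ▸ hx), hsup hx⟩

/-- the sum over the edge sets that reach exactly `S` -/
lemma sum_reach {𝓡 : Type*} [CommRing 𝓡] (y : 𝓡) {r : V} {S : Finset V} (hr : r ∉ S) :
    ∑ A ∈ (univ : Finset (Finset E)).filter (fun A => (comp ends r A).erase r = S),
      (y - 1) ^ (A.card - S.card) =
    CC ends y univ {r} S * y ^ (ins ends univ (univ \ ({r} ∪ S))).card := by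
  set U := ins ends univ ({r} ∪ S) with hU
  set W := ins ends univ (univ \ ({r} ∪ S)) with hW
  have hd : Disjoint U W := by
    rw [Finset.disjoint_left]
    intro e h1 h2
    induction he2 : ends e using Sym2.ind with
    | _ a b =>
      rw [hU, mem_ins_of he2] at h1
      rw [hW, mem_ins_of he2, mem_sdiff] at h2
      exact h2.2.1.2 h1.2.1
  have h1 : (univ : Finset (Finset E)).filter (fun A => (comp ends r A).erase r = S) =
      ((U ∪ W).powerset).filter (fun A => conn ends (A ∩ U) {r} S) := by
    ext A
    rw [mem_filter, mem_filter, comp_iff hr, mem_powerset]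
    exact ⟨fun h => h.2, fun h => ⟨mem_univ _, h⟩⟩
  rw [h1, sum_filter, sum_powerset_union hd]
  have h2 := Finset.sum_pow_mul_eq_add_pow (y - 1) 1 W
  simp only [one_pow, mul_one, sub_add_cancel] at h2
  rw [← h2]
  unfold CC
  rw [← hU, sum_mul_sum]
  refine sum_congr rfl fun A1 hA1 => sum_congr rfl fun A2 hA2 => ?_
  rw [mem_powerset] at hA1 hA2
  have h3 : (A1 ∪ A2) ∩ U = A1 := by
    ext e
    rw [mem_inter, mem_union]
    constructor
    · rintro ⟨h | h, h4⟩
      · exact h
      · exact absurd (hA2 h) (Finset.disjoint_left.mp hd h4)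
    · intro h; exact ⟨Or.inl h, hA1 h⟩
  rw [h3, card_union_of_disjoint (hd.mono hA1 hA2)]
  by_cases hc : conn ends A1 {r} S
  · rw [if_pos hc, if_pos hc, ← pow_add]
    have := conn_card (by rw [disjoint_singleton_left]; exact hr) hc
    congr 1; omega
  · rw [if_neg hc, if_neg hc, zero_mul]

/-- the Tutte polynomial as a weighted sum -/
theorem tutte_eq (r : V) : ∃ j : ℕ, tutte ends r =
    (C X) ^ j * Phi ends (C X : ℤ[X][X]) (fun _ => 1) (fun _ => X - 1) univ {r}
      ((comp ends r univ).erase r) := by
  set K := (comp ends r (univ : Finset E)).erase r with hK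
  have hrK : r ∉ K := by rw [hK]; simp
  refine ⟨(ins ends univ (univ \ ({r} ∪ K))).card, ?_⟩
  have hrk : ∀ A : Finset E, rk ends r A = ((comp ends r A).erase r).card := by
    intro A
    have h1 := rk_add_one (ends := ends) r A
    rw [card_erase_of_mem (root_mem_comp r A)]
    omega
  unfold tutte
  have h1 : ∀ A ∈ (univ : Finset (Finset E)), (comp ends r A).erase r ∈ K.powerset := by
    intro A _
    rw [mem_powerset, hK]
    exact erase_subset_erase _ (comp_mono (subset_univ A))
  rw [← sum_fiberwise_of_maps_to h1]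
  unfold Phi
  rw [mul_sum]
  refine sum_congr rfl fun S hS => ?_
  rw [mem_powerset] at hS
  have hrS : r ∉ S := fun h => hrK (hS h)
  have h2 : ∀ A ∈ (univ : Finset (Finset E)).filter (fun A => (comp ends r A).erase r = S),
      (X - 1 : ℤ[X][X]) ^ (rk ends r univ - rk ends r A) * (C X - 1) ^ (A.card - rk ends r A) =
        (X - 1) ^ (K.card - S.card) * (C X - 1) ^ (A.card - S.card) := by
    intro A hA
    rw [mem_filter] at hA
    rw [hrk A, hrk univ, hA.2]
  rw [sum_congr rfl h2, ← mul_sum, sum_reach _ hrS]
  have h3 : univ \ ({r} ∪ S) = (K \ S) ∪ (univ \ ({r} ∪ K)) := by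
    ext x
    have h4 : x ∈ K → x ≠ r := fun h h5 => hrK (h5 ▸ h)
    have h5 : x ∈ S → x ∈ K := fun h => hS h
    simp only [mem_sdiff, mem_univ, true_and, mem_union, mem_singleton]
    tauto
  have h4 : (ins ends univ (univ \ ({r} ∪ S))).card =
      (ins ends univ (K \ S)).card + (ins ends univ (univ \ ({r} ∪ K))).card := by
    rw [h3, card_ins_union]
    · rw [Finset.disjoint_left]
      intro x h4 h5
      rw [mem_sdiff] at h4 h5
      exact h5.2 (mem_union_right _ h4.1)
    · intro u hu v hv ha
      rw [mem_sdiff, mem_union, mem_singleton, not_or] at hu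
      rw [mem_sdiff] at hv
      have hv2 : v ∈ comp ends r (univ : Finset E) := (mem_erase.mp hv.1).2
      have hu2 := comp_step hv2 (adj_symm ha)
      exact hu.2.2 (mem_erase.mpr ⟨hu.2.1, hu2⟩)
  rw [h4, pow_add, prod_const_one, one_mul, prod_const, card_sdiff_of_subset hS]
  ring

lemma exists_loop_factor {𝓡 : Type*} [CommRing 𝓡] (y : 𝓡) (τ ω : V → 𝓡) (F : Finset E)
    (R K : Finset V) (hd : Disjoint R K) :
    ∃ j : ℕ, Phi ends y τ ω F R K =
      y ^ j * Phi ends y τ ω (F.filter (fun e => ¬ (ends e).IsDiag)) R K := by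
  induction hn : (F.filter (fun e => (ends e).IsDiag)).card generalizing F with
  | zero =>
    refine ⟨0, ?_⟩
    rw [card_eq_zero, filter_eq_empty_iff] at hn
    rw [filter_true_of_mem (fun e he => hn he)]
    simp
  | succ n ih =>
    have hpos : 0 < (F.filter (fun e => (ends e).IsDiag)).card := by omega
    obtain ⟨e0, he0⟩ := card_pos.mp hpos
    rw [mem_filter] at he0
    have h1 : ((F.erase e0).filter (fun e => (ends e).IsDiag)).card = n := by
      rw [filter_erase, card_erase_of_mem (by rw [mem_filter]; exact he0), hn]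
      rfl
    obtain ⟨j, hj⟩ := ih (F.erase e0) h1
    have h2 : (F.erase e0).filter (fun e => ¬ (ends e).IsDiag) =
        F.filter (fun e => ¬ (ends e).IsDiag) := by
      rw [filter_erase, erase_eq_of_notMem]
      rw [mem_filter]
      exact fun h => h.2 he0.2
    rw [h2] at hj
    rcases Phi_loop (y := y) (τ := τ) (ω := ω) he0.1 hd he0.2 with h3 | h3
    · exact ⟨j + 1, by rw [h3, hj, pow_succ]; ring⟩
    · exact ⟨j, by rw [h3, hj]⟩

/-- one root leaf contributes the factor `X` -/
lemma Phi_root_leaf {F : Finset E} (hF : ∀ e ∈ F, ¬ (ends e).IsDiag) {r v : V} {K : Finset V}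
    (hr : r ∉ K) (hv : v ∈ K) (h1 : (F.filter (fun e => v ∈ ends e)).card = 1)
    (h2 : adj ends F v r) :
    Phi ends (C X : ℤ[X][X]) (fun _ => 1) (fun _ => X - 1) F {r} K =
      X * Phi ends (C X : ℤ[X][X]) (fun _ => 1) (fun _ => X - 1) F {r} (K.erase v) := by
  have hd : Disjoint {r} K := disjoint_singleton_left.mpr hr
  have hvr : v ≠ r := fun h => hr (h ▸ hv)
  obtain ⟨e0, he0, he0'⟩ := h2
  obtain ⟨e1, he1⟩ := card_eq_one.mp h1
  have huniq : ∀ e ∈ F, v ∈ ends e → e = e0 := by
    intro e he hve
    have h3 : e ∈ F.filter (fun e => v ∈ ends e) := mem_filter.mpr ⟨he, hve⟩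
    have h4 : e0 ∈ F.filter (fun e => v ∈ ends e) :=
      mem_filter.mpr ⟨he0, by rw [he0']; simp⟩
    rw [he1, mem_singleton] at h3 h4
    rw [h3, h4]
  rw [Phi_prod (B := {v}) hd (singleton_subset_iff.mpr hv) (ins_singleton_eq_empty hF r),
    sdiff_singleton_eq_erase, mul_comm]
  · congr 1
    have hd' : Disjoint {r} ({v} : Finset V) := by
      rw [disjoint_singleton_left, mem_singleton]; exact hvr.symm
    rw [Phi_rec he0 (by rw [he0', Sym2.eq_swap]) (mem_singleton_self r) (mem_singleton_self v) hd',
      erase_singleton, Phi_base, Phi_base]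
    · have h5 : ∀ P : Finset V, P ⊆ {r, v} → ins ends (F.erase e0) P = ∅ := by
        intro P hP
        rw [eq_empty_iff_forall_notMem]
        intro e he
        have h6 := mem_ins.mp he
        rw [mem_erase] at h6
        induction he2 : ends e using Sym2.ind with
        | _ a b =>
          have ha := hP (h6.2 a (by rw [he2]; simp))
          have hb := hP (h6.2 b (by rw [he2]; simp))
          have hnv : v ∉ ends e := fun h => h6.1.1 (huniq e h6.1.2 h)
          rw [he2, Sym2.mem_iff, not_or] at hnv
          rw [mem_insert, mem_singleton] at ha hb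
          have ha' : a = r := ha.resolve_right (fun h => hnv.1 h.symm)
          have hb' : b = r := hb.resolve_right (fun h => hnv.2 h.symm)
          apply hF e h6.1.2
          rw [he2, ha', hb']; simp
      rw [h5 {r} (by simp), h5 {v} (by simp), h5 (insert v {r}) (by rw [pair_comm]),
        h5 ∅ (by simp)]
      simp
    · simp
    · intro u hu w hw ha
      rw [mem_singleton] at hu hw
      subst hu hw
      obtain ⟨e, he, he2⟩ := ha
      rw [mem_erase] at he
      exact he.1 (huniq e he.2 (by rw [he2]; simp))
  · intro u hu w hw ha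
    rw [mem_singleton] at hu
    subst hu
    obtain ⟨e, he, he2⟩ := ha
    have := huniq e he (by rw [he2]; simp)
    subst this
    rw [he0', Sym2.eq_iff] at he2
    rcases he2 with h | h
    · exact hr (h.2 ▸ (mem_sdiff.mp hw).1)
    · exact hvr h.2.symm

lemma Phi_root_leaves {F : Finset E} (hF : ∀ e ∈ F, ¬ (ends e).IsDiag) {r : V} {K L : Finset V}
    (hr : r ∉ K) (hL : L ⊆ K)
    (h1 : ∀ v ∈ L, (F.filter (fun e => v ∈ ends e)).card = 1 ∧ adj ends F v r) :
    Phi ends (C X : ℤ[X][X]) (fun _ => 1) (fun _ => X - 1) F {r} K =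
      X ^ L.card * Phi ends (C X : ℤ[X][X]) (fun _ => 1) (fun _ => X - 1) F {r} (K \ L) := by
  induction L using Finset.induction_on with
  | empty => simp
  | insert v L hv ih =>
    have h2 := ih ((subset_insert _ _).trans hL) (fun w hw => h1 w (mem_insert_of_mem hw))
    rw [h2, card_insert_of_notMem hv, pow_succ]
    have hvK : v ∈ K \ L := mem_sdiff.mpr ⟨hL (mem_insert_self _ _), hv⟩
    rw [Phi_root_leaf hF (fun h => hr (mem_sdiff.mp h).1) hvK (h1 v (mem_insert_self _ _)).1
      (h1 v (mem_insert_self _ _)).2]
    have h3 : (K \ L).erase v = K \ insert v L := by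
      ext x
      simp only [mem_erase, mem_sdiff, mem_insert]
      tauto
    rw [h3]
    ring

/-- the root leaves, loops being disregarded -/
noncomputable def rootLeaves (ends : E → Sym2 V) (r : V) : Finset V :=
  univ.filter (fun v => v ≠ r ∧
    (univ.filter (fun e => ¬ (ends e).IsDiag ∧ v ∈ ends e)).card = 1 ∧ ∃ e, ends e = s(v, r))

theorem exact_power (r : V) :
    X ^ (rootLeaves ends r).card ∣ tutte ends r ∧
      ¬ X ^ ((rootLeaves ends r).card + 1) ∣ tutte ends r := by
  set K := (comp ends r (univ : Finset E)).erase r with hK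
  set F0 := (univ : Finset E).filter (fun e => ¬ (ends e).IsDiag) with hF0
  set L := rootLeaves ends r with hL
  have hrK : r ∉ K := by rw [hK]; simp
  have hd : Disjoint {r} K := disjoint_singleton_left.mpr hrK
  have hF : ∀ e ∈ F0, ¬ (ends e).IsDiag := fun e he => (mem_filter.mp he).2
  have hfil : ∀ v, F0.filter (fun e => v ∈ ends e) =
      univ.filter (fun e => ¬ (ends e).IsDiag ∧ v ∈ ends e) := by
    intro v
    rw [hF0, filter_filter]
  have hLprop : ∀ v ∈ L, v ≠ r ∧ (F0.filter (fun e => v ∈ ends e)).card = 1 ∧ adj ends F0 v r := by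
    intro v hv
    rw [hL, rootLeaves, mem_filter] at hv
    obtain ⟨_, h1, h2, e, he⟩ := hv
    refine ⟨h1, by rw [hfil]; exact h2, e, ?_, he⟩
    rw [hF0, mem_filter, he, Sym2.mk_isDiag_iff]
    exact ⟨mem_univ _, h1⟩
  have hLK : L ⊆ K := by
    intro v hv
    obtain ⟨h1, _, h3⟩ := hLprop v hv
    rw [hK, mem_erase]
    exact ⟨h1, comp_step (root_mem_comp r _) (adj_symm (adj_mono (subset_univ _) h3))⟩
  obtain ⟨j1, h1⟩ := tutte_eq (ends := ends) r
  obtain ⟨j2, h2⟩ := exists_loop_factor (ends := ends) (C X : ℤ[X][X]) (fun _ => 1)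
    (fun _ => X - 1) univ {r} K hd
  have h3 := Phi_root_leaves (ends := ends) hF hrK hLK
    (fun v hv => ⟨(hLprop v hv).2.1, (hLprop v hv).2.2⟩)
  set P := Phi ends (C X : ℤ[X][X]) (fun _ => 1) (fun _ => X - 1) F0 {r} (K \ L) with hP
  have hT : tutte ends r = X ^ L.card * ((C X) ^ (j1 + j2) * P) := by
    rw [h1, h2, h3, pow_add]; ring
  have hP0 : P.coeff 0 ≠ 0 := by
    have h4 := Phi_map (ends := ends) (Polynomial.evalRingHom (0 : ℤ[X])) (C X : ℤ[X][X])
      (fun _ => 1) (fun _ => X - 1) F0 {r} (K \ L)
    simp only [coe_evalRingHom, eval_C, eval_one, eval_sub, eval_X, zero_sub] at h4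
    rw [coeff_zero_eq_eval_zero, hP, h4]
    refine main F0 hF _ (K \ L) rfl r (fun h => hrK (mem_sdiff.mp h).1) _ _ (fun _ => 0) ?_ ?_
    · intro v _
      left
      exact ⟨rfl, rfl, rfl⟩
    · intro v hv _
      by_contra hcon
      rw [not_or, not_not] at hcon
      obtain ⟨hc1, hc2⟩ := hcon
      rw [mem_sdiff] at hv
      have hvr : v ≠ r := fun h => hrK (h ▸ hv.1)
      have hadj : adj ends F0 v r := by
        by_contra h
        rw [mult_eq_zero.mpr h] at hc2
        omega
      obtain ⟨e1, he1, he1'⟩ := hadj
      have hcard : (F0.filter (fun e => v ∈ ends e)).card ≠ 1 := by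
        intro h
        apply hv.2
        rw [hL, rootLeaves, mem_filter]
        exact ⟨mem_univ _, hvr, by rw [← hfil]; exact h, e1, he1'⟩
      have he1m : e1 ∈ F0.filter (fun e => v ∈ ends e) :=
        mem_filter.mpr ⟨he1, by rw [he1']; simp⟩
      have hcard2 : 1 < (F0.filter (fun e => v ∈ ends e)).card := by
        have : 0 < (F0.filter (fun e => v ∈ ends e)).card := card_pos.mpr ⟨e1, he1m⟩
        omega
      obtain ⟨e2, he2, hne⟩ := exists_mem_ne hcard2 e1
      rw [mem_filter] at he2
      obtain ⟨x, hx⟩ := he2.2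
      have hxv : x ≠ v := by
        rintro rfl
        apply hF e2 he2.1
        rw [hx]; simp
      have hxr : x ≠ r := by
        rintro rfl
        have h5 : ({e1, e2} : Finset E) ⊆ F0.filter (fun e => ends e = s(v, x)) := by
          intro e he
          rw [mem_insert, mem_singleton] at he
          rw [mem_filter]
          rcases he with rfl | rfl
          · exact ⟨he1, he1'⟩
          · exact ⟨he2.1, hx⟩
        have h6 := card_le_card h5
        rw [card_pair (Ne.symm hne)] at h6
        unfold mult at hc2
        omega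
      have hadj2 : adj ends F0 v x := ⟨e2, he2.1, hx⟩
      have hxK : x ∈ K := by
        rw [hK, mem_erase]
        exact ⟨hxr, comp_step (mem_erase.mp hv.1).2 (adj_mono (subset_univ _) hadj2)⟩
      have hxL : x ∈ L := by
        by_contra h
        exact hc1 ⟨x, mem_sdiff.mpr ⟨hxK, h⟩, hadj2⟩
      obtain ⟨_, h7, e3, he3, he3'⟩ := hLprop x hxL
      have h8 : 1 < (F0.filter (fun e => x ∈ ends e)).card := by
        rw [one_lt_card]
        refine ⟨e2, mem_filter.mpr ⟨he2.1, by rw [hx]; simp⟩, e3,
          mem_filter.mpr ⟨he3, by rw [he3']; simp⟩, ?_⟩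
        rintro rfl
        rw [hx, Sym2.eq_iff] at he3'
        rcases he3' with h9 | h9
        · exact hxr h9.2
        · exact hvr h9.1
      omega
  refine ⟨⟨_, hT⟩, ?_⟩
  intro hdvd
  rw [hT, pow_succ] at hdvd
  have h5 : X ∣ ((C X) ^ (j1 + j2) * P : ℤ[X][X]) :=
    (mul_dvd_mul_iff_left (pow_ne_zero _ X_ne_zero)).mp hdvd
  rw [X_dvd_iff, ← map_pow, coeff_C_mul] at h5
  exact (mul_ne_zero (pow_ne_zero _ X_ne_zero) hP0) h5

end Pool.Agent.Q113.RT
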