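import Mathlib

/-!
# A small set of 2-subcubes meeting all `(3m+2)`-subcubes

The idea (vectors over `F_2` attached to the coordinates, one assignment for each layer) is that of
Ellis, Ivan and Leader for vertices of the cube.
-/

set_option autoImplicit false
open Classical

namespace Pool.Agent.Q113.Subcube

open Finset

/-- `F_2`-vectors of length `k`. -/
abbrev Vec (k : ℕ) : Type := Fin k → ZMod 2

/-- the inner product -/
def ip {k : ℕ} (a v : Vec k) : ZMod 2 := ∑ i, a i * v i

lemma ip_add_left {k : ℕ} (a b v : Vec k) : ip (a + b) v = ip a v + ip b v := by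
  simp [ip, add_mul, sum_add_distrib]

lemma ip_add_right {k : ℕ} (a v w : Vec k) : ip a (v + w) = ip a v + ip a w := by
  simp [ip, mul_add, sum_add_distrib]

lemma card_vec (k : ℕ) : Fintype.card (Vec k) = 2 ^ k := by simp [Vec, ZMod.card]

/-- the hyperplane orthogonal to `a` -/
noncomputable def hyp {k : ℕ} (a : Vec k) : Finset (Vec k) := univ.filter (fun v => ip a v = 0)

lemma zmod2_cases (z : ZMod 2) : z = 0 ∨ z = 1 := by
  revert z; decide

/-- a hyperplane contains half of the vectors -/
lemma card_hyp {k : ℕ} {a : Vec k} (ha : a ≠ 0) : 2 * (hyp a).card = 2 ^ k := by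
  obtain ⟨i, hi⟩ : ∃ i, a i ≠ 0 := by
    by_contra h
    push Not at h
    exact ha (funext h)
  have hi1 : a i = 1 := by rcases zmod2_cases (a i) with h | h
                           · exact absurd h hi
                           · exact h
  let e : Vec k := Pi.single i 1
  have hie : ip a e = 1 := by
    simp only [ip, e]
    rw [Finset.sum_eq_single i]
    · simp [hi1]
    · intro j _ hj; simp [Pi.single_eq_of_ne hj]
    · intro h; exact absurd (mem_univ i) h
  have hee : e + e = 0 := by
    funext j
    simp only [Pi.add_apply, Pi.zero_apply]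
    exact CharTwo.add_self_eq_zero _
  have hc : (hyp a).card = (univ.filter (fun v : Vec k => ¬ ip a v = 0)).card := by
    apply card_bij (fun v _ => v + e)
    · intro v hv
      rw [hyp, mem_filter] at hv
      rw [mem_filter]
      refine ⟨mem_univ _, ?_⟩
      rw [ip_add_right, hv.2, hie, zero_add]
      exact one_ne_zero
    · intro v _ w _ h
      exact add_right_cancel h
    · intro w hw
      rw [mem_filter] at hw
      refine ⟨w + e, ?_, by rw [add_assoc, hee, add_zero]⟩
      rw [hyp, mem_filter]
      refine ⟨mem_univ _, ?_⟩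
      rcases zmod2_cases (ip a w) with h | h
      · exact absurd h hw.2
      · rw [ip_add_right, h, hie]; exact CharTwo.add_self_eq_zero _
  have h2 := card_filter_add_card_filter_not (s := (univ : Finset (Vec k))) (fun v => ip a v = 0)
  rw [card_univ, card_vec] at h2
  rw [hyp] at hc ⊢
  omega

/-- `x` is bad for the assignment `v`: some nonzero vector is orthogonal to all `v i`, `i ∈ x`. -/
def Bad {n k : ℕ} (v : Fin n → Vec k) (x : Finset (Fin n)) : Prop :=
  ∃ a : Vec k, a ≠ 0 ∧ ∀ i ∈ x, ip a (v i) = 0

/-- Few assignments make a given set bad. -/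
lemma card_bad {n k : ℕ} (x : Finset (Fin n)) :
    (univ.filter (fun v : Fin n → Vec k => Bad v x)).card * 2 ^ x.card ≤
      2 ^ k * Fintype.card (Fin n → Vec k) := by
  have hone : ∀ a : Vec k, a ≠ 0 →
      (univ.filter (fun v : Fin n → Vec k => ∀ i ∈ x, ip a (v i) = 0)).card * 2 ^ x.card =
        Fintype.card (Fin n → Vec k) := by
    intro a ha
    have h1 : (univ.filter (fun v : Fin n → Vec k => ∀ i ∈ x, ip a (v i) = 0)) =
        Fintype.piFinset (fun i => if i ∈ x then hyp a else univ) := by
      ext v
      rw [mem_filter, Fintype.mem_piFinset]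
      constructor
      · rintro ⟨-, h⟩ i
        split_ifs with hi
        · rw [hyp, mem_filter]; exact ⟨mem_univ _, h i hi⟩
        · exact mem_univ _
      · intro h
        refine ⟨mem_univ _, fun i hi => ?_⟩
        have := h i
        rw [if_pos hi, hyp, mem_filter] at this
        exact this.2
    rw [h1, Fintype.card_piFinset]
    have h2 : ∀ i : Fin n, (if i ∈ x then hyp a else univ : Finset (Vec k)).card *
        (if i ∈ x then 2 else 1) = 2 ^ k := by
      intro i
      split_ifs with hi
      · rw [mul_comm]; exact card_hyp ha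
      · rw [card_univ, card_vec, mul_one]
    have h3 : (2 : ℕ) ^ x.card = ∏ i : Fin n, (if i ∈ x then 2 else 1) := by
      rw [prod_ite]
      simp
    rw [h3, ← prod_mul_distrib, prod_congr rfl (fun i _ => h2 i)]
    simp [ZMod.card, Vec]
  have hsub : (univ.filter (fun v : Fin n → Vec k => Bad v x)) ⊆
      ((univ : Finset (Vec k)).filter (fun a => a ≠ 0)).biUnion
        (fun a => univ.filter (fun v : Fin n → Vec k => ∀ i ∈ x, ip a (v i) = 0)) := by
    intro v hv
    rw [mem_filter] at hv
    obtain ⟨a, ha, h⟩ := hv.2
    exact mem_biUnion.2 ⟨a, mem_filter.2 ⟨mem_univ _, ha⟩, mem_filter.2 ⟨mem_univ _, h⟩⟩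
  calc (univ.filter (fun v : Fin n → Vec k => Bad v x)).card * 2 ^ x.card
      ≤ (∑ a ∈ (univ : Finset (Vec k)).filter (fun a => a ≠ 0),
          (univ.filter (fun v : Fin n → Vec k => ∀ i ∈ x, ip a (v i) = 0)).card) *
            2 ^ x.card :=
        Nat.mul_le_mul_right _ ((card_le_card hsub).trans card_biUnion_le)
    _ = ∑ a ∈ (univ : Finset (Vec k)).filter (fun a => a ≠ 0), Fintype.card (Fin n → Vec k) := by
        rw [sum_mul]
        exact sum_congr rfl fun a ha => hone a (mem_filter.1 ha).2
    _ = ((univ : Finset (Vec k)).filter (fun a => a ≠ 0)).card *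
          Fintype.card (Fin n → Vec k) := by rw [sum_const, smul_eq_mul]
    _ ≤ 2 ^ k * Fintype.card (Fin n → Vec k) := by
        apply Nat.mul_le_mul_right
        calc _ ≤ (univ : Finset (Vec k)).card := card_filter_le _ _
          _ = 2 ^ k := by rw [card_univ, card_vec]

/-- the set of coordinates with value `1` of a subcube -/
noncomputable def ones {n : ℕ} (D : Fin n → Option Bool) : Finset (Fin n) :=
  univ.filter (fun i => D i = some true)

/-- the set of flip coordinates of a subcube -/
noncomputable def flips {n : ℕ} (D : Fin n → Option Bool) : Finset (Fin n) :=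
  univ.filter (fun i => D i = none)

/-- the 2-subcubes with `r` ones -/
noncomputable def layer (n r : ℕ) : Finset (Fin n → Option Bool) :=
  univ.filter (fun D => (flips D).card = 2 ∧ (ones D).card = r)

/-- In each layer there is an assignment with few bad 2-subcubes. -/
lemma exists_assignment (n r s : ℕ) (hs : s ≤ r) :
    ∃ v : Fin n → Vec (r - s),
      ((layer n r).filter (fun D => Bad v (ones D))).card * 2 ^ s ≤ (layer n r).card := by
  by_contra hcon
  push Not at hcon
  have h1 : ∑ v : Fin n → Vec (r - s), (layer n r).card <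
      ∑ v : Fin n → Vec (r - s), ((layer n r).filter (fun D => Bad v (ones D))).card * 2 ^ s :=
    sum_lt_sum_of_nonempty ⟨fun _ => 0, mem_univ _⟩ fun v _ => hcon v
  have h2 : ∑ v : Fin n → Vec (r - s), ((layer n r).filter (fun D => Bad v (ones D))).card =
      ∑ D ∈ layer n r, (univ.filter (fun v : Fin n → Vec (r - s) => Bad v (ones D))).card := by
    simp only [card_filter]
    exact sum_comm
  have h3 : ∀ D ∈ layer n r,
      (univ.filter (fun v : Fin n → Vec (r - s) => Bad v (ones D))).card * 2 ^ s ≤
        Fintype.card (Fin n → Vec (r - s)) := by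
    intro D hD
    rw [layer, mem_filter] at hD
    have h4 := card_bad (k := r - s) (ones D)
    rw [hD.2.2] at h4
    have h5 : (2 : ℕ) ^ r = 2 ^ (r - s) * 2 ^ s := by rw [← pow_add]; congr 1; omega
    rw [h5] at h4
    have h6 : 2 ^ (r - s) *
        ((univ.filter (fun v : Fin n → Vec (r - s) => Bad v (ones D))).card * 2 ^ s) ≤
        2 ^ (r - s) * Fintype.card (Fin n → Vec (r - s)) := by
      calc _ = (univ.filter (fun v : Fin n → Vec (r - s) => Bad v (ones D))).card *
          (2 ^ (r - s) * 2 ^ s) := by ring
        _ ≤ _ := h4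
    exact Nat.le_of_mul_le_mul_left h6 (by positivity)
  rw [← sum_mul, h2, sum_mul, sum_const, smul_eq_mul, card_univ] at h1
  have h7 := sum_le_sum h3
  rw [sum_const, smul_eq_mul] at h7
  have := lt_of_lt_of_le h1 h7
  rw [mul_comm] at this
  exact lt_irrefl _ this

/-- Orthogonality: for few vectors there are two distinct nonzero vectors orthogonal to all. -/
lemma exists_two {n k : ℕ} (v : Fin n → Vec k) (T : Finset (Fin n)) (hT : T.card + 2 ≤ k) :
    ∃ a b : Vec k, a ≠ 0 ∧ b ≠ 0 ∧ a ≠ b ∧ (∀ i ∈ T, ip a (v i) = 0) ∧
      ∀ i ∈ T, ip b (v i) = 0 := by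
  -- fibres of the map `a ↦ (ip a (v i))_{i ∈ T}`
  let φ : Vec k → (T → ZMod 2) := fun a i => ip a (v i)
  have hcard : Fintype.card (T → ZMod 2) * 3 < Fintype.card (Vec k) := by
    rw [card_vec]
    simp only [Fintype.card_pi, ZMod.card, prod_const, card_univ, Fintype.card_coe]
    calc 2 ^ T.card * 3 < 2 ^ T.card * 4 := by
          have : 0 < 2 ^ T.card := by positivity
          omega
      _ = 2 ^ (T.card + 2) := by rw [pow_add]; norm_num
      _ ≤ 2 ^ k := Nat.pow_le_pow_right (by norm_num) hT
  obtain ⟨y, hy⟩ := Fintype.exists_lt_card_fiber_of_mul_lt_card φ hcard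
  set Fb := (univ.filter (fun x => φ x = y)) with hFb
  obtain ⟨c, hc⟩ : Fb.Nonempty := card_pos.1 (by omega)
  have h2 : 2 < (Fb.erase c).card + 1 := by rw [card_erase_of_mem hc]; omega
  obtain ⟨d, hd, e, he, hde⟩ := Finset.one_lt_card.1 (show 1 < (Fb.erase c).card by omega)
  rw [mem_erase] at hd he
  have hφ : ∀ z ∈ Fb, ∀ i ∈ T, ip z (v i) = ip c (v i) := by
    intro z hz i hi
    rw [hFb, mem_filter] at hz hc
    have h3 : φ z = φ c := hz.2.trans hc.2.symm
    exact congrFun h3 ⟨i, hi⟩
  have hcc : ∀ z : Vec k, c + z = 0 → z = c := by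
    intro z hz
    funext j
    have := congrFun hz j
    simp only [Pi.add_apply, Pi.zero_apply] at this
    exact (CharTwo.add_eq_zero.1 this).symm
  refine ⟨c + d, c + e, fun h => hd.1 (hcc d h), fun h => he.1 (hcc e h),
    fun h => hde (add_left_cancel h), ?_, ?_⟩
  · intro i hi
    rw [ip_add_left, hφ d hd.2 i hi]
    exact CharTwo.add_self_eq_zero _
  · intro i hi
    rw [ip_add_left, hφ e he.2 i hi]
    exact CharTwo.add_self_eq_zero _

/-- Among `3m` further coordinates there are `m` which together with `T` form a bad set. -/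
lemma exists_bad {n k m : ℕ} (v : Fin n → Vec k) (T D' : Finset (Fin n)) (hT : T.card + 2 ≤ k)
    (hD : D'.card = 3 * m) : ∃ E ⊆ D', E.card = m ∧ Bad v (T ∪ E) := by
  obtain ⟨a, b, ha, hb, hab, hTa, hTb⟩ := exists_two v T hT
  let Z : Vec k → Finset (Fin n) := fun c => D'.filter (fun i => ip c (v i) = 0)
  have hcov : D' ⊆ Z a ∪ Z b ∪ Z (a + b) := by
    intro i hi
    simp only [Z, mem_union, mem_filter]
    rcases zmod2_cases (ip a (v i)) with h | h
    · left; left; exact ⟨hi, h⟩
    · rcases zmod2_cases (ip b (v i)) with h' | h'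
      · left; right; exact ⟨hi, h'⟩
      · right
        refine ⟨hi, ?_⟩
        rw [ip_add_left, h, h']
        exact CharTwo.add_self_eq_zero _
  have hsum : 3 * m ≤ (Z a).card + (Z b).card + (Z (a + b)).card := by
    rw [← hD]
    refine (card_le_card hcov).trans ((card_union_le _ _).trans ?_)
    have := card_union_le (Z a) (Z b)
    omega
  have hfin : ∀ c : Vec k, c ≠ 0 → (∀ i ∈ T, ip c (v i) = 0) → m ≤ (Z c).card →
      ∃ E ⊆ D', E.card = m ∧ Bad v (T ∪ E) := by
    intro c hc hTc hm
    obtain ⟨E, hE, hEc⟩ := exists_subset_card_eq hm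
    refine ⟨E, hE.trans (filter_subset _ _), hEc, c, hc, ?_⟩
    intro i hi
    rcases mem_union.1 hi with h | h
    · exact hTc i h
    · exact (mem_filter.1 (hE h)).2
  rcases Nat.lt_or_ge (Z a).card m with h1 | h1
  · rcases Nat.lt_or_ge (Z b).card m with h2 | h2
    · refine hfin (a + b) ?_ ?_ (by omega)
      · intro h
        apply hab
        funext j
        have := congrFun h j
        simp only [Pi.add_apply, Pi.zero_apply] at this
        exact CharTwo.add_eq_zero.1 this
      · intro i hi
        rw [ip_add_left, hTa i hi, hTb i hi, add_zero]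
    · exact hfin b hb hTb h2
  · exact hfin a ha hTa h1

/-- **The construction.**  For `m ≥ 2` there is a set `R` of 2-subcubes of the `n`-cube, of density
at most `2^(-(m-2))`, which contains a 2-subcube of every `(3m+2)`-subcube. -/
theorem exists_hitting (n m : ℕ) (hm : 2 ≤ m) :
    ∃ R : Finset (Fin n → Option Bool),
      (∀ D ∈ R, (flips D).card = 2) ∧
      R.card * 2 ^ (m - 2) ≤
        ((univ : Finset (Fin n → Option Bool)).filter (fun D => (flips D).card = 2)).card ∧
      ∀ C : Fin n → Option Bool, (flips C).card = 3 * m + 2 →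
        ∃ D ∈ R, ∀ (i : Fin n) (b : Bool), C i = some b → D i = some b := by
  -- assignments for all layers
  have hex : ∀ r : ℕ, ∃ v : Fin n → Vec (r - (m - 2)), m - 2 ≤ r →
      ((layer n r).filter (fun D => Bad v (ones D))).card * 2 ^ (m - 2) ≤ (layer n r).card := by
    intro r
    by_cases hr : m - 2 ≤ r
    · obtain ⟨v, hv⟩ := exists_assignment n r (m - 2) hr
      exact ⟨v, fun _ => hv⟩
    · exact ⟨fun _ => 0, fun h => absurd h hr⟩
  choose v hv using hex
  let R : Finset (Fin n → Option Bool) :=
    ((range (n + 1)).filter (fun r => m - 2 ≤ r)).biUnion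
      (fun r => (layer n r).filter (fun D => Bad (v r) (ones D)))
  have hones : ∀ D : Fin n → Option Bool, (ones D).card ≤ n := by
    intro D
    calc (ones D).card ≤ (univ : Finset (Fin n)).card := card_le_univ _
      _ = n := by simp
  refine ⟨R, ?_, ?_, ?_⟩
  · intro D hD
    obtain ⟨r, -, hD⟩ := mem_biUnion.1 hD
    rw [mem_filter, layer, mem_filter] at hD
    exact hD.1.2.1
  · have h1 : R.card ≤ ∑ r ∈ (range (n + 1)).filter (fun r => m - 2 ≤ r),
        ((layer n r).filter (fun D => Bad (v r) (ones D))).card := card_biUnion_le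
    have h2 : ∑ r ∈ (range (n + 1)).filter (fun r => m - 2 ≤ r),
        ((layer n r).filter (fun D => Bad (v r) (ones D))).card * 2 ^ (m - 2) ≤
        ∑ r ∈ (range (n + 1)).filter (fun r => m - 2 ≤ r), (layer n r).card :=
      sum_le_sum fun r hr => hv r (mem_filter.1 hr).2
    have h3 : ∑ r ∈ (range (n + 1)).filter (fun r => m - 2 ≤ r), (layer n r).card ≤
        ∑ r ∈ range (n + 1), (layer n r).card :=
      sum_le_sum_of_subset (filter_subset _ _)
    have h4 : ((univ : Finset (Fin n → Option Bool)).filter (fun D => (flips D).card = 2)).card =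
        ∑ r ∈ range (n + 1), (layer n r).card := by
      rw [card_eq_sum_card_fiberwise (f := fun D => (ones D).card) (t := range (n + 1))]
      · refine sum_congr rfl fun r _ => ?_
        congr 1
        ext D
        simp [layer]
      · intro D _
        rw [mem_coe, mem_range]
        exact Nat.lt_succ_of_le (hones D)
    rw [h4]
    calc R.card * 2 ^ (m - 2) ≤ (∑ r ∈ (range (n + 1)).filter (fun r => m - 2 ≤ r),
        ((layer n r).filter (fun D => Bad (v r) (ones D))).card) * 2 ^ (m - 2) :=
          Nat.mul_le_mul_right _ h1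
      _ = ∑ r ∈ (range (n + 1)).filter (fun r => m - 2 ≤ r),
        ((layer n r).filter (fun D => Bad (v r) (ones D))).card * 2 ^ (m - 2) := by rw [sum_mul]
      _ ≤ _ := h2.trans h3
  · intro C hC
    -- choose two flip coordinates
    obtain ⟨P, hP, hPc⟩ := exists_subset_card_eq (show 2 ≤ (flips C).card by omega)
    set D' := flips C \ P with hD'
    have hD'c : D'.card = 3 * m := by
      rw [hD', card_sdiff_of_subset hP, hC, hPc]; omega
    set T := ones C with hT
    set r := T.card + m with hr
    obtain ⟨E, hE, hEc, hbad⟩ := exists_bad (v r) T D' (by omega) hD'c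
    let D : Fin n → Option Bool := fun i =>
      if i ∈ P then none else if i ∈ E then some true else if i ∈ flips C then some false else C i
    have hEP : ∀ i ∈ E, i ∉ P := fun i hi => (mem_sdiff.1 (hE hi)).2
    have hEf : ∀ i ∈ E, i ∈ flips C := fun i hi => (mem_sdiff.1 (hE hi)).1
    have hfD : flips D = P := by
      ext i
      simp only [flips, mem_filter, mem_univ, true_and, D]
      constructor
      · intro h
        by_contra hiP
        rw [if_neg hiP] at h
        split_ifs at h with h1 h2
        exact h2 h
      · intro hi; rw [if_pos hi]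
    have hoD : ones D = T ∪ E := by
      ext i
      simp only [ones, mem_filter, mem_univ, true_and, D, hT, mem_union]
      constructor
      · intro h
        split_ifs at h with h1 h2 h3
        · right; exact h2
        · exact absurd h (by simp)
        · left; exact h
      · rintro (h | h)
        · have h1 : i ∉ flips C := by
            simp [flips, h]
          have h2 : i ∉ P := fun hi => h1 (hP hi)
          have h3 : i ∉ E := fun hi => h1 (hEf i hi)
          rw [if_neg h2, if_neg h3]
          simp only [flips, mem_filter, mem_univ, true_and, h]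
          simp
        · rw [if_neg (hEP i h), if_pos h]
    have hdis : Disjoint T E := by
      rw [disjoint_left]
      intro i hi hiE
      have h1 := hEf i hiE
      simp only [flips, mem_filter, mem_univ, true_and] at h1
      simp only [hT, ones, mem_filter, mem_univ, true_and] at hi
      rw [h1] at hi
      exact absurd hi (by simp)
    have hoDc : (ones D).card = r := by
      rw [hoD, card_union_of_disjoint hdis, hEc]
    refine ⟨D, ?_, ?_⟩
    · apply mem_biUnion.2
      refine ⟨r, mem_filter.2 ⟨mem_range.2 ?_, by omega⟩, ?_⟩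
      · have := hones D; omega
      · rw [mem_filter, layer, mem_filter]
        refine ⟨⟨mem_univ _, by rw [hfD, hPc], hoDc⟩, ?_⟩
        rw [hoD]; exact hbad
    · intro i b hCi
      have h1 : i ∉ flips C := by simp [flips, hCi]
      have h2 : i ∉ P := fun hi => h1 (hP hi)
      have h3 : i ∉ E := fun hi => h1 (hEf i hi)
      simp only [D]
      rw [if_neg h2, if_neg h3, if_neg h1, hCi]

end Pool.Agent.Q113.Subcube
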