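import Mathlib
import Pool.Agent.Q113.HermAlg
import Pool.Agent.Q113.AntiONan

/-!
# Hermitian unitals in characteristic two

For a finite field `K` with `q²` elements, `q` a power of two, the isotropic points of the
Hermitian form form a linear space on `q³ + 1` points with blocks of size `q + 1`, and it contains
no O'Nan configuration.
-/

namespace Pool.Agent.Q113.Unital

open Finset Pool.Agent.Q113.HermAlg Pool.Agent.Q113.AntiONan

variable {K : Type} [Field K] [Fintype K] [DecidableEq K]

lemma card_roots_le (p : Polynomial K) (hp : p ≠ 0) :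
    (univ.filter (fun x => p.eval x = 0)).card ≤ p.natDegree := by
  apply Polynomial.card_le_degree_of_subset_roots
  intro x hx
  have hx' : x ∈ (univ.filter (fun x => p.eval x = 0)) := hx
  rw [Polynomial.mem_roots hp]
  exact (Finset.mem_filter.1 hx').2

/-- The data: a field with `q²` elements of characteristic two and its involution. -/
structure Data (K : Type) [Field K] [Fintype K] (q : ℕ) (σ : K →+* K) : Prop where
  two_le : 2 ≤ q
  card : Fintype.card K = q ^ 2
  pow : ∀ x, σ x = x ^ q
  invol : ∀ x, σ (σ x) = x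
  char : ∀ x : K, x + x = 0

variable {q : ℕ} {σ : K →+* K}

lemma neg_eq (D : Data K q σ) (x : K) : -x = x := by
  have := D.char x
  linear_combination -this

lemma fixed_le (D : Data K q σ) : (univ.filter (fun x => σ x = x)).card ≤ q := by
  have hq := D.two_le
  have hdeg : (Polynomial.X ^ q - Polynomial.X : Polynomial K).natDegree = q := by
    rw [Polynomial.natDegree_sub_eq_left_of_natDegree_lt] <;>
      simp only [Polynomial.natDegree_X_pow, Polynomial.natDegree_X]
    omega
  have hp : (Polynomial.X ^ q - Polynomial.X : Polynomial K) ≠ 0 := by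
    intro h
    rw [h, Polynomial.natDegree_zero] at hdeg
    omega
  have := card_roots_le _ hp
  rw [hdeg] at this
  refine le_trans (Finset.card_le_card ?_) this
  intro x hx
  rw [Finset.mem_filter] at hx ⊢
  refine ⟨Finset.mem_univ _, ?_⟩
  rw [Polynomial.eval_sub, Polynomial.eval_pow, Polynomial.eval_X, ← D.pow, hx.2, sub_self]

lemma trace_le (D : Data K q σ) (c : K) : (univ.filter (fun x => x + σ x = c)).card ≤ q := by
  have hq := D.two_le
  have hdeg : (Polynomial.X ^ q + (Polynomial.X - Polynomial.C c) : Polynomial K).natDegree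
      = q := by
    rw [Polynomial.natDegree_add_eq_left_of_natDegree_lt]
    · simp
    · simp only [Polynomial.natDegree_X_pow, Polynomial.natDegree_X_sub_C]
      omega
  have hp : (Polynomial.X ^ q + (Polynomial.X - Polynomial.C c) : Polynomial K) ≠ 0 := by
    intro h
    rw [h, Polynomial.natDegree_zero] at hdeg
    omega
  have := card_roots_le _ hp
  rw [hdeg] at this
  refine le_trans (Finset.card_le_card ?_) this
  intro x hx
  rw [Finset.mem_filter] at hx ⊢
  refine ⟨Finset.mem_univ _, ?_⟩
  rw [Polynomial.eval_add, Polynomial.eval_pow, Polynomial.eval_sub, Polynomial.eval_X,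
    Polynomial.eval_C, ← D.pow, ← hx.2]
  ring

lemma norm_le (D : Data K q σ) (c : K) : (univ.filter (fun x => x * σ x = c)).card ≤ q + 1 := by
  have hq := D.two_le
  have hdeg : (Polynomial.X ^ (q + 1) - Polynomial.C c : Polynomial K).natDegree
      = q + 1 := Polynomial.natDegree_X_pow_sub_C
  have hp : (Polynomial.X ^ (q + 1) - Polynomial.C c : Polynomial K) ≠ 0 := by
    intro h
    rw [h, Polynomial.natDegree_zero] at hdeg
    omega
  have := card_roots_le _ hp
  rw [hdeg] at this
  refine le_trans (Finset.card_le_card ?_) this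
  intro x hx
  rw [Finset.mem_filter] at hx ⊢
  refine ⟨Finset.mem_univ _, ?_⟩
  rw [Polynomial.eval_sub, Polynomial.eval_pow, Polynomial.eval_X, Polynomial.eval_C, pow_succ',
    ← D.pow, hx.2, sub_self]

lemma trace_count (D : Data K q σ) (c : K) (hc : σ c = c) :
    (univ.filter (fun x => x + σ x = c)).card = q := by
  apply le_antisymm (trace_le D c)
  have hq := D.two_le
  have hmap : ∀ x ∈ (univ : Finset K), x + σ x ∈ univ.filter (fun x => σ x = x) := by
    intro x _
    rw [Finset.mem_filter]
    refine ⟨Finset.mem_univ _, ?_⟩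
    rw [map_add, D.invol, add_comm]
  have hsum := Finset.card_eq_sum_card_fiberwise hmap
  rw [Finset.card_univ, D.card] at hsum
  have hcmem : c ∈ univ.filter (fun x => σ x = x) :=
    Finset.mem_filter.2 ⟨Finset.mem_univ _, hc⟩
  rw [← Finset.add_sum_erase _ _ hcmem] at hsum
  have h1 : ∑ x ∈ (univ.filter (fun x => σ x = x)).erase c,
      (univ.filter (fun y => y + σ y = x)).card ≤ (q - 1) * q := by
    refine le_trans (Finset.sum_le_card_nsmul _ _ q (fun x _ => trace_le D x)) ?_
    rw [Finset.card_erase_of_mem hcmem, smul_eq_mul]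
    exact Nat.mul_le_mul_right _ (Nat.sub_le_sub_right (fixed_le D) 1)
  have h2 : q ^ 2 ≤ (univ.filter (fun y => y + σ y = c)).card + (q - 1) * q := by
    rw [hsum]; exact Nat.add_le_add_left h1 _
  obtain ⟨r, rfl⟩ : ∃ r, q = r + 1 := ⟨q - 1, by omega⟩
  rw [Nat.add_sub_cancel] at h2
  nlinarith

lemma norm_count (D : Data K q σ) (c : K) (hc : σ c = c) (hc0 : c ≠ 0) :
    (univ.filter (fun x => x * σ x = c)).card = q + 1 := by
  apply le_antisymm (norm_le D c)
  have hq := D.two_le
  have hmap : ∀ x ∈ (univ : Finset K).erase 0,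
      x * σ x ∈ (univ.filter (fun x => σ x = x)).erase 0 := by
    intro x hx
    have hx0 : x ≠ 0 := (Finset.mem_erase.1 hx).1
    rw [Finset.mem_erase, Finset.mem_filter]
    refine ⟨mul_ne_zero hx0 ?_, Finset.mem_univ _, ?_⟩
    · intro h
      apply hx0
      rw [← D.invol x, h, map_zero]
    · rw [map_mul, D.invol, mul_comm]
  have hsum := Finset.card_eq_sum_card_fiberwise hmap
  rw [Finset.card_erase_of_mem (Finset.mem_univ _), Finset.card_univ, D.card] at hsum
  have h0mem : (0 : K) ∈ univ.filter (fun x => σ x = x) :=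
    Finset.mem_filter.2 ⟨Finset.mem_univ _, map_zero σ⟩
  have hcmem : c ∈ (univ.filter (fun x => σ x = x)).erase 0 :=
    Finset.mem_erase.2 ⟨hc0, Finset.mem_filter.2 ⟨Finset.mem_univ _, hc⟩⟩
  rw [← Finset.add_sum_erase _ _ hcmem] at hsum
  have hle : ∀ x : K, ((univ.erase 0).filter (fun y => y * σ y = x)).card ≤ q + 1 := fun x =>
    le_trans (Finset.card_le_card (Finset.filter_subset_filter _ (Finset.erase_subset _ _)))
      (norm_le D x)
  have h1 : ∑ x ∈ ((univ.filter (fun x => σ x = x)).erase 0).erase c,
      ((univ.erase 0).filter (fun y => y * σ y = x)).card ≤ (q - 1 - 1) * (q + 1) := by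
    refine le_trans (Finset.sum_le_card_nsmul _ _ (q + 1) (fun x _ => hle x)) ?_
    rw [Finset.card_erase_of_mem hcmem, Finset.card_erase_of_mem h0mem, smul_eq_mul]
    exact Nat.mul_le_mul_right _
      (Nat.sub_le_sub_right (Nat.sub_le_sub_right (fixed_le D) 1) 1)
  have h2 : q ^ 2 - 1 ≤ ((univ.erase 0).filter (fun y => y * σ y = c)).card +
      (q - 1 - 1) * (q + 1) := by
    rw [hsum]; exact Nat.add_le_add_left h1 _
  have h3 : ((univ.erase 0).filter (fun y => y * σ y = c)).card ≤
      (univ.filter (fun y => y * σ y = c)).card :=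
    Finset.card_le_card (Finset.filter_subset_filter _ (Finset.erase_subset _ _))
  obtain ⟨r, rfl⟩ : ∃ r, q = r + 2 := ⟨q - 2, by omega⟩
  have h4 : r + 2 - 1 - 1 = r := by omega
  rw [h4] at h2
  have h5 : (r + 2) ^ 2 - 1 = r * (r + 3) + (r + 3) := by
    have : (r + 2) ^ 2 = r * (r + 3) + (r + 3) + 1 := by ring
    omega
  rw [h5] at h2
  have h6 : r * (r + 2 + 1) = r * (r + 3) := by ring
  omega

/-- The affine isotropic points. -/
abbrev Aff (σ : K →+* K) : Type := {p : K × K // p.1 + σ p.1 + p.2 * σ p.2 = 0}

/-- The points of the unital. -/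
abbrev Pt (σ : K →+* K) : Type := Option (Aff σ)

/-- The vector representing a point. -/
def vec : Pt σ → V K
  | none => (1, 0, 0)
  | some p => (p.1.1, p.1.2, 1)

/-- The functionals describing the lines. -/
def fn : K ⊕ (K × K) → V K
  | Sum.inl b => (0, 1, b)
  | Sum.inr (s, t) => (1, s, t)

/-- The set of points on a line. -/
def blk (σ : K →+* K) (n : K ⊕ (K × K)) : Finset (Pt σ) :=
  univ.filter (fun P => ev (fn n) (vec P) = 0)

lemma norm_fixed (D : Data K q σ) (b : K) : σ (b * σ b) = b * σ b := by
  rw [map_mul, D.invol, mul_comm]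

lemma card_Pt (D : Data K q σ) : Fintype.card (Pt σ) = q ^ 3 + 1 := by
  classical
  rw [Fintype.card_option, Fintype.card_subtype]
  congr 1
  have hmap : ∀ p ∈ (univ.filter (fun p : K × K => p.1 + σ p.1 + p.2 * σ p.2 = 0)),
      p.2 ∈ (univ : Finset K) := fun p _ => Finset.mem_univ _
  rw [Finset.card_eq_sum_card_fiberwise hmap]
  have : ∀ b ∈ (univ : Finset K),
      ((univ.filter (fun p : K × K => p.1 + σ p.1 + p.2 * σ p.2 = 0)).filter
        (fun p => p.2 = b)).card = q := by
    intro b _
    rw [← trace_count D (b * σ b) (norm_fixed D b)]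
    apply Finset.card_nbij' (fun p => p.1) (fun a => (a, b))
    · intro p hp
      simp only [Finset.coe_filter, Finset.mem_filter, Finset.mem_univ, true_and,
        Set.mem_ofPred_eq] at hp ⊢
      obtain ⟨h1, rfl⟩ := hp
      have := D.char (p.2 * σ p.2)
      linear_combination h1 - this
    · intro a ha
      simp only [Finset.coe_filter, Finset.mem_filter, Finset.mem_univ, true_and,
        Set.mem_ofPred_eq] at ha ⊢
      refine ⟨?_, trivial⟩
      have := D.char (b * σ b)
      linear_combination ha + this
    · intro p hp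
      simp only [Finset.coe_filter, Finset.mem_filter, Finset.mem_univ, true_and,
        Set.mem_ofPred_eq] at hp
      obtain ⟨_, h2⟩ := hp
      exact Prod.ext rfl h2.symm
    · intro a _
      rfl
  rw [Finset.sum_congr rfl this, Finset.sum_const, Finset.card_univ, D.card, smul_eq_mul]
  ring

lemma mem_blk {n : K ⊕ (K × K)} {P : Pt σ} : P ∈ blk σ n ↔ ev (fn n) (vec P) = 0 := by
  simp [blk]

lemma card_blk_inl (D : Data K q σ) (b : K) : (blk σ (Sum.inl b)).card = q + 1 := by
  classical
  let g : K → Pt σ := fun a => if h : a + σ a + b * σ b = 0 then some ⟨(a, b), h⟩ else none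
  have heq : blk σ (Sum.inl b) =
      insert none ((univ.filter (fun a => a + σ a = b * σ b)).image g) := by
    ext P
    rw [mem_blk, Finset.mem_insert, Finset.mem_image]
    constructor
    · intro h
      rcases P with _ | ⟨⟨a, b'⟩, hp⟩
      · left; rfl
      · right
        simp only [ev, fn, vec] at h
        have hb : b' = b := by
          have := D.char b
          linear_combination h - this
        subst hb
        have ha : a + σ a = b' * σ b' := by
          have := D.char (b' * σ b')
          simp only at hp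
          linear_combination hp - this
        refine ⟨a, Finset.mem_filter.2 ⟨Finset.mem_univ _, ha⟩, ?_⟩
        simp only [g]
        rw [dif_pos hp]
    · rintro (rfl | ⟨a, ha, rfl⟩)
      · simp [ev, fn, vec]
      · have ha' := (Finset.mem_filter.1 ha).2
        have h0 : a + σ a + b * σ b = 0 := by
          have := D.char (b * σ b)
          linear_combination ha' + this
        simp only [g]
        rw [dif_pos h0]
        simp only [ev, fn, vec]
        have := D.char b
        linear_combination this
  rw [heq, Finset.card_insert_of_notMem, Finset.card_image_of_injOn,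
    trace_count D (b * σ b) (norm_fixed D b)]
  · intro a ha a' ha' h
    simp only [Finset.coe_filter, Finset.mem_univ, true_and, Set.mem_ofPred_eq] at ha ha'
    have h0 : a + σ a + b * σ b = 0 := by
      have := D.char (b * σ b)
      linear_combination ha + this
    have h0' : a' + σ a' + b * σ b = 0 := by
      have := D.char (b * σ b)
      linear_combination ha' + this
    simp only [g] at h
    rw [dif_pos h0, dif_pos h0'] at h
    have := Option.some.inj h
    exact congrArg (fun p : Aff σ => p.1.1) this
  · intro h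
    obtain ⟨a, ha, h⟩ := Finset.mem_image.1 h
    have ha' := (Finset.mem_filter.1 ha).2
    have h0 : a + σ a + b * σ b = 0 := by
      have := D.char (b * σ b)
      linear_combination ha' + this
    simp only [g] at h
    rw [dif_pos h0] at h
    exact absurd h (by simp)

lemma card_blk_inr (D : Data K q σ) (s t : K) :
    (blk σ (Sum.inr (s, t))).card =
      (univ.filter (fun x => x * σ x = s * σ s + t + σ t)).card := by
  classical
  -- the equation satisfied by `b`
  have hid : ∀ b : K, (s * b + t) + σ (s * b + t) + b * σ b =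
      (b + σ s) * σ (b + σ s) + (s * σ s + t + σ t) - (s * σ s + s * σ s) := by
    intro b
    rw [map_add, map_add, map_mul, D.invol]
    ring
  have hiff : ∀ b : K, (s * b + t) + σ (s * b + t) + b * σ b = 0 ↔
      (b + σ s) * σ (b + σ s) = s * σ s + t + σ t := by
    intro b
    rw [hid, D.char, sub_zero]
    constructor
    · intro h
      have := D.char (s * σ s + t + σ t)
      linear_combination h - this
    · intro h
      have := D.char (s * σ s + t + σ t)
      linear_combination h + this
  let g : K → Pt σ := fun x =>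
    if h : (s * (x + σ s) + t) + σ (s * (x + σ s) + t) + (x + σ s) * σ (x + σ s) = 0
    then some ⟨(s * (x + σ s) + t, x + σ s), h⟩ else none
  have hss : ∀ x : K, x + σ s + σ s = x := by
    intro x
    have := D.char (σ s)
    linear_combination this
  have hg : ∀ x : K, x * σ x = s * σ s + t + σ t →
      (s * (x + σ s) + t) + σ (s * (x + σ s) + t) + (x + σ s) * σ (x + σ s) = 0 := by
    intro x hx
    rw [hiff, hss]
    exact hx
  have heq : blk σ (Sum.inr (s, t)) =
      (univ.filter (fun x => x * σ x = s * σ s + t + σ t)).image g := by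
    ext P
    rw [mem_blk, Finset.mem_image]
    constructor
    · intro h
      rcases P with _ | ⟨⟨a, b⟩, hp⟩
      · simp [ev, fn, vec] at h
      · simp only [ev, fn, vec] at h
        have ha : a = s * b + t := by
          have := D.char (s * b + t)
          linear_combination h - this
        subst ha
        refine ⟨b + σ s, Finset.mem_filter.2 ⟨Finset.mem_univ _, (hiff b).1 hp⟩, ?_⟩
        have hp' : (s * ((b + σ s) + σ s) + t) + σ (s * ((b + σ s) + σ s) + t) +
            ((b + σ s) + σ s) * σ ((b + σ s) + σ s) = 0 := by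
          rw [hss]; exact hp
        simp only [g]
        rw [dif_pos hp']
        congr 2
        rw [hss]
    · rintro ⟨x, hx, rfl⟩
      have hx' := (Finset.mem_filter.1 hx).2
      simp only [g]
      rw [dif_pos (hg x hx')]
      simp only [ev, fn, vec]
      have := D.char (s * (x + σ s) + t)
      linear_combination this
  rw [heq, Finset.card_image_of_injOn]
  intro x hx x' hx' h
  simp only [Finset.coe_filter, Finset.mem_univ, true_and, Set.mem_ofPred_eq] at hx hx'
  simp only [g] at h
  rw [dif_pos (hg x hx), dif_pos (hg x' hx')] at h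
  have := Option.some.inj h
  have h2 : x + σ s = x' + σ s := congrArg (fun p : Aff σ => p.1.2) this
  exact add_right_cancel h2

lemma herm_vec (P : Pt σ) : herm σ (vec P) (vec P) = 0 := by
  rcases P with _ | ⟨⟨a, b⟩, hp⟩
  · simp [herm, vec]
  · simp only [herm, vec, map_one, mul_one, one_mul]
    simp only at hp
    exact hp

lemma vec_ne_zero (P : Pt σ) : (vec P : V K) ≠ 0 := by
  rcases P with _ | ⟨⟨a, b⟩, hp⟩
  · intro h
    have := congrArg (fun v : V K => v.1) h
    simp [vec] at this
  · intro h
    have := congrArg (fun v : V K => v.2.2) h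
    simp [vec] at this

lemma fn_ne_zero (n : K ⊕ (K × K)) : (fn n : V K) ≠ 0 := by
  rcases n with b | ⟨s, t⟩
  · intro h
    have := congrArg (fun v : V K => v.2.1) h
    simp [fn] at this
  · intro h
    have := congrArg (fun v : V K => v.1) h
    simp [fn] at this

lemma cross_ne_zero {P Q : Pt σ} (h : P ≠ Q) : cross (vec P) (vec Q) ≠ 0 := by
  rcases P with _ | ⟨⟨a, b⟩, hp⟩
  · rcases Q with _ | ⟨⟨a', b'⟩, hq⟩
    · exact absurd rfl h
    · intro h0
      have := congrArg (fun v : V K => v.2.1) h0
      simp [cross, vec] at this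
  · rcases Q with _ | ⟨⟨a', b'⟩, hq⟩
    · intro h0
      have := congrArg (fun v : V K => v.2.1) h0
      simp [cross, vec] at this
    · intro h0
      have h1 := congrArg (fun v : V K => v.1) h0
      have h2 := congrArg (fun v : V K => v.2.1) h0
      simp only [cross, vec, mul_one, one_mul, Prod.fst_zero, Prod.snd_zero] at h1 h2
      have hb : b = b' := sub_eq_zero.1 h1
      have ha : a' = a := sub_eq_zero.1 h2
      subst hb
      subst ha
      exact h rfl

/-- The block set of the unital. -/
def blocks (σ : K →+* K) (q : ℕ) : Finset (Finset (Pt σ)) :=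
  (univ.image (blk σ)).filter (fun b => b.card = q + 1)

lemma mem_blocks {b : Finset (Pt σ)} : b ∈ blocks σ q ↔ (∃ n, blk σ n = b) ∧ b.card = q + 1 := by
  simp [blocks]

lemma blk_unique (D : Data K q σ) {n n' : K ⊕ (K × K)} {P Q : Pt σ} (hPQ : P ≠ Q)
    (h1 : P ∈ blk σ n) (h2 : Q ∈ blk σ n) (h3 : P ∈ blk σ n') (h4 : Q ∈ blk σ n') : n = n' := by
  rw [mem_blk] at h1 h2 h3 h4
  -- case analysis on the two functionals
  rcases n with b₀ | ⟨s, t⟩
  · rcases n' with b₁ | ⟨s', t'⟩
    · -- one of the points is affine
      have key : ∀ R : Pt σ, R ≠ none → ev (fn (Sum.inl b₀)) (vec R) = 0 →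
          ev (fn (Sum.inl b₁)) (vec R) = 0 → b₀ = b₁ := by
        intro R hR e1 e2
        rcases R with _ | ⟨⟨a, b⟩, hp⟩
        · exact absurd rfl hR
        · simp only [ev, fn, vec] at e1 e2
          linear_combination e1 - e2
      by_cases hP : P = none
      · have hQ : Q ≠ none := fun h => hPQ (by rw [hP, h])
        rw [key Q hQ h2 h4]
      · rw [key P hP h1 h3]
    · exfalso
      rcases P with _ | ⟨⟨a, b⟩, hp⟩
      · simp [ev, fn, vec] at h3
      · rcases Q with _ | ⟨⟨a', b'⟩, hq⟩
        · simp [ev, fn, vec] at h4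
        · simp only [ev, fn, vec] at h1 h2 h3 h4
          have hb : b = b' := by linear_combination h1 - h2
          subst hb
          have ha : a = a' := by linear_combination h3 - h4
          subst ha
          exact hPQ rfl
  · rcases n' with b₁ | ⟨s', t'⟩
    · exfalso
      rcases P with _ | ⟨⟨a, b⟩, hp⟩
      · simp [ev, fn, vec] at h1
      · rcases Q with _ | ⟨⟨a', b'⟩, hq⟩
        · simp [ev, fn, vec] at h2
        · simp only [ev, fn, vec] at h1 h2 h3 h4
          have hb : b = b' := by linear_combination h3 - h4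
          subst hb
          have ha : a = a' := by linear_combination h1 - h2
          subst ha
          exact hPQ rfl
    · rcases P with _ | ⟨⟨a, b⟩, hp⟩
      · simp [ev, fn, vec] at h1
      · rcases Q with _ | ⟨⟨a', b'⟩, hq⟩
        · simp [ev, fn, vec] at h2
        · simp only [ev, fn, vec] at h1 h2 h3 h4
          have hs : (s - s') * (b - b') = 0 := by linear_combination h1 - h3 - (h2 - h4)
          rcases mul_eq_zero.1 hs with h | h
          · have hs' : s = s' := sub_eq_zero.1 h
            subst hs'
            have ht : t = t' := by linear_combination h1 - h3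
            rw [ht]
          · exfalso
            have hb : b = b' := sub_eq_zero.1 h
            subst hb
            have ha : a = a' := by linear_combination h1 - h2
            subst ha
            exact hPQ rfl

lemma card_blk (D : Data K q σ) {n : K ⊕ (K × K)} {P Q : Pt σ} (hPQ : P ≠ Q)
    (h1 : P ∈ blk σ n) (h2 : Q ∈ blk σ n) : (blk σ n).card = q + 1 := by
  rcases n with b₀ | ⟨s, t⟩
  · exact card_blk_inl D b₀
  · have hc := card_blk_inr D s t
    have h2le : 2 ≤ (blk σ (Sum.inr (s, t))).card := by
      have hsub : {P, Q} ⊆ blk σ (Sum.inr (s, t)) := by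
        intro x hx
        rcases Finset.mem_insert.1 hx with rfl | hx
        · exact h1
        · rw [Finset.mem_singleton.1 hx]; exact h2
      have := Finset.card_le_card hsub
      rwa [Finset.card_pair hPQ] at this
    rw [hc]
    apply norm_count D
    · rw [map_add, map_add, norm_fixed D, D.invol]
      ring
    · intro h0
      rw [h0] at hc
      have hsub : (univ.filter (fun x : K => x * σ x = 0)) ⊆ {0} := by
        intro x hx
        have hx' := (Finset.mem_filter.1 hx).2
        rw [Finset.mem_singleton]
        rcases mul_eq_zero.1 hx' with h | h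
        · exact h
        · rw [← D.invol x, h, map_zero]
      have := Finset.card_le_card hsub
      rw [Finset.card_singleton] at this
      omega

lemma exists_blk (D : Data K q σ) {P Q : Pt σ} (hPQ : P ≠ Q) :
    ∃ n, P ∈ blk σ n ∧ Q ∈ blk σ n := by
  simp only [mem_blk]
  rcases P with _ | ⟨⟨a, b⟩, hp⟩
  · rcases Q with _ | ⟨⟨a', b'⟩, hq⟩
    · exact absurd rfl hPQ
    · refine ⟨Sum.inl b', by simp [ev, fn, vec], ?_⟩
      simp only [ev, fn, vec]
      have := D.char b'
      linear_combination this
  · rcases Q with _ | ⟨⟨a', b'⟩, hq⟩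
    · refine ⟨Sum.inl b, ?_, by simp [ev, fn, vec]⟩
      simp only [ev, fn, vec]
      have := D.char b
      linear_combination this
    · by_cases hb : b = b'
      · subst hb
        refine ⟨Sum.inl b, ?_, ?_⟩ <;>
        · simp only [ev, fn, vec]
          have := D.char b
          linear_combination this
      · have hb' : b + b' ≠ 0 := by
          intro h
          apply hb
          have := D.char b'
          linear_combination h - this
        refine ⟨Sum.inr ((a + a') / (b + b'), a + (a + a') / (b + b') * b), ?_, ?_⟩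
        · simp only [ev, fn, vec]
          have := D.char (a + (a + a') / (b + b') * b)
          linear_combination this
        · simp only [ev, fn, vec]
          have h1 := D.char (a + a')
          have h2 : (a + a') / (b + b') * (b + b') = a + a' := div_mul_cancel₀ _ hb'
          linear_combination h1 + h2

/-- The Hermitian unital is a linear space with blocks of size `q + 1` and without O'Nan
configurations. -/
theorem isAntiONan (D : Data K q σ) : IsAntiONan (q + 1) (blocks σ q) := by
  refine ⟨fun b hb => (mem_blocks.1 hb).2, ?_, ?_, ?_⟩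
  · intro P Q hPQ
    obtain ⟨n, h1, h2⟩ := exists_blk D hPQ
    exact ⟨blk σ n, mem_blocks.2 ⟨⟨n, rfl⟩, card_blk D hPQ h1 h2⟩, h1, h2⟩
  · intro b hb c hc P Q hPQ h1 h2 h3 h4
    obtain ⟨⟨n, rfl⟩, -⟩ := mem_blocks.1 hb
    obtain ⟨⟨n', rfl⟩, -⟩ := mem_blocks.1 hc
    rw [blk_unique D hPQ h1 h2 h3 h4]
  · intro b₁ hb₁ b₂ hb₂ b₃ hb₃ b₄ hb₄ _ h13 _ _ _ _ p₁₂ p₁₃ p₁₄ p₂₃ p₂₄ p₃₄
      q1 q2 q3 q4 q5 q6 q7 q8 q9 q10 q11 q12 hnd
    obtain ⟨⟨n₁, rfl⟩, -⟩ := mem_blocks.1 hb₁
    obtain ⟨⟨n₂, rfl⟩, -⟩ := mem_blocks.1 hb₂
    obtain ⟨⟨n₃, rfl⟩, -⟩ := mem_blocks.1 hb₃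
    obtain ⟨⟨n₄, rfl⟩, -⟩ := mem_blocks.1 hb₄
    simp only [List.nodup_cons, List.mem_cons, List.not_mem_nil, or_false, not_or,
      List.nodup_nil, and_true, not_false_eq_true] at hnd
    obtain ⟨⟨m1, m2, m3, m4, m5⟩, ⟨m6, m7, m8, m9⟩, ⟨m10, m11, m12⟩, ⟨m13, m14⟩, m15⟩ := hnd
    refine onan_vec σ D.invol (fn n₁) (fn n₂) (fn n₃) (fn n₄) (fn_ne_zero _) (fn_ne_zero _)
      (fn_ne_zero _) (fn_ne_zero _) (vec p₁₂) (vec p₃₄) (vec p₁₃) (vec p₁₄) (vec p₂₃) (vec p₂₄)
      (herm_vec _) (herm_vec _) (herm_vec _) (herm_vec _) (herm_vec _) (herm_vec _)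
      (mem_blk.1 q1) (mem_blk.1 q2) (mem_blk.1 q11) (mem_blk.1 q12) (mem_blk.1 q3)
      (mem_blk.1 q4) (mem_blk.1 q5) (mem_blk.1 q6) (mem_blk.1 q7) (mem_blk.1 q8)
      (mem_blk.1 q9) (mem_blk.1 q10) ?_ (cross_ne_zero m1) (cross_ne_zero m2)
      (cross_ne_zero m6) (cross_ne_zero (Ne.symm m14)) (cross_ne_zero m7) (vec_ne_zero _)
    intro h0
    apply h13
    rw [blk_unique D m9 q3 (mem_blk.2 h0) q4 q11]

end Pool.Agent.Q113.Unital
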