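import Mathlib
import Pool.Agent.Q113.Unital

/-!
# Infinitely many O'Nan-free linear spaces with blocks of size five

Composing the Hermitian unitals over the fields with `q², q = 4, 64, 64³, …` elements.
-/

namespace Pool.Agent.Q113.Tower

open Finset Pool.Agent.Q113.AntiONan Pool.Agent.Q113.Unital

/-- The Hermitian unital over the field with `(2^m)²` elements. -/
theorem exists_unital (m : ℕ) (hm : 1 ≤ m) :
    ∃ (X : Type) (_ : Fintype X) (B : Finset (Finset X)),
      IsAntiONan (2 ^ m + 1) B ∧ Fintype.card X = (2 ^ m) ^ 3 + 1 := by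
  classical
  have : Fact (Nat.Prime 2) := ⟨Nat.prime_two⟩
  let K := GaloisField 2 (2 * m)
  have : Fintype K := Fintype.ofFinite K
  have hcard : Fintype.card K = (2 ^ m) ^ 2 := by
    rw [← Nat.card_eq_fintype_card, GaloisField.card 2 (2 * m) (by omega), ← pow_mul, mul_comm]
  let σ : K →+* K := iterateFrobenius K 2 m
  have hσ : ∀ x, σ x = x ^ (2 ^ m) := fun x => iterateFrobenius_def 2 m x
  have D : Data K (2 ^ m) σ := by
    refine ⟨?_, hcard, hσ, ?_, ?_⟩
    · calc 2 = 2 ^ 1 := by norm_num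
        _ ≤ 2 ^ m := Nat.pow_le_pow_right (by norm_num) hm
    · intro x
      rw [hσ, hσ, ← pow_mul, ← pow_two, ← hcard]
      exact FiniteField.pow_card x
    · intro x
      exact CharTwo.add_self_eq_zero x
  exact ⟨Pt σ, inferInstance, blocks σ (2 ^ m), isAntiONan D, card_Pt D⟩

/-- The tower. -/
theorem tower (i : ℕ) :
    ∃ (X : Type) (_ : Fintype X) (B : Finset (Finset X)),
      IsAntiONan 5 B ∧ Fintype.card X = (4 ^ 3 ^ i) ^ 3 + 1 := by
  induction i with
  | zero =>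
    obtain ⟨X, hX, B, hB, hc⟩ := exists_unital 2 (by norm_num)
    exact ⟨X, hX, B, by simpa using hB, by simpa using hc⟩
  | succ i ih =>
    obtain ⟨Y, hY, C, hC, hcY⟩ := ih
    have h3 : 1 ≤ 3 ^ (i + 1) := Nat.one_le_pow _ _ (by norm_num)
    obtain ⟨X, hX, B, hB, hcX⟩ := exists_unital (2 * 3 ^ (i + 1)) (by omega)
    have h4 : 2 ^ (2 * 3 ^ (i + 1)) = 4 ^ 3 ^ (i + 1) := by
      rw [pow_mul]; norm_num
    have h5 : (4 : ℕ) ^ 3 ^ (i + 1) = (4 ^ 3 ^ i) ^ 3 := by
      rw [← pow_mul, ← pow_succ]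
    rw [h4] at hB hcX
    obtain ⟨D, hD⟩ := compose hB hC (by rw [hcY, h5])
    exact ⟨X, hX, D, hD, hcX⟩

/-- The same on `Fin n`. -/
theorem tower_fin (i : ℕ) :
    ∃ B : Finset (Finset (Fin ((4 ^ 3 ^ i) ^ 3 + 1))), IsAntiONan 5 B := by
  obtain ⟨Y, hY, C, hC, hcY⟩ := tower i
  have htriv : IsAntiONan ((4 ^ 3 ^ i) ^ 3 + 1)
      ({univ} : Finset (Finset (Fin ((4 ^ 3 ^ i) ^ 3 + 1)))) := by
    refine ⟨?_, ?_, ?_, ?_⟩
    · intro b hb
      rw [Finset.mem_singleton.1 hb, Finset.card_univ, Fintype.card_fin]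
    · intro x y _
      exact ⟨univ, Finset.mem_singleton_self _, Finset.mem_univ _, Finset.mem_univ _⟩
    · intro b hb c hc _ _ _ _ _ _ _
      rw [Finset.mem_singleton.1 hb, Finset.mem_singleton.1 hc]
    · intro b₁ hb₁ b₂ hb₂ _ _ _ _ h12
      exact absurd ((Finset.mem_singleton.1 hb₁).trans (Finset.mem_singleton.1 hb₂).symm) h12
  exact compose htriv hC hcY

end Pool.Agent.Q113.Tower
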