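import Pool.Agent.Q113.PurityShape

/-!
# Saturated sets for `∨_s` and `J_s`, in coordinates

Everything takes place in `[0, n)²`; the coordinates are reflected such that the top element of the
configuration is above the chain.
-/

set_option autoImplicit false

namespace Q113.Pur

open Finset

/-- the box -/
def box (n : ℕ) : Finset Cell := range n ×ˢ range n

theorem mem_box {n : ℕ} {p : Cell} : p ∈ box n ↔ p.1 < n ∧ p.2 < n := by
  simp [box]

/-- the common value -/
def value (n s : ℕ) : ℕ := if n < s then n * n else (s - 1) * (2 * n - s + 1)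

/-! ### The wide fork -/

/-- a cell weakly above an antidiagonal chain of `s` cells -/
def HasV (s : ℕ) (G : Finset Cell) : Prop :=
  ∃ p ∈ G, ∃ C, C ⊆ G ∧ AC C ∧ C.card = s ∧ ∀ c ∈ C, c.1 ≤ p.1 ∧ c.2 ≤ p.2

/-- saturated sets -/
def VSat (n s : ℕ) (G : Finset Cell) : Prop :=
  G ⊆ box n ∧ ¬ HasV s G ∧ ∀ x ∈ box n, x ∉ G → HasV s (insert x G)

/-- the weak down-closure -/
def dcl (n : ℕ) (G : Finset Cell) : Finset Cell :=
  (box n).filter fun q => ∃ p ∈ G, q.1 ≤ p.1 ∧ q.2 ≤ p.2

theorem mem_dcl {n : ℕ} {G : Finset Cell} {q : Cell} :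
    q ∈ dcl n G ↔ q ∈ box n ∧ ∃ p ∈ G, q.1 ≤ p.1 ∧ q.2 ≤ p.2 := by
  rw [dcl, mem_filter]

theorem dcl_down (n : ℕ) (G : Finset Cell) : Down (dcl n G) := by
  intro p hp q h1 h2
  rw [mem_dcl, mem_box] at hp ⊢
  obtain ⟨h3, r, hr, h4⟩ := hp
  exact ⟨by omega, r, hr, by omega, by omega⟩

theorem VSat.card_eq {n k : ℕ} {G : Finset Cell} (h : VSat n (k + 1) G) :
    G.card = value n (k + 1) := by
  obtain ⟨hbox, hfree, hsat⟩ := h
  have hGD : G ⊆ dcl n G := fun p hp => mem_dcl.2 ⟨hbox hp, p, hp, le_rfl, le_rfl⟩
  have hmax : MaxFree k (dcl n G) G := by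
    refine ⟨hGD, ?_, ?_⟩
    · rintro C hC hCG ⟨u, hu, hb⟩
      by_contra hcon
      push Not at hcon
      obtain ⟨C', hC', hcard⟩ := exists_subset_card_eq (show k + 1 ≤ C.card from hcon)
      obtain ⟨_, p, hp, h1, h2⟩ := mem_dcl.1 hu
      refine hfree ⟨p, hp, C', hC'.trans hCG, hC.mono hC', hcard, ?_⟩
      intro c hc
      have := hb c (hC' hc)
      omega
    · intro x hx hxG hF
      obtain ⟨p, hp, C, hC, hAC, hcard, hb⟩ := hsat x (mem_dcl.1 hx).1 hxG
      have hpD : p ∈ dcl n G := by
        rw [mem_insert] at hp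
        rcases hp with rfl | hp
        · exact hx
        · exact hGD hp
      have := hF C hAC hC ⟨p, hpD, hb⟩
      omega
  have hborder : ∀ i j, i < n → j < n → (i < k ∨ j < k) → (i, j) ∈ dcl n G := by
    intro i j hi hj hij
    by_contra hcon
    have hxG : ((i, j) : Cell) ∉ G := fun h => hcon (hGD h)
    obtain ⟨p, hp, C, hC, hAC, hcard, hb⟩ := hsat (i, j) (mem_box.2 ⟨hi, hj⟩) hxG
    rw [mem_insert] at hp
    rcases hp with rfl | hp
    · have h1 := hAC.card_le_rows (a := 0) (b := i + 1) fun c hc => by
        have := hb c hc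
        simp only at this
        omega
      have h2 := hAC.card_le_cols (a := 0) (b := j + 1) fun c hc => by
        have := hb c hc
        simp only at this
        omega
      omega
    · by_cases hxC : ((i, j) : Cell) ∈ C
      · exact hcon (mem_dcl.2 ⟨mem_box.2 ⟨hi, hj⟩, p, hp, hb _ hxC⟩)
      · refine hfree ⟨p, hp, C, ?_, hAC, hcard, hb⟩
        intro c hc
        have := hC hc
        rw [mem_insert] at this
        rcases this with rfl | h3
        · exact absurd hc hxC
        · exact h3
  have hbox' : ∀ p ∈ dcl n G, p.1 < n ∧ p.2 < n := fun p hp => mem_box.1 (mem_dcl.1 hp).1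
  rw [hmax.card_eq (dcl_down n G), value]
  split_ifs with hn
  · exact card_canon_small hbox' hborder (by omega)
  · rw [card_canon_large (dcl_down n G) hbox' hborder (by omega)]
    congr 1
    omega

/-! ### The pattern `J_s` -/

/-- a cell strictly above an antidiagonal chain of `r` cells -/
def HasJ (r : ℕ) (G : Finset Cell) : Prop :=
  ∃ p ∈ G, ∃ C, C ⊆ G ∧ AC C ∧ C.card = r ∧ ∀ c ∈ C, c.1 < p.1 ∧ c.2 < p.2

/-- saturated sets -/
def JSat (n r : ℕ) (G : Finset Cell) : Prop :=
  G ⊆ box n ∧ ¬ HasJ r G ∧ ∀ x ∈ box n, x ∉ G → HasJ r (insert x G)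

/-- the strict down-closure -/
def scl (n : ℕ) (G : Finset Cell) : Finset Cell :=
  (box n).filter fun q => ∃ p ∈ G, q.1 < p.1 ∧ q.2 < p.2

theorem mem_scl {n : ℕ} {G : Finset Cell} {q : Cell} :
    q ∈ scl n G ↔ q ∈ box n ∧ ∃ p ∈ G, q.1 < p.1 ∧ q.2 < p.2 := by
  rw [scl, mem_filter]

theorem scl_down (n : ℕ) (G : Finset Cell) : Down (scl n G) := by
  intro p hp q h1 h2
  rw [mem_scl, mem_box] at hp ⊢
  obtain ⟨h3, r, hr, h4⟩ := hp
  exact ⟨by omega, r, hr, by omega, by omega⟩

/-- the ribbon of cells outside `U` next to `U` -/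
def ribbon (n : ℕ) (U : Finset Cell) : Finset Cell :=
  (box n).filter fun x => x ∉ U ∧ (x.1 = 0 ∨ x.2 = 0 ∨ (x.1 - 1, x.2 - 1) ∈ U)

theorem card_ribbon {n : ℕ} (hn : 1 ≤ n) {U : Finset Cell} (hU : Down U)
    (hbox : ∀ p ∈ U, p.1 < n - 1 ∧ p.2 < n - 1) : (ribbon n U).card = 2 * n - 1 := by
  classical
  have hinj : Set.InjOn (fun x : Cell => x.1 + (n - 1) - x.2) (ribbon n U : Set Cell) := by
    have key : ∀ x ∈ ribbon n U, ∀ y ∈ ribbon n U,
        x.1 + (n - 1) - x.2 = y.1 + (n - 1) - y.2 → ¬ x.1 < y.1 := by
      intro x hx y hy hxy hlt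
      rw [ribbon, mem_filter, mem_box] at hx hy
      obtain ⟨⟨hx1, hx2⟩, hx3, _⟩ := hx
      obtain ⟨⟨hy1, hy2⟩, _, hy4⟩ := hy
      rcases hy4 with h | h | h
      · omega
      · omega
      · apply hx3
        apply hU _ h
        · simp only; omega
        · simp only; omega
    intro x hx y hy hxy
    simp only at hxy
    have h1 := key x hx y hy hxy
    have h2 := key y hy x hx hxy.symm
    have hx' := hx
    have hy' := hy
    rw [mem_coe, ribbon, mem_filter, mem_box] at hx' hy'
    apply Prod.ext <;> omega
  have himg : (ribbon n U).image (fun x : Cell => x.1 + (n - 1) - x.2) = range (2 * n - 1) := by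
    ext t
    rw [mem_image, mem_range]
    constructor
    · rintro ⟨x, hx, rfl⟩
      rw [ribbon, mem_filter, mem_box] at hx
      omega
    · intro ht
      -- the diagonal starts at `(a0, b0)`
      set a0 := t - (n - 1) with ha0
      set b0 := (n - 1) - t with hb0
      have hex : ∃ l, (a0 + l, b0 + l) ∉ U :=
        ⟨n, fun h => by have := hbox _ h; simp only at this; omega⟩
      set l := Nat.find hex with hl
      have hspec : (a0 + l, b0 + l) ∉ U := Nat.find_spec hex
      have hmin : ∀ l', l' < l → (a0 + l', b0 + l') ∈ U := fun l' h => by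
        have := Nat.find_min hex h
        simpa using this
      have hin : a0 + l < n ∧ b0 + l < n := by
        rcases Nat.eq_zero_or_pos l with h0 | h0
        · omega
        · have := hbox _ (hmin (l - 1) (by omega))
          simp only at this
          omega
      refine ⟨(a0 + l, b0 + l), ?_, ?_⟩
      · rw [ribbon, mem_filter, mem_box]
        refine ⟨hin, hspec, ?_⟩
        rcases Nat.eq_zero_or_pos l with h0 | h0
        · simp only; omega
        · right; right
          have := hmin (l - 1) (by omega)
          convert this using 2 <;> omega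
      · simp only
        omega
  rw [← card_image_of_injOn hinj, himg, card_range]

theorem JSat.card_eq {n k : ℕ} (hn : 1 ≤ n) {G : Finset Cell} (h : JSat n (k + 1) G) :
    G.card = value n (k + 2) := by
  classical
  obtain ⟨hbox, hfree, hsat⟩ := h
  set U := scl n G with hU
  have hUdown : Down U := scl_down n G
  have hUbox : ∀ p ∈ U, p.1 < n - 1 ∧ p.2 < n - 1 := by
    intro p hp
    rw [hU, mem_scl] at hp
    obtain ⟨_, q, hq, h1, h2⟩ := hp
    have := mem_box.1 (hbox hq)
    omega
  have hmax : MaxFree k U (G ∩ U) := by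
    refine ⟨inter_subset_right, ?_, ?_⟩
    · rintro C hC hCG ⟨u, hu, hb⟩
      by_contra hcon
      push Not at hcon
      obtain ⟨C', hC', hcard⟩ := exists_subset_card_eq (show k + 1 ≤ C.card from hcon)
      rw [hU, mem_scl] at hu
      obtain ⟨_, p, hp, h1, h2⟩ := hu
      refine hfree ⟨p, hp, C', hC'.trans (hCG.trans inter_subset_left), hC.mono hC', hcard, ?_⟩
      intro c hc
      have := hb c (hC' hc)
      omega
    · intro x hx hxG hF
      have hxG' : x ∉ G := fun h => hxG (mem_inter.2 ⟨h, hx⟩)
      have hx' := hx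
      rw [hU, mem_scl] at hx'
      obtain ⟨hxbox, px, hpx, hx1, hx2⟩ := hx'
      obtain ⟨p, hp, C, hC, hAC, hcard, hb⟩ := hsat x hxbox hxG'
      -- an element of `G` strictly above `C`
      have hp' : ∃ p' ∈ G, ∀ c ∈ C, c.1 < p'.1 ∧ c.2 < p'.2 := by
        rw [mem_insert] at hp
        rcases hp with rfl | hp
        · exact ⟨px, hpx, fun c hc => by have := hb c hc; omega⟩
        · exact ⟨p, hp, hb⟩
      obtain ⟨p', hp'G, hp'C⟩ := hp'
      have hne : C.Nonempty := by rw [← card_pos]; omega
      obtain ⟨c0, hc0⟩ := hne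
      have hc0' := hp'C c0 hc0
      have hp'box := mem_box.1 (hbox hp'G)
      have hle := hF C hAC ?_ ⟨(p'.1 - 1, p'.2 - 1), ?_, ?_⟩
      · omega
      · intro c hc
        have h1 := hC hc
        rw [mem_insert] at h1 ⊢
        rcases h1 with h1 | h1
        · exact Or.inl h1
        · right
          rw [mem_inter, hU, mem_scl]
          exact ⟨h1, hbox h1, p', hp'G, hp'C c hc⟩
      · rw [hU, mem_scl, mem_box]
        exact ⟨⟨by simp only; omega, by simp only; omega⟩, p', hp'G, by simp only; omega,
          by simp only; omega⟩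
      · intro c hc
        have := hp'C c hc
        simp only
        omega
  have hborder : ∀ i j, i < n - 1 → j < n - 1 → (i < k ∨ j < k) → (i, j) ∈ U := by
    intro i j hi hj hij
    by_contra hcon
    have hbx : ((i + 1, j + 1) : Cell) ∈ box n := mem_box.2 ⟨by simp only; omega,
      by simp only; omega⟩
    have hbx' : ((i, j) : Cell) ∈ box n := mem_box.2 ⟨by simp only; omega, by simp only; omega⟩
    have hxG : ((i + 1, j + 1) : Cell) ∉ G := fun h =>
      hcon (by rw [hU, mem_scl]; exact ⟨hbx', _, h, by simp, by simp⟩)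
    obtain ⟨p, hp, C, hC, hAC, hcard, hb⟩ := hsat (i + 1, j + 1) hbx hxG
    rw [mem_insert] at hp
    rcases hp with rfl | hp
    · have h1 := hAC.card_le_rows (a := 0) (b := i + 1) fun c hc => by
        have := hb c hc
        simp only at this
        omega
      have h2 := hAC.card_le_cols (a := 0) (b := j + 1) fun c hc => by
        have := hb c hc
        simp only at this
        omega
      omega
    · by_cases hxC : ((i + 1, j + 1) : Cell) ∈ C
      · apply hcon
        rw [hU, mem_scl]
        have := hb _ hxC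
        simp only at this
        exact ⟨hbx', p, hp, by simp only; omega, by simp only; omega⟩
      · refine hfree ⟨p, hp, C, ?_, hAC, hcard, hb⟩
        intro c hc
        have := hC hc
        rw [mem_insert] at this
        rcases this with rfl | h3
        · exact absurd hc hxC
        · exact h3
  have hrib : G \ U = ribbon n U := by
    ext x
    rw [mem_sdiff, ribbon, mem_filter]
    constructor
    · rintro ⟨h1, h2⟩
      refine ⟨hbox h1, h2, ?_⟩
      by_contra hcon
      push Not at hcon
      apply hcon.2.2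
      rw [hU, mem_scl, mem_box]
      have := mem_box.1 (hbox h1)
      exact ⟨⟨by simp only; omega, by simp only; omega⟩, x, h1, by simp only; omega,
        by simp only; omega⟩
    · rintro ⟨h1, h2, h3⟩
      refine ⟨?_, h2⟩
      by_contra hxG
      obtain ⟨p, hp, C, hC, hAC, hcard, hb⟩ := hsat x h1 hxG
      have hne : C.Nonempty := by rw [← card_pos]; omega
      obtain ⟨c0, hc0⟩ := hne
      rw [mem_insert] at hp
      rcases hp with rfl | hp
      · have hc0' := hb c0 hc0
        rcases h3 with h3 | h3 | h3
        · omega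
        · omega
        · rw [hU, mem_scl] at h3
          obtain ⟨_, p', hp', h4, h5⟩ := h3
          simp only at h4 h5
          refine hfree ⟨p', hp', C, ?_, hAC, hcard, ?_⟩
          · intro c hc
            have h6 := hC hc
            rw [mem_insert] at h6
            rcases h6 with rfl | h6
            · have := hb _ hc
              omega
            · exact h6
          · intro c hc
            have := hb c hc
            omega
      · by_cases hxC : x ∈ C
        · apply h2
          rw [hU, mem_scl]
          exact ⟨h1, p, hp, hb x hxC⟩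
        · refine hfree ⟨p, hp, C, ?_, hAC, hcard, hb⟩
          intro c hc
          have := hC hc
          rw [mem_insert] at this
          rcases this with rfl | h3
          · exact absurd hc hxC
          · exact h3
  have h1 : G.card = (G ∩ U).card + (G \ U).card := by
    rw [card_inter_add_card_sdiff]
  rw [h1, hrib, card_ribbon hn hUdown hUbox, hmax.card_eq hUdown, value]
  split_ifs with hnk
  · rw [card_canon_small hUbox hborder (by omega)]
    obtain ⟨m, rfl⟩ := Nat.exists_eq_add_of_le hn
    rw [show 1 + m - 1 = m by omega, show 2 * (1 + m) - 1 = 2 * m + 1 by omega]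
    ring
  · rw [card_canon_large hUdown hUbox hborder (by omega)]
    obtain ⟨m, rfl⟩ := Nat.exists_eq_add_of_le (show k + 2 ≤ n by omega)
    rw [show 2 * (k + 2 + m - 1) - k = k + 2 + 2 * m by omega,
      show 2 * (k + 2 + m) - 1 = 2 * k + 2 * m + 3 by omega,
      show 2 * (k + 2 + m) - (k + 2) + 1 = k + 2 * m + 3 by omega,
      show k + 2 - 1 = k + 1 by omega]
    ring

end Q113.Pur
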